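import Pool.Agent.N983.WK.Stm
import Pool.Agent.N983.RT.UNQ
import Pool.Agent.N983.RT.ALG
import Pool.Agent.N983.RT.EST

set_option autoImplicit false

/-! Part ANT: the nonlinear term does no work (worker: helper407). -/

namespace Pool.Agent.N983.WK

open MeasureTheory Filter Topology Pool.Agent.N983.RT

theorem ant_cv (g : Wv → Wv → Wv → ℝ) (n : ℕ) (u w : Fld) (m : Wv) (j : Fin 3) :
    cv g u (cut n w) m j =
      ∑ l ∈ cub n, (g (m - l) l (-m) : ℂ) * dt (u (m - l)) l * w l j := by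
  unfold cv
  rw [← (Equiv.subLeft m).tsum_eq]
  rw [tsum_eq_sum (s := cub n)]
  · refine Finset.sum_congr rfl fun l hl => ?_
    simp only [Equiv.subLeft_apply, sub_sub_cancel]
    unfold cut
    rw [if_pos hl]
  · intro l hl
    simp only [Equiv.subLeft_apply, sub_sub_cancel]
    unfold cut
    rw [if_neg hl]
    simp

theorem ant_anti {g : Wv → Wv → Wv → ℝ} (hg : Arr g) {u : Fld} (hu : Adm u) (m l : Wv) :
    (g (-l - -m) (-m) (- -l) : ℂ) * dt (u (-l - -m)) (-m) =
      -((g (m - l) l (-m) : ℂ) * dt (u (m - l)) l) := by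
  have h1 : -l - -m = m - l := by abel
  rw [h1, neg_neg, alg_dt_neg, hg.swap23 (m - l) (-m) l]
  have h2 : dt (u (m - l)) m = dt (u (m - l)) l := by
    have h3 := alg_dt_add (u (m - l)) (m - l) l
    rw [hu.div, zero_add, sub_add_cancel] at h3
    exact h3
  rw [h2]
  ring

theorem ant_zero {g : Wv → Wv → Wv → ℝ} (hg : Arr g) {u w : Fld} (hu : Adm u) (hw : Adm w)
    (n : ℕ) : pr g n u (cut n w) w = 0 := by
  have hS : pr g n u (cut n w) w = ∑ p ∈ cub n ×ˢ cub n, ∑ j,
      (g (p.1 - p.2) p.2 (-p.1) : ℂ) * dt (u (p.1 - p.2)) p.2 *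
        ((starRingEnd ℂ) (w p.1 j) * w p.2 j) := by
    unfold pr
    rw [Finset.sum_product]
    refine Finset.sum_congr rfl fun m _ => ?_
    rw [Finset.sum_comm]
    refine Finset.sum_congr rfl fun j _ => ?_
    rw [ant_cv, Finset.mul_sum]
    refine Finset.sum_congr rfl fun l _ => ?_
    ring
  have hneg : pr g n u (cut n w) w = -pr g n u (cut n w) w := by
    rw [hS, ← Finset.sum_neg_distrib]
    refine Finset.sum_bij' (fun p _ => (-p.2, -p.1)) (fun p _ => (-p.2, -p.1)) ?_ ?_ ?_ ?_ ?_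
    · intro p hp
      rw [Finset.mem_product] at hp ⊢
      exact ⟨alg_neg hp.2, alg_neg hp.1⟩
    · intro p hp
      rw [Finset.mem_product] at hp ⊢
      exact ⟨alg_neg hp.2, alg_neg hp.1⟩
    · intro p _
      simp
    · intro p _
      simp
    · intro p _
      obtain ⟨m, l⟩ := p
      simp only
      rw [← Finset.sum_neg_distrib]
      refine Finset.sum_congr rfl fun j _ => ?_
      rw [ant_anti hg hu m l, hw.real, hw.real, Complex.conj_conj]
      ring
  have h2 : (2 : ℂ) * pr g n u (cut n w) w = 0 := by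
    rw [two_mul]
    nth_rewrite 2 [hneg]
    ring
  exact (mul_eq_zero.1 h2).resolve_left two_ne_zero

theorem ant_adm_cut {w : Fld} (hw : Adm w) (n : ℕ) : Adm (cut n w) := by
  constructor
  · unfold cut
    split_ifs
    · exact hw.zero
    · rfl
  · intro k
    unfold cut
    split_ifs
    · exact hw.div k
    · unfold dt
      simp
  · intro k i
    unfold cut
    by_cases h : k ∈ cub n
    · rw [if_pos h, if_pos (alg_neg h)]
      exact hw.real k i
    · have h' : -k ∉ cub n := by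
        intro h1
        apply h
        have h2 := alg_neg h1
        rwa [neg_neg] at h2
      rw [if_neg h, if_neg h']
      simp

theorem ant_adm_sub {u w : Fld} (hu : Adm u) (hw : Adm w) : Adm (u - w) := by
  constructor
  · rw [Pi.sub_apply, hu.zero, hw.zero, sub_zero]
  · intro k
    have h1 := hu.div k
    have h2 := hw.div k
    unfold dt at h1 h2 ⊢
    rw [← sub_zero (0 : ℂ)]
    nth_rewrite 2 [← h2]
    rw [← h1, ← Finset.sum_sub_distrib]
    refine Finset.sum_congr rfl fun i _ => ?_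
    rw [Pi.sub_apply, Pi.sub_apply]
    ring
  · intro k i
    rw [Pi.sub_apply, Pi.sub_apply, Pi.sub_apply, Pi.sub_apply, hu.real, hw.real, map_sub]

/-- the summand of the Sobolev norm -/
noncomputable def ant_f (σ : ℝ) (w : Fld) (k : Wv) : ℝ := nsq k ^ σ * ∑ i, ‖w k i‖ ^ 2

theorem ant_f_nonneg (σ : ℝ) (w : Fld) (k : Wv) : 0 ≤ ant_f σ w k :=
  mul_nonneg (Real.rpow_nonneg (est_nonneg k) _) (Finset.sum_nonneg fun _ _ => sq_nonneg _)

theorem ant_sum {σ : ℝ} {w : Fld} {C : ℝ} (h : ∀ n, Er σ n w ≤ C) : Summable (ant_f σ w) := by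
  refine summable_of_sum_le (ant_f_nonneg σ w) (c := C) fun s => ?_
  obtain ⟨n, hn⟩ := (tendsto_atTop.1 unq_cub s).exists
  exact (Finset.sum_le_sum_of_subset_of_nonneg hn fun _ _ _ => ant_f_nonneg σ w _).trans (h n)

theorem ant_en {σ : ℝ} (hσ : 0 ≤ σ) {u : Fld} (hu : u 0 = 0) (n : ℕ) :
    En 0 n u ≤ Er σ n u := by
  unfold En Er
  refine Finset.sum_le_sum fun k _ => ?_
  by_cases hk : 1 ≤ nsq k
  · refine mul_le_mul_of_nonneg_right ?_ (Finset.sum_nonneg fun _ _ => sq_nonneg _)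
    rw [pow_zero]
    exact Real.one_le_rpow hk hσ
  · rw [est_one hk, hu]
    simp

/-- the tail -/
noncomputable def ant_e (σ : ℝ) (w : Fld) (n : ℕ) : ℝ :=
  ∑' k, ant_f σ w k - ∑ k ∈ cub n, ant_f σ w k

theorem ant_e_nonneg {σ : ℝ} {w : Fld} (h : Summable (ant_f σ w)) (n : ℕ) : 0 ≤ ant_e σ w n :=
  sub_nonneg.2 (h.sum_le_tsum _ fun _ _ => ant_f_nonneg σ w _)

theorem ant_e_tendsto {σ : ℝ} {w : Fld} (h : Summable (ant_f σ w)) :
    Tendsto (ant_e σ w) atTop (𝓝 0) := by
  have h1 : Tendsto (fun n => ∑ k ∈ cub n, ant_f σ w k) atTop (𝓝 (∑' k, ant_f σ w k)) :=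
    h.hasSum.comp unq_cub
  have h2 := h1.const_sub (∑' k, ant_f σ w k)
  rw [sub_self] at h2
  exact h2

theorem ant_tail {σ : ℝ} {w : Fld} (h : Summable (ant_f σ w)) (n N : ℕ) :
    Er σ N (w - cut n w) ≤ ant_e σ w n := by
  classical
  have h1 : Er σ N (w - cut n w) = ∑ k ∈ cub N, if k ∈ cub n then 0 else ant_f σ w k := by
    unfold Er
    refine Finset.sum_congr rfl fun k _ => ?_
    rw [Pi.sub_apply]
    unfold cut ant_f
    split_ifs
    · rw [sub_self]
      simp
    · rw [sub_zero]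
  rw [h1, ← Finset.sum_filter_add_sum_filter_not (cub N) (fun k => k ∈ cub n)]
  have h2 : ∑ k ∈ (cub N).filter (fun k => k ∈ cub n), (if k ∈ cub n then 0 else ant_f σ w k) =
      0 := by
    refine Finset.sum_eq_zero fun k hk => ?_
    rw [if_pos (Finset.mem_filter.1 hk).2]
  have h3 : ∑ k ∈ (cub N).filter (fun k => ¬ k ∈ cub n),
      (if k ∈ cub n then 0 else ant_f σ w k) =
      ∑ k ∈ (cub N).filter (fun k => ¬ k ∈ cub n), ant_f σ w k := by
    refine Finset.sum_congr rfl fun k hk => ?_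
    rw [if_neg (Finset.mem_filter.1 hk).2]
  rw [h2, h3, zero_add]
  unfold ant_e
  rw [le_sub_iff_add_le, ← Finset.sum_union]
  · exact h.sum_le_tsum _ fun _ _ => ant_f_nonneg σ w _
  · rw [Finset.disjoint_left]
    intro k hk
    exact (Finset.mem_filter.1 hk).2

theorem t_ANT : S_ANT := by
  intro hCVB hPRB hTRB g κ hg hκ hTB u w hu hw hCu hCw
  obtain ⟨A, hA⟩ := hCu
  obtain ⟨W, hW⟩ := hCw
  have hσ : 0 ≤ (1 + κ) / 2 := by linarith
  obtain ⟨C, hC, hB⟩ := hPRB hTRB hCVB g κ hg hκ hTB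
  have hA' : ∀ n, Er ((1 + κ) / 2) n u ≤ Real.sqrt (max A 0) ^ 2 := by
    intro n
    rw [Real.sq_sqrt (le_max_right _ _)]
    exact (hA n).trans (le_max_left _ _)
  have hW' : ∀ n, Er ((1 + κ) / 2) n w ≤ Real.sqrt (max W 0) ^ 2 := by
    intro n
    rw [Real.sq_sqrt (le_max_right _ _)]
    exact (hW n).trans (le_max_left _ _)
  have hs := ant_sum hW
  have hE : ∀ n N, Er ((1 + κ) / 2) N (w - cut n w) ≤
      Real.sqrt (ant_e ((1 + κ) / 2) w n) ^ 2 := by
    intro n N
    rw [Real.sq_sqrt (ant_e_nonneg hs n)]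
    exact ant_tail hs n N
  have hv : ∀ n, Adm (w - cut n w) := fun n => ant_adm_sub hw (ant_adm_cut hw n)
  have hsplit : ∀ n, pr g n u w w = pr g n u (w - cut n w) w := by
    intro n
    have h0 := ant_zero hg hu hw n
    rw [← add_zero (pr g n u (w - cut n w) w), ← h0]
    unfold pr
    rw [← Finset.sum_add_distrib]
    refine Finset.sum_congr rfl fun m _ => ?_
    rw [← Finset.sum_add_distrib]
    refine Finset.sum_congr rfl fun j _ => ?_
    rw [← mul_add]
    congr 1
    obtain ⟨K, _, hK⟩ := hCVB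
    have c1 := (hK g u (w - cut n w) _ _ hg.le (Real.sqrt_nonneg (max A 0))
      (Real.sqrt_nonneg (ant_e ((1 + κ) / 2) w n)) hu.div
      (fun N => (ant_en hσ hu.zero N).trans (hA' N))
      (fun N => (ant_en hσ (hv n).zero N).trans (hE n N)) m j).1
    have c2 : Summable (fun k => (g k (m - k) (-m) : ℂ) * dt (u k) (m - k) *
        cut n w (m - k) j) := by
      rw [← (Equiv.subLeft m).summable_iff]
      refine summable_of_ne_finset_zero (s := cub n) ?_
      intro l hl
      simp only [Function.comp_apply, Equiv.subLeft_apply, sub_sub_cancel]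
      unfold cut
      rw [if_neg hl]
      simp
    unfold cv
    rw [← c1.tsum_add c2]
    refine tsum_congr fun k => ?_
    rw [Pi.sub_apply, Pi.sub_apply]
    ring
  have hbd : ∀ n, ‖pr g n u w w‖ ≤ C * (3 * (Real.sqrt (max A 0) *
      Real.sqrt (ant_e ((1 + κ) / 2) w n) * Real.sqrt (max W 0))) := by
    intro n
    rw [hsplit n]
    have h1 := hB u (w - cut n w) w (Real.sqrt (max A 0))
      (Real.sqrt (ant_e ((1 + κ) / 2) w n)) (Real.sqrt (max W 0)) (Real.sqrt (max A 0))
      (Real.sqrt (ant_e ((1 + κ) / 2) w n)) (Real.sqrt (max W 0)) (Real.sqrt_nonneg _)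
      (Real.sqrt_nonneg _) (Real.sqrt_nonneg _) (Real.sqrt_nonneg _) (Real.sqrt_nonneg _)
      (Real.sqrt_nonneg _) hu (hv n) hw (fun N => (ant_en hσ hu.zero N).trans (hA' N))
      (fun N => (ant_en hσ (hv n).zero N).trans (hE n N))
      (fun N => (ant_en hσ hw.zero N).trans (hW' N)) hA' (hE n) hW' n
    refine h1.trans (le_of_eq ?_)
    ring
  have hlim : Tendsto (fun n => C * (3 * (Real.sqrt (max A 0) *
      Real.sqrt (ant_e ((1 + κ) / 2) w n) * Real.sqrt (max W 0)))) atTop (𝓝 0) := by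
    have h1 : Tendsto (fun n => Real.sqrt (ant_e ((1 + κ) / 2) w n)) atTop (𝓝 0) := by
      have h2 := (Real.continuous_sqrt.tendsto 0).comp (ant_e_tendsto hs)
      rw [Real.sqrt_zero] at h2
      exact h2
    have h3 := (((h1.const_mul (Real.sqrt (max A 0))).mul_const
      (Real.sqrt (max W 0))).const_mul 3).const_mul C
    simp only [mul_zero, zero_mul] at h3
    exact h3
  exact squeeze_zero_norm hbd hlim

end Pool.Agent.N983.WK
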