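import Pool.Agent.N983.WK.Stm
import Pool.Agent.N983.RT.Asm2
import Pool.Agent.N983.RT.SHL

set_option autoImplicit false

/-! Assembly of the proof from its parts. -/

namespace Pool.Agent.N983.WK

open MeasureTheory ProbabilityTheory Filter Topology Pool.Agent.N983.RT

theorem asm_nn (k : Wv) : 0 ≤ nsq k := Finset.sum_nonneg fun _ _ => sq_nonneg _

theorem asm_sq_nn (u : Fld) (k : Wv) : 0 ≤ ∑ i, ‖u k i‖ ^ 2 :=
  Finset.sum_nonneg fun _ _ => sq_nonneg _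

theorem asm_En_mono (s : ℕ) {n N : ℕ} (h : n ≤ N) (u : Fld) : En s n u ≤ En s N u := by
  unfold En
  refine Finset.sum_le_sum_of_subset_of_nonneg (shl_cub_mono h) fun k _ _ => ?_
  exact mul_nonneg (pow_nonneg (asm_nn k) _) (asm_sq_nn u k)

theorem asm_Er_mono (r : ℝ) {n N : ℕ} (h : n ≤ N) (u : Fld) : Er r n u ≤ Er r N u := by
  unfold Er
  refine Finset.sum_le_sum_of_subset_of_nonneg (shl_cub_mono h) fun k _ _ => ?_
  exact mul_nonneg (Real.rpow_nonneg (asm_nn k) _) (asm_sq_nn u k)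

theorem asm_En_nn (s n : ℕ) (u : Fld) : 0 ≤ En s n u := by
  unfold En
  exact Finset.sum_nonneg fun k _ => mul_nonneg (pow_nonneg (asm_nn k) _) (asm_sq_nn u k)

theorem asm_Er_nn (r : ℝ) (n : ℕ) (u : Fld) : 0 ≤ Er r n u := by
  unfold Er
  exact Finset.sum_nonneg fun k _ => mul_nonneg (Real.rpow_nonneg (asm_nn k) _) (asm_sq_nn u k)

theorem asm_En_supp {n : ℕ} {u : Fld} (hu : ∀ k, k ∉ cub n → u k = 0) (N : ℕ) :
    En 0 N u ≤ En 0 n u := by
  classical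
  unfold En
  rw [← Finset.sum_filter_add_sum_filter_not (cub N) (fun k => k ∈ cub n)]
  have h1 : ∑ k ∈ (cub N).filter (fun k => ¬ k ∈ cub n), nsq k ^ 0 * ∑ i, ‖u k i‖ ^ 2 = 0 := by
    refine Finset.sum_eq_zero fun k hk => ?_
    rw [hu k (Finset.mem_filter.1 hk).2]
    simp
  rw [h1, add_zero]
  refine Finset.sum_le_sum_of_subset_of_nonneg (fun k hk => (Finset.mem_filter.1 hk).2)
    fun k _ _ => ?_
  exact mul_nonneg (pow_nonneg (asm_nn k) _) (asm_sq_nn u k)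

theorem asm_Er_supp (r : ℝ) {n : ℕ} {u : Fld} (hu : ∀ k, k ∉ cub n → u k = 0) (N : ℕ) :
    Er r N u ≤ Er r n u := by
  classical
  unfold Er
  rw [← Finset.sum_filter_add_sum_filter_not (cub N) (fun k => k ∈ cub n)]
  have h1 : ∑ k ∈ (cub N).filter (fun k => ¬ k ∈ cub n), nsq k ^ r * ∑ i, ‖u k i‖ ^ 2 = 0 := by
    refine Finset.sum_eq_zero fun k hk => ?_
    rw [hu k (Finset.mem_filter.1 hk).2]
    simp
  rw [h1, add_zero]
  refine Finset.sum_le_sum_of_subset_of_nonneg (fun k hk => (Finset.mem_filter.1 hk).2)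
    fun k _ _ => ?_
  exact mul_nonneg (Real.rpow_nonneg (asm_nn k) _) (asm_sq_nn u k)

theorem asm_Er_cont {g : Wv → Wv → Wv → ℝ} {ν α : ℝ} {u : ℝ → Fld} (hu : IsSol g ν α u) (r : ℝ)
    (N : ℕ) : ContinuousOn (fun t => Er r N (u t)) (Set.Ici 0) := by
  have h1 : ∀ k i, ContinuousOn (fun t => u t k i) (Set.Ici 0) := by
    intro k i t ht
    by_cases hk : k = 0
    · subst hk
      have h2 : ∀ t ∈ Set.Ici (0 : ℝ), u t 0 i = 0 := by
        intro t ht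
        rw [(hu.adm t ht).zero]
        rfl
      exact (continuousOn_const (c := (0 : ℂ))).congr h2 t ht
    · exact (hu.eqn t ht k hk i).continuousWithinAt
  unfold Er
  refine continuousOn_finsetSum _ fun k _ => ?_
  refine continuousOn_const.mul ?_
  exact continuousOn_finsetSum _ fun i _ => ((h1 k i).norm).pow 2

/-- weak solutions with finite energy which are smooth for positive times -/
theorem asm_exist (hSUM : S_SUM) (hALG : S_ALG) (hODE : S_ODE) (hRHS : S_RHS) (hCVB : S_CVB)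
    (hENT : S_ENT) (hSMT : S_SMT) (hCPT : S_CPT) (g : Wv → Wv → Wv → ℝ) (ν α κ : ℝ) (hg : Arr g)
    (hν : 0 < ν) (hκ : -1 < κ) (hα : (1 + κ) / 2 < α) (hHE : HE g κ) (u₀ : Fld) (hA : Adm u₀)
    (C₀ : ℝ) (hC : ∀ n, En 0 n u₀ ≤ C₀) :
    ∃ u : ℝ → Fld, u 0 = u₀ ∧ (∀ T, 0 ≤ T → IsWeak g ν α T u) ∧
      ∀ τ, 0 < τ → IsSol g ν α fun t => u (τ + t) := by
  have hα0 : 0 < α := by linarith
  have hC0 : 0 ≤ C₀ := (asm_En_nn 0 0 u₀).trans (hC 0)
  have h1 : ∀ n : ℕ, ∃ u : ℝ → Fld, IsSol (cutg n g) ν α u ∧ u 0 = cut n u₀ ∧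
      (∀ t, 0 ≤ t → ∀ k, k ∉ cub n → u t k = 0) ∧
      ∀ t, 0 ≤ t → ∀ k, k ∉ (Set.univ : Set Wv) → u t k = 0 :=
    fun n => hODE hALG g ν α n hg hν Set.univ (fun k l m hm => absurd (Set.mem_univ m) hm) u₀ hA
      fun k hk => absurd (Set.mem_univ k) hk
  choose U hUsol hU0 hUcub _ using h1
  have hstart : ∀ n, En 0 n (U n 0) ≤ C₀ := by
    intro n
    rw [hU0 n]
    refine le_trans (le_of_eq ?_) (hC n)
    unfold En cut
    refine Finset.sum_congr rfl fun k hk => ?_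
    rw [if_pos hk]
  have hE : ∀ n t, 0 ≤ t → ∀ N, En 0 N (U n t) ≤ C₀ := fun n t ht N =>
    (asm_En_supp (hUcub n t ht) N).trans
      ((hENT hALG g ν α n (U n) hg hν (hUsol n) (hUcub n) t ht).1.trans (hstart n))
  refine hCPT hSUM hRHS hCVB g ν α C₀ (C₀ / (2 * ν)) hg hν hα0 u₀ hA hC U hUsol hU0 hUcub hE
    ?_ ?_
  · intro n t N ht
    have h2 := (hENT hALG g ν α n (U n) hg hν (hUsol n) (hUcub n) t ht).2
    have h3 : ∫ s in (0 : ℝ)..t, Er α N (U n s) ≤ ∫ s in (0 : ℝ)..t, Er α n (U n s) := by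
      refine intervalIntegral.integral_mono_on ht ?_ ?_ fun s hs =>
        asm_Er_supp α (hUcub n s hs.1) N
      · refine (ContinuousOn.mono (asm_Er_cont (hUsol n) α N) ?_).intervalIntegrable
        rw [Set.uIcc_of_le ht]
        exact Set.Icc_subset_Ici_self
      · refine (ContinuousOn.mono (asm_Er_cont (hUsol n) α n) ?_).intervalIntegrable
        rw [Set.uIcc_of_le ht]
        exact Set.Icc_subset_Ici_self
    rw [le_div_iff₀ (by linarith)]
    have h4 : (∫ s in (0 : ℝ)..t, Er α n (U n s)) * (2 * ν) ≤ C₀ := by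
      have := h2.trans (hstart n)
      linarith
    nlinarith
  · intro τ s hτ
    obtain ⟨C₁, hC₁⟩ := hSMT hALG hENT g ν α κ hg hν hκ hα hHE (2 * s) C₀ τ hC0 hτ
    refine ⟨Real.sqrt (2 ^ (2 * s) * (C₀ + C₁)), fun n t ht k i => ?_⟩
    have ht0 : 0 ≤ t := hτ.le.trans ht
    exact asm_pt n s (U n t) (hUcub n t ht0) C₀ C₁ (hE n t ht0 n)
      (hC₁ n (U n) (hUsol n) (hUcub n) (hstart n) t ht) k i

theorem asm_fx_add (hCVB : S_CVB) (g₁ g₂ : Wv → Wv → Wv → ℝ) (a : ℝ) (h₁ : ∀ k l m, |g₁ k l m| ≤ 1)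
    (h₂ : ∀ k l m, |g₂ k l m| ≤ 1) (u : Fld) (hu : Adm u) (A : ℝ) (hA : 0 ≤ A)
    (hE : ∀ n, En 0 n u ≤ A ^ 2) (n : ℕ) :
    fx (fun k l m => a * g₁ k l m + g₂ k l m) n u = a * fx g₁ n u + fx g₂ n u := by
  obtain ⟨K, -, hK⟩ := hCVB
  have h3 : ∀ m j, cv (fun k l m => a * g₁ k l m + g₂ k l m) u u m j =
      (a : ℂ) * cv g₁ u u m j + cv g₂ u u m j := by
    intro m j
    have s1 := (hK g₁ u u A A h₁ hA hA hu.div hE hE m j).1
    have s2 := (hK g₂ u u A A h₂ hA hA hu.div hE hE m j).1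
    unfold cv
    rw [← tsum_mul_left, ← (s1.mul_left (a : ℂ)).tsum_add s2]
    refine tsum_congr fun k => ?_
    push_cast
    ring
  unfold fx
  simp only [h3]
  have h4 : (∑ m ∈ cub (2 * n + 2), (ct n m : ℂ) * ∑ j, (starRingEnd ℂ) (u m j) *
      ((a : ℂ) * cv g₁ u u m j + cv g₂ u u m j)) =
      (a : ℂ) * (∑ m ∈ cub (2 * n + 2), (ct n m : ℂ) * ∑ j, (starRingEnd ℂ) (u m j) *
        cv g₁ u u m j) + ∑ m ∈ cub (2 * n + 2), (ct n m : ℂ) * ∑ j, (starRingEnd ℂ) (u m j) *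
        cv g₂ u u m j := by
    simp only [Finset.mul_sum, ← Finset.sum_add_distrib]
    refine Finset.sum_congr rfl fun m _ => Finset.sum_congr rfl fun j _ => ?_
    ring
  rw [h4, Complex.add_im, Complex.im_ofReal_mul]

theorem asm_FXP_add (hCVB : S_CVB) (g₁ g₂ : Wv → Wv → Wv → ℝ) (a α : ℝ)
    (h₁ : ∀ k l m, |g₁ k l m| ≤ 1) (h₂ : ∀ k l m, |g₂ k l m| ≤ 1) (f₁ : FXP g₁ α)
    (f₂ : FXP g₂ α) : FXP (fun k l m => a * g₁ k l m + g₂ k l m) α := by
  obtain ⟨K₁, hK₁, f₁⟩ := f₁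
  obtain ⟨K₂, hK₂, f₂⟩ := f₂
  refine ⟨|a| * K₁ + K₂, by positivity, fun u A D hu hA hD hE hR => ?_⟩
  obtain ⟨b₁, c₁⟩ := f₁ u A D hu hA hD hE hR
  obtain ⟨b₂, c₂⟩ := f₂ u A D hu hA hD hE hR
  have h3 := fun n => asm_fx_add hCVB g₁ g₂ a h₁ h₂ u hu A hA hE n
  constructor
  · intro n
    rw [h3 n]
    calc |a * fx g₁ n u + fx g₂ n u| ≤ |a| * |fx g₁ n u| + |fx g₂ n u| := by
          refine (abs_add_le _ _).trans ?_
          rw [abs_mul]
      _ ≤ |a| * (K₁ * A * D) + K₂ * A * D :=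
          add_le_add (mul_le_mul_of_nonneg_left (b₁ n) (abs_nonneg a)) (b₂ n)
      _ = (|a| * K₁ + K₂) * A * D := by ring
  · simp only [h3]
    have := (c₁.const_mul a).add c₂
    simpa using this

/-- bounds from the energy equality -/
theorem asm_bounds {ν α T R : ℝ} {u : ℝ → Fld} {g : Wv → Wv → Wv → ℝ} (hν : 0 < ν) (hT : 0 ≤ T)
    (hw : IsWeak g ν α T u) (h : EnergyEq ν α T u) (hR : ∀ n, En 0 n (u 0) ≤ R) :
    (∀ t ∈ Set.Icc 0 T, ∀ n, En 0 n (u t) ≤ R) ∧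
      ∀ n, ∫ t in (0 : ℝ)..T, Er α n (u t) ≤ R / (2 * ν) := by
  obtain ⟨e, h1, h2⟩ := h
  have he : e ≤ R := le_of_tendsto' h1 hR
  have hcont : ∀ n, ContinuousOn (fun t => Er α n (u t)) (Set.Icc 0 T) := by
    intro n
    unfold Er
    refine continuousOn_finsetSum _ fun k _ => ?_
    refine continuousOn_const.mul ?_
    exact continuousOn_finsetSum _ fun i _ => ((hw.cont k i).norm).pow 2
  have hint : ∀ n, ∀ t ∈ Set.Icc 0 T, IntervalIntegrable (fun s => Er α n (u s)) volume 0 t := by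
    intro n t ht
    refine (ContinuousOn.mono (hcont n) ?_).intervalIntegrable
    rw [Set.uIcc_of_le ht.1]
    exact Set.Icc_subset_Icc_right ht.2
  have hmono : ∀ t ∈ Set.Icc 0 T, Monotone fun n => En 0 n (u t) +
      2 * ν * ∫ s in (0 : ℝ)..t, Er α n (u s) := by
    intro t ht n N hnN
    refine add_le_add (asm_En_mono 0 hnN _) (mul_le_mul_of_nonneg_left ?_ (by linarith))
    exact intervalIntegral.integral_mono_on ht.1 (hint n t ht) (hint N t ht) fun s _ =>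
      asm_Er_mono α hnN _
  have hle : ∀ t ∈ Set.Icc 0 T, ∀ n, En 0 n (u t) +
      2 * ν * ∫ s in (0 : ℝ)..t, Er α n (u s) ≤ R := fun t ht n =>
    ((hmono t ht).ge_of_tendsto (h2 t ht) n).trans he
  constructor
  · intro t ht n
    have h3 := hle t ht n
    have h4 : 0 ≤ ∫ s in (0 : ℝ)..t, Er α n (u s) :=
      intervalIntegral.integral_nonneg ht.1 fun s _ => asm_Er_nn α n _
    nlinarith
  · intro n
    have h3 := hle T ⟨hT, le_rfl⟩ n
    have h4 := asm_En_nn 0 n (u T)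
    rw [le_div_iff₀ (by linarith)]
    nlinarith

/-- stability in terms of the data -/
def Stab (g : Wv → Wv → Wv → ℝ) (ν α : ℝ) : Prop :=
  ∀ R T : ℝ, 0 ≤ T → ∃ K : ℝ, ∀ u v : ℝ → Fld, IsWeak g ν α T u → IsWeak g ν α T v →
    (∀ n, En 0 n (u 0) ≤ R) → (∀ n, En 0 n (v 0) ≤ R) →
    ∀ δ : ℝ, (∀ n, En 0 n (u 0 - v 0) ≤ δ) →
      ∀ t ∈ Set.Icc 0 T, ∀ n, En 0 n (u t - v t) ≤ K * δ

theorem asm_stab (hCVB : S_CVB) (hPRB : S_PRB) (hTRB : S_TRB) (hANT : S_ANT) (hBAL : S_BAL)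
    (hSQ : S_SQ) (hMSB : S_MSB) (hGRO : S_GRO) (hSTB : S_STB) (g : Wv → Wv → Wv → ℝ)
    (κ ν α : ℝ) (hg : Arr g) (hν : 0 < ν) (hκ : -1 < κ) (hα : (1 + κ) / 2 < α) (hTB : TB g κ)
    (hEE : ∀ T : ℝ, 0 ≤ T → ∀ u : ℝ → Fld, IsWeak g ν α T u → EnergyEq ν α T u) :
    Stab g ν α := by
  intro R T hT
  by_cases hR : 0 ≤ R
  swap
  · refine ⟨0, fun u v _ _ h _ => ?_⟩
    exact absurd ((asm_En_nn 0 0 (u 0)).trans (h 0)) hR
  have hR1 : 0 ≤ R / (2 * ν) := by positivity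
  obtain ⟨K, -, hK⟩ := hSTB hCVB hPRB hTRB hANT hBAL hSQ hMSB hGRO g κ ν α hg hν hκ hα hTB
    (R + R / (2 * ν)) T (by positivity) hT
  refine ⟨K, fun u v hu hv h1 h2 δ hδ => ?_⟩
  have hδ0 : 0 ≤ δ := (asm_En_nn 0 0 _).trans (hδ 0)
  obtain ⟨a1, a2⟩ := asm_bounds hν hT hu (hEE T hT u hu) h1
  obtain ⟨b1, b2⟩ := asm_bounds hν hT hv (hEE T hT v hv) h2
  exact hK u v hu hv (fun t ht n => (a1 t ht n).trans (by linarith))
    (fun t ht n => (b1 t ht n).trans (by linarith)) (fun n => (a2 n).trans (by linarith))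
    (fun n => (b2 n).trans (by linarith)) δ hδ0 hδ

/-- random coefficients -/
theorem asm_rand (hSUM : S_SUM) (hALG : S_ALG) (hEST : S_EST) (hODE : S_ODE)
    (hRHS : S_RHS) (hUNI : S_UNI2) (hHOE : S_HOE2) (hDIG : S_DIG)
    (hBCS : S_BCS2) (hPNT : S_PNT) (hCVB : S_CVB) (hPRB : S_PRB) (hTRB : S_TRB) (hANT : S_ANT)
    (hBAL : S_BAL) (hSQ : S_SQ) (hMSB : S_MSB) (hGRO : S_GRO) (hSTB : S_STB) (hFX1 : S_FX1)
    (hFX2 : S_FX2) (hEEQ : S_EEQ) (hENT : S_ENT) (hSMT : S_SMT) (hCPT : S_CPT)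
    (Ω : Type) [MeasurableSpace Ω] (μ : Measure Ω) [IsProbabilityMeasure μ]
    (X : Sym2 (Finset Wv) → Ω → ℝ) (hX : ∀ c, Measurable (X c)) (hi : iIndepFun X μ)
    (hX1 : ∀ c, ∀ᵐ ω ∂μ, |X c ω| ≤ 1) (B β : ℝ)
    (hm : ∀ k l m : Wv, k ≠ 0 → l ≠ 0 → m ≠ 0 → k + l + m = 0 →
      |∫ ω, sgn X ω k l m ∂μ| * mn k l m ^ (5 / 4 : ℝ) ≤ B * mx k l m ^ β) :
    ∀ᵐ ω ∂μ, ∀ ν α : ℝ, 0 < ν → max (1 / 2) β < α →
      (∀ T : ℝ, 0 ≤ T → ∀ u : ℝ → Fld, IsWeak (sgn X ω) ν α T u → EnergyEq ν α T u) ∧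
      (∀ u₀ : Fld, Adm u₀ → (∃ C : ℝ, ∀ n, En 0 n u₀ ≤ C) →
        ∃ u : ℝ → Fld, u 0 = u₀ ∧ (∀ T, 0 ≤ T → IsWeak (sgn X ω) ν α T u) ∧
          ∀ τ, 0 < τ → IsSol (sgn X ω) ν α fun t => u (τ + t)) ∧
      ((∀ c, ∫ ω, X c ω ∂μ = 0) → Stab (sgn X ω) ν α) := by
  have hint : ∀ c, Integrable (X c) μ := fun c =>
    Integrable.of_mem_Icc (-1) 1 (hX c).aemeasurable (by
      filter_upwards [hX1 c] with ω hω
      exact abs_le.1 hω)
  set e : Sym2 (Finset Wv) → ℝ := fun c => ∫ ω, X c ω ∂μ with he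
  have he1 : ∀ c, |e c| ≤ 1 := by
    intro c
    have h1 : ‖∫ ω, X c ω ∂μ‖ ≤ 1 * μ.real Set.univ := norm_integral_le_of_norm_le_const (by
      filter_upwards [hX1 c] with ω hω
      exact hω)
    simpa using h1
  -- centred coefficients
  have hY1 : ∀ c, ∀ᵐ ω ∂μ, |(X c ω - e c) / 2| ≤ 1 := by
    intro c
    filter_upwards [hX1 c] with ω hω
    have h1 := he1 c
    rw [abs_div, abs_two, div_le_one (by norm_num)]
    calc |X c ω - e c| ≤ |X c ω| + |e c| := abs_sub _ _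
      _ ≤ 2 := by linarith
  have hb := hBCS hUNI hHOE hDIG Ω μ (fun c ω => (X c ω - e c) / 2)
    (fun c => ((hX c).sub_const _).div_const _)
    (hi.comp (fun c x => (x - e c) / 2) (fun c => (measurable_id.sub_const _).div_const _))
    (fun c => ⟨hY1 c, by
      rw [integral_div, integral_sub (hint c) (integrable_const _)]
      simp [he]⟩)
  have hB : 0 ≤ B := by
    have h1 := hm ![1, 0, 0] ![1, 0, 0] ![-2, 0, 0] (by
      intro h
      have := congrFun h 0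
      simp at this) (by
      intro h
      have := congrFun h 0
      simp at this) (by
      intro h
      have := congrFun h 0
      simp at this) (by
      ext i
      fin_cases i <;> simp)
    have h2 : 0 ≤ |∫ ω, sgn X ω ![1, 0, 0] ![1, 0, 0] ![-2, 0, 0] ∂μ| *
        mn ![1, 0, 0] ![1, 0, 0] ![-2, 0, 0] ^ (5 / 4 : ℝ) := by
      refine mul_nonneg (abs_nonneg _) (Real.rpow_nonneg ?_ _)
      unfold mn
      exact le_min (asm_nsq_nonneg _) (le_min (asm_nsq_nonneg _) (asm_nsq_nonneg _))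
    have h3 : 0 < mx ![1, 0, 0] ![1, 0, 0] ![-2, 0, 0] ^ β := by
      apply Real.rpow_pos_of_pos
      unfold mx
      apply lt_max_of_lt_left
      simp [nsq, Fin.sum_univ_three]
    by_contra h
    push Not at h
    nlinarith
  have hg2 : Arr (sgn (fun c (_ : Unit) => e c) ()) := asm_arr_sgn _ _ he1
  filter_upwards [hb, ae_all_iff.2 hX1, ae_all_iff.2 hY1] with ω h1 h2 hY2
  intro ν α hν hα
  have hg1 : Arr (sgn (fun c ω => (X c ω - e c) / 2) ω) := asm_arr_sgn _ ω hY2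
  have hg : Arr (sgn X ω) := asm_arr_sgn X ω h2
  have hα1 : 1 / 2 < α := lt_of_le_of_lt (le_max_left _ _) hα
  have hα2 : β < α := lt_of_le_of_lt (le_max_right _ _) hα
  obtain ⟨b, hb1, hb2⟩ := exists_between (max_lt hα1 hα2)
  have hb3 : 1 / 2 < b := lt_of_le_of_lt (le_max_left _ _) hb1
  have hb4 : β < b := lt_of_le_of_lt (le_max_right _ _) hb1
  have h4 : (fun k l m => 2 * sgn (fun c ω => (X c ω - e c) / 2) ω k l m +
      sgn (fun c (_ : Unit) => e c) () k l m) = sgn X ω := by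
    funext k l m
    unfold sgn
    ring
  have hmean : ∀ k l m : Wv, k ≠ 0 → l ≠ 0 → m ≠ 0 → k + l + m = 0 →
      |sgn (fun c (_ : Unit) => e c) () k l m| * mn k l m ^ (5 / 4 : ℝ) ≤ B * mx k l m ^ β :=
    fun k l m hk hl hm0 hs => hm k l m hk hl hm0 hs
  have hEE : ∀ T : ℝ, 0 ≤ T → ∀ u : ℝ → Fld, IsWeak (sgn X ω) ν α T u → EnergyEq ν α T u := by
    intro T hT
    have f1 : FXP (sgn (fun c ω => (X c ω - e c) / 2) ω) α :=
      hFX1 hCVB hTRB hPRB hANT _ (2 * b - 1) α hg1 (by linarith) (by linarith)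
        (h1 (2 * b - 1) (by linarith))
    have f2 : FXP (sgn (fun c (_ : Unit) => e c) ()) α :=
      hFX2 hCVB _ B β α hg2 hB (by linarith) hα2 hmean
    have f3 := asm_FXP_add hCVB _ _ 2 α hg1.le hg2.le f1 f2
    rw [h4] at f3
    exact hEEQ hCVB hBAL hSQ hMSB _ ν α T hg hν (by linarith) hT f3
  refine ⟨hEE, ?_, ?_⟩
  · rintro u₀ hA ⟨C, hC⟩
    have hHE2 : HE (sgn (fun c (_ : Unit) => e c) ()) (2 * b - 1) :=
      hPNT _ B β (2 * b - 1) hg2 hB (by linarith) (by linarith) hmean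
    have hHE1 := asm2_HE_TB hEST _ (2 * b - 1) (by linarith) (h1 (2 * b - 1) (by linarith))
    have hHE : HE (sgn X ω) (2 * b - 1) := by
      have h3 := asm2_HE_add _ _ 2 (2 * b - 1) hHE1 hHE2
      rw [h4] at h3
      exact h3
    exact asm_exist hSUM hALG hODE hRHS hCVB hENT hSMT hCPT (sgn X ω) ν α (2 * b - 1) hg hν
      (by linarith) (by linarith) hHE u₀ hA C hC
  · intro hc
    have hTB : TB (sgn X ω) (2 * b - 1) := by
      intro s i
      obtain ⟨C, hC, h5⟩ := h1 (2 * b - 1) (by linarith) s i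
      refine ⟨2 * C, by positivity, fun c x y z => ?_⟩
      have h6 : Tri (fun k l => sgn X ω k l (-(k + l)) * wgt s c i k l) (2 ^ (c + 1)) x y z =
          2 * Tri (fun k l => sgn (fun c ω => (X c ω - e c) / 2) ω k l (-(k + l)) *
            wgt s c i k l) (2 ^ (c + 1)) x y z := by
        unfold Tri
        simp only [Finset.mul_sum]
        refine Finset.sum_congr rfl fun k _ => Finset.sum_congr rfl fun l _ => ?_
        unfold sgn
        simp only [he, hc]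
        push_cast
        ring
      rw [h6, norm_mul]
      have h7 := h5 c x y z
      have h8 : ‖(2 : ℂ)‖ = 2 := by simp
      rw [h8]
      nlinarith
    exact asm_stab hCVB hPRB hTRB hANT hBAL hSQ hMSB hGRO hSTB _ (2 * b - 1) ν α hg hν
      (by linarith) (by linarith) hTB hEE

end Pool.Agent.N983.WK
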