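import Pool.Agent.N983.WK.Stm2
import Pool.Agent.N983.WK.Asm

set_option autoImplicit false

/-! Assembly of the proof from its parts: the full statement. -/

namespace Pool.Agent.N983.WK

open MeasureTheory ProbabilityTheory Filter Topology Pool.Agent.N983.RT

theorem asm2_fz_add (hCVB : S_CVB) (g₁ g₂ : Wv → Wv → Wv → ℝ) (a : ℝ)
    (h₁ : ∀ k l m, |g₁ k l m| ≤ 1) (h₂ : ∀ k l m, |g₂ k l m| ≤ 1) (v w : Fld) (hv : Adm v) (A : ℝ)
    (hA : 0 ≤ A) (hE : ∀ n, En 0 n v ≤ A ^ 2) (hE' : ∀ n, En 0 n w ≤ A ^ 2) (n : ℕ) :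
    fz (fun k l m => a * g₁ k l m + g₂ k l m) n v w = a * fz g₁ n v w + fz g₂ n v w := by
  obtain ⟨K, -, hK⟩ := hCVB
  have h3 : ∀ m j, cv (fun k l m => a * g₁ k l m + g₂ k l m) v w m j =
      (a : ℂ) * cv g₁ v w m j + cv g₂ v w m j := by
    intro m j
    have s1 := (hK g₁ v w A A h₁ hA hA hv.div hE hE' m j).1
    have s2 := (hK g₂ v w A A h₂ hA hA hv.div hE hE' m j).1
    unfold cv
    rw [← tsum_mul_left, ← (s1.mul_left (a : ℂ)).tsum_add s2]
    refine tsum_congr fun k => ?_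
    push_cast
    ring
  unfold fz
  simp only [h3]
  have h4 : (∑ m ∈ cub (2 * n + 2), (ct n m : ℂ) * ∑ j, (starRingEnd ℂ) (w m j) *
      ((a : ℂ) * cv g₁ v w m j + cv g₂ v w m j)) =
      (a : ℂ) * (∑ m ∈ cub (2 * n + 2), (ct n m : ℂ) * ∑ j, (starRingEnd ℂ) (w m j) *
        cv g₁ v w m j) + ∑ m ∈ cub (2 * n + 2), (ct n m : ℂ) * ∑ j, (starRingEnd ℂ) (w m j) *
        cv g₂ v w m j := by
    simp only [Finset.mul_sum, ← Finset.sum_add_distrib]
    refine Finset.sum_congr rfl fun m _ => Finset.sum_congr rfl fun j _ => ?_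
    ring
  rw [h4, Complex.add_im, Complex.im_ofReal_mul]

theorem asm2_FZP_add (hCVB : S_CVB) (g₁ g₂ : Wv → Wv → Wv → ℝ) (a α : ℝ)
    (h₁ : ∀ k l m, |g₁ k l m| ≤ 1) (h₂ : ∀ k l m, |g₂ k l m| ≤ 1) (f₁ : FZP g₁ α)
    (f₂ : FZP g₂ α) : FZP (fun k l m => a * g₁ k l m + g₂ k l m) α := by
  obtain ⟨K₁, hK₁, f₁⟩ := f₁
  obtain ⟨K₂, hK₂, f₂⟩ := f₂
  refine ⟨|a| * K₁ + K₂, by positivity, fun v w A D hv hw hA hD e1 e2 e3 e4 => ?_⟩
  obtain ⟨b₁, c₁⟩ := f₁ v w A D hv hw hA hD e1 e2 e3 e4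
  obtain ⟨b₂, c₂⟩ := f₂ v w A D hv hw hA hD e1 e2 e3 e4
  have h3 := fun n => asm2_fz_add hCVB g₁ g₂ a h₁ h₂ v w hv A hA e1 e2 n
  constructor
  · intro n
    rw [h3 n]
    calc |a * fz g₁ n v w + fz g₂ n v w| ≤ |a| * |fz g₁ n v w| + |fz g₂ n v w| := by
          refine (abs_add_le _ _).trans ?_
          rw [abs_mul]
      _ ≤ |a| * (K₁ * A * D) + K₂ * A * D :=
          add_le_add (mul_le_mul_of_nonneg_left (b₁ n) (abs_nonneg a)) (b₂ n)
      _ = (|a| * K₁ + K₂) * A * D := by ring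
  · simp only [h3]
    have := (c₁.const_mul a).add c₂
    simpa using this

theorem asm2_FXP {g : Wv → Wv → Wv → ℝ} {α : ℝ} (h : FZP g α) : FXP g α := by
  obtain ⟨K, hK, h⟩ := h
  exact ⟨K, hK, fun u A D hu hA hD e1 e2 => h u u A D hu hu hA hD e1 e1 e2 e2⟩

/-- smooth data: global smooth solutions, unique among all weak solutions -/
def Smooth (g : Wv → Wv → Wv → ℝ) (ν α : ℝ) : Prop :=
  ∀ u₀ : Fld, Adm u₀ → Rapid u₀ → ∃ u : ℝ → Fld, IsSol g ν α u ∧ u 0 = u₀ ∧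
    ∀ (T : ℝ) (v : ℝ → Fld), IsWeak g ν α T v → v 0 = u₀ → ∀ t ∈ Set.Icc 0 T, v t = u t

/-- data of finite energy: a weak solution which is smooth for positive times -/
def Rough (g : Wv → Wv → Wv → ℝ) (ν α : ℝ) : Prop :=
  ∀ u₀ : Fld, Adm u₀ → (∃ C : ℝ, ∀ n, En 0 n u₀ ≤ C) →
    ∃ u : ℝ → Fld, u 0 = u₀ ∧ (∀ T, 0 ≤ T → IsWeak g ν α T u) ∧
      ∀ τ, 0 < τ → IsSol g ν α fun t => u (τ + t)

/-- random coefficients -/
theorem asm2_rand (hSUM : S_SUM) (hALG : S_ALG) (hEST : S_EST) (hAPR : S_APR2) (hODE : S_ODE)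
    (hRHS : S_RHS) (hCMP : S_CMP) (hUNQ : S_UNQ) (hUNI : S_UNI2) (hHOE : S_HOE2) (hDIG : S_DIG)
    (hBCS : S_BCS2) (hPNT : S_PNT) (hCVB : S_CVB) (hPRB : S_PRB) (hTRB : S_TRB) (hANT : S_ANT)
    (hBAL : S_BAL) (hSQ : S_SQ) (hMSB : S_MSB) (hGRO : S_GRO) (hSTB : S_STB) (hFZ1 : S_FZ1)
    (hFZ2 : S_FZ2) (hEEQ : S_EEQ) (hENT : S_ENT) (hSMT : S_SMT) (hCPT : S_CPT) (hSW : S_SW)
    (hWSU : S_WSU)
    (Ω : Type) [MeasurableSpace Ω] (μ : Measure Ω) [IsProbabilityMeasure μ]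
    (X : Sym2 (Finset Wv) → Ω → ℝ) (hX : ∀ c, Measurable (X c)) (hi : iIndepFun X μ)
    (hX1 : ∀ c, ∀ᵐ ω ∂μ, |X c ω| ≤ 1) (B β : ℝ)
    (hm : ∀ k l m : Wv, k ≠ 0 → l ≠ 0 → m ≠ 0 → k + l + m = 0 →
      |∫ ω, sgn X ω k l m ∂μ| * mn k l m ^ (5 / 4 : ℝ) ≤ B * mx k l m ^ β) :
    ∀ᵐ ω ∂μ, ∀ ν α : ℝ, 0 < ν → max (1 / 2) β < α →
      Smooth (sgn X ω) ν α ∧ Rough (sgn X ω) ν α ∧
      (∀ T : ℝ, 0 ≤ T → ∀ u : ℝ → Fld, IsWeak (sgn X ω) ν α T u → EnergyEq ν α T u) ∧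
      ((∀ c, ∫ ω, X c ω ∂μ = 0) → Stab (sgn X ω) ν α) := by
  have hint : ∀ c, Integrable (X c) μ := fun c =>
    Integrable.of_mem_Icc (-1) 1 (hX c).aemeasurable (by
      filter_upwards [hX1 c] with ω hω
      exact abs_le.1 hω)
  set e : Sym2 (Finset Wv) → ℝ := fun c => ∫ ω, X c ω ∂μ with he
  have he1 : ∀ c, |e c| ≤ 1 := by
    intro c
    have h1 : ‖∫ ω, X c ω ∂μ‖ ≤ 1 * μ.real Set.univ := norm_integral_le_of_norm_le_const (by
      filter_upwards [hX1 c] with ω hω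
      exact hω)
    simpa using h1
  -- centred coefficients
  have hY1 : ∀ c, ∀ᵐ ω ∂μ, |(X c ω - e c) / 2| ≤ 1 := by
    intro c
    filter_upwards [hX1 c] with ω hω
    have h1 := he1 c
    rw [abs_div, abs_two, div_le_one (by norm_num)]
    calc |X c ω - e c| ≤ |X c ω| + |e c| := abs_sub _ _
      _ ≤ 2 := by linarith
  have hb := hBCS hUNI hHOE hDIG Ω μ (fun c ω => (X c ω - e c) / 2)
    (fun c => ((hX c).sub_const _).div_const _)
    (hi.comp (fun c x => (x - e c) / 2) (fun c => (measurable_id.sub_const _).div_const _))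
    (fun c => ⟨hY1 c, by
      rw [integral_div, integral_sub (hint c) (integrable_const _)]
      simp [he]⟩)
  have hB : 0 ≤ B := by
    have h1 := hm ![1, 0, 0] ![1, 0, 0] ![-2, 0, 0] (by
      intro h
      have := congrFun h 0
      simp at this) (by
      intro h
      have := congrFun h 0
      simp at this) (by
      intro h
      have := congrFun h 0
      simp at this) (by
      ext i
      fin_cases i <;> simp)
    have h2 : 0 ≤ |∫ ω, sgn X ω ![1, 0, 0] ![1, 0, 0] ![-2, 0, 0] ∂μ| *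
        mn ![1, 0, 0] ![1, 0, 0] ![-2, 0, 0] ^ (5 / 4 : ℝ) := by
      refine mul_nonneg (abs_nonneg _) (Real.rpow_nonneg ?_ _)
      unfold mn
      exact le_min (asm_nsq_nonneg _) (le_min (asm_nsq_nonneg _) (asm_nsq_nonneg _))
    have h3 : 0 < mx ![1, 0, 0] ![1, 0, 0] ![-2, 0, 0] ^ β := by
      apply Real.rpow_pos_of_pos
      unfold mx
      apply lt_max_of_lt_left
      simp [nsq, Fin.sum_univ_three]
    by_contra h
    push Not at h
    nlinarith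
  have hg2 : Arr (sgn (fun c (_ : Unit) => e c) ()) := asm_arr_sgn _ _ he1
  filter_upwards [hb, ae_all_iff.2 hX1, ae_all_iff.2 hY1] with ω h1 h2 hY2
  intro ν α hν hα
  have hg1 : Arr (sgn (fun c ω => (X c ω - e c) / 2) ω) := asm_arr_sgn _ ω hY2
  have hg : Arr (sgn X ω) := asm_arr_sgn X ω h2
  have hα1 : 1 / 2 < α := lt_of_le_of_lt (le_max_left _ _) hα
  have hα2 : β < α := lt_of_le_of_lt (le_max_right _ _) hα
  obtain ⟨b, hb1, hb2⟩ := exists_between (max_lt hα1 hα2)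
  have hb3 : 1 / 2 < b := lt_of_le_of_lt (le_max_left _ _) hb1
  have hb4 : β < b := lt_of_le_of_lt (le_max_right _ _) hb1
  have h4 : (fun k l m => 2 * sgn (fun c ω => (X c ω - e c) / 2) ω k l m +
      sgn (fun c (_ : Unit) => e c) () k l m) = sgn X ω := by
    funext k l m
    unfold sgn
    ring
  have hmean : ∀ k l m : Wv, k ≠ 0 → l ≠ 0 → m ≠ 0 → k + l + m = 0 →
      |sgn (fun c (_ : Unit) => e c) () k l m| * mn k l m ^ (5 / 4 : ℝ) ≤ B * mx k l m ^ β :=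
    fun k l m hk hl hm0 hs => hm k l m hk hl hm0 hs
  have hFZ : FZP (sgn X ω) α := by
    have f1 : FZP (sgn (fun c ω => (X c ω - e c) / 2) ω) α :=
      hFZ1 hCVB hTRB hPRB hANT _ (2 * b - 1) α hg1 (by linarith) (by linarith)
        (h1 (2 * b - 1) (by linarith))
    have f2 : FZP (sgn (fun c (_ : Unit) => e c) ()) α :=
      hFZ2 hCVB _ B β α hg2 hB (by linarith) hα2 hmean
    have f3 := asm2_FZP_add hCVB _ _ 2 α hg1.le hg2.le f1 f2
    rw [h4] at f3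
    exact f3
  have hEE : ∀ T : ℝ, 0 ≤ T → ∀ u : ℝ → Fld, IsWeak (sgn X ω) ν α T u → EnergyEq ν α T u :=
    fun T hT => hEEQ hCVB hBAL hSQ hMSB _ ν α T hg hν (by linarith) hT (asm2_FXP hFZ)
  have hHE2 : HE (sgn (fun c (_ : Unit) => e c) ()) (2 * b - 1) :=
    hPNT _ B β (2 * b - 1) hg2 hB (by linarith) (by linarith) hmean
  have hHE1 := asm2_HE_TB hEST _ (2 * b - 1) (by linarith) (h1 (2 * b - 1) (by linarith))
  have hHE : HE (sgn X ω) (2 * b - 1) := by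
    have h3 := asm2_HE_add _ _ 2 (2 * b - 1) hHE1 hHE2
    rw [h4] at h3
    exact h3
  refine ⟨?_, ?_, hEE, ?_⟩
  · intro u₀ hA hR
    have hGWP : GWP (sgn X ω) ν α Set.univ :=
      asm2_crit hSUM hALG hAPR hODE hRHS hCMP hUNQ (sgn X ω) ν α (2 * b - 1) hg hν
        (by linarith) (by linarith) hHE Set.univ fun k l m hm => absurd (Set.mem_univ m) hm
    obtain ⟨u, hu, hu0, -, -⟩ := hGWP u₀ hA hR fun k hk => absurd (Set.mem_univ k) hk
    refine ⟨u, hu, hu0, fun T v hv hv0 t ht => ?_⟩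
    exact hWSU hSUM hCVB hBAL hSQ hMSB hSW (sgn X ω) ν α T hg hν (by linarith)
      (ht.1.trans ht.2) hFZ v u hv hu (by rw [hv0, hu0]) t ht
  · rintro u₀ hA ⟨C, hC⟩
    exact asm_exist hSUM hALG hODE hRHS hCVB hENT hSMT hCPT (sgn X ω) ν α (2 * b - 1) hg hν
      (by linarith) (by linarith) hHE u₀ hA C hC
  · intro hc
    have hTB : TB (sgn X ω) (2 * b - 1) := by
      intro s i
      obtain ⟨C, hC, h5⟩ := h1 (2 * b - 1) (by linarith) s i
      refine ⟨2 * C, by positivity, fun c x y z => ?_⟩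
      have h6 : Tri (fun k l => sgn X ω k l (-(k + l)) * wgt s c i k l) (2 ^ (c + 1)) x y z =
          2 * Tri (fun k l => sgn (fun c ω => (X c ω - e c) / 2) ω k l (-(k + l)) *
            wgt s c i k l) (2 ^ (c + 1)) x y z := by
        unfold Tri
        simp only [Finset.mul_sum]
        refine Finset.sum_congr rfl fun k _ => Finset.sum_congr rfl fun l _ => ?_
        unfold sgn
        simp only [he, hc]
        push_cast
        ring
      rw [h6, norm_mul]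
      have h7 := h5 c x y z
      have h8 : ‖(2 : ℂ)‖ = 2 := by simp
      rw [h8]
      nlinarith
    exact asm_stab hCVB hPRB hTRB hANT hBAL hSQ hMSB hGRO hSTB _ (2 * b - 1) ν α hg hν
      (by linarith) (by linarith) hTB hEE

end Pool.Agent.N983.WK
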