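import Pool.Agent.N983.WK.Stm3
import Pool.Agent.N983.WK.Asm2

set_option autoImplicit false

/-! Assembly of the proof from its parts: energy equality with a force. -/

namespace Pool.Agent.N983.WK

open MeasureTheory ProbabilityTheory Filter Topology Pool.Agent.N983.RT

/-- random coefficients: energy equality with a force -/
theorem asm3_rand (hUNI : S_UNI2) (hHOE : S_HOE2) (hDIG : S_DIG)
    (hBCS : S_BCS2) (hCVB : S_CVB) (hPRB : S_PRB) (hTRB : S_TRB) (hANT : S_ANT)
    (hSQ : S_SQ) (hMSB : S_MSB) (hFZ1 : S_FX1) (hFZ2 : S_FX2) (hEEF : S_EEF)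
    (Ω : Type) [MeasurableSpace Ω] (μ : Measure Ω) [IsProbabilityMeasure μ]
    (X : Sym2 (Finset Wv) → Ω → ℝ) (hX : ∀ c, Measurable (X c)) (hi : iIndepFun X μ)
    (hX1 : ∀ c, ∀ᵐ ω ∂μ, |X c ω| ≤ 1) (B β : ℝ)
    (hm : ∀ k l m : Wv, k ≠ 0 → l ≠ 0 → m ≠ 0 → k + l + m = 0 →
      |∫ ω, sgn X ω k l m ∂μ| * mn k l m ^ (5 / 4 : ℝ) ≤ B * mx k l m ^ β) :
    ∀ᵐ ω ∂μ, ∀ ν α T : ℝ, 0 < ν → max (1 / 2) β < α → 0 ≤ T → ∀ f u : ℝ → Fld, IsForce T f →
      IsWeakF (sgn X ω) ν α T f u → EnergyEqF ν α T f u := by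
  have hint : ∀ c, Integrable (X c) μ := fun c =>
    Integrable.of_mem_Icc (-1) 1 (hX c).aemeasurable (by
      filter_upwards [hX1 c] with ω hω
      exact abs_le.1 hω)
  set e : Sym2 (Finset Wv) → ℝ := fun c => ∫ ω, X c ω ∂μ with he
  have he1 : ∀ c, |e c| ≤ 1 := by
    intro c
    have h1 : ‖∫ ω, X c ω ∂μ‖ ≤ 1 * μ.real Set.univ := norm_integral_le_of_norm_le_const (by
      filter_upwards [hX1 c] with ω hω
      exact hω)
    simpa using h1
  -- centred coefficients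
  have hY1 : ∀ c, ∀ᵐ ω ∂μ, |(X c ω - e c) / 2| ≤ 1 := by
    intro c
    filter_upwards [hX1 c] with ω hω
    have h1 := he1 c
    rw [abs_div, abs_two, div_le_one (by norm_num)]
    calc |X c ω - e c| ≤ |X c ω| + |e c| := abs_sub _ _
      _ ≤ 2 := by linarith
  have hb := hBCS hUNI hHOE hDIG Ω μ (fun c ω => (X c ω - e c) / 2)
    (fun c => ((hX c).sub_const _).div_const _)
    (hi.comp (fun c x => (x - e c) / 2) (fun c => (measurable_id.sub_const _).div_const _))
    (fun c => ⟨hY1 c, by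
      rw [integral_div, integral_sub (hint c) (integrable_const _)]
      simp [he]⟩)
  have hB : 0 ≤ B := by
    have h1 := hm ![1, 0, 0] ![1, 0, 0] ![-2, 0, 0] (by
      intro h
      have := congrFun h 0
      simp at this) (by
      intro h
      have := congrFun h 0
      simp at this) (by
      intro h
      have := congrFun h 0
      simp at this) (by
      ext i
      fin_cases i <;> simp)
    have h2 : 0 ≤ |∫ ω, sgn X ω ![1, 0, 0] ![1, 0, 0] ![-2, 0, 0] ∂μ| *
        mn ![1, 0, 0] ![1, 0, 0] ![-2, 0, 0] ^ (5 / 4 : ℝ) := by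
      refine mul_nonneg (abs_nonneg _) (Real.rpow_nonneg ?_ _)
      unfold mn
      exact le_min (asm_nsq_nonneg _) (le_min (asm_nsq_nonneg _) (asm_nsq_nonneg _))
    have h3 : 0 < mx ![1, 0, 0] ![1, 0, 0] ![-2, 0, 0] ^ β := by
      apply Real.rpow_pos_of_pos
      unfold mx
      apply lt_max_of_lt_left
      simp [nsq, Fin.sum_univ_three]
    by_contra h
    push Not at h
    nlinarith
  have hg2 : Arr (sgn (fun c (_ : Unit) => e c) ()) := asm_arr_sgn _ _ he1
  filter_upwards [hb, ae_all_iff.2 hX1, ae_all_iff.2 hY1] with ω h1 h2 hY2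
  intro ν α T hν hα hT
  have hg1 : Arr (sgn (fun c ω => (X c ω - e c) / 2) ω) := asm_arr_sgn _ ω hY2
  have hg : Arr (sgn X ω) := asm_arr_sgn X ω h2
  have hα1 : 1 / 2 < α := lt_of_le_of_lt (le_max_left _ _) hα
  have hα2 : β < α := lt_of_le_of_lt (le_max_right _ _) hα
  have h4 : (fun k l m => 2 * sgn (fun c ω => (X c ω - e c) / 2) ω k l m +
      sgn (fun c (_ : Unit) => e c) () k l m) = sgn X ω := by
    funext k l m
    unfold sgn
    ring
  have f1 : FXP (sgn (fun c ω => (X c ω - e c) / 2) ω) α :=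
    hFZ1 hCVB hTRB hPRB hANT _ (2 * α - 1) α hg1 (by linarith) (by linarith)
      (h1 (2 * α - 1) (by linarith))
  have f2 : FXP (sgn (fun c (_ : Unit) => e c) ()) α :=
    hFZ2 hCVB _ B β α hg2 hB (by linarith) hα2
      fun k l m hk hl hm0 hs => hm k l m hk hl hm0 hs
  have f3 := asm_FXP_add hCVB _ _ 2 α hg1.le hg2.le f1 f2
  rw [h4] at f3
  exact hEEF hCVB hSQ hMSB _ ν α T hg hν (by linarith) hT f3

end Pool.Agent.N983.WK
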