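import Pool.Agent.N983.WK.Stm4
import Pool.Agent.N983.WK.Asm2

set_option autoImplicit false

/-! Assembly of the proof from its parts: uniqueness of weak solutions without finite
dissipation. -/

namespace Pool.Agent.N983.WK

open MeasureTheory ProbabilityTheory Filter Topology Pool.Agent.N983.RT

/-- centred coefficients: every weak solution bounded in a Sobolev space of positive order
coincides with a solution which is smooth for positive times -/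
theorem asm4_rand (hSUM : S_SUM) (hALG : S_ALG) (hEST : S_EST) (hAPR : S_APR2) (hODE : S_ODE)
    (hRHS : S_RHS) (hCMP : S_CMP) (hUNQ : S_UNQ) (hUNI : S_UNI2) (hHOE : S_HOE2) (hDIG : S_DIG)
    (hBCS : S_BCS2) (hPNT : S_PNT) (hCVB : S_CVB) (hPRB : S_PRB) (hTRB : S_TRB) (hANT : S_ANT)
    (hBAL : S_BAL) (hSQ : S_SQ) (hMSB : S_MSB) (hGRO : S_GRO) (hSTB : S_STB) (hFZ1 : S_FZ1)
    (hFZ2 : S_FZ2) (hEEQ : S_EEQ) (hENT : S_ENT) (hSMT : S_SMT) (hCPT : S_CPT) (hSW : S_SW)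
    (hWSU : S_WSU) (hVT : S_VT) (hVP : S_VP) (hVE : S_VE)
    (Ω : Type) [MeasurableSpace Ω] (μ : Measure Ω) [IsProbabilityMeasure μ]
    (X : Sym2 (Finset Wv) → Ω → ℝ) (hX : ∀ c, Measurable (X c)) (hi : iIndepFun X μ)
    (hX1 : ∀ c, ∀ᵐ ω ∂μ, |X c ω| ≤ 1) (hX0 : ∀ c, ∫ ω, X c ω ∂μ = 0) :
    ∀ᵐ ω ∂μ, ∀ ν α : ℝ, 0 < ν → 1 / 2 < α →
      ∀ u₀ : Fld, Adm u₀ → (∃ C : ℝ, ∀ n, En 0 n u₀ ≤ C) → ∃ U : ℝ → Fld, U 0 = u₀ ∧
        (∀ τ, 0 < τ → IsSol (sgn X ω) ν α fun t => U (τ + t)) ∧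
        ∀ σ T : ℝ, 0 < σ → 1 < α + 2 * σ → ∀ u : ℝ → Fld, IsVW (sgn X ω) ν α σ T u →
          u 0 = u₀ → ∀ t ∈ Set.Icc 0 T, u t = U t := by
  have h := asm2_rand hSUM hALG hEST hAPR hODE hRHS hCMP hUNQ hUNI hHOE hDIG hBCS hPNT hCVB hPRB
    hTRB hANT hBAL hSQ hMSB hGRO hSTB hFZ1 hFZ2 hEEQ hENT hSMT hCPT hSW hWSU Ω μ X hX hi hX1 0 0
    (by
      intro k l m _ _ _ _
      have h1 : ∫ ω, sgn X ω k l m ∂μ = 0 := hX0 _
      rw [h1]
      simp)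
  have hb := hBCS hUNI hHOE hDIG Ω μ X hX hi fun c => ⟨hX1 c, hX0 c⟩
  filter_upwards [h, hb, ae_all_iff.2 hX1] with ω hω hTB hω1
  have hg : Arr (sgn X ω) := asm_arr_sgn X ω hω1
  intro ν α hν hα u₀ hA hE
  obtain ⟨-, hR, -, hS⟩ := hω ν α hν (max_lt hα (by linarith))
  have hS := hS hX0
  obtain ⟨U, a1, a2, a3⟩ := hR u₀ hA hE
  refine ⟨U, a1, a3, ?_⟩
  intro σ T hσ hσα u hu hu0 t ht
  have hT : 0 ≤ T := ht.1.trans ht.2
  have hw : IsWeak (sgn X ω) ν α T u := hVE hCVB hSQ hMSB _ ν α σ T hg hν (by linarith) hσ hT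
    (hVP hCVB hVT _ ν α σ hg hTB hν hα hσ hσα) u hu
  obtain ⟨C, hC⟩ := hE
  obtain ⟨K, hK⟩ := hS C T hT
  have h1 := hK u U hw (a2 T hT) (by rw [hu0]; exact hC) (by rw [a1]; exact hC) 0 (by
    intro n
    rw [hu0, a1, sub_self]
    simp [En]) t ht
  funext m j
  obtain ⟨n, hn⟩ : ∃ n : ℕ, m ∈ cub n := by
    refine ⟨∑ i, (m i).natAbs, ?_⟩
    unfold cub
    rw [Fintype.mem_piFinset]
    intro i
    rw [Finset.mem_Icc]
    have h2 : (m i).natAbs ≤ ∑ i, (m i).natAbs :=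
      Finset.single_le_sum (f := fun i => (m i).natAbs) (fun _ _ => Nat.zero_le _)
        (Finset.mem_univ i)
    omega
  have h2 := h1 n
  rw [mul_zero] at h2
  unfold En at h2
  have h3 : ∀ k ∈ cub n, 0 ≤ nsq k ^ 0 * ∑ i, ‖(u t - U t) k i‖ ^ 2 := by
    intro k _
    rw [pow_zero, one_mul]
    exact Finset.sum_nonneg fun i _ => by positivity
  have h4 := (Finset.sum_eq_zero_iff_of_nonneg h3).1 (le_antisymm h2 (Finset.sum_nonneg h3)) m hn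
  rw [pow_zero, one_mul] at h4
  have h5 := (Finset.sum_eq_zero_iff_of_nonneg (fun i _ => by positivity)).1 h4 j
    (Finset.mem_univ j)
  have h6 : (u t - U t) m j = 0 := by
    rw [← norm_eq_zero]
    exact pow_eq_zero_iff (two_ne_zero) |>.1 h5
  exact sub_eq_zero.1 h6

end Pool.Agent.N983.WK
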