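import Pool.Agent.N983.WK.Asm

set_option autoImplicit false

/-! Assembly of the proof from its parts: random sets of wave vectors. -/

namespace Pool.Agent.N983.WK

open MeasureTheory ProbabilityTheory Filter Topology Pool.Agent.N983.RT

/-- a field is determined by its energies -/
theorem asm5_ext {u v : Fld} (h : ∀ n, En 0 n (u - v) ≤ 0) : u = v := by
  funext m j
  obtain ⟨n, hn⟩ : ∃ n : ℕ, m ∈ cub n := by
    refine ⟨∑ i, (m i).natAbs, ?_⟩
    unfold cub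
    rw [Fintype.mem_piFinset]
    intro i
    rw [Finset.mem_Icc]
    have h2 : (m i).natAbs ≤ ∑ i, (m i).natAbs :=
      Finset.single_le_sum (f := fun i => (m i).natAbs) (fun _ _ => Nat.zero_le _)
        (Finset.mem_univ i)
    omega
  have h2 := h n
  unfold En at h2
  have h3 : ∀ k ∈ cub n, 0 ≤ nsq k ^ 0 * ∑ i, ‖(u - v) k i‖ ^ 2 := by
    intro k _
    rw [pow_zero, one_mul]
    exact Finset.sum_nonneg fun i _ => by positivity
  have h4 := (Finset.sum_eq_zero_iff_of_nonneg h3).1 (le_antisymm h2 (Finset.sum_nonneg h3)) m hn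
  rw [pow_zero, one_mul] at h4
  have h5 := (Finset.sum_eq_zero_iff_of_nonneg (fun i _ => by positivity)).1 h4 j
    (Finset.mem_univ j)
  have h6 : (u - v) m j = 0 := by
    rw [← norm_eq_zero]
    exact pow_eq_zero_iff (two_ne_zero) |>.1 h5
  exact sub_eq_zero.1 h6

/-- data of finite energy have exactly one weak solution, it is smooth for positive times, and
weak solutions depend on the datum in a Lipschitz continuous way -/
def WP (g : Wv → Wv → Wv → ℝ) (ν α : ℝ) : Prop :=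
  (∀ u₀ : Fld, Adm u₀ → (∃ C : ℝ, ∀ n, En 0 n u₀ ≤ C) → ∃ u : ℝ → Fld, u 0 = u₀ ∧
    (∀ T, 0 ≤ T → IsWeak g ν α T u) ∧ (∀ τ, 0 < τ → IsSol g ν α fun t => u (τ + t)) ∧
    ∀ (T : ℝ) (v : ℝ → Fld), IsWeak g ν α T v → v 0 = u₀ → ∀ t ∈ Set.Icc 0 T, v t = u t) ∧
  Stab g ν α

theorem asm5_wp (hSUM : S_SUM) (hALG : S_ALG) (hEST : S_EST) (hODE : S_ODE)
    (hRHS : S_RHS) (hCVB : S_CVB) (hPRB : S_PRB) (hTRB : S_TRB) (hANT : S_ANT)
    (hBAL : S_BAL) (hSQ : S_SQ) (hMSB : S_MSB) (hGRO : S_GRO) (hSTB : S_STB) (hFX1 : S_FX1)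
    (hEEQ : S_EEQ) (hENT : S_ENT) (hSMT : S_SMT) (hCPT : S_CPT)
    (g : Wv → Wv → Wv → ℝ) (κ ν α : ℝ) (hg : Arr g) (hν : 0 < ν) (hκ : 0 ≤ κ)
    (hα : (1 + κ) / 2 < α) (hTB : TB g κ) : WP g ν α := by
  have hEE : ∀ T : ℝ, 0 ≤ T → ∀ u : ℝ → Fld, IsWeak g ν α T u → EnergyEq ν α T u := fun T hT =>
    hEEQ hCVB hBAL hSQ hMSB g ν α T hg hν (by linarith) hT
      (hFX1 hCVB hTRB hPRB hANT g κ α hg (by linarith) hα.le hTB)
  have hS : Stab g ν α := asm_stab hCVB hPRB hTRB hANT hBAL hSQ hMSB hGRO hSTB g κ ν α hg hν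
    (by linarith) hα hTB hEE
  refine ⟨?_, hS⟩
  rintro u₀ hA ⟨C, hC⟩
  obtain ⟨u, a1, a2, a3⟩ := asm_exist hSUM hALG hODE hRHS hCVB hENT hSMT hCPT g ν α κ hg hν
    (by linarith) hα (asm2_HE_TB hEST g κ (by linarith) hTB) u₀ hA C hC
  refine ⟨u, a1, a2, a3, ?_⟩
  intro T v hv hv0 t ht
  obtain ⟨K, hK⟩ := hS C T (ht.1.trans ht.2)
  refine asm5_ext fun n => ?_
  have h1 := hK v u hv (a2 T (ht.1.trans ht.2)) (by rw [hv0]; exact hC) (by rw [a1]; exact hC) 0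
    (by
      intro n
      rw [hv0, a1, sub_self]
      simp [En]) t ht n
  rwa [mul_zero] at h1

/-- the bound for random sets -/
theorem asm5_TB (hCS : S_CS) (hIND : S_IND) (hESY : S_ESY)
    (hTAIL : S_TAIL) (hLAT : S_LAT) (hBCD : S_BCD) (a : ℝ) (ha : 0 ≤ a)
    (Ω : Type) [MeasurableSpace Ω] (μ : Measure Ω) [IsProbabilityMeasure μ]
    (Y : Sym2 Wv → Ω → ℝ) (hY : ∀ c, Measurable (Y c)) (hi : iIndepFun Y μ)
    (hs : ∀ k, k ≠ 0 → μ {ω | Y s(k, -k) ω = 1} ≤ ENNReal.ofReal (nsq k ^ (-a / 2))) :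
    ∀ᵐ ω ∂μ, ∀ κ : ℝ, max 0 ((3 - 3 * a) / 2) < κ → TB (dec (kept Y ω)) κ := by
  have hone : ∀ k : Wv, k ≠ 0 → 1 ≤ nsq k := by
    intro k hk
    have : ∃ i, k i ≠ 0 := by
      by_contra h
      push Not at h
      exact hk (funext h)
    obtain ⟨i, hi⟩ := this
    have h1 : (1 : ℝ) ≤ (k i : ℝ) ^ 2 := by
      have : 1 ≤ (k i) ^ 2 := by
        have := sq_nonneg (k i)
        rcases this.lt_or_eq with h | h
        · omega
        · exact absurd (pow_eq_zero_iff (two_ne_zero)|>.1 h.symm) hi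
      exact_mod_cast this
    calc (1 : ℝ) ≤ (k i : ℝ) ^ 2 := h1
      _ ≤ nsq k := by
        unfold nsq
        exact Finset.single_le_sum (f := fun i => (k i : ℝ) ^ 2) (fun i _ => by positivity)
          (Finset.mem_univ i)
  have hb : ∀ n : ℕ, ∀ᵐ ω ∂μ, ∀ κ : ℝ,
      (3 - 3 * min a (1 - 1 / ((n : ℝ) + 1))) / 2 < κ → TB (dec (kept Y ω)) κ := by
    intro n
    have hn : 0 < 1 / ((n : ℝ) + 1) := by positivity
    have hn1 : 1 / ((n : ℝ) + 1) ≤ 1 := by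
      rw [div_le_one (by positivity)]
      have : (0 : ℝ) ≤ n := Nat.cast_nonneg n
      linarith
    refine hBCD hCS hIND hESY hTAIL hLAT (min a (1 - 1 / ((n : ℝ) + 1)))
      (le_min ha (by linarith)) (lt_of_le_of_lt (min_le_right _ _) (by linarith)) Ω μ Y hY hi
      fun k hk => (hs k hk).trans (ENNReal.ofReal_le_ofReal ?_)
    refine Real.rpow_le_rpow_of_exponent_le (hone k hk) ?_
    have := min_le_left a (1 - 1 / ((n : ℝ) + 1))
    linarith
  rw [← ae_all_iff] at hb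
  filter_upwards [hb] with ω hω
  intro κ hκ
  have h0 : 0 < κ := lt_of_le_of_lt (le_max_left _ _) hκ
  have h1 : (3 - 3 * a) / 2 < κ := lt_of_le_of_lt (le_max_right _ _) hκ
  obtain ⟨n, hn⟩ := exists_nat_one_div_lt (show (0 : ℝ) < κ / 2 by linarith)
  refine hω n κ ?_
  rcases le_total a (1 - 1 / ((n : ℝ) + 1)) with h | h
  · rw [min_eq_left h]; exact h1
  · rw [min_eq_right h]
    linarith

end Pool.Agent.N983.WK
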