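import Pool.Agent.N983.WK.Asm5

set_option autoImplicit false

/-! Restriction of a weak solution to a set of wave vectors. -/

namespace Pool.Agent.N983.WK

open MeasureTheory ProbabilityTheory Filter Topology Pool.Agent.N983.RT

open Classical in
/-- restriction to `K` -/
noncomputable def res (K : Set Wv) (u : Fld) : Fld := fun k => if k ∈ K then u k else 0

theorem res_conv (K : Set Wv) (u : Fld) (m : Wv) : conv (dec K) (res K u) m = conv (dec K) u m := by
  funext j
  unfold conv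
  refine tsum_congr fun k => ?_
  unfold dec res
  by_cases h : k ∈ K ∧ m - k ∈ K ∧ -m ∈ K
  · rw [if_pos h, if_pos h.1, if_pos h.2.1]
  · rw [if_neg h]
    simp

theorem res_conv_zero (K : Set Wv) (hK : ∀ k ∈ K, -k ∈ K) (u : Fld) (m : Wv) (hm : m ∉ K) :
    conv (dec K) u m = 0 := by
  funext j
  unfold conv
  have h : ∀ k : Wv, (dec K k (m - k) (-m) : ℂ) * dt (u k) (m - k) * u (m - k) j = 0 := by
    intro k
    unfold dec
    rw [if_neg]
    · simp
    · intro h
      apply hm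
      have := hK _ h.2.2
      rwa [neg_neg] at this
  simp [h]

open Classical in
theorem res_rhs (K : Set Wv) (hK : ∀ k ∈ K, -k ∈ K) (ν α : ℝ) (u : Fld) (m : Wv) (j : Fin 3) :
    rhs (dec K) ν α (res K u) m j = if m ∈ K then rhs (dec K) ν α u m j else 0 := by
  by_cases h : m ∈ K
  · rw [if_pos h]
    unfold rhs
    rw [res_conv]
    unfold res
    rw [if_pos h]
  · rw [if_neg h]
    unfold rhs
    rw [res_conv_zero K hK _ m h]
    unfold res
    rw [if_neg h]
    simp [prj, dt]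

theorem res_weak (K : Set Wv) (hK : ∀ k ∈ K, -k ∈ K) (h0 : (0 : Wv) ∉ K) (ν α T : ℝ) (hT : 0 ≤ T)
    (u : ℝ → Fld) (hu : IsWeak (dec K) ν α T u) :
    IsWeak (dec K) ν α T fun t => res K (u t) := by
  have hle : ∀ (r : ℝ) (n : ℕ) (v : Fld), Er r n (res K v) ≤ Er r n v := by
    intro r n v
    unfold Er
    refine Finset.sum_le_sum fun k _ => ?_
    refine mul_le_mul_of_nonneg_left ?_ (Real.rpow_nonneg (asm_nn k) r)
    refine Finset.sum_le_sum fun i _ => ?_
    unfold res
    split_ifs with h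
    · exact le_rfl
    · simp
  have hle0 : ∀ (n : ℕ) (v : Fld), En 0 n (res K v) ≤ En 0 n v := by
    intro n v
    unfold En
    refine Finset.sum_le_sum fun k _ => ?_
    refine mul_le_mul_of_nonneg_left ?_ (by simp)
    refine Finset.sum_le_sum fun i _ => ?_
    unfold res
    split_ifs with h
    · exact le_rfl
    · simp
  have hc : ∀ m j, ContinuousOn (fun t => res K (u t) m j) (Set.Icc 0 T) := by
    intro m j
    by_cases h : m ∈ K
    · have : (fun t => res K (u t) m j) = fun t => u t m j := by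
        funext t
        unfold res
        rw [if_pos h]
      rw [this]
      exact hu.cont m j
    · have : (fun t => res K (u t) m j) = fun t => 0 := by
        funext t
        unfold res
        rw [if_neg h]
        rfl
      rw [this]
      exact continuousOn_const
  have hint : ∀ (w : ℝ → Fld), (∀ m j, ContinuousOn (fun t => w t m j) (Set.Icc 0 T)) → ∀ n,
      IntervalIntegrable (fun t => Er α n (w t)) volume 0 T := by
    intro w hw n
    have : ContinuousOn (fun t => Er α n (w t)) (Set.Icc 0 T) := by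
      unfold Er
      refine continuousOn_finsetSum _ fun k _ => ?_
      refine continuousOn_const.mul ?_
      exact continuousOn_finsetSum _ fun i _ => ((hw k i).norm).pow 2
    refine ContinuousOn.intervalIntegrable ?_
    rwa [Set.uIcc_of_le hT]
  refine ⟨?_, hc, ?_, ?_, ?_⟩
  · intro t ht
    have h := hu.adm t ht
    refine ⟨?_, ?_, ?_⟩
    · unfold res
      rw [if_neg h0]
    · intro k
      unfold res
      by_cases hk : k ∈ K
      · simp only [if_pos hk]
        exact h.div k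
      · simp only [if_neg hk]
        simp [dt]
    · intro k i
      unfold res
      by_cases hk : k ∈ K
      · rw [if_pos hk, if_pos (hK k hk)]
        exact h.real k i
      · have : -k ∉ K := fun h' => hk (by
          have := hK _ h'
          rwa [neg_neg] at this)
        rw [if_neg hk, if_neg this]
        simp
  · obtain ⟨C, hC⟩ := hu.energy
    exact ⟨C, fun t ht n => (hle0 n _).trans (hC t ht n)⟩
  · obtain ⟨C, hC⟩ := hu.diss
    refine ⟨C, fun n => le_trans ?_ (hC n)⟩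
    exact intervalIntegral.integral_mono_on hT (hint _ hc n) (hint _ hu.cont n)
      fun s _ => hle α n (u s)
  · intro m hm j t ht
    by_cases h : m ∈ K
    · have h1 : ∀ s, rhs (dec K) ν α (res K (u s)) m j = rhs (dec K) ν α (u s) m j := by
        intro s
        rw [res_rhs K hK, if_pos h]
      simp only [h1]
      unfold res
      rw [if_pos h, if_pos h]
      exact hu.eqn m hm j t ht
    · have h1 : ∀ s, rhs (dec K) ν α (res K (u s)) m j = 0 := by
        intro s
        rw [res_rhs K hK, if_neg h]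
      simp only [h1]
      unfold res
      rw [if_neg h, if_neg h]
      simp

/-- random sets of wave vectors -/
theorem asm6_dec (hSUM : S_SUM) (hALG : S_ALG) (hEST : S_EST) (hODE : S_ODE)
    (hRHS : S_RHS) (hCVB : S_CVB) (hPRB : S_PRB) (hTRB : S_TRB) (hANT : S_ANT)
    (hBAL : S_BAL) (hSQ : S_SQ) (hMSB : S_MSB) (hGRO : S_GRO) (hSTB : S_STB) (hFX1 : S_FX1)
    (hEEQ : S_EEQ) (hENT : S_ENT) (hSMT : S_SMT) (hCPT : S_CPT)
    (hCS : S_CS) (hIND : S_IND) (hESY : S_ESY)
    (hTAIL : S_TAIL) (hLAT : S_LAT) (hBCD : S_BCD) (a : ℝ) (ha : 0 ≤ a)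
    (Ω : Type) [MeasurableSpace Ω] (μ : Measure Ω) [IsProbabilityMeasure μ]
    (Y : Sym2 Wv → Ω → ℝ) (hY : ∀ c, Measurable (Y c)) (hi : iIndepFun Y μ)
    (hs : ∀ k, k ≠ 0 → μ {ω | Y s(k, -k) ω = 1} ≤ ENNReal.ofReal (nsq k ^ (-a / 2))) :
    ∀ᵐ ω ∂μ, ∀ ν α : ℝ, 0 < ν → 1 / 2 < α → 5 / 4 - 3 * a / 4 < α →
      (∀ u₀ : Fld, Adm u₀ → (∃ C : ℝ, ∀ n, En 0 n u₀ ≤ C) → (∀ k, k ∉ kept Y ω → u₀ k = 0) →
        ∃ u : ℝ → Fld, u 0 = u₀ ∧ (∀ t, 0 ≤ t → ∀ k, k ∉ kept Y ω → u t k = 0) ∧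
          (∀ T, 0 ≤ T → IsWeak (dec (kept Y ω)) ν α T u) ∧
          (∀ τ, 0 < τ → IsSol (dec (kept Y ω)) ν α fun t => u (τ + t)) ∧
          ∀ (T : ℝ) (v : ℝ → Fld), IsWeak (dec (kept Y ω)) ν α T v → v 0 = u₀ →
            ∀ t ∈ Set.Icc 0 T, v t = u t) ∧
      ∀ R T : ℝ, 0 ≤ T → ∃ K : ℝ, ∀ u v : ℝ → Fld, IsWeak (dec (kept Y ω)) ν α T u →
        IsWeak (dec (kept Y ω)) ν α T v → (∀ n, En 0 n (u 0) ≤ R) → (∀ n, En 0 n (v 0) ≤ R) →
        ∀ δ : ℝ, (∀ n, En 0 n (u 0 - v 0) ≤ δ) →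
          ∀ t ∈ Set.Icc 0 T, ∀ n, En 0 n (u t - v t) ≤ K * δ := by
  filter_upwards [asm5_TB hCS hIND hESY hTAIL hLAT hBCD a ha Ω μ Y hY hi hs] with ω h2
  intro ν α hν hα1 hα2
  have hκ : max 0 ((3 - 3 * a) / 2) < 2 * α - 1 := max_lt (by linarith) (by linarith)
  obtain ⟨κ, h3, h4⟩ := exists_between hκ
  have h5 : 0 < κ := lt_of_le_of_lt (le_max_left _ _) h3
  obtain ⟨w1, w2⟩ := asm5_wp hSUM hALG hEST hODE hRHS hCVB hPRB hTRB hANT hBAL hSQ hMSB hGRO hSTB
    hFX1 hEEQ hENT hSMT hCPT (dec (kept Y ω)) κ ν α (asm_arr_dec Y ω) hν h5.le (by linarith)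
    (h2 κ h3)
  refine ⟨?_, w2⟩
  intro u₀ hA hE h0
  obtain ⟨u, a1, a2, a3, a4⟩ := w1 u₀ hA hE
  have hK : ∀ k ∈ kept Y ω, -k ∈ kept Y ω := fun k hk => by
    rw [asm_kept_neg]
    exact hk
  have hz : (0 : Wv) ∉ kept Y ω := fun h => h.1 rfl
  refine ⟨u, a1, ?_, a2, a3, a4⟩
  intro t ht k hk
  have h6 := a4 t (fun t => res (kept Y ω) (u t))
    (res_weak (kept Y ω) hK hz ν α t ht u (a2 t ht)) (by
      simp only [a1]
      funext m
      unfold res
      split_ifs with h
      · rfl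
      · exact (h0 m h).symm) t ⟨ht, le_rfl⟩
  have h7 := congrFun h6 k
  rw [← h7]
  unfold res
  rw [if_neg hk]

end Pool.Agent.N983.WK
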