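import Pool.Agent.N983.WK.Stm
import Pool.Agent.N983.RT.ALG

set_option autoImplicit false

/-! (PRB) the bound for the tested nonlinear term (helper897 for helper983) -/

namespace Pool.Agent.N983.WK

open MeasureTheory ProbabilityTheory Filter Topology Pool.Agent.N983.RT

theorem prb_cut_mem {n : ℕ} {u : Fld} {k : Wv} (h : k ∈ cub n) : cut n u k = u k := by
  unfold cut
  exact if_pos h

theorem prb_cut_not {n : ℕ} {u : Fld} {k : Wv} (h : k ∉ cub n) : cut n u k = 0 := by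
  unfold cut
  exact if_neg h

theorem prb_norm (n : ℕ) (u : Fld) (k : Wv) (i : Fin 3) : ‖cut n u k i‖ ≤ ‖u k i‖ := by
  by_cases h : k ∈ cub n
  · rw [prb_cut_mem h]
  · rw [prb_cut_not h, Pi.zero_apply, norm_zero]
    exact norm_nonneg _

theorem prb_mono {n N : ℕ} (h : n ≤ N) : cub n ⊆ cub N := by
  intro k hk
  rw [alg_mem] at hk ⊢
  intro i
  have := hk i
  omega

/-- the summand -/
noncomputable def prbF (g : Wv → Wv → Wv → ℝ) (U V W : Fld) (k l : Wv) : ℂ :=
  (g k l (-(k + l)) : ℂ) * dt (U k) l * ∑ j, V l j * W (-(k + l)) j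

theorem prb_zero1 {g : Wv → Wv → Wv → ℝ} {N : ℕ} {U V W : Fld} (hV : ∀ k, k ∉ cub N → V k = 0)
    {k l : Wv} (h : l ∉ cub N) : prbF g U V W k l = 0 := by
  unfold prbF
  rw [hV l h]
  simp

theorem prb_zero2 {g : Wv → Wv → Wv → ℝ} {N : ℕ} {U V W : Fld} (hW : ∀ k, k ∉ cub N → W k = 0)
    {k l : Wv} (h : k + l ∉ cub N) : prbF g U V W k l = 0 := by
  unfold prbF
  have h1 : -(k + l) ∉ cub N := fun h2 => h (by
    have := alg_neg h2
    rwa [neg_neg] at this)
  rw [hW _ h1]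
  simp

theorem prb_form (g : Wv → Wv → Wv → ℝ) (N : ℕ) (U V W : Fld) :
    ∑ i, ∑ j, Tri (fun k l => g k l (-(k + l)) * (l i : ℝ)) N (fun k => U k i) (fun k => V k j)
      (fun k => W k j) = ∑ k ∈ cub N, ∑ l ∈ cub N, prbF g U V W k l := by
  unfold Tri
  rw [alg_comm]
  refine Finset.sum_congr rfl fun k _ => ?_
  rw [alg_comm]
  refine Finset.sum_congr rfl fun l _ => ?_
  unfold prbF dt
  rw [mul_assoc, Finset.sum_mul_sum, Finset.mul_sum]
  refine Finset.sum_congr rfl fun i _ => ?_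
  rw [Finset.mul_sum]
  refine Finset.sum_congr rfl fun j _ => ?_
  push_cast
  ring

theorem prb_shift {g : Wv → Wv → Wv → ℝ} {N : ℕ} {U V W : Fld} (hV : ∀ k, k ∉ cub N → V k = 0)
    (hW : ∀ k, k ∉ cub N → W k = 0) (k : Wv) :
    ∑ m ∈ cub N, prbF g U V W k (m - k) = ∑ l ∈ cub N, prbF g U V W k l := by
  classical
  rw [← Finset.sum_filter_of_ne (s := cub N) (p := fun m => m - k ∈ cub N)
      (f := fun m => prbF g U V W k (m - k)) (fun m _ h => by
        by_contra hc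
        exact h (prb_zero1 hV hc)),
    ← Finset.sum_filter_of_ne (s := cub N) (p := fun l => k + l ∈ cub N)
      (f := fun l => prbF g U V W k l) (fun l _ h => by
        by_contra hc
        exact h (prb_zero2 hW hc))]
  refine Finset.sum_nbij' (fun m => m - k) (fun l => k + l) ?_ ?_ ?_ ?_ ?_
  · intro m hm
    rw [Finset.mem_filter] at hm ⊢
    refine ⟨hm.2, ?_⟩
    rw [add_sub_cancel]
    exact hm.1
  · intro l hl
    rw [Finset.mem_filter] at hl ⊢
    refine ⟨hl.2, ?_⟩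
    rw [add_sub_cancel_left]
    exact hl.1
  · intro m _
    exact add_sub_cancel k m
  · intro l _
    exact add_sub_cancel_left k l
  · intro m _
    rfl

theorem prb_cv {g : Wv → Wv → Wv → ℝ} {N : ℕ} {U V : Fld} (hU : ∀ k, k ∉ cub N → U k = 0)
    (m : Wv) (j : Fin 3) :
    cv g U V m j = ∑ k ∈ cub N, (g k (m - k) (-m) : ℂ) * dt (U k) (m - k) * V (m - k) j := by
  unfold cv
  rw [tsum_eq_sum (s := cub N)]
  intro k hk
  have : dt (U k) (m - k) = 0 := by
    rw [hU k hk]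
    unfold dt
    simp
  rw [this, mul_zero, zero_mul]

theorem prb_pr {g : Wv → Wv → Wv → ℝ} {n N : ℕ} (hnN : n ≤ N) {U V w : Fld}
    (hU : ∀ k, k ∉ cub N → U k = 0) (hV : ∀ k, k ∉ cub N → V k = 0) (hw : Adm w) :
    pr g n U V w = ∑ i, ∑ j, Tri (fun k l => g k l (-(k + l)) * (l i : ℝ)) N (fun k => U k i)
      (fun k => V k j) (fun k => cut n w k j) := by
  have hW : ∀ k, k ∉ cub N → cut n w k = 0 := fun k hk =>
    prb_cut_not fun h => hk (prb_mono hnN h)
  rw [prb_form]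
  unfold pr
  have h1 : ∀ m ∈ cub n, ∑ j, (starRingEnd ℂ) (w m j) * cv g U V m j =
      ∑ k ∈ cub N, prbF g U V (cut n w) k (m - k) := by
    intro m hm
    have h3 : ∀ j, (starRingEnd ℂ) (w m j) * cv g U V m j = ∑ k ∈ cub N,
        cut n w (-m) j * ((g k (m - k) (-m) : ℂ) * dt (U k) (m - k) * V (m - k) j) := by
      intro j
      rw [prb_cut_mem (alg_neg hm), ← hw.real m j, prb_cv hU m j, Finset.mul_sum]
    rw [Finset.sum_congr rfl fun j _ => h3 j, Finset.sum_comm]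
    refine Finset.sum_congr rfl fun k _ => ?_
    unfold prbF
    rw [add_sub_cancel, Finset.mul_sum]
    exact Finset.sum_congr rfl fun j _ => by ring
  rw [Finset.sum_congr rfl h1]
  rw [Finset.sum_subset (prb_mono hnN) (fun m _ hm => Finset.sum_eq_zero fun k _ =>
    prb_zero2 (fun k hk => prb_cut_not hk) (by rw [add_sub_cancel]; exact hm))]
  rw [Finset.sum_comm]
  exact Finset.sum_congr rfl fun k _ => prb_shift hV hW k

theorem prb_N2 {N : ℕ} {u f : Fld} {a : ℝ} (ha : 0 ≤ a) (hf : ∀ k i, ‖f k i‖ ≤ ‖u k i‖)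
    (h : En 0 N u ≤ a ^ 2) (i : Fin 3) : N2 N (fun k => f k i) ≤ a := by
  unfold N2
  rw [Real.sqrt_le_left ha]
  refine le_trans ?_ h
  unfold En
  refine Finset.sum_le_sum fun k _ => ?_
  rw [pow_zero, one_mul]
  refine le_trans ?_ (Finset.single_le_sum (f := fun i => ‖u k i‖ ^ 2) (fun i _ => sq_nonneg _)
    (Finset.mem_univ i))
  exact pow_le_pow_left₀ (norm_nonneg _) (hf k i) 2

theorem prb_Nr {N : ℕ} {u f : Fld} {κ p : ℝ} (hp : 0 ≤ p) (hf : ∀ k i, ‖f k i‖ ≤ ‖u k i‖)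
    (h : Er ((1 + κ) / 2) N u ≤ p ^ 2) (i : Fin 3) : Nr κ N (fun k => f k i) ≤ p := by
  unfold Nr
  rw [Real.sqrt_le_left hp]
  refine le_trans ?_ h
  unfold Er
  refine Finset.sum_le_sum fun k _ => ?_
  have h0 : 0 ≤ nsq k ^ ((1 + κ) / 2) := by
    apply Real.rpow_nonneg
    unfold nsq
    positivity
  refine mul_le_mul_of_nonneg_left ?_ h0
  refine le_trans ?_ (Finset.single_le_sum (f := fun i => ‖u k i‖ ^ 2) (fun i _ => sq_nonneg _)
    (Finset.mem_univ i))
  exact pow_le_pow_left₀ (norm_nonneg _) (hf k i) 2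

theorem prb_alg {C A₁ A₂ A₃ B₁ B₂ B₃ a b c p q r : ℝ} (hC : 0 ≤ C) (n1 : 0 ≤ A₁) (n2 : 0 ≤ A₂)
    (n3 : 0 ≤ A₃) (m1 : 0 ≤ B₁) (m2 : 0 ≤ B₂) (m3 : 0 ≤ B₃) (a1 : A₁ ≤ a) (a2 : A₂ ≤ b)
    (a3 : A₃ ≤ c) (b1 : B₁ ≤ p) (b2 : B₂ ≤ q) (b3 : B₃ ≤ r) :
    C * (A₁ * B₂ * B₃ + A₂ * B₁ * B₃ + A₃ * B₁ * B₂) ≤ C * (a * q * r + b * p * r + c * p * q) := by
  have ha : 0 ≤ a := n1.trans a1
  have hb : 0 ≤ b := n2.trans a2
  have hc : 0 ≤ c := n3.trans a3
  have hp : 0 ≤ p := m1.trans b1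
  have hq : 0 ≤ q := m2.trans b2
  have hr : 0 ≤ r := m3.trans b3
  gcongr

theorem t_PRB : S_PRB := by
  intro hTRB hCVB g κ hg hκ hTB
  obtain ⟨C, hC, hT⟩ := hTRB g κ hκ hTB
  obtain ⟨K₁, -, hK⟩ := hCVB
  refine ⟨9 * C, by positivity, ?_⟩
  intro u v w a b c p q r ha hb hc hp hq hr hu hv hw eu ev ew pu pv pw n
  have hcut0 : ∀ (N : ℕ) (f : Fld), Adm f → ∀ i, cut N f 0 i = 0 := by
    intro N f hf i
    by_cases h : (0 : Wv) ∈ cub N
    · rw [prb_cut_mem h, hf.zero]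
      rfl
    · rw [prb_cut_not h]
      rfl
  have hbound : ∀ N, n ≤ N → ‖pr g n (cut N u) (cut N v) w‖ ≤
      9 * C * (a * q * r + b * p * r + c * p * q) := by
    intro N hN
    rw [prb_pr hN (fun k hk => prb_cut_not hk) (fun k hk => prb_cut_not hk) hw]
    have h1 : ∀ i j : Fin 3, ‖Tri (fun k l => g k l (-(k + l)) * (l i : ℝ)) N
        (fun k => cut N u k i) (fun k => cut N v k j) (fun k => cut n w k j)‖ ≤
        C * (a * q * r + b * p * r + c * p * q) := by
      intro i j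
      refine (hT N i (fun k => cut N u k i) (fun k => cut N v k j) (fun k => cut n w k j)
        (hcut0 N u hu i) (hcut0 N v hv j) (hcut0 n w hw j) (fun k hk => ⟨?_, ?_, ?_⟩)).trans ?_
      · rw [prb_cut_not hk]
        rfl
      · rw [prb_cut_not hk]
        rfl
      · rw [prb_cut_not fun h => hk (prb_mono hN h)]
        rfl
      · have a1 := prb_N2 ha (prb_norm N u) (eu N) i
        have a2 := prb_N2 hb (prb_norm N v) (ev N) j
        have a3 := prb_N2 hc (prb_norm n w) (ew N) j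
        have b1 := prb_Nr hp (prb_norm N u) (pu N) i
        have b2 := prb_Nr hq (prb_norm N v) (pv N) j
        have b3 := prb_Nr hr (prb_norm n w) (pw N) j
        have n1 : 0 ≤ N2 N (fun k => cut N u k i) := Real.sqrt_nonneg _
        have n2 : 0 ≤ N2 N (fun k => cut N v k j) := Real.sqrt_nonneg _
        have n3 : 0 ≤ N2 N (fun k => cut n w k j) := Real.sqrt_nonneg _
        have m1 : 0 ≤ Nr κ N (fun k => cut N u k i) := Real.sqrt_nonneg _
        have m2 : 0 ≤ Nr κ N (fun k => cut N v k j) := Real.sqrt_nonneg _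
        have m3 : 0 ≤ Nr κ N (fun k => cut n w k j) := Real.sqrt_nonneg _
        exact prb_alg hC n1 n2 n3 m1 m2 m3 a1 a2 a3 b1 b2 b3
    refine (norm_sum_le _ _).trans ?_
    have h2 : ∀ i ∈ (Finset.univ : Finset (Fin 3)), ‖∑ j, Tri (fun k l => g k l (-(k + l)) *
        (l i : ℝ)) N (fun k => cut N u k i) (fun k => cut N v k j) (fun k => cut n w k j)‖ ≤
        3 * (C * (a * q * r + b * p * r + c * p * q)) := by
      intro i _
      refine (norm_sum_le _ _).trans ?_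
      refine (Finset.sum_le_sum fun j _ => h1 i j).trans (le_of_eq ?_)
      rw [Finset.sum_const, Finset.card_univ, Fintype.card_fin, nsmul_eq_mul]
      norm_num
    refine (Finset.sum_le_sum h2).trans (le_of_eq ?_)
    rw [Finset.sum_const, Finset.card_univ, Fintype.card_fin, nsmul_eq_mul]
    push_cast
    ring
  have hlim : Tendsto (fun N => pr g n (cut N u) (cut N v) w) atTop (𝓝 (pr g n u v w)) := by
    unfold pr
    refine tendsto_finsetSum _ fun m _ => tendsto_finsetSum _ fun j _ => ?_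
    exact ((hK g u v a b hg.le ha hb hu.div eu ev m j).2.2).const_mul _
  refine le_of_tendsto hlim.norm ?_
  filter_upwards [eventually_ge_atTop n] with N hN
  exact hbound N hN

end Pool.Agent.N983.WK
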