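import Pool.Agent.N983.WK.Stm
import Pool.Agent.N983.RT.EST
import Pool.Agent.N983.RT.SHL

set_option autoImplicit false

/-! Project WK (helper983): the bound for the trilinear form (helper160). -/

namespace Pool.Agent.N983.WK

open Pool.Agent.N983.RT

lemma trb_Hc0 (n c : ℕ) (w : Wv → ℂ) : 0 ≤ Hc n c w := Real.sqrt_nonneg _

lemma trb_N20 (n : ℕ) (w : Wv → ℂ) : 0 ≤ N2 n w := Real.sqrt_nonneg _

lemma trb_sum {r : ℝ} (hr : 0 ≤ r) (n M : ℕ) (w : Wv → ℂ) (hw : w 0 = 0) :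
    ∑ c ∈ Finset.range M, ((2 : ℝ) ^ c) ^ r * Hc n c w ^ 2 ≤
      2 * (2 : ℝ) ^ r * ∑ k ∈ cub n, nsq k ^ (r / 2) * ‖w k‖ ^ 2 := by
  classical
  have h1 : ∀ c, ((2 : ℝ) ^ c) ^ r * Hc n c w ^ 2 = ∑ k ∈ cub n, ‖w k‖ ^ 2 *
      (if (4 : ℝ) ^ c ≤ 4 * nsq k ∧ nsq k < (4 : ℝ) ^ (c + 1) then ((2 : ℝ) ^ c) ^ r else 0) := by
    intro c
    unfold Hc
    rw [Real.sq_sqrt (Finset.sum_nonneg fun _ _ => sq_nonneg _), Finset.sum_filter,
      Finset.mul_sum]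
    refine Finset.sum_congr rfl fun k _ => ?_
    split_ifs
    · ring
    · ring
  rw [Finset.sum_congr rfl fun c _ => h1 c, Finset.sum_comm, Finset.mul_sum]
  refine Finset.sum_le_sum fun k _ => ?_
  rw [← Finset.mul_sum]
  by_cases hk : 1 ≤ nsq k
  · have h2 := est_cnt hr hk M
    calc _ ≤ ‖w k‖ ^ 2 * (2 * ((2 : ℝ) ^ r * nsq k ^ (r / 2))) :=
          mul_le_mul_of_nonneg_left h2 (sq_nonneg _)
      _ = _ := by ring
  · have h2 : k = 0 := est_one hk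
    have h3 : ‖w k‖ ^ 2 = 0 := by
      rw [h2, hw]
      simp
    rw [h3, zero_mul, mul_zero, mul_zero]

lemma trb_cs {κ : ℝ} (hκ : -1 < κ) (n M : ℕ) (y z : Wv → ℂ) (hy : y 0 = 0) (hz : z 0 = 0) :
    ∑ c ∈ Finset.range M, ((2 : ℝ) ^ c) ^ (1 + κ) * (Hc n c y * Hc n c z) ≤
      2 * (2 : ℝ) ^ (1 + κ) * (Nr κ n y * Nr κ n z) := by
  obtain ⟨K, hK⟩ : ∃ K : ℝ, K = 2 * (2 : ℝ) ^ (1 + κ) := ⟨_, rfl⟩
  have hK0 : 0 ≤ K := by rw [hK]; positivity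
  have hp : ∀ c : ℕ, 0 ≤ ((2 : ℝ) ^ c) ^ (1 + κ) := fun c => by positivity
  have h1 : ∀ w : Wv → ℂ, w 0 = 0 → Real.sqrt (∑ c ∈ Finset.range M,
      (Real.sqrt (((2 : ℝ) ^ c) ^ (1 + κ)) * Hc n c w) ^ 2) ≤ Real.sqrt K * Nr κ n w := by
    intro w hw
    unfold Nr
    rw [← Real.sqrt_mul hK0]
    apply Real.sqrt_le_sqrt
    have h2 := trb_sum (r := 1 + κ) (by linarith) n M w hw
    rw [← hK] at h2
    refine le_trans (le_of_eq (Finset.sum_congr rfl fun c _ => ?_)) h2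
    rw [mul_pow, Real.sq_sqrt (hp c)]
  have h3 := Real.sum_mul_le_sqrt_mul_sqrt (Finset.range M)
    (fun c => Real.sqrt (((2 : ℝ) ^ c) ^ (1 + κ)) * Hc n c y)
    (fun c => Real.sqrt (((2 : ℝ) ^ c) ^ (1 + κ)) * Hc n c z)
  have h4 : ∑ c ∈ Finset.range M, ((2 : ℝ) ^ c) ^ (1 + κ) * (Hc n c y * Hc n c z) =
      ∑ c ∈ Finset.range M, Real.sqrt (((2 : ℝ) ^ c) ^ (1 + κ)) * Hc n c y *
        (Real.sqrt (((2 : ℝ) ^ c) ^ (1 + κ)) * Hc n c z) := by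
    refine Finset.sum_congr rfl fun c _ => ?_
    have h5 := Real.mul_self_sqrt (hp c)
    calc ((2 : ℝ) ^ c) ^ (1 + κ) * (Hc n c y * Hc n c z) =
        (Real.sqrt (((2 : ℝ) ^ c) ^ (1 + κ)) * Real.sqrt (((2 : ℝ) ^ c) ^ (1 + κ))) *
          (Hc n c y * Hc n c z) := by rw [h5]
      _ = _ := by ring
  rw [h4]
  refine h3.trans ((mul_le_mul (h1 y hy) (h1 z hz) (Real.sqrt_nonneg _)
    (mul_nonneg (Real.sqrt_nonneg _) (Real.sqrt_nonneg _))).trans (le_of_eq ?_))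
  rw [← hK]
  have h5 := Real.mul_self_sqrt hK0
  calc Real.sqrt K * Nr κ n y * (Real.sqrt K * Nr κ n z) =
      (Real.sqrt K * Real.sqrt K) * (Nr κ n y * Nr κ n z) := by ring
    _ = _ := by rw [h5]

/-- (TRB) the bound for the trilinear form -/
theorem t_TRB : S_TRB := by
  intro g κ hκ hTB
  choose C hC0 hC using fun i : Fin 3 => hTB 0 i
  obtain ⟨K, hK⟩ : ∃ K : ℝ, K = 2 * (2 : ℝ) ^ (1 + κ) := ⟨_, rfl⟩
  have hK0 : 0 ≤ K := by rw [hK]; positivity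
  have hC1 : 0 ≤ ∑ i, C i := Finset.sum_nonneg fun i _ => hC0 i
  refine ⟨(∑ i, C i) * K, mul_nonneg hC1 hK0, ?_⟩
  intro n i x y z hx hy hz hsup
  have h0 : (fun k l : Wv => g k l (-(k + l)) * (l i : ℝ)) =
      fun k l : Wv => g k l (-(k + l)) * ((l i : ℝ) * nsq (k + l) ^ 0) := by
    funext k l
    rw [pow_zero, mul_one]
  have hexp : (1 + 2 * ((0 : ℕ) : ℝ) + κ) = 1 + κ := by push_cast; ring
  have hshell : ∀ c : ℕ,
      ‖Tri (fun k l => g k l (-(k + l)) * wgt 0 c i k l) n x y z‖ ≤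
        C i * (N2 n x * (((2 : ℝ) ^ c) ^ (1 + κ) * (Hc n c y * Hc n c z)) +
          N2 n y * (((2 : ℝ) ^ c) ^ (1 + κ) * (Hc n c x * Hc n c z)) +
          N2 n z * (((2 : ℝ) ^ c) ^ (1 + κ) * (Hc n c x * Hc n c y))) := by
    intro c
    have h1 := t_SHL g κ 0 i (C i) (hC0 i) (hC i) c n x y z hsup
    rw [hexp] at h1
    refine h1.trans (le_of_eq ?_)
    ring
  rw [h0, est_tri]
  refine (norm_sum_le _ _).trans ((Finset.sum_le_sum fun c _ => hshell c).trans ?_)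
  rw [← Finset.mul_sum, Finset.sum_add_distrib, Finset.sum_add_distrib, ← Finset.mul_sum,
    ← Finset.mul_sum, ← Finset.mul_sum]
  have a1 := trb_cs hκ n (12 * n ^ 2 + 1) y z hy hz
  have a2 := trb_cs hκ n (12 * n ^ 2 + 1) x z hx hz
  have a3 := trb_cs hκ n (12 * n ^ 2 + 1) x y hx hy
  rw [← hK] at a1 a2 a3
  have b1 := mul_le_mul_of_nonneg_left a1 (trb_N20 n x)
  have b2 := mul_le_mul_of_nonneg_left a2 (trb_N20 n y)
  have b3 := mul_le_mul_of_nonneg_left a3 (trb_N20 n z)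
  have hNr : ∀ w : Wv → ℂ, 0 ≤ Nr κ n w := fun w => Real.sqrt_nonneg _
  have hpos : 0 ≤ N2 n x * Nr κ n y * Nr κ n z + N2 n y * Nr κ n x * Nr κ n z +
      N2 n z * Nr κ n x * Nr κ n y :=
    add_nonneg (add_nonneg (mul_nonneg (mul_nonneg (trb_N20 n x) (hNr y)) (hNr z))
      (mul_nonneg (mul_nonneg (trb_N20 n y) (hNr x)) (hNr z)))
      (mul_nonneg (mul_nonneg (trb_N20 n z) (hNr x)) (hNr y))
  refine (mul_le_mul_of_nonneg_left (add_le_add (add_le_add b1 b2) b3) (hC0 i)).trans ?_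
  have hCi : C i ≤ ∑ i, C i := Finset.single_le_sum (f := C) (fun j _ => hC0 j) (Finset.mem_univ i)
  calc C i * (N2 n x * (K * (Nr κ n y * Nr κ n z)) + N2 n y * (K * (Nr κ n x * Nr κ n z)) +
        N2 n z * (K * (Nr κ n x * Nr κ n y))) =
      C i * K * (N2 n x * Nr κ n y * Nr κ n z + N2 n y * Nr κ n x * Nr κ n z +
        N2 n z * Nr κ n x * Nr κ n y) := by ring
    _ ≤ _ := mul_le_mul_of_nonneg_right (mul_le_mul_of_nonneg_right hCi hK0) hpos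

end Pool.Agent.N983.WK
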