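import Pool.Agent.N983.WK.Stm4
import Pool.Agent.N983.WK.PRB
import Pool.Agent.N983.WK.TRB

set_option autoImplicit false

/-! (VP) bound of the weighted energy production (helper398 for helper983) -/

namespace Pool.Agent.N983.WK

open MeasureTheory ProbabilityTheory Filter Topology Pool.Agent.N983.RT

/-! ### the symbol `k + l` -/

theorem vp_form (g : Wv → Wv → Wv → ℝ) (N : ℕ) (U V W : Fld) (hU : ∀ k, dt (U k) k = 0) :
    ∑ i, ∑ j, Tri (fun k l => g k l (-(k + l)) * ((k + l) i : ℝ)) N (fun k => U k i)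
      (fun k => V k j) (fun k => W k j) = ∑ k ∈ cub N, ∑ l ∈ cub N, prbF g U V W k l := by
  unfold Tri
  rw [alg_comm]
  refine Finset.sum_congr rfl fun k _ => ?_
  rw [alg_comm]
  refine Finset.sum_congr rfl fun l _ => ?_
  have h1 : dt (U k) l = dt (U k) (k + l) := by
    have h2 : dt (U k) (k + l) = dt (U k) k + dt (U k) l := by
      unfold dt
      rw [← Finset.sum_add_distrib]
      refine Finset.sum_congr rfl fun i _ => ?_
      rw [Pi.add_apply]
      push_cast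
      ring
    rw [h2, hU, zero_add]
  unfold prbF
  rw [h1]
  unfold dt
  rw [mul_assoc, Finset.sum_mul_sum, Finset.mul_sum]
  refine Finset.sum_congr rfl fun i _ => ?_
  rw [Finset.mul_sum]
  refine Finset.sum_congr rfl fun j _ => ?_
  push_cast
  ring

theorem vp_cut_dt {N : ℕ} {u : Fld} (hu : Adm u) (k : Wv) : dt (cut N u k) k = 0 := by
  by_cases h : k ∈ cub N
  · rw [prb_cut_mem h]
    exact hu.div k
  · rw [prb_cut_not h]
    unfold dt
    simp

/-! ### the weight -/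

theorem vp_nsq_neg (k : Wv) : nsq (-k) = nsq k := by
  unfold nsq
  refine Finset.sum_congr rfl fun i _ => ?_
  rw [Pi.neg_apply]
  push_cast
  ring

theorem vp_wt_pos {α ε : ℝ} (hε : 0 < ε) (k : Wv) : 0 < wt α ε k := by
  unfold wt
  have := Real.rpow_nonneg (est_nonneg k) α
  positivity

theorem vp_wt_le {α ε : ℝ} (hε : 0 < ε) (k : Wv) : wt α ε k ≤ 1 := by
  unfold wt
  have := Real.rpow_nonneg (est_nonneg k) α
  rw [div_le_one (by positivity)]
  have : 0 ≤ ε * nsq k ^ α := by positivity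
  linarith

theorem vp_wt_ratio {α ε : ℝ} (hε : 0 < ε) (hα : 0 < α) {k l : Wv} {c : ℕ}
    (hk : (4 : ℝ) ^ c ≤ 4 * nsq k) (hl : nsq l < (4 : ℝ) ^ (c + 1)) :
    wt α ε k ≤ (16 : ℝ) ^ α * wt α ε l := by
  have hk0 := est_nonneg k
  have hl0 := est_nonneg l
  have h1 : nsq l ≤ 16 * nsq k := by
    rw [pow_succ] at hl
    linarith
  have h2 : nsq l ^ α ≤ (16 : ℝ) ^ α * nsq k ^ α := by
    rw [← Real.mul_rpow (by norm_num) hk0]
    exact Real.rpow_le_rpow hl0 h1 hα.le
  have h3 : 1 ≤ (16 : ℝ) ^ α := Real.one_le_rpow (by norm_num) hα.le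
  have h4 := Real.rpow_nonneg hk0 α
  have h5 := Real.rpow_nonneg hl0 α
  unfold wt
  rw [mul_one_div, div_le_div_iff₀ (by positivity) (by positivity)]
  have h6 : ε * nsq l ^ α ≤ ε * ((16 : ℝ) ^ α * nsq k ^ α) := mul_le_mul_of_nonneg_left h2 hε.le
  nlinarith

/-- the field with the square root of the weight -/
noncomputable def vp_v (α ε : ℝ) (u : Fld) : Fld := fun k i =>
  ((Real.sqrt (wt α ε k) : ℝ) : ℂ) * u k i

/-- the field with the weight -/
noncomputable def vp_f (α ε : ℝ) (u : Fld) : Fld := fun k i => ((wt α ε k : ℝ) : ℂ) * u k i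

theorem vp_v_sq {α ε : ℝ} (hε : 0 < ε) (u : Fld) (k : Wv) :
    ∑ i, ‖vp_v α ε u k i‖ ^ 2 = wt α ε k * ∑ i, ‖u k i‖ ^ 2 := by
  rw [Finset.mul_sum]
  refine Finset.sum_congr rfl fun i _ => ?_
  unfold vp_v
  rw [norm_mul, mul_pow, Complex.norm_real, Real.norm_eq_abs, sq_abs,
    Real.sq_sqrt (vp_wt_pos hε k).le]

theorem vp_f_adm {α ε : ℝ} {u : Fld} (hu : Adm u) : Adm (vp_f α ε u) := by
  refine ⟨?_, ?_, ?_⟩
  · funext i
    unfold vp_f
    rw [hu.zero]
    simp
  · intro k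
    have h1 : dt (vp_f α ε u k) k = ((wt α ε k : ℝ) : ℂ) * dt (u k) k := by
      unfold dt vp_f
      rw [Finset.mul_sum]
      exact Finset.sum_congr rfl fun i _ => by ring
    rw [h1, hu.div, mul_zero]
  · intro k i
    unfold vp_f
    rw [map_mul, Complex.conj_ofReal, hu.real]
    have : wt α ε (-k) = wt α ε k := by
      unfold wt
      rw [vp_nsq_neg]
    rw [this]

theorem vp_nb_Hc (c n : ℕ) (x : Wv → ℂ) : nb c n x = Hc n c x := by
  unfold nb Hc
  rfl

theorem vp_Hnn (n c : ℕ) (u : Fld) : 0 ≤ est_H n c u := Finset.sum_nonneg fun _ _ =>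
    Finset.sum_nonneg fun _ _ => sq_nonneg _

/-- product of the norms of a block -/
theorem vp_block {α ε : ℝ} (hε : 0 < ε) (hα : 0 < α) (c N n : ℕ) (u : Fld) (i j : Fin 3) :
    nb c N (fun k => cut N u k i) * nb c N (fun k => cut n (vp_f α ε u) k j) ≤
      (4 : ℝ) ^ α * est_H N c (vp_v α ε u) := by
  classical
  unfold nb est_H
  set B := (cub N).filter fun k => (4 : ℝ) ^ c ≤ 4 * nsq k ∧ nsq k < (4 : ℝ) ^ (c + 1) with hB
  set a : Wv → ℝ := fun k => ∑ i, ‖u k i‖ ^ 2 with ha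
  have ha0 : ∀ k, 0 ≤ a k := fun k => Finset.sum_nonneg fun _ _ => sq_nonneg _
  have hai : ∀ k i, ‖u k i‖ ^ 2 ≤ a k := fun k i =>
    Finset.single_le_sum (f := fun i => ‖u k i‖ ^ 2) (fun _ _ => sq_nonneg _) (Finset.mem_univ i)
  have h1 : ∑ k ∈ B, ‖cut N u k i‖ ^ 2 ≤ ∑ k ∈ B, a k := by
    refine Finset.sum_le_sum fun k _ => ?_
    exact (pow_le_pow_left₀ (norm_nonneg _) (prb_norm N u k i) 2).trans (hai k i)
  have h2 : ∑ k ∈ B, ‖cut n (vp_f α ε u) k j‖ ^ 2 ≤ ∑ k ∈ B, wt α ε k ^ 2 * a k := by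
    refine Finset.sum_le_sum fun k _ => ?_
    refine (pow_le_pow_left₀ (norm_nonneg _) (prb_norm n (vp_f α ε u) k j) 2).trans ?_
    unfold vp_f
    rw [norm_mul, mul_pow, Complex.norm_real, Real.norm_eq_abs, sq_abs]
    exact mul_le_mul_of_nonneg_left (hai k j) (sq_nonneg _)
  have h3 : ∑ k ∈ B, ∑ i, ‖vp_v α ε u k i‖ ^ 2 = ∑ k ∈ B, wt α ε k * a k :=
    Finset.sum_congr rfl fun k _ => vp_v_sq hε u k
  have h4 : (∑ k ∈ B, a k) * (∑ k ∈ B, wt α ε k ^ 2 * a k) ≤
      ((4 : ℝ) ^ α * ∑ k ∈ B, wt α ε k * a k) ^ 2 := by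
    have e16 : ((4 : ℝ) ^ α) ^ 2 = (16 : ℝ) ^ α := by
      rw [← Real.rpow_natCast, ← Real.rpow_mul (by norm_num), mul_comm α, Real.rpow_mul (by norm_num)]
      norm_num
    rw [mul_pow, e16, sq (∑ k ∈ B, wt α ε k * a k), Finset.sum_mul_sum, Finset.sum_mul_sum,
      Finset.mul_sum]
    refine Finset.sum_le_sum fun l hl => ?_
    rw [Finset.mul_sum]
    refine Finset.sum_le_sum fun k hk => ?_
    rw [hB, Finset.mem_filter] at hl hk
    have h5 := vp_wt_ratio hε hα (α := α) hk.2.1 hl.2.2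
    have h6 := (vp_wt_pos (α := α) hε k).le
    have h7 := mul_le_mul_of_nonneg_left h5 (mul_nonneg h6 (mul_nonneg (ha0 k) (ha0 l)))
    calc a l * (wt α ε k ^ 2 * a k) = wt α ε k * (a k * a l) * wt α ε k := by ring
      _ ≤ _ := h7
      _ = _ := by ring
  have h5 : 0 ≤ ∑ k ∈ B, wt α ε k * a k := Finset.sum_nonneg fun k _ =>
    mul_nonneg (vp_wt_pos hε k).le (ha0 k)
  rw [h3]
  calc Real.sqrt (∑ k ∈ B, ‖cut N u k i‖ ^ 2) *
        Real.sqrt (∑ k ∈ B, ‖cut n (vp_f α ε u) k j‖ ^ 2)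
      ≤ Real.sqrt (∑ k ∈ B, a k) * Real.sqrt (∑ k ∈ B, wt α ε k ^ 2 * a k) :=
        mul_le_mul (Real.sqrt_le_sqrt h1) (Real.sqrt_le_sqrt h2) (Real.sqrt_nonneg _)
          (Real.sqrt_nonneg _)
    _ = Real.sqrt ((∑ k ∈ B, a k) * ∑ k ∈ B, wt α ε k ^ 2 * a k) :=
        (Real.sqrt_mul (Finset.sum_nonneg fun k _ => ha0 k) _).symm
    _ ≤ Real.sqrt (((4 : ℝ) ^ α * ∑ k ∈ B, wt α ε k * a k) ^ 2) := Real.sqrt_le_sqrt h4
    _ = _ := Real.sqrt_sq (by positivity)

/-- the low frequencies -/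
theorem vp_lo {α ε γ D : ℝ} (hε : 0 < ε) (hγ : 0 ≤ γ) (hαγ : 1 ≤ α + γ) (c N n : ℕ) (u : Fld)
    (hu : Adm u) (hD : ∀ N, Dw α ε N u ≤ D) (j : Fin 3) :
    lo c N (fun k => cut n (vp_f α ε u) k j) ≤ ((2 : ℝ) ^ (c + 1)) ^ γ * Real.sqrt D := by
  classical
  have hD0 : 0 ≤ D := by
    refine le_trans ?_ (hD 0)
    unfold Dw
    refine Finset.sum_nonneg fun k _ => mul_nonneg (vp_wt_pos hε k).le (mul_nonneg
      (Real.rpow_nonneg (est_nonneg k) _) (Finset.sum_nonneg fun _ _ => sq_nonneg _))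
  have hp : (0 : ℝ) ≤ ((2 : ℝ) ^ (c + 1)) ^ γ := by positivity
  unfold lo
  rw [Real.sqrt_le_left (by positivity), mul_pow, Real.sq_sqrt hD0]
  have e4 : (((2 : ℝ) ^ (c + 1)) ^ γ) ^ 2 = ((4 : ℝ) ^ (c + 1)) ^ γ := by
    rw [← Real.rpow_natCast (((2 : ℝ) ^ (c + 1)) ^ γ), ← Real.rpow_mul (by positivity), mul_comm γ,
      Real.rpow_mul (by positivity)]
    congr 1
    rw [Nat.cast_ofNat, Real.rpow_two, ← pow_mul, mul_comm (c + 1) 2, pow_mul]
    norm_num
  rw [e4]
  have hq : (0 : ℝ) ≤ ((4 : ℝ) ^ (c + 1)) ^ γ := by positivity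
  refine le_trans ?_ (mul_le_mul_of_nonneg_left (hD N) hq)
  unfold Dw
  rw [Finset.mul_sum]
  refine le_trans (Finset.sum_le_sum (g := fun k => ((4 : ℝ) ^ (c + 1)) ^ γ *
    (wt α ε k * (nsq k ^ α * ∑ i, ‖u k i‖ ^ 2))) ?_)
    (Finset.sum_le_sum_of_subset_of_nonneg (Finset.filter_subset _ _) ?_)
  · intro k hk
    rw [Finset.mem_filter] at hk
    by_cases hk1 : 1 ≤ nsq k
    · have h0 : 0 < nsq k := by linarith
      have hw := vp_wt_pos (α := α) hε k
      have hw1 := vp_wt_le (α := α) hε k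
      have hs : ‖u k j‖ ^ 2 ≤ ∑ i, ‖u k i‖ ^ 2 :=
        Finset.single_le_sum (f := fun i => ‖u k i‖ ^ 2) (fun _ _ => sq_nonneg _)
          (Finset.mem_univ j)
      have h1 : ‖cut n (vp_f α ε u) k j‖ ^ 2 ≤ wt α ε k * ∑ i, ‖u k i‖ ^ 2 := by
        refine (pow_le_pow_left₀ (norm_nonneg _) (prb_norm n (vp_f α ε u) k j) 2).trans ?_
        unfold vp_f
        rw [norm_mul, mul_pow, Complex.norm_real, Real.norm_eq_abs, sq_abs]
        have h2 : wt α ε k ^ 2 ≤ wt α ε k := by nlinarith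
        exact mul_le_mul h2 hs (sq_nonneg _) hw.le
      have h3 : nsq k ≤ ((4 : ℝ) ^ (c + 1)) ^ γ * nsq k ^ α := by
        have h4 : nsq k ≤ nsq k ^ (γ + α) := by
          conv_lhs => rw [← Real.rpow_one (nsq k)]
          exact Real.rpow_le_rpow_of_exponent_le hk1 (by linarith)
        rw [Real.rpow_add h0] at h4
        refine h4.trans (mul_le_mul_of_nonneg_right ?_ (Real.rpow_nonneg h0.le _))
        exact Real.rpow_le_rpow h0.le hk.2.le hγ
      calc nsq k * ‖cut n (vp_f α ε u) k j‖ ^ 2 ≤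
            (((4 : ℝ) ^ (c + 1)) ^ γ * nsq k ^ α) * (wt α ε k * ∑ i, ‖u k i‖ ^ 2) :=
            mul_le_mul h3 h1 (sq_nonneg _) (by positivity)
        _ = _ := by ring
    · have h2 : k = 0 := est_one hk1
      have h3 : nsq k = 0 := by
        rw [h2]
        unfold nsq
        simp
      have h4 : ∑ i, ‖u k i‖ ^ 2 = 0 := by
        rw [h2, hu.zero]
        simp
      rw [h4, h3]
      simp
  · intro k _ _
    exact mul_nonneg hq (mul_nonneg (vp_wt_pos hε k).le (mul_nonneg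
      (Real.rpow_nonneg (est_nonneg k) _) (Finset.sum_nonneg fun _ _ => sq_nonneg _)))

/-- Young's inequality -/
theorem vp_young {p α δ : ℝ} (hp : 0 ≤ p) (hpα : p < α) (hδ : 0 < δ) :
    ∃ K : ℝ, 0 ≤ K ∧ ∀ t : ℝ, 1 ≤ t → t ^ p ≤ δ * t ^ α + K := by
  have h1 : Tendsto (fun t : ℝ => t ^ (-(α - p))) atTop (𝓝 0) :=
    tendsto_rpow_neg_atTop (by linarith)
  have h2 : ∀ᶠ t : ℝ in atTop, t ^ (-(α - p)) < δ := h1.eventually (gt_mem_nhds hδ)
  obtain ⟨T, hT⟩ := (h2.and (eventually_ge_atTop (1 : ℝ))).exists_forall_of_atTop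
  have hT1 : 1 ≤ T := (hT T le_rfl).2
  refine ⟨T ^ p, by positivity, fun t ht => ?_⟩
  have ht0 : 0 < t := by linarith
  rcases le_total T t with h | h
  · have h3 := (hT t h).1
    have h4 : t ^ p = t ^ (-(α - p)) * t ^ α := by
      rw [← Real.rpow_add ht0]
      congr 1
      ring
    have h5 : 0 ≤ t ^ α := Real.rpow_nonneg ht0.le _
    have h6 : 0 ≤ T ^ p := by positivity
    rw [h4]
    nlinarith
  · have h5 : 0 ≤ t ^ α := Real.rpow_nonneg ht0.le _
    have h6 : t ^ p ≤ T ^ p := Real.rpow_le_rpow ht0.le h hp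
    nlinarith

theorem vp_zero_sum {u : Fld} (hu : Adm u) {k : Wv} (hk : ¬ 1 ≤ nsq k) :
    ∑ i, ‖u k i‖ ^ 2 = 0 := by
  rw [est_one hk, hu.zero]
  simp

theorem vp_Er_mono {u : Fld} (hu : Adm u) {r σ : ℝ} (h : r ≤ σ) (N : ℕ) :
    Er r N u ≤ Er σ N u := by
  unfold Er
  refine Finset.sum_le_sum fun k _ => ?_
  by_cases hk : 1 ≤ nsq k
  · exact mul_le_mul_of_nonneg_right (Real.rpow_le_rpow_of_exponent_le hk h)
      (Finset.sum_nonneg fun _ _ => sq_nonneg _)
  · rw [vp_zero_sum hu hk, mul_zero, mul_zero]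

theorem vp_En {u : Fld} (N : ℕ) : En 0 N u = Er 0 N u := by
  unfold En Er
  refine Finset.sum_congr rfl fun k _ => ?_
  rw [pow_zero, Real.rpow_zero]

theorem t_VP : S_VP := by
  intro hCVB hVT g ν α σ hg hTB hν hα hσ hασ A hA
  obtain ⟨K₁, -, hK⟩ := hCVB
  obtain ⟨γ, hγ⟩ : ∃ γ : ℝ, γ = max (1 - α) 0 := ⟨_, rfl⟩
  have hγ0 : 0 ≤ γ := by rw [hγ]; exact le_max_right _ _
  have hγ1 : 1 ≤ α + γ := by
    have : 1 - α ≤ γ := by rw [hγ]; exact le_max_left _ _
    linarith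
  have hγσ : γ < 2 * σ := by
    rw [hγ]
    exact max_lt (by linarith) (by linarith)
  obtain ⟨κ, hκ⟩ : ∃ κ : ℝ, κ = min (α - 1 / 2) (2 * σ - γ) := ⟨_, rfl⟩
  have hκ0 : 0 < κ := by rw [hκ]; exact lt_min (by linarith) (by linarith)
  have hκ1 : κ ≤ α - 1 / 2 := by rw [hκ]; exact min_le_left _ _
  have hκ2 : κ ≤ 2 * σ - γ := by rw [hκ]; exact min_le_right _ _
  obtain ⟨C₀, hC₀, hT⟩ := hVT g κ hg (by linarith) (hTB κ hκ0)
  have hα0 : 0 < α := by linarith
  -- constants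
  obtain ⟨a1, ha1⟩ : ∃ a1 : ℝ, a1 = 9 * C₀ * (2 * Real.sqrt A * (4 : ℝ) ^ α *
    (2 * (2 : ℝ) ^ (1 + κ))) := ⟨_, rfl⟩
  have ha10 : 0 ≤ a1 := by rw [ha1]; positivity
  obtain ⟨a2, ha2⟩ : ∃ a2 : ℝ, a2 = 9 * C₀ * ((2 : ℝ) ^ γ * (2 * (2 : ℝ) ^ (κ + γ)) * A) :=
    ⟨_, rfl⟩
  have ha20 : 0 ≤ a2 := by rw [ha2]; positivity
  obtain ⟨δ, hδ⟩ : ∃ δ : ℝ, δ = ν / (4 * (a1 + 1)) := ⟨_, rfl⟩
  have hδ0 : 0 < δ := by rw [hδ]; positivity
  have hδ1 : a1 * δ ≤ ν / 4 := by
    rw [hδ, mul_div_assoc', div_le_div_iff₀ (by positivity) (by norm_num)]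
    nlinarith
  obtain ⟨K, hK0, hY⟩ := vp_young (p := (1 + κ) / 2) (α := α) (δ := δ) (by linarith)
    (by linarith) hδ0
  refine ⟨a1 * (K * A) + a2 ^ 2 / ν, by positivity, ?_⟩
  intro ε u D hε hu hEr hD hDw n
  -- the energy
  have hE0 : ∀ N, En 0 N u ≤ A := fun N => by
    rw [vp_En]
    exact (vp_Er_mono hu hσ.le N).trans (hEr N)
  have hE1 : ∀ N, En 0 N u ≤ Real.sqrt A ^ 2 := fun N => by
    rw [Real.sq_sqrt hA]
    exact hE0 N
  have hwp : |wp g α ε n u| ≤ ‖pr g n u u (vp_f α ε u)‖ := by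
    have h1 : wp g α ε n u = (pr g n u u (vp_f α ε u)).im := by
      unfold wp pr
      congr 1
      refine Finset.sum_congr rfl fun m _ => ?_
      rw [Finset.mul_sum]
      refine Finset.sum_congr rfl fun j _ => ?_
      unfold vp_f
      rw [map_mul, Complex.conj_ofReal]
      ring
    rw [h1]
    exact Complex.abs_im_le_norm _
  refine hwp.trans ?_
  have hf := vp_f_adm (α := α) (ε := ε) hu
  have hcut0 : ∀ (N : ℕ) (f : Fld), Adm f → ∀ i, cut N f 0 i = 0 := by
    intro N f hf i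
    by_cases h : (0 : Wv) ∈ cub N
    · rw [prb_cut_mem h, hf.zero]
      rfl
    · rw [prb_cut_not h]
      rfl
  have hbound : ∀ N, n ≤ N → ‖pr g n (cut N u) (cut N u) (vp_f α ε u)‖ ≤
      ν / 2 * D + (a1 * (K * A) + a2 ^ 2 / ν) := by
    intro N hN
    -- the two sums over the blocks
    have hv0 : vp_v α ε u 0 = 0 := by
      funext i
      unfold vp_v
      rw [hu.zero]
      simp
    have hs1 : ∑ c ∈ Finset.range (N + 1), ((2 : ℝ) ^ c) ^ (1 + κ) * est_H N c (vp_v α ε u) ≤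
        2 * (2 : ℝ) ^ (1 + κ) * (δ * D + K * A) := by
      refine (est_sum (r := 1 + κ) (by linarith) N (N + 1) (vp_v α ε u) hv0).trans ?_
      refine mul_le_mul_of_nonneg_left ?_ (by positivity)
      have h1 : Er ((1 + κ) / 2) N (vp_v α ε u) ≤ δ * Dw α ε N u + K * En 0 N u := by
        unfold Er Dw En
        rw [Finset.mul_sum, Finset.mul_sum, ← Finset.sum_add_distrib]
        refine Finset.sum_le_sum fun k _ => ?_
        rw [vp_v_sq hε, pow_zero, one_mul]
        by_cases hk : 1 ≤ nsq k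
        · have h2 := hY _ hk
          have hw := vp_wt_pos (α := α) hε k
          have hw1 := vp_wt_le (α := α) hε k
          have hs : 0 ≤ ∑ i, ‖u k i‖ ^ 2 := Finset.sum_nonneg fun _ _ => sq_nonneg _
          have h3 := mul_le_mul_of_nonneg_right h2 (mul_nonneg hw.le hs)
          have h4 : K * (wt α ε k * ∑ i, ‖u k i‖ ^ 2) ≤ K * ∑ i, ‖u k i‖ ^ 2 := by
            refine mul_le_mul_of_nonneg_left ?_ hK0
            have := mul_le_mul_of_nonneg_right hw1 hs
            linarith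
          calc nsq k ^ ((1 + κ) / 2) * (wt α ε k * ∑ i, ‖u k i‖ ^ 2) ≤
                (δ * nsq k ^ α + K) * (wt α ε k * ∑ i, ‖u k i‖ ^ 2) := h3
            _ = δ * (wt α ε k * (nsq k ^ α * ∑ i, ‖u k i‖ ^ 2)) +
                K * (wt α ε k * ∑ i, ‖u k i‖ ^ 2) := by ring
            _ ≤ _ := by linarith
        · rw [vp_zero_sum hu hk]
          simp
      refine h1.trans ?_
      have h2 := mul_le_mul_of_nonneg_left (hDw N) hδ0.le
      have h3 := mul_le_mul_of_nonneg_left (hE0 N) hK0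
      linarith
    have hs2 : ∑ c ∈ Finset.range (N + 1), ((2 : ℝ) ^ c) ^ (κ + γ) * est_H N c u ≤
        2 * (2 : ℝ) ^ (κ + γ) * A := by
      refine (est_sum (r := κ + γ) (by linarith) N (N + 1) u hu.zero).trans ?_
      refine mul_le_mul_of_nonneg_left ?_ (by positivity)
      exact (vp_Er_mono hu (by linarith) N).trans (hEr N)
    have hTri : ∀ i j : Fin 3, ‖Tri (fun k l => g k l (-(k + l)) * ((k + l) i : ℝ)) N
        (fun k => cut N u k i) (fun k => cut N u k j) (fun k => cut n (vp_f α ε u) k j)‖ ≤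
        C₀ * (2 * Real.sqrt A * (4 : ℝ) ^ α * (2 * (2 : ℝ) ^ (1 + κ) * (δ * D + K * A)) +
          (2 : ℝ) ^ γ * Real.sqrt D * (2 * (2 : ℝ) ^ (κ + γ) * A)) := by
      intro i j
      refine (hT N i (fun k => cut N u k i) (fun k => cut N u k j)
        (fun k => cut n (vp_f α ε u) k j) (hcut0 N u hu i) (hcut0 N u hu j)
        (hcut0 n _ hf j) (fun k hk => ⟨?_, ?_, ?_⟩)).trans ?_
      · rw [prb_cut_not hk]
        rfl
      · rw [prb_cut_not hk]
        rfl
      · rw [prb_cut_not fun h => hk (prb_mono hN h)]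
        rfl
      · refine mul_le_mul_of_nonneg_left ?_ hC₀
        have q1 : N2 N (fun k => cut N u k i) ≤ Real.sqrt A :=
          prb_N2 (Real.sqrt_nonneg A) (prb_norm N u) (hE1 N) i
        have q2 : N2 N (fun k => cut N u k j) ≤ Real.sqrt A :=
          prb_N2 (Real.sqrt_nonneg A) (prb_norm N u) (hE1 N) j
        have n1 : 0 ≤ N2 N (fun k => cut N u k i) := Real.sqrt_nonneg _
        have n2 : 0 ≤ N2 N (fun k => cut N u k j) := Real.sqrt_nonneg _
        have hc : ∀ c ∈ Finset.range (N + 1),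
            ((2 : ℝ) ^ c) ^ (1 + κ) * (N2 N (fun k => cut N u k i) *
              nb c N (fun k => cut N u k j) + nb c N (fun k => cut N u k i) *
              N2 N (fun k => cut N u k j)) * nb c N (fun k => cut n (vp_f α ε u) k j) +
            ((2 : ℝ) ^ c) ^ κ * (nb c N (fun k => cut N u k i) *
              nb c N (fun k => cut N u k j)) * lo c N (fun k => cut n (vp_f α ε u) k j) ≤
            2 * Real.sqrt A * (4 : ℝ) ^ α * (((2 : ℝ) ^ c) ^ (1 + κ) *
              est_H N c (vp_v α ε u)) +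
            (2 : ℝ) ^ γ * Real.sqrt D * (((2 : ℝ) ^ c) ^ (κ + γ) * est_H N c u) := by
          intro c _
          have b1 := vp_block hε hα0 c N n u i j
          have b2 := vp_block hε hα0 c N n u j j
          have b3 := vp_lo hε hγ0 hγ1 c N n u hu hDw j
          have m1 : 0 ≤ nb c N (fun k => cut N u k i) := Real.sqrt_nonneg _
          have m2 : 0 ≤ nb c N (fun k => cut N u k j) := Real.sqrt_nonneg _
          have m3 : 0 ≤ nb c N (fun k => cut n (vp_f α ε u) k j) := Real.sqrt_nonneg _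
          have m4 : 0 ≤ lo c N (fun k => cut n (vp_f α ε u) k j) := Real.sqrt_nonneg _
          have b4 : nb c N (fun k => cut N u k i) * nb c N (fun k => cut N u k j) ≤
              est_H N c u := by
            rw [vp_nb_Hc, vp_nb_Hc]
            refine (est_Hc2 N c (cut N u) i j).trans ?_
            unfold est_H
            refine Finset.sum_le_sum fun k _ => Finset.sum_le_sum fun i _ => ?_
            exact pow_le_pow_left₀ (norm_nonneg _) (prb_norm N u k i) 2
          have p1 : (0 : ℝ) ≤ ((2 : ℝ) ^ c) ^ (1 + κ) := by positivity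
          have p2 : (0 : ℝ) ≤ ((2 : ℝ) ^ c) ^ κ := by positivity
          have hH1 := vp_Hnn N c (vp_v α ε u)
          have hH2 := vp_Hnn N c u
          have c1 : (N2 N (fun k => cut N u k i) * nb c N (fun k => cut N u k j) +
              nb c N (fun k => cut N u k i) * N2 N (fun k => cut N u k j)) *
              nb c N (fun k => cut n (vp_f α ε u) k j) ≤
              2 * Real.sqrt A * ((4 : ℝ) ^ α * est_H N c (vp_v α ε u)) := by
            have d1 : N2 N (fun k => cut N u k i) * (nb c N (fun k => cut N u k j) *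
                nb c N (fun k => cut n (vp_f α ε u) k j)) ≤
                Real.sqrt A * ((4 : ℝ) ^ α * est_H N c (vp_v α ε u)) :=
              mul_le_mul q1 b2 (mul_nonneg m2 m3) (Real.sqrt_nonneg _)
            have d2 : N2 N (fun k => cut N u k j) * (nb c N (fun k => cut N u k i) *
                nb c N (fun k => cut n (vp_f α ε u) k j)) ≤
                Real.sqrt A * ((4 : ℝ) ^ α * est_H N c (vp_v α ε u)) :=
              mul_le_mul q2 b1 (mul_nonneg m1 m3) (Real.sqrt_nonneg _)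
            calc _ = N2 N (fun k => cut N u k i) * (nb c N (fun k => cut N u k j) *
                  nb c N (fun k => cut n (vp_f α ε u) k j)) +
                  N2 N (fun k => cut N u k j) * (nb c N (fun k => cut N u k i) *
                  nb c N (fun k => cut n (vp_f α ε u) k j)) := by ring
              _ ≤ _ := by linarith
          have c2 : (nb c N (fun k => cut N u k i) * nb c N (fun k => cut N u k j)) *
              lo c N (fun k => cut n (vp_f α ε u) k j) ≤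
              est_H N c u * (((2 : ℝ) ^ (c + 1)) ^ γ * Real.sqrt D) :=
            mul_le_mul b4 b3 m4 hH2
          have c3 : ((2 : ℝ) ^ c) ^ κ * ((2 : ℝ) ^ (c + 1)) ^ γ =
              (2 : ℝ) ^ γ * ((2 : ℝ) ^ c) ^ (κ + γ) := by
            rw [pow_succ, Real.mul_rpow (by positivity) (by norm_num), Real.rpow_add (by positivity)]
            ring
          have e1 := mul_le_mul_of_nonneg_left c1 p1
          have e2 := mul_le_mul_of_nonneg_left c2 p2
          calc _ = ((2 : ℝ) ^ c) ^ (1 + κ) * ((N2 N (fun k => cut N u k i) *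
                nb c N (fun k => cut N u k j) + nb c N (fun k => cut N u k i) *
                N2 N (fun k => cut N u k j)) * nb c N (fun k => cut n (vp_f α ε u) k j)) +
                ((2 : ℝ) ^ c) ^ κ * ((nb c N (fun k => cut N u k i) *
                nb c N (fun k => cut N u k j)) *
                lo c N (fun k => cut n (vp_f α ε u) k j)) := by ring
            _ ≤ ((2 : ℝ) ^ c) ^ (1 + κ) * (2 * Real.sqrt A * ((4 : ℝ) ^ α *
                est_H N c (vp_v α ε u))) + ((2 : ℝ) ^ c) ^ κ * (est_H N c u *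
                (((2 : ℝ) ^ (c + 1)) ^ γ * Real.sqrt D)) := add_le_add e1 e2
            _ = 2 * Real.sqrt A * (4 : ℝ) ^ α * (((2 : ℝ) ^ c) ^ (1 + κ) *
                est_H N c (vp_v α ε u)) + (((2 : ℝ) ^ c) ^ κ * ((2 : ℝ) ^ (c + 1)) ^ γ) *
                (Real.sqrt D * est_H N c u) := by ring
            _ = _ := by rw [c3]; ring
        refine (Finset.sum_le_sum hc).trans ?_
        rw [Finset.sum_add_distrib, ← Finset.mul_sum, ← Finset.mul_sum]
        exact add_le_add (mul_le_mul_of_nonneg_left hs1 (by positivity))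
          (mul_le_mul_of_nonneg_left hs2 (by positivity))
    rw [prb_pr hN (fun k hk => prb_cut_not hk) (fun k hk => prb_cut_not hk) hf, prb_form,
      ← vp_form g N (cut N u) (cut N u) (cut n (vp_f α ε u)) (fun k => vp_cut_dt hu k)]
    refine (norm_sum_le _ _).trans ?_
    obtain ⟨Q, hQ⟩ : ∃ Q : ℝ, Q = C₀ * (2 * Real.sqrt A * (4 : ℝ) ^ α *
      (2 * (2 : ℝ) ^ (1 + κ) * (δ * D + K * A)) +
          (2 : ℝ) ^ γ * Real.sqrt D * (2 * (2 : ℝ) ^ (κ + γ) * A)) := ⟨_, rfl⟩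
    rw [← hQ] at hTri
    have h2 : ∀ i ∈ (Finset.univ : Finset (Fin 3)), ‖∑ j, Tri (fun k l => g k l (-(k + l)) *
        ((k + l) i : ℝ)) N (fun k => cut N u k i) (fun k => cut N u k j)
        (fun k => cut n (vp_f α ε u) k j)‖ ≤ 3 * Q := by
      intro i _
      refine (norm_sum_le _ _).trans ?_
      refine (Finset.sum_le_sum fun j _ => hTri i j).trans (le_of_eq ?_)
      rw [Finset.sum_const, Finset.card_univ, Fintype.card_fin, nsmul_eq_mul]
      norm_num
    refine (Finset.sum_le_sum h2).trans ?_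
    rw [Finset.sum_const, Finset.card_univ, Fintype.card_fin, nsmul_eq_mul]
    have h3 : ((3 : ℕ) : ℝ) * (3 * Q) = a1 * δ * D + a1 * (K * A) + a2 * Real.sqrt D := by
      rw [hQ, ha1, ha2]
      push_cast
      ring
    rw [h3]
    have h4 : a1 * δ * D ≤ ν / 4 * D := mul_le_mul_of_nonneg_right hδ1 hD
    have h5 : a2 * Real.sqrt D ≤ ν / 4 * D + a2 ^ 2 / ν := by
      have h6 : 0 ≤ (ν * Real.sqrt D - 2 * a2) ^ 2 := sq_nonneg _
      have h7 : Real.sqrt D ^ 2 = D := Real.sq_sqrt hD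
      have h8 : 0 ≤ ν ^ 2 * D - 4 * ν * a2 * Real.sqrt D + 4 * a2 ^ 2 := by
        calc 0 ≤ _ := h6
          _ = ν ^ 2 * Real.sqrt D ^ 2 - 4 * ν * a2 * Real.sqrt D + 4 * a2 ^ 2 := by ring
          _ = _ := by rw [h7]
      have h9 : ν / 4 * D + a2 ^ 2 / ν - a2 * Real.sqrt D =
          (ν ^ 2 * D - 4 * ν * a2 * Real.sqrt D + 4 * a2 ^ 2) / (4 * ν) := by
        field_simp
        ring
      have h10 : 0 ≤ (ν ^ 2 * D - 4 * ν * a2 * Real.sqrt D + 4 * a2 ^ 2) / (4 * ν) := by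
        positivity
      linarith
    linarith
  have hlim : Tendsto (fun N => pr g n (cut N u) (cut N u) (vp_f α ε u)) atTop
      (𝓝 (pr g n u u (vp_f α ε u))) := by
    unfold pr
    refine tendsto_finsetSum _ fun m _ => tendsto_finsetSum _ fun j _ => ?_
    exact ((hK g u u (Real.sqrt A) (Real.sqrt A) hg.le (Real.sqrt_nonneg _) (Real.sqrt_nonneg _)
      hu.div hE1 hE1 m j).2.2).const_mul _
  refine le_of_tendsto hlim.norm ?_
  filter_upwards [eventually_ge_atTop n] with N hN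
  exact hbound N hN

end Pool.Agent.N983.WK
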