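import Pool.Agent.N983.WK.Stm4
import Pool.Agent.N983.WK.PRB
import Pool.Agent.N983.WK.TRB
import Pool.Agent.N983.WK.VP

set_option autoImplicit false

/-! (VP) bound of the weighted energy production (helper398 for helper983) -/

namespace Pool.Agent.N983.WK

open MeasureTheory ProbabilityTheory Filter Topology Pool.Agent.N983.RT

/-! ### the symbol `k + l` -/

/-- bound of the weighted energy production, one exponent -/
theorem vpk (hCVB : S_CVB) (hVT : S_VT) (g : Wv → Wv → Wv → ℝ) (ν α σ κ : ℝ) (hg : Arr g)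
    (hTB : TB g κ) (hν : 0 < ν) (hα : 1 / 2 < α) (hσ : 0 < σ) (hκ0 : 0 < κ)
    (hκ1 : (1 + κ) / 2 < α) (hκ2 : κ + max (1 - α) 0 ≤ 2 * σ) : WPB g ν α σ := by
  intro A hA
  obtain ⟨K₁, -, hK⟩ := hCVB
  obtain ⟨γ, hγ⟩ : ∃ γ : ℝ, γ = max (1 - α) 0 := ⟨_, rfl⟩
  have hγ0 : 0 ≤ γ := by rw [hγ]; exact le_max_right _ _
  have hγ1 : 1 ≤ α + γ := by
    have : 1 - α ≤ γ := by rw [hγ]; exact le_max_left _ _
    linarith
  have hκ2 : κ ≤ 2 * σ - γ := by rw [hγ]; linarith
  obtain ⟨C₀, hC₀, hT⟩ := hVT g κ hg (by linarith) hTB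
  have hα0 : 0 < α := by linarith
  -- constants
  obtain ⟨a1, ha1⟩ : ∃ a1 : ℝ, a1 = 9 * C₀ * (2 * Real.sqrt A * (4 : ℝ) ^ α *
    (2 * (2 : ℝ) ^ (1 + κ))) := ⟨_, rfl⟩
  have ha10 : 0 ≤ a1 := by rw [ha1]; positivity
  obtain ⟨a2, ha2⟩ : ∃ a2 : ℝ, a2 = 9 * C₀ * ((2 : ℝ) ^ γ * (2 * (2 : ℝ) ^ (κ + γ)) * A) :=
    ⟨_, rfl⟩
  have ha20 : 0 ≤ a2 := by rw [ha2]; positivity
  obtain ⟨δ, hδ⟩ : ∃ δ : ℝ, δ = ν / (4 * (a1 + 1)) := ⟨_, rfl⟩
  have hδ0 : 0 < δ := by rw [hδ]; positivity
  have hδ1 : a1 * δ ≤ ν / 4 := by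
    rw [hδ, mul_div_assoc', div_le_div_iff₀ (by positivity) (by norm_num)]
    nlinarith
  obtain ⟨K, hK0, hY⟩ := vp_young (p := (1 + κ) / 2) (α := α) (δ := δ) (by linarith)
    (by linarith) hδ0
  refine ⟨a1 * (K * A) + a2 ^ 2 / ν, by positivity, ?_⟩
  intro ε u D hε hu hEr hD hDw n
  -- the energy
  have hE0 : ∀ N, En 0 N u ≤ A := fun N => by
    rw [vp_En]
    exact (vp_Er_mono hu hσ.le N).trans (hEr N)
  have hE1 : ∀ N, En 0 N u ≤ Real.sqrt A ^ 2 := fun N => by
    rw [Real.sq_sqrt hA]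
    exact hE0 N
  have hwp : |wp g α ε n u| ≤ ‖pr g n u u (vp_f α ε u)‖ := by
    have h1 : wp g α ε n u = (pr g n u u (vp_f α ε u)).im := by
      unfold wp pr
      congr 1
      refine Finset.sum_congr rfl fun m _ => ?_
      rw [Finset.mul_sum]
      refine Finset.sum_congr rfl fun j _ => ?_
      unfold vp_f
      rw [map_mul, Complex.conj_ofReal]
      ring
    rw [h1]
    exact Complex.abs_im_le_norm _
  refine hwp.trans ?_
  have hf := vp_f_adm (α := α) (ε := ε) hu
  have hcut0 : ∀ (N : ℕ) (f : Fld), Adm f → ∀ i, cut N f 0 i = 0 := by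
    intro N f hf i
    by_cases h : (0 : Wv) ∈ cub N
    · rw [prb_cut_mem h, hf.zero]
      rfl
    · rw [prb_cut_not h]
      rfl
  have hbound : ∀ N, n ≤ N → ‖pr g n (cut N u) (cut N u) (vp_f α ε u)‖ ≤
      ν / 2 * D + (a1 * (K * A) + a2 ^ 2 / ν) := by
    intro N hN
    -- the two sums over the blocks
    have hv0 : vp_v α ε u 0 = 0 := by
      funext i
      unfold vp_v
      rw [hu.zero]
      simp
    have hs1 : ∑ c ∈ Finset.range (N + 1), ((2 : ℝ) ^ c) ^ (1 + κ) * est_H N c (vp_v α ε u) ≤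
        2 * (2 : ℝ) ^ (1 + κ) * (δ * D + K * A) := by
      refine (est_sum (r := 1 + κ) (by linarith) N (N + 1) (vp_v α ε u) hv0).trans ?_
      refine mul_le_mul_of_nonneg_left ?_ (by positivity)
      have h1 : Er ((1 + κ) / 2) N (vp_v α ε u) ≤ δ * Dw α ε N u + K * En 0 N u := by
        unfold Er Dw En
        rw [Finset.mul_sum, Finset.mul_sum, ← Finset.sum_add_distrib]
        refine Finset.sum_le_sum fun k _ => ?_
        rw [vp_v_sq hε, pow_zero, one_mul]
        by_cases hk : 1 ≤ nsq k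
        · have h2 := hY _ hk
          have hw := vp_wt_pos (α := α) hε k
          have hw1 := vp_wt_le (α := α) hε k
          have hs : 0 ≤ ∑ i, ‖u k i‖ ^ 2 := Finset.sum_nonneg fun _ _ => sq_nonneg _
          have h3 := mul_le_mul_of_nonneg_right h2 (mul_nonneg hw.le hs)
          have h4 : K * (wt α ε k * ∑ i, ‖u k i‖ ^ 2) ≤ K * ∑ i, ‖u k i‖ ^ 2 := by
            refine mul_le_mul_of_nonneg_left ?_ hK0
            have := mul_le_mul_of_nonneg_right hw1 hs
            linarith
          calc nsq k ^ ((1 + κ) / 2) * (wt α ε k * ∑ i, ‖u k i‖ ^ 2) ≤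
                (δ * nsq k ^ α + K) * (wt α ε k * ∑ i, ‖u k i‖ ^ 2) := h3
            _ = δ * (wt α ε k * (nsq k ^ α * ∑ i, ‖u k i‖ ^ 2)) +
                K * (wt α ε k * ∑ i, ‖u k i‖ ^ 2) := by ring
            _ ≤ _ := by linarith
        · rw [vp_zero_sum hu hk]
          simp
      refine h1.trans ?_
      have h2 := mul_le_mul_of_nonneg_left (hDw N) hδ0.le
      have h3 := mul_le_mul_of_nonneg_left (hE0 N) hK0
      linarith
    have hs2 : ∑ c ∈ Finset.range (N + 1), ((2 : ℝ) ^ c) ^ (κ + γ) * est_H N c u ≤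
        2 * (2 : ℝ) ^ (κ + γ) * A := by
      refine (est_sum (r := κ + γ) (by linarith) N (N + 1) u hu.zero).trans ?_
      refine mul_le_mul_of_nonneg_left ?_ (by positivity)
      exact (vp_Er_mono hu (by linarith) N).trans (hEr N)
    have hTri : ∀ i j : Fin 3, ‖Tri (fun k l => g k l (-(k + l)) * ((k + l) i : ℝ)) N
        (fun k => cut N u k i) (fun k => cut N u k j) (fun k => cut n (vp_f α ε u) k j)‖ ≤
        C₀ * (2 * Real.sqrt A * (4 : ℝ) ^ α * (2 * (2 : ℝ) ^ (1 + κ) * (δ * D + K * A)) +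
          (2 : ℝ) ^ γ * Real.sqrt D * (2 * (2 : ℝ) ^ (κ + γ) * A)) := by
      intro i j
      refine (hT N i (fun k => cut N u k i) (fun k => cut N u k j)
        (fun k => cut n (vp_f α ε u) k j) (hcut0 N u hu i) (hcut0 N u hu j)
        (hcut0 n _ hf j) (fun k hk => ⟨?_, ?_, ?_⟩)).trans ?_
      · rw [prb_cut_not hk]
        rfl
      · rw [prb_cut_not hk]
        rfl
      · rw [prb_cut_not fun h => hk (prb_mono hN h)]
        rfl
      · refine mul_le_mul_of_nonneg_left ?_ hC₀
        have q1 : N2 N (fun k => cut N u k i) ≤ Real.sqrt A :=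
          prb_N2 (Real.sqrt_nonneg A) (prb_norm N u) (hE1 N) i
        have q2 : N2 N (fun k => cut N u k j) ≤ Real.sqrt A :=
          prb_N2 (Real.sqrt_nonneg A) (prb_norm N u) (hE1 N) j
        have n1 : 0 ≤ N2 N (fun k => cut N u k i) := Real.sqrt_nonneg _
        have n2 : 0 ≤ N2 N (fun k => cut N u k j) := Real.sqrt_nonneg _
        have hc : ∀ c ∈ Finset.range (N + 1),
            ((2 : ℝ) ^ c) ^ (1 + κ) * (N2 N (fun k => cut N u k i) *
              nb c N (fun k => cut N u k j) + nb c N (fun k => cut N u k i) *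
              N2 N (fun k => cut N u k j)) * nb c N (fun k => cut n (vp_f α ε u) k j) +
            ((2 : ℝ) ^ c) ^ κ * (nb c N (fun k => cut N u k i) *
              nb c N (fun k => cut N u k j)) * lo c N (fun k => cut n (vp_f α ε u) k j) ≤
            2 * Real.sqrt A * (4 : ℝ) ^ α * (((2 : ℝ) ^ c) ^ (1 + κ) *
              est_H N c (vp_v α ε u)) +
            (2 : ℝ) ^ γ * Real.sqrt D * (((2 : ℝ) ^ c) ^ (κ + γ) * est_H N c u) := by
          intro c _
          have b1 := vp_block hε hα0 c N n u i j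
          have b2 := vp_block hε hα0 c N n u j j
          have b3 := vp_lo hε hγ0 hγ1 c N n u hu hDw j
          have m1 : 0 ≤ nb c N (fun k => cut N u k i) := Real.sqrt_nonneg _
          have m2 : 0 ≤ nb c N (fun k => cut N u k j) := Real.sqrt_nonneg _
          have m3 : 0 ≤ nb c N (fun k => cut n (vp_f α ε u) k j) := Real.sqrt_nonneg _
          have m4 : 0 ≤ lo c N (fun k => cut n (vp_f α ε u) k j) := Real.sqrt_nonneg _
          have b4 : nb c N (fun k => cut N u k i) * nb c N (fun k => cut N u k j) ≤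
              est_H N c u := by
            rw [vp_nb_Hc, vp_nb_Hc]
            refine (est_Hc2 N c (cut N u) i j).trans ?_
            unfold est_H
            refine Finset.sum_le_sum fun k _ => Finset.sum_le_sum fun i _ => ?_
            exact pow_le_pow_left₀ (norm_nonneg _) (prb_norm N u k i) 2
          have p1 : (0 : ℝ) ≤ ((2 : ℝ) ^ c) ^ (1 + κ) := by positivity
          have p2 : (0 : ℝ) ≤ ((2 : ℝ) ^ c) ^ κ := by positivity
          have hH1 := vp_Hnn N c (vp_v α ε u)
          have hH2 := vp_Hnn N c u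
          have c1 : (N2 N (fun k => cut N u k i) * nb c N (fun k => cut N u k j) +
              nb c N (fun k => cut N u k i) * N2 N (fun k => cut N u k j)) *
              nb c N (fun k => cut n (vp_f α ε u) k j) ≤
              2 * Real.sqrt A * ((4 : ℝ) ^ α * est_H N c (vp_v α ε u)) := by
            have d1 : N2 N (fun k => cut N u k i) * (nb c N (fun k => cut N u k j) *
                nb c N (fun k => cut n (vp_f α ε u) k j)) ≤
                Real.sqrt A * ((4 : ℝ) ^ α * est_H N c (vp_v α ε u)) :=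
              mul_le_mul q1 b2 (mul_nonneg m2 m3) (Real.sqrt_nonneg _)
            have d2 : N2 N (fun k => cut N u k j) * (nb c N (fun k => cut N u k i) *
                nb c N (fun k => cut n (vp_f α ε u) k j)) ≤
                Real.sqrt A * ((4 : ℝ) ^ α * est_H N c (vp_v α ε u)) :=
              mul_le_mul q2 b1 (mul_nonneg m1 m3) (Real.sqrt_nonneg _)
            calc _ = N2 N (fun k => cut N u k i) * (nb c N (fun k => cut N u k j) *
                  nb c N (fun k => cut n (vp_f α ε u) k j)) +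
                  N2 N (fun k => cut N u k j) * (nb c N (fun k => cut N u k i) *
                  nb c N (fun k => cut n (vp_f α ε u) k j)) := by ring
              _ ≤ _ := by linarith
          have c2 : (nb c N (fun k => cut N u k i) * nb c N (fun k => cut N u k j)) *
              lo c N (fun k => cut n (vp_f α ε u) k j) ≤
              est_H N c u * (((2 : ℝ) ^ (c + 1)) ^ γ * Real.sqrt D) :=
            mul_le_mul b4 b3 m4 hH2
          have c3 : ((2 : ℝ) ^ c) ^ κ * ((2 : ℝ) ^ (c + 1)) ^ γ =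
              (2 : ℝ) ^ γ * ((2 : ℝ) ^ c) ^ (κ + γ) := by
            rw [pow_succ, Real.mul_rpow (by positivity) (by norm_num), Real.rpow_add (by positivity)]
            ring
          have e1 := mul_le_mul_of_nonneg_left c1 p1
          have e2 := mul_le_mul_of_nonneg_left c2 p2
          calc _ = ((2 : ℝ) ^ c) ^ (1 + κ) * ((N2 N (fun k => cut N u k i) *
                nb c N (fun k => cut N u k j) + nb c N (fun k => cut N u k i) *
                N2 N (fun k => cut N u k j)) * nb c N (fun k => cut n (vp_f α ε u) k j)) +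
                ((2 : ℝ) ^ c) ^ κ * ((nb c N (fun k => cut N u k i) *
                nb c N (fun k => cut N u k j)) *
                lo c N (fun k => cut n (vp_f α ε u) k j)) := by ring
            _ ≤ ((2 : ℝ) ^ c) ^ (1 + κ) * (2 * Real.sqrt A * ((4 : ℝ) ^ α *
                est_H N c (vp_v α ε u))) + ((2 : ℝ) ^ c) ^ κ * (est_H N c u *
                (((2 : ℝ) ^ (c + 1)) ^ γ * Real.sqrt D)) := add_le_add e1 e2
            _ = 2 * Real.sqrt A * (4 : ℝ) ^ α * (((2 : ℝ) ^ c) ^ (1 + κ) *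
                est_H N c (vp_v α ε u)) + (((2 : ℝ) ^ c) ^ κ * ((2 : ℝ) ^ (c + 1)) ^ γ) *
                (Real.sqrt D * est_H N c u) := by ring
            _ = _ := by rw [c3]; ring
        refine (Finset.sum_le_sum hc).trans ?_
        rw [Finset.sum_add_distrib, ← Finset.mul_sum, ← Finset.mul_sum]
        exact add_le_add (mul_le_mul_of_nonneg_left hs1 (by positivity))
          (mul_le_mul_of_nonneg_left hs2 (by positivity))
    rw [prb_pr hN (fun k hk => prb_cut_not hk) (fun k hk => prb_cut_not hk) hf, prb_form,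
      ← vp_form g N (cut N u) (cut N u) (cut n (vp_f α ε u)) (fun k => vp_cut_dt hu k)]
    refine (norm_sum_le _ _).trans ?_
    obtain ⟨Q, hQ⟩ : ∃ Q : ℝ, Q = C₀ * (2 * Real.sqrt A * (4 : ℝ) ^ α *
      (2 * (2 : ℝ) ^ (1 + κ) * (δ * D + K * A)) +
          (2 : ℝ) ^ γ * Real.sqrt D * (2 * (2 : ℝ) ^ (κ + γ) * A)) := ⟨_, rfl⟩
    rw [← hQ] at hTri
    have h2 : ∀ i ∈ (Finset.univ : Finset (Fin 3)), ‖∑ j, Tri (fun k l => g k l (-(k + l)) *
        ((k + l) i : ℝ)) N (fun k => cut N u k i) (fun k => cut N u k j)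
        (fun k => cut n (vp_f α ε u) k j)‖ ≤ 3 * Q := by
      intro i _
      refine (norm_sum_le _ _).trans ?_
      refine (Finset.sum_le_sum fun j _ => hTri i j).trans (le_of_eq ?_)
      rw [Finset.sum_const, Finset.card_univ, Fintype.card_fin, nsmul_eq_mul]
      norm_num
    refine (Finset.sum_le_sum h2).trans ?_
    rw [Finset.sum_const, Finset.card_univ, Fintype.card_fin, nsmul_eq_mul]
    have h3 : ((3 : ℕ) : ℝ) * (3 * Q) = a1 * δ * D + a1 * (K * A) + a2 * Real.sqrt D := by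
      rw [hQ, ha1, ha2]
      push_cast
      ring
    rw [h3]
    have h4 : a1 * δ * D ≤ ν / 4 * D := mul_le_mul_of_nonneg_right hδ1 hD
    have h5 : a2 * Real.sqrt D ≤ ν / 4 * D + a2 ^ 2 / ν := by
      have h6 : 0 ≤ (ν * Real.sqrt D - 2 * a2) ^ 2 := sq_nonneg _
      have h7 : Real.sqrt D ^ 2 = D := Real.sq_sqrt hD
      have h8 : 0 ≤ ν ^ 2 * D - 4 * ν * a2 * Real.sqrt D + 4 * a2 ^ 2 := by
        calc 0 ≤ _ := h6
          _ = ν ^ 2 * Real.sqrt D ^ 2 - 4 * ν * a2 * Real.sqrt D + 4 * a2 ^ 2 := by ring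
          _ = _ := by rw [h7]
      have h9 : ν / 4 * D + a2 ^ 2 / ν - a2 * Real.sqrt D =
          (ν ^ 2 * D - 4 * ν * a2 * Real.sqrt D + 4 * a2 ^ 2) / (4 * ν) := by
        field_simp
        ring
      have h10 : 0 ≤ (ν ^ 2 * D - 4 * ν * a2 * Real.sqrt D + 4 * a2 ^ 2) / (4 * ν) := by
        positivity
      linarith
    linarith
  have hlim : Tendsto (fun N => pr g n (cut N u) (cut N u) (vp_f α ε u)) atTop
      (𝓝 (pr g n u u (vp_f α ε u))) := by
    unfold pr
    refine tendsto_finsetSum _ fun m _ => tendsto_finsetSum _ fun j _ => ?_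
    exact ((hK g u u (Real.sqrt A) (Real.sqrt A) hg.le (Real.sqrt_nonneg _) (Real.sqrt_nonneg _)
      hu.div hE1 hE1 m j).2.2).const_mul _
  refine le_of_tendsto hlim.norm ?_
  filter_upwards [eventually_ge_atTop n] with N hN
  exact hbound N hN

end Pool.Agent.N983.WK
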