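import Pool.Agent.N983.WK.Asm6
import Pool.Agent.N983.WK.VPK

set_option autoImplicit false

/-! Assembly of the proof from its parts: random sets of wave vectors, weak solutions without
finite dissipation. -/

namespace Pool.Agent.N983.WK

open MeasureTheory ProbabilityTheory Filter Topology Pool.Agent.N983.RT

theorem asm7_dec (hSUM : S_SUM) (hALG : S_ALG) (hEST : S_EST) (hODE : S_ODE)
    (hRHS : S_RHS) (hCVB : S_CVB) (hPRB : S_PRB) (hTRB : S_TRB) (hANT : S_ANT)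
    (hBAL : S_BAL) (hSQ : S_SQ) (hMSB : S_MSB) (hGRO : S_GRO) (hSTB : S_STB) (hFX1 : S_FX1)
    (hEEQ : S_EEQ) (hENT : S_ENT) (hSMT : S_SMT) (hCPT : S_CPT)
    (hCS : S_CS) (hIND : S_IND) (hESY : S_ESY)
    (hTAIL : S_TAIL) (hLAT : S_LAT) (hBCD : S_BCD) (hVT : S_VT) (hVE : S_VE) (a : ℝ) (ha : 0 ≤ a)
    (Ω : Type) [MeasurableSpace Ω] (μ : Measure Ω) [IsProbabilityMeasure μ]
    (Y : Sym2 Wv → Ω → ℝ) (hY : ∀ c, Measurable (Y c)) (hi : iIndepFun Y μ)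
    (hs : ∀ k, k ≠ 0 → μ {ω | Y s(k, -k) ω = 1} ≤ ENNReal.ofReal (nsq k ^ (-a / 2))) :
    ∀ᵐ ω ∂μ, ∀ ν α : ℝ, 0 < ν → 1 / 2 < α → 5 / 4 - 3 * a / 4 < α →
      ∀ u₀ : Fld, Adm u₀ → (∃ C : ℝ, ∀ n, En 0 n u₀ ≤ C) → (∀ k, k ∉ kept Y ω → u₀ k = 0) →
        ∃ U : ℝ → Fld, U 0 = u₀ ∧ (∀ t, 0 ≤ t → ∀ k, k ∉ kept Y ω → U t k = 0) ∧
          (∀ τ, 0 < τ → IsSol (dec (kept Y ω)) ν α fun t => U (τ + t)) ∧
          ∀ σ T : ℝ, 0 < σ → max 0 ((3 - 3 * a) / 2) + max (1 - α) 0 < 2 * σ →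
            ∀ u : ℝ → Fld, IsVW (dec (kept Y ω)) ν α σ T u → u 0 = u₀ →
              ∀ t ∈ Set.Icc 0 T, u t = U t := by
  filter_upwards [asm5_TB hCS hIND hESY hTAIL hLAT hBCD a ha Ω μ Y hY hi hs,
    asm6_dec hSUM hALG hEST hODE hRHS hCVB hPRB hTRB hANT hBAL hSQ hMSB hGRO hSTB
      hFX1 hEEQ hENT hSMT hCPT hCS hIND hESY hTAIL hLAT hBCD a ha Ω μ Y hY hi hs] with ω h2 h3
  intro ν α hν hα1 hα2 u₀ hA hE h0
  obtain ⟨U, a1, a2, -, a4, a5⟩ := (h3 ν α hν hα1 hα2).1 u₀ hA hE h0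
  refine ⟨U, a1, a2, a4, ?_⟩
  intro σ T hσ hσ1 u hu hu0 t ht
  have hT : 0 ≤ T := ht.1.trans ht.2
  have hκ : max 0 ((3 - 3 * a) / 2) < min (2 * α - 1) (2 * σ - max (1 - α) 0) :=
    lt_min (max_lt (by linarith) (by linarith)) (by linarith)
  obtain ⟨κ, h4, h5⟩ := exists_between hκ
  have h6 : 0 < κ := lt_of_le_of_lt (le_max_left _ _) h4
  have h7 : κ < 2 * α - 1 := lt_of_lt_of_le h5 (min_le_left _ _)
  have h8 : κ < 2 * σ - max (1 - α) 0 := lt_of_lt_of_le h5 (min_le_right _ _)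
  have hw : IsWeak (dec (kept Y ω)) ν α T u := hVE hCVB hSQ hMSB _ ν α σ T (asm_arr_dec Y ω) hν
    (by linarith) hσ hT (vpk hCVB hVT _ ν α σ κ (asm_arr_dec Y ω) (h2 κ h4) hν hα1 hσ h6
      (by linarith) (by linarith)) u hu
  exact a5 T u hw hu0 t ht

end Pool.Agent.N983.WK
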