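import Pool.Agent.N983.WK.Stm

set_option autoImplicit false

/-! Energy equality of weak solutions (helper97). -/

namespace Pool.Agent.N983.WK

open MeasureTheory ProbabilityTheory Filter Topology Pool.Agent.N983.RT

theorem eeq_nsq (k : Wv) : 0 ≤ nsq k := Finset.sum_nonneg fun _ _ => sq_nonneg _

theorem eeq_cub {a b : ℕ} (h : a ≤ b) : cub a ⊆ cub b := by
  intro k hk
  unfold cub at *
  rw [Fintype.mem_piFinset] at *
  intro i
  have h1 := hk i
  rw [Finset.mem_Icc] at *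
  have h2 : (a : ℤ) ≤ b := by exact_mod_cast h
  exact ⟨by linarith [h1.1], by linarith [h1.2]⟩

theorem eeq_ct0 (n : ℕ) (m : Wv) : 0 ≤ ct n m := le_max_left _ _

theorem eeq_ct1 (n : ℕ) (m : Wv) : ct n m ≤ 1 := max_le zero_le_one (min_le_left _ _)

theorem eeq_ct {n : ℕ} {m : Wv} (h : m ∈ cub (n / 2)) : ct n m = 1 := by
  unfold cub at h
  rw [Fintype.mem_piFinset] at h
  have h0 : ((n / 2 : ℕ) : ℝ) ≤ (n : ℝ) / 2 := Nat.cast_div_le
  have h2 : ∀ i, ((m i : ℝ)) ^ 2 ≤ ((n : ℝ) / 2) ^ 2 := by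
    intro i
    have h3 := h i
    rw [Finset.mem_Icc] at h3
    have h4 : -((n / 2 : ℕ) : ℝ) ≤ (m i : ℝ) := by exact_mod_cast h3.1
    have h5 : (m i : ℝ) ≤ ((n / 2 : ℕ) : ℝ) := by
      have h6 : ((m i : ℤ) : ℝ) ≤ (((n / 2 : ℕ) : ℤ) : ℝ) := Int.cast_le.2 h3.2
      rwa [Int.cast_natCast] at h6
    exact sq_le_sq' (by linarith) (by linarith)
  have h1 : nsq m ≤ ((n : ℝ) + 1) ^ 2 := by
    unfold nsq
    rw [Fin.sum_univ_three]
    have h3 : (0 : ℝ) ≤ n := Nat.cast_nonneg n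
    nlinarith [h2 0, h2 1, h2 2]
  have h4 : Real.sqrt (nsq m) / (n + 1) ≤ 1 := by
    rw [div_le_one (by positivity)]
    exact Real.sqrt_le_iff.2 ⟨by positivity, h1⟩
  unfold ct
  rw [min_eq_left (by linarith), max_eq_right zero_le_one]

/-- the squeeze -/
theorem eeq_sq (n : ℕ) {w : Wv → ℝ} (hw : ∀ m, 0 ≤ w m) :
    ∑ m ∈ cub (n / 2), w m ≤ ∑ m ∈ cub (2 * n + 2), ct n m * w m ∧
      ∑ m ∈ cub (2 * n + 2), ct n m * w m ≤ ∑ m ∈ cub (2 * n + 2), w m := by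
  constructor
  · have h1 : ∑ m ∈ cub (n / 2), w m = ∑ m ∈ cub (n / 2), ct n m * w m :=
      Finset.sum_congr rfl fun m hm => by rw [eeq_ct hm, one_mul]
    rw [h1]
    exact Finset.sum_le_sum_of_subset_of_nonneg (eeq_cub (by omega)) fun m _ _ => mul_nonneg (eeq_ct0 n m) (hw m)
  · exact Finset.sum_le_sum fun m _ => mul_le_of_le_one_left (hw m) (eeq_ct1 n m)

theorem eeq_mono {w : Wv → ℝ} (hw : ∀ m, 0 ≤ w m) : Monotone fun N => ∑ m ∈ cub N, w m :=
  fun _ _ h => Finset.sum_le_sum_of_subset_of_nonneg (eeq_cub h) fun m _ _ => hw m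

/-- the limit of the cut off sums -/
theorem eeq_lim {w : Wv → ℝ} (hw : ∀ m, 0 ≤ w m) {e : ℝ}
    (h : Tendsto (fun N => ∑ m ∈ cub N, w m) atTop (𝓝 e)) :
    Tendsto (fun n => ∑ m ∈ cub (2 * n + 2), ct n m * w m) atTop (𝓝 e) := by
  have h1 : Tendsto (fun n : ℕ => n / 2) atTop atTop :=
    tendsto_atTop_atTop.2 fun b => ⟨2 * b, fun a ha => by omega⟩
  have h2 : Tendsto (fun n : ℕ => 2 * n + 2) atTop atTop :=
    tendsto_atTop_atTop.2 fun b => ⟨b, fun a ha => by omega⟩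
  exact tendsto_of_tendsto_of_tendsto_of_le_of_le (h.comp h1) (h.comp h2) (fun n => (eeq_sq n hw).1)
    fun n => (eeq_sq n hw).2

/-- monotone convergence -/
theorem eeq_mct {μ : Measure ℝ} {f : ℕ → ℝ → ℝ} {C : ℝ} (hi : ∀ N, Integrable (f N) μ)
    (h0 : ∀ᵐ s ∂μ, ∀ N, 0 ≤ f N s) (hm : ∀ᵐ s ∂μ, Monotone fun N => f N s)
    (hC : ∀ N, ∫ s, f N s ∂μ ≤ C) :
    ∃ D : ℝ → ℝ, Integrable D μ ∧ ∀ᵐ s ∂μ, Tendsto (fun N => f N s) atTop (𝓝 (D s)) := by
  have hae : ∀ N, AEMeasurable (fun s => ENNReal.ofReal (f N s)) μ :=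
    fun N => (hi N).1.aemeasurable.ennreal_ofReal
  have hmono : ∀ᵐ s ∂μ, Monotone fun N => ENNReal.ofReal (f N s) := by
    filter_upwards [hm] with s hs a b hab
    exact ENNReal.ofReal_le_ofReal (hs hab)
  have h1 : ∫⁻ s, ⨆ N, ENNReal.ofReal (f N s) ∂μ ≤ ENNReal.ofReal C := by
    rw [lintegral_iSup' hae hmono]
    refine iSup_le fun N => ?_
    rw [← ofReal_integral_eq_lintegral_ofReal (hi N) (h0.mono fun s hs => hs N)]
    exact ENNReal.ofReal_le_ofReal (hC N)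
  have h2 : ∫⁻ s, ⨆ N, ENNReal.ofReal (f N s) ∂μ ≠ ⊤ := ne_top_of_le_ne_top ENNReal.ofReal_ne_top h1
  have h3 : AEMeasurable (fun s => ⨆ N, ENNReal.ofReal (f N s)) μ := AEMeasurable.iSup hae
  refine ⟨fun s => (⨆ N, ENNReal.ofReal (f N s)).toReal, integrable_toReal_of_lintegral_ne_top h3 h2, ?_⟩
  filter_upwards [ae_lt_top' h3 h2, hmono, h0] with s a1 a2 a3
  have h4 := (ENNReal.tendsto_toReal a1.ne).comp (tendsto_atTop_iSup a2)
  refine h4.congr fun N => ?_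
  exact ENNReal.toReal_ofReal (a3 N)

theorem eeq_cv0 (g : Wv → Wv → Wv → ℝ) (w : Fld) (m : Wv) (j : Fin 3) : cv g 0 w m j = 0 := by
  simp [cv, dt]

theorem eeq_zero (g : Wv → Wv → Wv → ℝ) (ν α T : ℝ) : IsWeak g ν α T 0 where
  adm := fun t _ => ⟨rfl, fun k => by simp [dt], fun k i => by simp⟩
  cont := fun m j => continuousOn_const
  energy := ⟨0, fun t _ n => by simp [En]⟩
  diss := ⟨0, fun n => by simp [Er]⟩
  eqn := fun m _ j t _ => by
    have h : ∀ s : ℝ, rhs g ν α ((0 : ℝ → Fld) s) m j = 0 := by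
      intro s
      simp [rhs, conv, dt, prj]
    simp only [h]
    simp

theorem eeq_bal (h1 : S_CVB) (h2 : S_BAL) (h3 : S_SQ) (h4 : S_MSB) {g : Wv → Wv → Wv → ℝ} {ν α T : ℝ}
    (hg : Arr g) (hT : 0 ≤ T) {u : ℝ → Fld} (hu : IsWeak g ν α T u) (n : ℕ) :
    IntervalIntegrable (fun s => fx g n (u s)) volume 0 T ∧
    ∀ t ∈ Set.Icc 0 T, ∑ m ∈ cub (2 * n + 2), ct n m * ∑ j, ‖u t m j‖ ^ 2 =
      ∑ m ∈ cub (2 * n + 2), ct n m * ∑ j, ‖u 0 m j‖ ^ 2 + ∫ s in (0 : ℝ)..t,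
        (-2 * ν * ∑ m ∈ cub (2 * n + 2), ct n m * (nsq m ^ α * ∑ j, ‖u s m j‖ ^ 2) +
          2 * fx g n (u s)) := by
  have h := h2 h1 h3 h4 g ν α T hg hT u 0 hu (eeq_zero g ν α T) (ct n) (2 * n + 2)
  simp only [Pi.zero_apply, sub_zero, eeq_cv0, add_zero] at h
  exact h

theorem eeq_cont {g : Wv → Wv → Wv → ℝ} {ν α T : ℝ} {u : ℝ → Fld} (hu : IsWeak g ν α T u)
    (S : Finset Wv) (c : Wv → ℝ) :
    ContinuousOn (fun s => ∑ m ∈ S, c m * ∑ j, ‖u s m j‖ ^ 2) (Set.Icc 0 T) :=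
  continuousOn_finsetSum _ fun m _ => continuousOn_const.mul
    (continuousOn_finsetSum _ fun j _ => (hu.cont m j).norm.pow 2)

theorem t_EEQ : S_EEQ := by
  intro hCVB hBAL hSQ hMSB g ν α T hg hν hα hT hF u hu
  obtain ⟨K, hK, hFX⟩ := hF
  obtain ⟨C, hC⟩ := hu.energy
  obtain ⟨C', hC'⟩ := hu.diss
  have hbal := fun n => eeq_bal hCVB hBAL hSQ hMSB hg hT hu n
  have hq : ∀ (s : ℝ) (m : Wv), 0 ≤ ∑ j, ‖u s m j‖ ^ 2 := fun s m => Finset.sum_nonneg fun _ _ => sq_nonneg _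
  have hw : ∀ (s : ℝ) (m : Wv), 0 ≤ nsq m ^ α * ∑ j, ‖u s m j‖ ^ 2 :=
    fun s m => mul_nonneg (Real.rpow_nonneg (eeq_nsq m) α) (hq s m)
  have hEn : ∀ (s : ℝ) (N : ℕ), En 0 N (u s) = ∑ m ∈ cub N, ∑ j, ‖u s m j‖ ^ 2 := by
    intro s N
    unfold En
    simp only [pow_zero, one_mul]
  -- the energies converge
  have he : ∀ t ∈ Set.Icc 0 T, ∃ e : ℝ, Tendsto (fun N => En 0 N (u t)) atTop (𝓝 e) := by
    intro t ht
    simp only [hEn]
    refine ⟨_, tendsto_atTop_ciSup (eeq_mono (hq t)) ⟨C, ?_⟩⟩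
    rintro _ ⟨N, rfl⟩
    have := hC t ht N
    rw [hEn] at this
    exact this
  have he2 : ∀ t e, Tendsto (fun N => En 0 N (u t)) atTop (𝓝 e) →
      Tendsto (fun n => ∑ m ∈ cub (2 * n + 2), ct n m * ∑ j, ‖u t m j‖ ^ 2) atTop (𝓝 e) := by
    intro t e h
    simp only [hEn] at h
    exact eeq_lim (hq t) h
  -- the dissipation
  have hcE : ∀ N, ContinuousOn (fun s => Er α N (u s)) (Set.Icc 0 T) := fun N => eeq_cont hu (cub N) fun m => nsq m ^ α
  have hiE : ∀ N, IntegrableOn (fun s => Er α N (u s)) (Set.Ioc 0 T) volume := fun N =>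
    ((hcE N).integrableOn_Icc).mono_set Set.Ioc_subset_Icc_self
  obtain ⟨D, hD, hDl⟩ := eeq_mct (μ := volume.restrict (Set.Ioc 0 T)) (f := fun N s => Er α N (u s)) (C := C') hiE
    (ae_of_all _ fun s N => Finset.sum_nonneg fun m _ => hw s m)
    (ae_of_all _ fun s => eeq_mono (hw s))
    (fun N => by
      have := hC' N
      rwa [intervalIntegral.integral_of_le hT] at this)
  have hDb : ∀ᵐ s ∂(volume.restrict (Set.Ioc 0 T)), ∀ N, Er α N (u s) ≤ D s := by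
    filter_upwards [hDl] with s hs N
    exact (eeq_mono (hw s)).ge_of_tendsto hs N
  have hD0 : ∀ᵐ s ∂(volume.restrict (Set.Ioc 0 T)), 0 ≤ D s := by
    filter_upwards [hDb] with s hs
    exact (Finset.sum_nonneg fun m _ => hw s m).trans (hs 0)
  have hfx : ∀ᵐ s ∂(volume.restrict (Set.Ioc 0 T)),
      (∀ n, |fx g n (u s)| ≤ K * Real.sqrt (max C 0) * D s) ∧ Tendsto (fun n => fx g n (u s)) atTop (𝓝 0) := by
    filter_upwards [hDb, hD0, ae_restrict_mem measurableSet_Ioc] with s h1 h2 h3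
    have h4 : s ∈ Set.Icc 0 T := ⟨h3.1.le, h3.2⟩
    refine hFX (u s) (Real.sqrt (max C 0)) (D s) (hu.adm s h4) (Real.sqrt_nonneg _) h2 (fun n => ?_) h1
    rw [Real.sq_sqrt (le_max_right _ _)]
    exact (hC s h4 n).trans (le_max_left _ _)
  obtain ⟨e, hee⟩ := he 0 ⟨le_rfl, hT⟩
  refine ⟨e, hee, fun t ht => ?_⟩
  obtain ⟨e', hee'⟩ := he t ht
  have hsub : Set.Ioc 0 t ⊆ Set.Ioc 0 T := Set.Ioc_subset_Ioc_right ht.2
  have hmono : ∀ {p : ℝ → Prop}, (∀ᵐ s ∂(volume.restrict (Set.Ioc 0 T)), p s) →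
      ∀ᵐ s ∂(volume : Measure ℝ), s ∈ Set.uIoc 0 t → p s := by
    intro p hp
    rw [Set.uIoc_of_le ht.1]
    have h1 := (ae_restrict_iff' measurableSet_Ioc).1 hp
    filter_upwards [h1] with s hs hs2
    exact hs (hsub hs2)
  have hDt : IntervalIntegrable D volume 0 t :=
    (intervalIntegrable_iff_integrableOn_Ioc_of_le ht.1).2 (hD.mono_measure (Measure.restrict_mono hsub le_rfl))
  have hcn : ∀ n, ContinuousOn (fun s => ∑ m ∈ cub (2 * n + 2), ct n m * (nsq m ^ α * ∑ j, ‖u s m j‖ ^ 2))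
      (Set.Icc 0 T) := by
    intro n
    have := eeq_cont hu (cub (2 * n + 2)) fun m => ct n m * nsq m ^ α
    simpa only [mul_assoc] using this
  have hin : ∀ n, IntervalIntegrable
      (fun s => ∑ m ∈ cub (2 * n + 2), ct n m * (nsq m ^ α * ∑ j, ‖u s m j‖ ^ 2)) volume 0 t := fun n =>
    ((hcn n).mono (Set.Icc_subset_Icc_right ht.2)).intervalIntegrable_of_Icc ht.1
  have hiE' : ∀ N, IntervalIntegrable (fun s => Er α N (u s)) volume 0 t := fun n =>
    ((hcE n).mono (Set.Icc_subset_Icc_right ht.2)).intervalIntegrable_of_Icc ht.1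
  have hif : ∀ n, IntervalIntegrable (fun s => fx g n (u s)) volume 0 t := fun n =>
    (hbal n).1.mono_set (by rw [Set.uIcc_of_le ht.1, Set.uIcc_of_le hT]; exact Set.Icc_subset_Icc_right ht.2)
  -- limits of the integrals
  have l1 : Tendsto (fun N => ∫ s in (0 : ℝ)..t, Er α N (u s)) atTop (𝓝 (∫ s in (0 : ℝ)..t, D s)) := by
    refine intervalIntegral.tendsto_integral_filter_of_dominated_convergence D
      (Eventually.of_forall fun N => (intervalIntegrable_iff.1 (hiE' N)).aestronglyMeasurable)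
      (Eventually.of_forall fun N => ?_) hDt (hmono hDl)
    filter_upwards [hmono hDb] with s hs hs2
    rw [Real.norm_of_nonneg (show 0 ≤ Er α N (u s) from Finset.sum_nonneg fun m _ => hw s m)]
    exact hs hs2 N
  have l2 : Tendsto (fun n => ∫ s in (0 : ℝ)..t,
      ∑ m ∈ cub (2 * n + 2), ct n m * (nsq m ^ α * ∑ j, ‖u s m j‖ ^ 2)) atTop (𝓝 (∫ s in (0 : ℝ)..t, D s)) := by
    refine intervalIntegral.tendsto_integral_filter_of_dominated_convergence D
      (Eventually.of_forall fun N => (intervalIntegrable_iff.1 (hin N)).aestronglyMeasurable)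
      (Eventually.of_forall fun n => ?_) hDt ?_
    · filter_upwards [hmono hDb] with s hs hs2
      rw [Real.norm_of_nonneg (Finset.sum_nonneg fun m _ => mul_nonneg (eeq_ct0 n m) (hw s m))]
      exact (eeq_sq n (hw s)).2.trans (hs hs2 _)
    · filter_upwards [hmono hDl] with s hs hs2
      exact eeq_lim (hw s) (hs hs2)
  have l3 : Tendsto (fun n => ∫ s in (0 : ℝ)..t, fx g n (u s)) atTop (𝓝 (∫ s in (0 : ℝ)..t, (0 : ℝ))) := by
    refine intervalIntegral.tendsto_integral_filter_of_dominated_convergence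
      (fun s => K * Real.sqrt (max C 0) * D s)
      (Eventually.of_forall fun N => (intervalIntegrable_iff.1 (hif N)).aestronglyMeasurable)
      (Eventually.of_forall fun n => ?_) (hDt.const_mul _) ?_
    · filter_upwards [hmono hfx] with s hs hs2
      rw [Real.norm_eq_abs]
      exact (hs hs2).1 n
    · filter_upwards [hmono hfx] with s hs hs2
      exact (hs hs2).2
  rw [intervalIntegral.integral_zero] at l3
  have l4 : Tendsto (fun n => ∑ m ∈ cub (2 * n + 2), ct n m * ∑ j, ‖u t m j‖ ^ 2) atTop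
      (𝓝 (e + (-2 * ν * (∫ s in (0 : ℝ)..t, D s) + 2 * 0))) := by
    have h1 := (he2 0 e hee).add ((l2.const_mul (-2 * ν)).add (l3.const_mul 2))
    refine h1.congr fun n => ?_
    rw [(hbal n).2 t ht, intervalIntegral.integral_add ((hin n).const_mul _) ((hif n).const_mul _),
      intervalIntegral.integral_const_mul, intervalIntegral.integral_const_mul]
  have h5 := tendsto_nhds_unique (he2 t e' hee') l4
  have h6 := hee'.add (l1.const_mul (2 * ν))
  have h7 : e' + 2 * ν * (∫ s in (0 : ℝ)..t, D s) = e := by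
    rw [h5]
    ring
  rw [h7] at h6
  exact h6

end Pool.Agent.N983.WK
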