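import Pool.Agent.N983.WK.Stm5
import Pool.Agent.N983.WK.EEQ

set_option autoImplicit false

/-! Energy conservation from the absence of energy flux to infinity. -/

namespace Pool.Agent.N983.WK

open MeasureTheory ProbabilityTheory Filter Topology Pool.Agent.N983.RT

theorem eco_one {k : Wv} (hk : k ≠ 0) : 1 ≤ nsq k := by
  obtain ⟨i, hi⟩ : ∃ i, k i ≠ 0 := by
    by_contra h
    push Not at h
    exact hk (funext h)
  have h1 : (1 : ℝ) ≤ (k i : ℝ) ^ 2 := by
    have h2 : (1 : ℤ) ≤ (k i) ^ 2 := by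
      have := sq_pos_of_ne_zero hi
      omega
    exact_mod_cast h2
  unfold nsq
  exact h1.trans (Finset.single_le_sum (f := fun i => (k i : ℝ) ^ 2) (fun _ _ => sq_nonneg _)
    (Finset.mem_univ i))

theorem eco_En {σ : ℝ} (hσ : 0 < σ) {u : Fld} (hu : Adm u) (n : ℕ) : En 0 n u ≤ Er σ n u := by
  unfold En Er
  refine Finset.sum_le_sum fun k _ => ?_
  by_cases hk : k = 0
  · rw [hk, hu.zero]
    simp
  · refine mul_le_mul_of_nonneg_right ?_ (Finset.sum_nonneg fun _ _ => sq_nonneg _)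
    rw [pow_zero]
    exact Real.one_le_rpow (eco_one hk) hσ.le

theorem eco_weak {g : Wv → Wv → Wv → ℝ} {σ T : ℝ} (hσ : 0 < σ) (hT : 0 ≤ T) {u : ℝ → Fld}
    (hu : IsEul g σ T u) : IsWeak g 0 σ T u where
  adm := hu.adm
  cont := hu.cont
  energy := by
    obtain ⟨C, hC⟩ := hu.reg
    exact ⟨C, fun t ht n => (eco_En hσ (hu.adm t ht) n).trans (hC t ht n)⟩
  diss := by
    obtain ⟨C, hC⟩ := hu.reg
    refine ⟨C * T, fun n => ?_⟩
    have hc : ContinuousOn (fun s => Er σ n (u s)) (Set.Icc 0 T) := by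
      unfold Er
      exact continuousOn_finsetSum _ fun m _ => continuousOn_const.mul
        (continuousOn_finsetSum _ fun j _ => (hu.cont m j).norm.pow 2)
    have h1 : ∫ t in (0 : ℝ)..T, Er σ n (u t) ≤ ∫ _t in (0 : ℝ)..T, C :=
      intervalIntegral.integral_mono_on hT (hc.intervalIntegrable_of_Icc hT)
        intervalIntegrable_const fun t ht => hC t ht n
    rw [intervalIntegral.integral_const, smul_eq_mul, sub_zero, mul_comm] at h1
    exact h1
  eqn := fun m hm j t ht => by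
    have h : ∀ s : ℝ, rhs g 0 σ (u s) m j = -(Complex.I * prj m (conv g (u s) m) j) := by
      intro s
      unfold rhs
      simp
    simp only [h]
    exact hu.eqn m hm j t ht

theorem t_ECO : S_ECO := by
  intro hCVB hBAL hSQ hMSB g σ T hg hσ hT hF u hu
  have hw := eco_weak hσ hT hu
  obtain ⟨C, hC⟩ := hu.reg
  obtain ⟨K, hK⟩ := hF (max C 0) (le_max_right _ _)
  have hbal := fun n => eeq_bal hCVB hBAL hSQ hMSB hg hT hw n
  have hq : ∀ (s : ℝ) (m : Wv), 0 ≤ ∑ j, ‖u s m j‖ ^ 2 :=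
    fun s m => Finset.sum_nonneg fun _ _ => sq_nonneg _
  have hEn : ∀ (s : ℝ) (N : ℕ), En 0 N (u s) = ∑ m ∈ cub N, ∑ j, ‖u s m j‖ ^ 2 := by
    intro s N
    unfold En
    simp only [pow_zero, one_mul]
  have he : ∀ t ∈ Set.Icc 0 T, ∃ e : ℝ, Tendsto (fun N => En 0 N (u t)) atTop (𝓝 e) := by
    intro t ht
    simp only [hEn]
    refine ⟨_, tendsto_atTop_ciSup (eeq_mono (hq t)) ⟨C, ?_⟩⟩
    rintro _ ⟨N, rfl⟩
    have := (eco_En hσ (hu.adm t ht) N).trans (hC t ht N)
    rw [hEn] at this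
    exact this
  have h2a : Tendsto (fun a : ℕ => 2 ^ a - 1) atTop atTop := by
    refine tendsto_atTop_mono (f := fun a : ℕ => a) (fun a => ?_) tendsto_id
    have := Nat.lt_two_pow_self (n := a)
    omega
  have he2 : ∀ t e, Tendsto (fun N => En 0 N (u t)) atTop (𝓝 e) →
      Tendsto (fun a : ℕ => ∑ m ∈ cub (2 * (2 ^ a - 1) + 2), ct (2 ^ a - 1) m *
        ∑ j, ‖u t m j‖ ^ 2) atTop (𝓝 e) := by
    intro t e h
    simp only [hEn] at h
    exact (eeq_lim (hq t) h).comp h2a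
  obtain ⟨e, hee⟩ := he 0 ⟨le_rfl, hT⟩
  refine ⟨e, fun t ht => ?_⟩
  obtain ⟨e', hee'⟩ := he t ht
  have hif : ∀ n, IntervalIntegrable (fun s => fx g n (u s)) volume 0 t := fun n =>
    (hbal n).1.mono_set (by
      rw [Set.uIcc_of_le ht.1, Set.uIcc_of_le hT]
      exact Set.Icc_subset_Icc_right ht.2)
  have hfx : ∀ s ∈ Set.uIoc 0 t, (∀ a : ℕ, |fx g (2 ^ a - 1) (u s)| ≤ K) ∧
      Tendsto (fun a : ℕ => fx g (2 ^ a - 1) (u s)) atTop (𝓝 0) := by
    intro s hs
    rw [Set.uIoc_of_le ht.1] at hs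
    have hs' : s ∈ Set.Icc 0 T := ⟨hs.1.le, hs.2.trans ht.2⟩
    exact hK (u s) (hu.adm s hs') fun n => (hC s hs' n).trans (le_max_left _ _)
  have l3 : Tendsto (fun a : ℕ => ∫ s in (0 : ℝ)..t, fx g (2 ^ a - 1) (u s)) atTop
      (𝓝 (∫ s in (0 : ℝ)..t, (0 : ℝ))) := by
    refine intervalIntegral.tendsto_integral_filter_of_dominated_convergence
      (fun _ => K)
      (Eventually.of_forall fun a => (intervalIntegrable_iff.1 (hif _)).aestronglyMeasurable)
      (Eventually.of_forall fun a => ?_) intervalIntegrable_const ?_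
    · refine ae_of_all _ fun s hs => ?_
      rw [Real.norm_eq_abs]
      exact (hfx s hs).1 a
    · exact ae_of_all _ fun s hs => (hfx s hs).2
  rw [intervalIntegral.integral_zero] at l3
  have l4 : Tendsto (fun a : ℕ => ∑ m ∈ cub (2 * (2 ^ a - 1) + 2), ct (2 ^ a - 1) m *
      ∑ j, ‖u t m j‖ ^ 2) atTop (𝓝 (e + 2 * 0)) := by
    have h1 := (he2 0 e hee).add (l3.const_mul 2)
    refine h1.congr fun a => ?_
    rw [(hbal (2 ^ a - 1)).2 t ht, ← intervalIntegral.integral_const_mul]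
    congr 1
    refine intervalIntegral.integral_congr fun s _ => ?_
    simp
  have h5 := tendsto_nhds_unique (he2 t e' hee') l4
  rw [mul_zero, add_zero] at h5
  rw [← h5]
  exact hee'

end Pool.Agent.N983.WK
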