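import Pool.Agent.N983.WK.Stm5
import Pool.Agent.N983.WK.Asm
import Pool.Agent.N983.WK.ECO

set_option autoImplicit false

/-! Assembly of the proof from its parts: energy conservation for the Euler equations. -/

namespace Pool.Agent.N983.WK

open MeasureTheory ProbabilityTheory Filter Topology Pool.Agent.N983.RT

theorem asm8_add (hCVB : S_CVB) (g₁ g₂ : Wv → Wv → Wv → ℝ) (a σ : ℝ) (hσ : 0 < σ)
    (h₁ : ∀ k l m, |g₁ k l m| ≤ 1) (h₂ : ∀ k l m, |g₂ k l m| ≤ 1) (f₁ : EFP g₁ σ)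
    (f₂ : EFP g₂ σ) : EFP (fun k l m => a * g₁ k l m + g₂ k l m) σ := by
  intro D hD
  obtain ⟨K₁, f₁⟩ := f₁ D hD
  obtain ⟨K₂, f₂⟩ := f₂ D hD
  refine ⟨|a| * K₁ + K₂, fun u hu hE => ?_⟩
  obtain ⟨b₁, c₁⟩ := f₁ u hu hE
  obtain ⟨b₂, c₂⟩ := f₂ u hu hE
  have h3 := fun n => asm_fx_add hCVB g₁ g₂ a h₁ h₂ u hu (Real.sqrt D) (Real.sqrt_nonneg _)
    (fun n => by
      rw [Real.sq_sqrt hD]
      exact (eco_En hσ hu n).trans (hE n)) n
  constructor
  · intro n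
    rw [h3]
    calc |a * fx g₁ (2 ^ n - 1) u + fx g₂ (2 ^ n - 1) u|
        ≤ |a| * |fx g₁ (2 ^ n - 1) u| + |fx g₂ (2 ^ n - 1) u| := by
          refine (abs_add_le _ _).trans ?_
          rw [abs_mul]
      _ ≤ |a| * K₁ + K₂ := add_le_add (mul_le_mul_of_nonneg_left (b₁ n) (abs_nonneg a)) (b₂ n)
  · simp only [h3]
    have := (c₁.const_mul a).add c₂
    simpa using this

/-- random coefficients: energy conservation -/
theorem asm8_rand (hUNI : S_UNI2) (hHOE : S_HOE2) (hDIG : S_DIG) (hFBR : S_FBR) (hCVB : S_CVB)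
    (hBAL : S_BAL) (hSQ : S_SQ) (hMSB : S_MSB) (hEF1 : S_EF1) (hEF2 : S_EF2) (hECO : S_ECO)
    (Ω : Type) [MeasurableSpace Ω] (μ : Measure Ω) [IsProbabilityMeasure μ]
    (X : Sym2 (Finset Wv) → Ω → ℝ) (hX : ∀ c, Measurable (X c)) (hi : iIndepFun X μ)
    (hX1 : ∀ c, ∀ᵐ ω ∂μ, |X c ω| ≤ 1) :
    ∀ᵐ ω ∂μ, ∀ σ B β T : ℝ, 1 / 3 < σ → σ ≤ 1 → β < σ →
      (∀ k l m : Wv, k ≠ 0 → l ≠ 0 → m ≠ 0 → k + l + m = 0 →
        |∫ ω, sgn X ω k l m ∂μ| * mn k l m ^ (5 / 4 - σ / 2 : ℝ) ≤ B * mx k l m ^ β) →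
      0 ≤ T → ∀ u : ℝ → Fld, IsEul (sgn X ω) σ T u →
        ∃ e : ℝ, ∀ t ∈ Set.Icc 0 T, Tendsto (fun n => En 0 n (u t)) atTop (𝓝 e) := by
  have hint : ∀ c, Integrable (X c) μ := fun c =>
    Integrable.of_mem_Icc (-1) 1 (hX c).aemeasurable (by
      filter_upwards [hX1 c] with ω hω
      exact abs_le.1 hω)
  set e : Sym2 (Finset Wv) → ℝ := fun c => ∫ ω, X c ω ∂μ with he
  have he1 : ∀ c, |e c| ≤ 1 := by
    intro c
    have h1 : ‖∫ ω, X c ω ∂μ‖ ≤ 1 * μ.real Set.univ := norm_integral_le_of_norm_le_const (by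
      filter_upwards [hX1 c] with ω hω
      exact hω)
    simpa using h1
  -- centred coefficients
  have hY1 : ∀ c, ∀ᵐ ω ∂μ, |(X c ω - e c) / 2| ≤ 1 := by
    intro c
    filter_upwards [hX1 c] with ω hω
    have h1 := he1 c
    rw [abs_div, abs_two, div_le_one (by norm_num)]
    calc |X c ω - e c| ≤ |X c ω| + |e c| := abs_sub _ _
      _ ≤ 2 := by linarith
  have hb := hFBR hUNI hHOE hDIG Ω μ (fun c ω => (X c ω - e c) / 2)
    (fun c => ((hX c).sub_const _).div_const _)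
    (hi.comp (fun c x => (x - e c) / 2) (fun c => (measurable_id.sub_const _).div_const _))
    (fun c => ⟨hY1 c, by
      rw [integral_div, integral_sub (hint c) (integrable_const _)]
      simp [he]⟩)
  have hg2 : Arr (sgn (fun c (_ : Unit) => e c) ()) := asm_arr_sgn _ _ he1
  filter_upwards [hb, ae_all_iff.2 hX1, ae_all_iff.2 hY1] with ω h1 h2 hY2
  intro σ B β T hσ hσ1 hβ hm hT
  have hB : 0 ≤ B := by
    have h1 := hm ![1, 0, 0] ![1, 0, 0] ![-2, 0, 0] (by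
      intro h
      have := congrFun h 0
      simp at this) (by
      intro h
      have := congrFun h 0
      simp at this) (by
      intro h
      have := congrFun h 0
      simp at this) (by
      ext i
      fin_cases i <;> simp)
    have h2 : 0 ≤ |∫ ω, sgn X ω ![1, 0, 0] ![1, 0, 0] ![-2, 0, 0] ∂μ| *
        mn ![1, 0, 0] ![1, 0, 0] ![-2, 0, 0] ^ (5 / 4 - σ / 2 : ℝ) := by
      refine mul_nonneg (abs_nonneg _) (Real.rpow_nonneg ?_ _)
      unfold mn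
      exact le_min (asm_nsq_nonneg _) (le_min (asm_nsq_nonneg _) (asm_nsq_nonneg _))
    have h3 : 0 < mx ![1, 0, 0] ![1, 0, 0] ![-2, 0, 0] ^ β := by
      apply Real.rpow_pos_of_pos
      unfold mx
      apply lt_max_of_lt_left
      simp [nsq, Fin.sum_univ_three]
    by_contra h
    push Not at h
    nlinarith
  have hg1 : Arr (sgn (fun c ω => (X c ω - e c) / 2) ω) := asm_arr_sgn _ ω hY2
  have hg : Arr (sgn X ω) := asm_arr_sgn X ω h2
  have hσ0 : 0 < σ := by linarith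
  have h4 : (fun k l m => 2 * sgn (fun c ω => (X c ω - e c) / 2) ω k l m +
      sgn (fun c (_ : Unit) => e c) () k l m) = sgn X ω := by
    funext k l m
    unfold sgn
    ring
  have f1 : EFP (sgn (fun c ω => (X c ω - e c) / 2) ω) σ := hEF1 hCVB _ σ hg1 h1 hσ hσ1
  have f2 : EFP (sgn (fun c (_ : Unit) => e c) ()) σ :=
    hEF2 hCVB _ B β σ hg2 hB hσ0 hσ1 hβ fun k l m hk hl hm0 hs => hm k l m hk hl hm0 hs
  have f3 := asm8_add hCVB _ _ 2 σ hσ0 hg1.le hg2.le f1 f2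
  rw [h4] at f3
  exact hECO hCVB hBAL hSQ hMSB _ σ T hg hσ0 hT f3

end Pool.Agent.N983.WK
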