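import Pool.Agent.N983.WK.Stm

set_option autoImplicit false

/-! The balance of the difference of two weak solutions. -/

namespace Pool.Agent.N983.WK

open MeasureTheory ProbabilityTheory Filter Topology Pool.Agent.N983.RT

theorem bal_sum {ι : Type} (s : Finset ι) (f : ι → ℝ → ℂ) (a b : ℝ)
    (h : ∀ i ∈ s, IntervalIntegrable (f i) volume a b) :
    IntervalIntegrable (fun t => ∑ i ∈ s, f i t) volume a b := by
  have h1 := IntervalIntegrable.sum s h
  have e : (fun t => ∑ i ∈ s, f i t) = ∑ i ∈ s, f i := by funext t; rw [Finset.sum_apply]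
  rw [e]; exact h1

theorem bal_sumr {ι : Type} (s : Finset ι) (f : ι → ℝ → ℝ) (a b : ℝ)
    (h : ∀ i ∈ s, IntervalIntegrable (f i) volume a b) :
    IntervalIntegrable (fun t => ∑ i ∈ s, f i t) volume a b := by
  have h1 := IntervalIntegrable.sum s h
  have e : (fun t => ∑ i ∈ s, f i t) = ∑ i ∈ s, f i := by funext t; rw [Finset.sum_apply]
  rw [e]; exact h1

theorem bal_prj (m : Wv) (w a : Fin 3 → ℂ) (hw : dt w m = 0) :
    ∑ j, (starRingEnd ℂ) (w j) * prj m a j = ∑ j, (starRingEnd ℂ) (w j) * a j := by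
  have h : ∑ j, (starRingEnd ℂ) (w j) * (m j : ℂ) = 0 := by
    have h1 := congrArg (starRingEnd ℂ) hw
    simpa only [dt, map_sum, map_mul, map_intCast, map_zero] using h1
  simp only [prj, mul_sub, Finset.sum_sub_distrib]
  have h2 : ∑ j, (starRingEnd ℂ) (w j) * (dt a m * (m j : ℂ) / (nsq m : ℂ)) =
      (dt a m / nsq m) * ∑ j, (starRingEnd ℂ) (w j) * (m j : ℂ) := by
    rw [Finset.mul_sum]; refine Finset.sum_congr rfl fun j _ => ?_; ring
  rw [h2, h, mul_zero, sub_zero]

theorem bal_sq (C : ℝ) (u : Fld) (h : ∀ n, En 0 n u ≤ C) : ∀ n, En 0 n u ≤ (Real.sqrt |C|) ^ 2 :=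
  fun n => (h n).trans (by rw [Real.sq_sqrt (abs_nonneg _)]; exact le_abs_self _)

theorem bal_cv (hC : S_CVB) (g : Wv → Wv → Wv → ℝ) (hg : Arr g) (u v : Fld) (hu : Adm u)
    (hv : Adm v) (C D : ℝ) (h1 : ∀ n, En 0 n u ≤ C) (h2 : ∀ n, En 0 n v ≤ D) (m : Wv) (j : Fin 3) :
    cv g (u - v) u m j + cv g v (u - v) m j = conv g u m j - conv g v m j := by
  obtain ⟨K, -, h⟩ := hC
  have s1 := (h g u u _ _ hg.le (Real.sqrt_nonneg _) (Real.sqrt_nonneg _) hu.div
    (bal_sq C u h1) (bal_sq C u h1) m j).1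
  have s2 := (h g v u _ _ hg.le (Real.sqrt_nonneg _) (Real.sqrt_nonneg _) hv.div
    (bal_sq D v h2) (bal_sq C u h1) m j).1
  have s3 := (h g v v _ _ hg.le (Real.sqrt_nonneg _) (Real.sqrt_nonneg _) hv.div
    (bal_sq D v h2) (bal_sq D v h2) m j).1
  have e1 : cv g (u - v) u m j = conv g u m j - cv g v u m j := by
    show _ = cv g u u m j - cv g v u m j
    unfold cv
    rw [← Summable.tsum_sub s1 s2]
    refine tsum_congr fun k => ?_
    have : dt ((u - v) k) (m - k) = dt (u k) (m - k) - dt (v k) (m - k) := by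
      simp only [dt, Pi.sub_apply, sub_mul, Finset.sum_sub_distrib]
    rw [this]; ring
  have e2 : cv g v (u - v) m j = cv g v u m j - conv g v m j := by
    show _ = cv g v u m j - cv g v v m j
    unfold cv
    rw [← Summable.tsum_sub s2 s3]
    refine tsum_congr fun k => ?_
    rw [Pi.sub_apply, Pi.sub_apply]; ring
  rw [e1, e2]; ring

theorem bal_conv (hC : S_CVB) (hM : S_MSB) (g : Wv → Wv → Wv → ℝ) (ν α T : ℝ) (hg : Arr g)
    (hT : 0 ≤ T) (u : ℝ → Fld) (hu : IsWeak g ν α T u) (m : Wv) (j : Fin 3) :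
    IntervalIntegrable (fun s => conv g (u s) m j) volume 0 T := by
  obtain ⟨C, h⟩ := hu.energy
  exact hM hC g T C u u hg.le hT hu.adm hu.cont hu.cont h h m j

theorem bal_rhs (hC : S_CVB) (hM : S_MSB) (g : Wv → Wv → Wv → ℝ) (ν α T : ℝ) (hg : Arr g)
    (hT : 0 ≤ T) (u : ℝ → Fld) (hu : IsWeak g ν α T u) (m : Wv) (j : Fin 3) :
    IntervalIntegrable (fun s => rhs g ν α (u s) m j) volume 0 T := by
  have hc := bal_conv hC hM g ν α T hg hT u hu m
  have hl : IntervalIntegrable (fun s => -((ν * nsq m ^ α : ℝ) : ℂ) * u s m j) volume 0 T := by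
    apply ContinuousOn.intervalIntegrable
    rw [Set.uIcc_of_le hT]
    exact continuousOn_const.mul (hu.cont m j)
  have hd : IntervalIntegrable (fun s => dt (conv g (u s) m) m * (m j : ℂ) / (nsq m : ℂ))
      volume 0 T := by
    apply IntervalIntegrable.div_const
    apply IntervalIntegrable.mul_const
    exact bal_sum Finset.univ (fun (i : Fin 3) (s : ℝ) => conv g (u s) m i * (m i : ℂ)) 0 T
      (fun i _ => (hc i).mul_const _)
  exact hl.sub (((hc j).sub hd).const_mul Complex.I)

theorem t_BAL : S_BAL := by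
  intro hC hS hM g ν α T hg hT u v hu hv χ n
  -- the right-hand side of the equation for the difference
  let F : Wv → Fin 3 → ℝ → ℂ := fun m j s =>
    if m = 0 then 0 else rhs g ν α (u s) m j - rhs g ν α (v s) m j
  let w : Wv → Fin 3 → ℝ → ℂ := fun m j s => u s m j - v s m j
  have h0 : (0 : ℝ) ∈ Set.Icc 0 T := ⟨le_rfl, hT⟩
  have hF : ∀ m j, IntervalIntegrable (F m j) volume 0 T := by
    intro m j
    by_cases hm : m = 0
    · have : F m j = fun _ => 0 := by funext s; exact if_pos hm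
      rw [this]
      exact intervalIntegrable_const
    · have : F m j = fun s => rhs g ν α (u s) m j - rhs g ν α (v s) m j := by
        funext s; exact if_neg hm
      rw [this]
      exact (bal_rhs hC hM g ν α T hg hT u hu m j).sub (bal_rhs hC hM g ν α T hg hT v hv m j)
  have hsub : ∀ t ∈ Set.Icc 0 T, Set.uIcc 0 t ⊆ Set.uIcc 0 T := by
    intro t ht
    rw [Set.uIcc_of_le hT, Set.uIcc_of_le ht.1]
    exact Set.Icc_subset_Icc le_rfl ht.2
  have hw : ∀ m j, ∀ t ∈ Set.Icc 0 T, w m j t = w m j 0 + ∫ s in (0 : ℝ)..t, F m j s := by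
    intro m j t ht
    by_cases hm : m = 0
    · have : F m j = fun _ => 0 := by funext s; exact if_pos hm
      rw [this]
      simp only [intervalIntegral.integral_zero, add_zero]
      show u t m j - v t m j = u 0 m j - v 0 m j
      rw [hm, (hu.adm t ht).zero, (hv.adm t ht).zero, (hu.adm 0 h0).zero, (hv.adm 0 h0).zero]
    · have : F m j = fun s => rhs g ν α (u s) m j - rhs g ν α (v s) m j := by
        funext s; exact if_neg hm
      rw [this, intervalIntegral.integral_sub
        ((bal_rhs hC hM g ν α T hg hT u hu m j).mono_set (hsub t ht))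
        ((bal_rhs hC hM g ν α T hg hT v hv m j).mono_set (hsub t ht))]
      show u t m j - v t m j = u 0 m j - v 0 m j + _
      rw [hu.eqn m hm j t ht, hv.eqn m hm j t ht]
      ring
  have hsq := fun m j => hS T (w m j) (F m j) hT (hF m j) (hw m j)
  obtain ⟨Cu, hCu⟩ := hu.energy
  obtain ⟨Cv, hCv⟩ := hv.energy
  have hdiv : ∀ s ∈ Set.Icc 0 T, ∀ m, dt (fun j => w m j s) m = 0 := by
    intro s hs m
    have h1 := (hu.adm s hs).div m
    have h2 := (hv.adm s hs).div m
    have h3 : dt (fun j => w m j s) m = dt (u s m) m - dt (v s m) m := by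
      simp only [w, dt, sub_mul, Finset.sum_sub_distrib]
    rw [h3, h1, h2, sub_zero]
  have hcv : ∀ s ∈ Set.Icc 0 T, ∀ m j, cv g (u s - v s) (u s) m j + cv g (v s) (u s - v s) m j =
      conv g (u s) m j - conv g (v s) m j := fun s hs m j =>
    bal_cv hC g hg (u s) (v s) (hu.adm s hs) (hv.adm s hs) Cu Cv (hCu s hs) (hCv s hs) m j
  -- pointwise identity for one wave vector
  have hpt : ∀ s ∈ Set.Icc 0 T, ∀ m, ∑ j, 2 * ((starRingEnd ℂ) (w m j s) * F m j s).re =
      -2 * ν * (nsq m ^ α * ∑ j, ‖w m j s‖ ^ 2) + 2 * (∑ j, (starRingEnd ℂ)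
      (w m j s) * (cv g (u s - v s) (u s) m j + cv g (v s) (u s - v s) m j)).im := by
    intro s hs m
    by_cases hm : m = 0
    · have e1 : ∀ j, w m j s = 0 := by
        intro j
        show u s m j - v s m j = 0
        rw [hm, (hu.adm s hs).zero, (hv.adm s hs).zero]; simp
      simp [e1]
    · have e1 : ∀ j, F m j s = rhs g ν α (u s) m j - rhs g ν α (v s) m j := fun j => if_neg hm
      have e2 : ∀ j, (starRingEnd ℂ) (w m j s) * F m j s =
          -((ν * nsq m ^ α : ℝ) : ℂ) * ((‖w m j s‖ ^ 2 : ℝ) : ℂ) - Complex.I *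
          ((starRingEnd ℂ) (w m j s) * prj m (conv g (u s) m) j -
            (starRingEnd ℂ) (w m j s) * prj m (conv g (v s) m) j) := by
        intro j
        have e3 : ((‖w m j s‖ ^ 2 : ℝ) : ℂ) = (starRingEnd ℂ) (w m j s) * (u s m j - v s m j) := by
          rw [← Complex.normSq_eq_norm_sq, ← Complex.mul_conj]
          show w m j s * (starRingEnd ℂ) (w m j s) = (starRingEnd ℂ) (w m j s) * (w m j s)
          ring
        rw [e1, e3]
        unfold rhs
        ring
      have e4 : ∑ j, (starRingEnd ℂ) (w m j s) * F m j s =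
          -((ν * nsq m ^ α * ∑ j, ‖w m j s‖ ^ 2 : ℝ) : ℂ) - Complex.I * ∑ j, (starRingEnd ℂ)
            (w m j s) * (cv g (u s - v s) (u s) m j + cv g (v s) (u s - v s) m j) := by
        rw [Finset.sum_congr rfl fun j _ => e2 j, Finset.sum_sub_distrib, ← Finset.mul_sum,
          ← Finset.mul_sum, Finset.sum_sub_distrib]
        have e5 := bal_prj m (fun j => w m j s) (conv g (u s) m) (hdiv s hs m)
        have e6 := bal_prj m (fun j => w m j s) (conv g (v s) m) (hdiv s hs m)
        rw [e5, e6, ← Finset.sum_sub_distrib]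
        congr 1
        · push_cast; ring
        · congr 1
          refine Finset.sum_congr rfl fun j _ => ?_
          rw [hcv s hs m j]; ring
      have e7 : ∑ j, 2 * ((starRingEnd ℂ) (w m j s) * F m j s).re =
          2 * (∑ j, (starRingEnd ℂ) (w m j s) * F m j s).re := by
        rw [← Finset.mul_sum, Complex.re_sum]
      rw [e7, e4]
      simp only [Complex.sub_re, Complex.neg_re, Complex.ofReal_re, Complex.mul_re, Complex.I_re,
        Complex.I_im, zero_mul, one_mul, zero_sub]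
      ring
  refine ⟨?_, ?_⟩
  · -- integrability
    have h1 : ∀ m j, IntervalIntegrable (fun s => (starRingEnd ℂ) (u s m j - v s m j) *
        (conv g (u s) m j - conv g (v s) m j)) volume 0 T := by
      intro m j
      apply IntervalIntegrable.continuousOn_mul
      · exact (bal_conv hC hM g ν α T hg hT u hu m j).sub (bal_conv hC hM g ν α T hg hT v hv m j)
      · rw [Set.uIcc_of_le hT]
        exact Complex.continuous_conj.comp_continuousOn ((hu.cont m j).sub (hv.cont m j))
    have h2 : IntervalIntegrable (fun s => ∑ m ∈ cub n, (χ m : ℂ) * ∑ j, (starRingEnd ℂ)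
        (u s m j - v s m j) * (conv g (u s) m j - conv g (v s) m j)) volume 0 T :=
      bal_sum (cub n) (fun (m : Wv) (s : ℝ) => (χ m : ℂ) * ∑ j, (starRingEnd ℂ)
        (u s m j - v s m j) * (conv g (u s) m j - conv g (v s) m j)) 0 T fun m _ =>
          (bal_sum Finset.univ (fun (j : Fin 3) (s : ℝ) => (starRingEnd ℂ) (u s m j - v s m j) *
              (conv g (u s) m j - conv g (v s) m j)) 0 T fun j _ => h1 m j).const_mul _
    have h5 : IntervalIntegrable (fun s => (∑ m ∈ cub n, (χ m : ℂ) * ∑ j, (starRingEnd ℂ)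
        (u s m j - v s m j) * (conv g (u s) m j - conv g (v s) m j)).im) volume 0 T :=
      ⟨h2.1.im, h2.2.im⟩
    refine (intervalIntegrable_congr ?_).1 h5
    intro s hs
    rw [Set.uIoc_of_le hT] at hs
    have hs' : s ∈ Set.Icc 0 T := Set.Ioc_subset_Icc_self hs
    simp only [hcv s hs']
  · intro t ht
    have hG : ∀ m j, IntervalIntegrable (fun s => 2 * ((starRingEnd ℂ) (w m j s) * F m j s).re)
        volume 0 t := fun m j => ((hsq m j).1.mono_set (hsub t ht)).const_mul 2
    have e1 : ∀ m, χ m * ∑ j, ‖w m j t‖ ^ 2 = χ m * ∑ j, ‖w m j 0‖ ^ 2 +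
        ∫ s in (0 : ℝ)..t, χ m * ∑ j, 2 * ((starRingEnd ℂ) (w m j s) * F m j s).re := by
      intro m
      rw [intervalIntegral.integral_const_mul, intervalIntegral.integral_finsetSum
        (fun j _ => hG m j), ← mul_add, ← Finset.sum_add_distrib]
      congr 1
      exact Finset.sum_congr rfl fun j _ => (hsq m j).2 t ht
    have e2 : ∑ m ∈ cub n, χ m * ∑ j, ‖w m j t‖ ^ 2 = ∑ m ∈ cub n, χ m * ∑ j, ‖w m j 0‖ ^ 2 +
        ∫ s in (0 : ℝ)..t, ∑ m ∈ cub n, χ m * ∑ j, 2 * ((starRingEnd ℂ) (w m j s) * F m j s).re := by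
      rw [intervalIntegral.integral_finsetSum
        (fun m _ => (bal_sumr Finset.univ _ 0 t fun j _ => hG m j).const_mul _),
        ← Finset.sum_add_distrib]
      exact Finset.sum_congr rfl fun m _ => e1 m
    show ∑ m ∈ cub n, χ m * ∑ j, ‖w m j t‖ ^ 2 = ∑ m ∈ cub n, χ m * ∑ j, ‖w m j 0‖ ^ 2 + _
    rw [e2]
    congr 1
    refine intervalIntegral.integral_congr fun s hs => ?_
    have hs' : s ∈ Set.Icc 0 T := by
      have := hsub t ht hs
      rwa [Set.uIcc_of_le hT] at this
    show ∑ m ∈ cub n, χ m * ∑ j, 2 * ((starRingEnd ℂ) (w m j s) * F m j s).re = _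
    rw [Finset.mul_sum, Complex.im_sum, Finset.mul_sum, ← Finset.sum_add_distrib]
    refine Finset.sum_congr rfl fun m _ => ?_
    rw [hpt s hs' m, Complex.im_ofReal_mul]
    show _ = -2 * ν * (χ m * (nsq m ^ α * ∑ j, ‖w m j s‖ ^ 2)) + 2 * (χ m * (∑ j, (starRingEnd ℂ)
      (w m j s) * (cv g (u s - v s) (u s) m j + cv g (v s) (u s - v s) m j)).im)
    ring

end Pool.Agent.N983.WK
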