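import Pool.Agent.N983.WK.Stm
import Pool.Agent.N983.RT.CMP

set_option autoImplicit false

/-! Project WK (helper983), passage to the limit (CPT), by helper865. -/

namespace Pool.Agent.N983.WK

open MeasureTheory Filter Topology Pool.Agent.N983.RT

/-- limits of solutions of the truncated systems are solutions -/
theorem cpt_sol (hS : S_SUM) (hR : S_RHS) (g : Wv → Wv → Wv → ℝ) (ν α : ℝ) (hg : Arr g)
    (F : Ultrafilter ℕ) (hF : (F : Filter ℕ) ≤ atTop) (U : ℕ → ℝ → Fld)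
    (hU : ∀ n, IsSol (cutg n g) ν α (U n))
    (hdec : ∀ (T : ℝ) (s : ℕ), ∃ C : ℝ, ∀ n t, 0 ≤ t → t ≤ T → ∀ k i,
      (1 + nsq k) ^ s * ‖U n t k i‖ ≤ C) (u : ℝ → Fld)
    (hu : ∀ t, 0 ≤ t → ∀ k i, Tendsto (fun n => U n t k i) F (𝓝 (u t k i))) :
    IsSol g ν α u := by
  have huadm : ∀ t, 0 ≤ t → Adm (u t) := by
    intro t ht
    refine ⟨?_, fun k => ?_, fun k i => ?_⟩
    · ext i
      refine tendsto_nhds_unique (hu t ht 0 i) ?_
      have h1 : (fun n => U n t 0 i) = fun _ => (0 : ℂ) := by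
        funext n
        rw [((hU n).adm t ht).zero]
        rfl
      rw [h1]
      exact tendsto_const_nhds
    · have h1 : Tendsto (fun n => dt (U n t k) k) F (𝓝 (dt (u t k) k)) := by
        unfold dt
        exact tendsto_finsetSum _ fun i _ => (hu t ht k i).mul_const _
      refine tendsto_nhds_unique h1 ?_
      have h2 : (fun n => dt (U n t k) k) = fun _ => (0 : ℂ) := by
        funext n
        exact ((hU n).adm t ht).div k
      rw [h2]
      exact tendsto_const_nhds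
    · refine tendsto_nhds_unique (hu t ht (-k) i) ?_
      have h2 : (fun n => U n t (-k) i) = fun n => (starRingEnd ℂ) (U n t k i) := by
        funext n
        exact ((hU n).adm t ht).real k i
      rw [h2]
      exact (Complex.continuous_conj.tendsto _).comp (hu t ht k i)
  have hudec : ∀ (T : ℝ) (s : ℕ), ∃ C : ℝ, ∀ t, 0 ≤ t → t ≤ T → ∀ k i,
      (1 + nsq k) ^ s * ‖u t k i‖ ≤ C := by
    intro T s
    obtain ⟨C, hC⟩ := hdec T s
    refine ⟨C, fun t ht htT k i => ?_⟩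
    have h1 : Tendsto (fun n => (1 + nsq k) ^ s * ‖U n t k i‖) F
        (𝓝 ((1 + nsq k) ^ s * ‖u t k i‖)) := ((hu t ht k i).norm).const_mul _
    exact le_of_tendsto h1 (Eventually.of_forall fun n => hC n t ht htT k i)
  refine ⟨huadm, hudec, ?_⟩
  intro t₀ ht₀ m hm j
  choose Cs hCs using hdec (t₀ + 1)
  have hD : ∀ n t, 0 ≤ t → t ≤ t₀ + 1 → Dcy Cs (U n t) :=
    fun n t h1 h2 s k i => hCs s n t h1 h2 k i
  obtain ⟨M, hM⟩ := cmp_tay hS hR g ν α hg U hU (t₀ + 1) Cs hD m hm j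
  have hr := cmp_rhs hS F hF g ν α hg (fun n => U n t₀) (u t₀) Cs
    (fun n => hD n t₀ ht₀ (by linarith)) (hu t₀ ht₀) m j
  have hlimM : ∀ t ∈ Set.Icc 0 (t₀ + 1),
      ‖u t m j - u t₀ m j - ((t - t₀ : ℝ) : ℂ) * rhs g ν α (u t₀) m j‖ ≤
        M * |t - t₀| ^ 2 := by
    intro t ht
    have h1 : Tendsto (fun n => ‖U n t m j - U n t₀ m j -
        ((t - t₀ : ℝ) : ℂ) * rhs (cutg n g) ν α (U n t₀) m j‖) F
        (𝓝 ‖u t m j - u t₀ m j - ((t - t₀ : ℝ) : ℂ) * rhs g ν α (u t₀) m j‖) :=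
      (((hu t ht.1 m j).sub (hu t₀ ht₀ m j)).sub (hr.const_mul _)).norm
    exact le_of_tendsto h1 (Eventually.of_forall fun n =>
      hM n t ht t₀ ⟨ht₀, by linarith⟩)
  rw [hasDerivWithinAt_iff_isLittleO, Asymptotics.isLittleO_iff]
  intro c hc
  have hd : 0 < min 1 (c / (|M| + 1)) := by positivity
  have h2 : ∀ᶠ t in 𝓝[Set.Ici 0] t₀, t ∈ Set.Ici (0 : ℝ) ∧
      |t - t₀| < min 1 (c / (|M| + 1)) := by
    refine (eventually_mem_nhdsWithin).and (mem_nhdsWithin_of_mem_nhds ?_)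
    have := Metric.ball_mem_nhds t₀ hd
    refine Filter.mem_of_superset this fun x hx => ?_
    rw [Metric.mem_ball, Real.dist_eq] at hx
    exact hx
  filter_upwards [h2] with t ht
  obtain ⟨ht1, ht2⟩ := ht
  have h3 : |t - t₀| < 1 := ht2.trans_le (min_le_left _ _)
  have h4 : |t - t₀| < c / (|M| + 1) := ht2.trans_le (min_le_right _ _)
  have h5 := hlimM t ⟨ht1, by have := (abs_lt.1 h3).2; linarith⟩
  rw [Complex.real_smul]
  refine h5.trans ?_
  rw [Real.norm_eq_abs]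
  rw [lt_div_iff₀ (by positivity)] at h4
  have h6 : M * |t - t₀| ≤ c := by
    have h7 := le_abs_self M
    nlinarith [abs_nonneg (t - t₀)]
  calc M * |t - t₀| ^ 2 = (M * |t - t₀|) * |t - t₀| := by ring
    _ ≤ c * |t - t₀| := mul_le_mul_of_nonneg_right h6 (abs_nonneg _)

/-- translation in time -/
theorem cpt_trans (g : Wv → Wv → Wv → ℝ) (ν α : ℝ) (u : ℝ → Fld) (hu : IsSol g ν α u) (τ : ℝ)
    (hτ : 0 ≤ τ) : IsSol g ν α fun t => u (τ + t) := by
  refine ⟨fun t ht => hu.adm _ (by linarith), fun T s => ?_, fun t ht m hm j => ?_⟩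
  · obtain ⟨C, hC⟩ := hu.decay (τ + T) s
    exact ⟨C, fun t h1 h2 k i => hC (τ + t) (by linarith) (by linarith) k i⟩
  · have h1 := hu.eqn (τ + t) (by linarith) m hm j
    have h2 : HasDerivWithinAt (fun x : ℝ => τ + x) 1 (Set.Ici 0) t :=
      (hasDerivWithinAt_id t _).const_add τ
    have h3 := HasDerivWithinAt.scomp (t' := Set.Ici (0 : ℝ)) t h1 h2 (fun x hx => by
      simp only [Set.mem_Ici] at hx ⊢
      linarith)
    rw [one_smul] at h3
    exact h3

/-- pointwise bounds -/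
theorem cpt_bd (u : Fld) (C : ℝ) (h : ∀ N, En 0 N u ≤ C) (k : Wv) (i : Fin 3) :
    ‖u k i‖ ≤ Real.sqrt C := by
  obtain ⟨N, hN⟩ := (cmp_cub k).exists
  apply Real.le_sqrt_of_sq_le
  refine le_trans ?_ (h N)
  unfold En
  have h1 : ∀ k : Wv, 0 ≤ ∑ i, ‖u k i‖ ^ 2 := fun k => Finset.sum_nonneg fun i _ => by positivity
  calc ‖u k i‖ ^ 2 ≤ ∑ i, ‖u k i‖ ^ 2 :=
        Finset.single_le_sum (f := fun i => ‖u k i‖ ^ 2) (fun i _ => by positivity)
          (Finset.mem_univ i)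
    _ = nsq k ^ 0 * ∑ i, ‖u k i‖ ^ 2 := by rw [pow_zero, one_mul]
    _ ≤ ∑ k ∈ cub N, nsq k ^ 0 * ∑ i, ‖u k i‖ ^ 2 :=
        Finset.single_le_sum (f := fun k => nsq k ^ 0 * ∑ i, ‖u k i‖ ^ 2)
          (fun k _ => by rw [pow_zero, one_mul]; exact h1 k) hN

theorem cpt_nn (u : Fld) (C : ℝ) (h : ∀ N, En 0 N u ≤ C) : 0 ≤ C := by
  refine le_trans ?_ (h 0)
  unfold En
  exact Finset.sum_nonneg fun k _ => by
    rw [pow_zero, one_mul]
    exact Finset.sum_nonneg fun i _ => by positivity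

/-- bounds for the right-hand side -/
theorem cpt_rhsb (hC : S_CVB) (ν α C₀ : ℝ) (m : Wv) (hm : m ≠ 0) : ∃ B : ℝ, 0 ≤ B ∧
    ∀ (g : Wv → Wv → Wv → ℝ) (u : Fld), (∀ k l m, |g k l m| ≤ 1) → Adm u →
      (∀ n, En 0 n u ≤ C₀) → ∀ j, ‖rhs g ν α u m j‖ ≤ B := by
  obtain ⟨K, hK0, hK⟩ := hC
  refine ⟨|ν * nsq m ^ α| * Real.sqrt C₀ + 4 * (K m * Real.sqrt C₀ * Real.sqrt C₀), ?_, ?_⟩
  · have := hK0 m
    positivity
  · intro g u hg hu hE j
    have hC0 : 0 ≤ C₀ := cpt_nn u C₀ hE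
    have h1 : ∀ n, En 0 n u ≤ (Real.sqrt C₀) ^ 2 := fun n => by
      rw [Real.sq_sqrt hC0]
      exact hE n
    have h2 : ∀ j, ‖conv g u m j‖ ≤ K m * Real.sqrt C₀ * Real.sqrt C₀ := fun j =>
      (hK g u u _ _ hg (Real.sqrt_nonneg _) (Real.sqrt_nonneg _) hu.div h1 h1 m j).2.1
    unfold rhs
    refine (norm_sub_le _ _).trans ?_
    apply add_le_add
    · rw [norm_mul, norm_neg, Complex.norm_real, Real.norm_eq_abs]
      exact mul_le_mul_of_nonneg_left (cpt_bd u C₀ hE m j) (abs_nonneg _)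
    · rw [norm_mul, Complex.norm_I, one_mul]
      exact rhs_prj_le m hm (conv g u m) _ h2 j

/-- uniform convergence of Lipschitz functions, one-sided -/
theorem cpt_unif (F : Ultrafilter ℕ) (T L : ℝ) (hL : 0 ≤ L) (h : ℕ → ℝ → ℝ) (h' : ℝ → ℝ)
    (h1 : ∀ n, ∀ s ∈ Set.Icc 0 T, ∀ t ∈ Set.Icc 0 T, |h n s - h n t| ≤ L * |s - t|)
    (h2 : ∀ s ∈ Set.Icc 0 T, Tendsto (fun n => h n s) F (𝓝 (h' s))) (ε : ℝ) (hε : 0 < ε) :
    ∀ᶠ n in (F : Filter ℕ), ∀ s ∈ Set.Icc 0 T, h' s ≤ h n s + 3 * ε := by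
  have h3 : ∀ s ∈ Set.Icc 0 T, ∀ t ∈ Set.Icc 0 T, |h' s - h' t| ≤ L * |s - t| := by
    intro s hs t ht
    exact le_of_tendsto (((h2 s hs).sub (h2 t ht)).abs)
      (Eventually.of_forall fun n => h1 n s hs t ht)
  have hδ : 0 < ε / (L + 1) := by positivity
  obtain ⟨X, hX1, hX2, hX3⟩ := (isCompact_Icc : IsCompact (Set.Icc 0 T)).finite_cover_balls hδ
  have h4 : ∀ᶠ n in (F : Filter ℕ), ∀ x ∈ X, h' x ≤ h n x + ε := by
    rw [eventually_all_finite hX2]
    intro x hx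
    have h5 := (h2 x (hX1 hx)).eventually (lt_mem_nhds (show h' x - ε < h' x by linarith))
    filter_upwards [h5] with n hn
    linarith
  filter_upwards [h4] with n hn s hs
  have h5 := hX3 hs
  rw [Set.mem_iUnion₂] at h5
  obtain ⟨x, hx, hsx⟩ := h5
  rw [Metric.mem_ball, Real.dist_eq] at hsx
  have h6 := abs_le.1 (h3 s hs x (hX1 hx))
  have h7 := abs_le.1 (h1 n s hs x (hX1 hx))
  have h8 : L * |s - x| ≤ ε := by
    rw [lt_div_iff₀ (by positivity)] at hsx
    nlinarith [abs_nonneg (s - x)]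
  have h9 := hn x hx
  linarith [h6.2, h7.1]

/-- Lipschitz functions are continuous -/
theorem cpt_cont {E : Type} [NormedAddCommGroup E] (h : ℝ → E) (S : Set ℝ) (L : ℝ) (hL : 0 ≤ L)
    (h1 : ∀ s ∈ S, ∀ t ∈ S, ‖h s - h t‖ ≤ L * |s - t|) : ContinuousOn h S := by
  have h2 : LipschitzOnWith (Real.toNNReal L) h S := by
    apply LipschitzOnWith.of_dist_le_mul
    intro s hs t ht
    rw [dist_eq_norm, Real.dist_eq, Real.coe_toNNReal L hL]
    exact h1 s hs t ht
  exact h2.continuousOn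

/-- the dissipation is Lipschitz -/
theorem cpt_er (α A : ℝ) (hA : 0 ≤ A) (N : ℕ) (B : Wv → ℝ) (u v : Fld) (d : ℝ)
    (hu : ∀ k i, ‖u k i‖ ≤ A) (hv : ∀ k i, ‖v k i‖ ≤ A) (h : ∀ k i, ‖u k i - v k i‖ ≤ B k * d) :
    |Er α N u - Er α N v| ≤ (∑ k ∈ cub N, nsq k ^ α * ∑ _i : Fin 3, (2 * A * B k)) * d := by
  unfold Er
  rw [← Finset.sum_sub_distrib, Finset.sum_mul]
  refine (Finset.abs_sum_le_sum_abs _ _).trans (Finset.sum_le_sum fun k _ => ?_)
  have hk : 0 ≤ nsq k ^ α := Real.rpow_nonneg (rhs_nn k) α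
  rw [← mul_sub, abs_mul, abs_of_nonneg hk, mul_assoc]
  apply mul_le_mul_of_nonneg_left _ hk
  rw [← Finset.sum_sub_distrib, Finset.sum_mul]
  refine (Finset.abs_sum_le_sum_abs _ _).trans (Finset.sum_le_sum fun i _ => ?_)
  have h1 : ‖u k i‖ ^ 2 - ‖v k i‖ ^ 2 = (‖u k i‖ + ‖v k i‖) * (‖u k i‖ - ‖v k i‖) := by ring
  rw [h1, abs_mul, abs_of_nonneg (by positivity)]
  have h2 := abs_norm_sub_norm_le (u k i) (v k i)
  calc (‖u k i‖ + ‖v k i‖) * |‖u k i‖ - ‖v k i‖| ≤ (A + A) * (B k * d) :=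
        mul_le_mul (add_le_add (hu k i) (hv k i)) (h2.trans (h k i)) (abs_nonneg _) (by linarith)
    _ = 2 * A * B k * d := by ring

/-- CPT -/
theorem t_CPT : S_CPT := by
  intro hS hR hC g ν α C₀ C₁ hg hν hα u₀ hu₀ hE₀ U hU hU0 hsupp hEn hEr hsm
  set F : Ultrafilter ℕ := hyperfilter ℕ with hFdef
  have hF : (F : Filter ℕ) ≤ atTop := Nat.hyperfilter_le_atTop
  set A : ℝ := Real.sqrt C₀ with hA
  have hA0 : 0 ≤ A := Real.sqrt_nonneg _
  have hbd : ∀ n t, 0 ≤ t → ∀ k i, ‖U n t k i‖ ≤ A := fun n t ht k i =>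
    cpt_bd (U n t) C₀ (hEn n t ht) k i
  have hlim : ∀ t, 0 ≤ t → ∃ x : Fld, ∀ k i, Tendsto (fun n => U n t k i) F (𝓝 (x k i)) := by
    intro t ht
    have h1 : ∀ k i, ∃ z, Tendsto (fun n => U n t k i) F (𝓝 z) := fun k i =>
      cmp_lim F _ A fun n => hbd n t ht k i
    choose x hx using h1
    exact ⟨x, hx⟩
  choose! u hu using hlim
  -- translated limits
  have hsol : ∀ τ, 0 < τ → IsSol g ν α fun t => u (τ + t) := by
    intro τ hτ
    refine cpt_sol hS hR g ν α hg F hF (fun n t => U n (τ + t))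
      (fun n => cpt_trans (cutg n g) ν α (U n) (hU n) τ hτ.le) (fun T s => ?_) _
      (fun t ht k i => hu (τ + t) (by linarith) k i)
    obtain ⟨C, hC⟩ := hsm τ s hτ
    exact ⟨C, fun n t h1 _ k i => hC n (τ + t) (by linarith) k i⟩
  have hu0 : u 0 = u₀ := by
    funext k i
    refine tendsto_nhds_unique (hu 0 le_rfl k i) ?_
    have h1 : ∀ᶠ n : ℕ in (F : Filter ℕ), u₀ k i = U n 0 k i := by
      filter_upwards [hF (cmp_cub k)] with n hn
      rw [hU0 n]
      unfold cut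
      rw [if_pos hn]
    exact Tendsto.congr' h1 tendsto_const_nhds
  have huadm : ∀ t, 0 ≤ t → Adm (u t) := by
    intro t ht
    rcases ht.eq_or_lt with h | h
    · rw [← h, hu0]; exact hu₀
    · have h1 := (hsol (t / 2) (by linarith)).adm (t / 2) (by linarith)
      simp only [add_halves] at h1
      exact h1
  have huEn : ∀ t, 0 ≤ t → ∀ N, En 0 N (u t) ≤ C₀ := by
    intro t ht N
    have h1 : Tendsto (fun n => En 0 N (U n t)) F (𝓝 (En 0 N (u t))) := by
      unfold En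
      exact tendsto_finsetSum _ fun k _ => (tendsto_finsetSum _ fun i _ =>
        (hu t ht k i).norm.pow 2).const_mul _
    exact le_of_tendsto h1 (Eventually.of_forall fun n => hEn n t ht N)
  -- Lipschitz bounds
  have hlip : ∀ m, ∃ B : ℝ, 0 ≤ B ∧ ∀ n j, ∀ s ∈ Set.Ici (0 : ℝ), ∀ t ∈ Set.Ici (0 : ℝ),
      ‖U n s m j - U n t m j‖ ≤ B * |s - t| := by
    intro m
    by_cases hm : m = 0
    · refine ⟨0, le_rfl, fun n j s hs t ht => ?_⟩
      rw [hm, ((hU n).adm s hs).zero, ((hU n).adm t ht).zero]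
      simp
    · obtain ⟨B, hB0, hB⟩ := cpt_rhsb hC ν α C₀ m hm
      refine ⟨B, hB0, fun n j s hs t ht => ?_⟩
      have h := Convex.norm_image_sub_le_of_norm_hasDerivWithin_le (s := Set.Ici (0 : ℝ))
        (f := fun t => U n t m j) (f' := fun t => rhs (cutg n g) ν α (U n t) m j)
        (C := B) (x := t) (y := s) (fun x hx => (hU n).eqn x hx m hm j)
        (fun x hx => hB (cutg n g) (U n x) (cmp_cutg_le g hg n) ((hU n).adm x hx)
          (hEn n x hx) j) (convex_Ici 0) ht hs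
      rw [Real.norm_eq_abs] at h
      exact h
  choose B hB0 hB using hlip
  have hBu : ∀ m j, ∀ s ∈ Set.Ici (0 : ℝ), ∀ t ∈ Set.Ici (0 : ℝ),
      ‖u s m j - u t m j‖ ≤ B m * |s - t| := by
    intro m j s hs t ht
    exact le_of_tendsto (((hu s hs m j).sub (hu t ht m j)).norm)
      (Eventually.of_forall fun n => hB m n j s hs t ht)
  have hcont : ∀ m j, ContinuousOn (fun t => u t m j) (Set.Ici 0) := fun m j =>
    cpt_cont _ _ (B m) (hB0 m) (hBu m j)
  -- the derivative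
  have hder : ∀ m, m ≠ 0 → ∀ j, ∀ s, 0 < s →
      HasDerivAt (fun t => u t m j) (rhs g ν α (u s) m j) s := by
    intro m hm j s hs
    have h1 := (hsol (s / 2) (by linarith)).eqn (s / 2) (by linarith) m hm j
    have h2 := h1.hasDerivAt (Ici_mem_nhds (by linarith : (0 : ℝ) < s / 2))
    simp only [add_halves] at h2
    have h3 : HasDerivAt (fun t => u (s / 2 + t) m j) (rhs g ν α (u s) m j) (s - s / 2) := by
      have h4 : s - s / 2 = s / 2 := by ring
      rw [h4]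
      exact h2
    have h5 := HasDerivAt.comp_sub_const s (s / 2) h3
    have h6 : (fun t => u (s / 2 + (t - s / 2)) m j) = fun t => u t m j := by
      funext t
      congr 3
      ring
    rw [h6] at h5
    exact h5
  have hint : ∀ m, m ≠ 0 → ∀ j, ∀ t, 0 ≤ t →
      IntervalIntegrable (fun s => rhs g ν α (u s) m j) volume 0 t := by
    intro m hm j t ht
    rw [intervalIntegrable_iff_integrableOn_Ioc_of_le ht]
    obtain ⟨D, hD0, hD⟩ := cpt_rhsb hC ν α C₀ m hm
    apply Integrable.of_bound (C := D)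
    · have h1 : AEStronglyMeasurable (deriv fun t => u t m j) (volume.restrict (Set.Ioc 0 t)) :=
        aestronglyMeasurable_deriv _ _
      refine h1.congr ?_
      filter_upwards [ae_restrict_mem measurableSet_Ioc] with s hs
      exact (hder m hm j s hs.1).deriv
    · filter_upwards [ae_restrict_mem measurableSet_Ioc] with s hs
      exact hD g (u s) hg.le (huadm s hs.1.le) (huEn s hs.1.le) j
  refine ⟨u, hu0, fun T hT => ⟨fun t ht => huadm t ht.1, fun m j => (hcont m j).mono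
    Set.Icc_subset_Ici_self, ⟨C₀, fun t ht => huEn t ht.1⟩, ⟨C₁, fun N => ?_⟩, ?_⟩, hsol⟩
  · -- the dissipation
    set L : ℝ := ∑ k ∈ cub N, nsq k ^ α * ∑ _i : Fin 3, (2 * A * B k) with hL
    have hL0 : 0 ≤ L := by
      apply Finset.sum_nonneg
      intro k _
      apply mul_nonneg (Real.rpow_nonneg (rhs_nn k) α)
      apply Finset.sum_nonneg
      intro i _
      have := hB0 k
      positivity
    have h1 : ∀ n, ∀ s ∈ Set.Icc 0 T, ∀ t ∈ Set.Icc 0 T,
        |Er α N (U n s) - Er α N (U n t)| ≤ L * |s - t| := fun n s hs t ht =>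
      cpt_er α A hA0 N B (U n s) (U n t) |s - t| (hbd n s hs.1) (hbd n t ht.1)
        (fun k i => hB k n i s hs.1 t ht.1)
    have h2 : ∀ s ∈ Set.Icc 0 T, Tendsto (fun n => Er α N (U n s)) F (𝓝 (Er α N (u s))) := by
      intro s hs
      unfold Er
      exact tendsto_finsetSum _ fun k _ => (tendsto_finsetSum _ fun i _ =>
        (hu s hs.1 k i).norm.pow 2).const_mul _
    have h3 : ∀ s ∈ Set.Icc 0 T, ∀ t ∈ Set.Icc 0 T,
        |Er α N (u s) - Er α N (u t)| ≤ L * |s - t| := by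
      intro s hs t ht
      exact le_of_tendsto (((h2 s hs).sub (h2 t ht)).abs)
        (Eventually.of_forall fun n => h1 n s hs t ht)
    have hi : ∀ n, IntervalIntegrable (fun s => Er α N (U n s)) volume 0 T := by
      intro n
      apply ContinuousOn.intervalIntegrable
      rw [Set.uIcc_of_le hT]
      exact cpt_cont (fun s => Er α N (U n s)) _ L hL0 (h1 n)
    have hi' : IntervalIntegrable (fun s => Er α N (u s)) volume 0 T := by
      apply ContinuousOn.intervalIntegrable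
      rw [Set.uIcc_of_le hT]
      exact cpt_cont (fun s => Er α N (u s)) _ L hL0 h3
    apply le_of_forall_pos_le_add
    intro ε hε
    have hε' : 0 < ε / (3 * (T + 1)) := by positivity
    obtain ⟨n, hn⟩ := (cpt_unif F T L hL0 (fun n s => Er α N (U n s)) (fun s => Er α N (u s))
      h1 h2 (ε / (3 * (T + 1))) hε').exists
    calc ∫ t in (0 : ℝ)..T, Er α N (u t)
        ≤ ∫ t in (0 : ℝ)..T, (Er α N (U n t) + 3 * (ε / (3 * (T + 1)))) :=
          intervalIntegral.integral_mono_on hT hi' ((hi n).add intervalIntegrable_const) hn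
      _ = (∫ t in (0 : ℝ)..T, Er α N (U n t)) + T * (3 * (ε / (3 * (T + 1)))) := by
          rw [intervalIntegral.integral_add (hi n) intervalIntegrable_const,
            intervalIntegral.integral_const, smul_eq_mul, sub_zero]
      _ ≤ C₁ + ε := by
          apply add_le_add (hEr n T N hT)
          have h4 : T * (3 * (ε / (3 * (T + 1)))) = ε * (T / (T + 1)) := by field_simp
          rw [h4]
          have h5 : T / (T + 1) ≤ 1 := by
            rw [div_le_one (by linarith)]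
            linarith
          nlinarith
  · intro m hm j t ht
    rw [intervalIntegral.integral_eq_sub_of_hasDerivAt_of_le ht.1
      ((hcont m j).mono Set.Icc_subset_Ici_self) (fun x hx => hder m hm j x hx.1)
      (hint m hm j t ht.1)]
    ring

end Pool.Agent.N983.WK
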