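import Pool.Agent.N983.WK.Stm

set_option autoImplicit false

/-! (CVB) the convolution: bounds and truncation. -/

namespace Pool.Agent.N983.WK

open MeasureTheory ProbabilityTheory Filter Topology Pool.Agent.N983.RT

theorem cvb_mem (k : Wv) : ∀ᶠ N : ℕ in atTop, k ∈ cub N := by
  filter_upwards [eventually_ge_atTop (∑ i, (k i).natAbs)] with N hN
  unfold cub
  rw [Fintype.mem_piFinset]
  intro i
  rw [Finset.mem_Icc]
  have h1 : (k i).natAbs ≤ ∑ i, (k i).natAbs :=
    Finset.single_le_sum (f := fun i => (k i).natAbs) (fun _ _ => Nat.zero_le _)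
      (Finset.mem_univ i)
  have h2 : (k i).natAbs ≤ N := h1.trans hN
  omega

theorem cvb_sum (u : Fld) (a : ℝ) (h : ∀ n, En 0 n u ≤ a ^ 2) (T : Finset Wv) :
    ∑ k ∈ T, ∑ i, ‖u k i‖ ^ 2 ≤ a ^ 2 := by
  obtain ⟨N, hN⟩ := ((Finset.eventually_all T).2 fun k _ => cvb_mem k).exists
  have h1 := h N
  unfold En at h1
  simp only [pow_zero, one_mul] at h1
  exact (Finset.sum_le_sum_of_subset_of_nonneg (fun k hk => hN k hk)
    (fun k _ _ => Finset.sum_nonneg fun i _ => by positivity)).trans h1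

/-- the length -/
noncomputable def cvb_n (x : Fin 3 → ℂ) : ℝ := Real.sqrt (∑ i, ‖x i‖ ^ 2)

theorem cvb_n_nonneg (x : Fin 3 → ℂ) : 0 ≤ cvb_n x := Real.sqrt_nonneg _

theorem cvb_n_sq (x : Fin 3 → ℂ) : cvb_n x ^ 2 = ∑ i, ‖x i‖ ^ 2 :=
  Real.sq_sqrt (Finset.sum_nonneg fun i _ => by positivity)

theorem cvb_n_le (x : Fin 3 → ℂ) (i : Fin 3) : ‖x i‖ ≤ cvb_n x := by
  apply Real.le_sqrt_of_sq_le
  exact Finset.single_le_sum (f := fun i => ‖x i‖ ^ 2) (fun _ _ => by positivity)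
    (Finset.mem_univ i)

/-- the constant -/
noncomputable def cvb_s (m : Wv) : ℝ := ∑ i, |(m i : ℝ)|

theorem cvb_s_nonneg (m : Wv) : 0 ≤ cvb_s m := Finset.sum_nonneg fun i _ => abs_nonneg _

theorem cvb_dt (x : Fin 3 → ℂ) (k m : Wv) (h : dt x k = 0) :
    ‖dt x (m - k)‖ ≤ cvb_s m * cvb_n x := by
  have h1 : dt x (m - k) = dt x m := by
    have h2 : dt x (m - k) = dt x m - dt x k := by
      unfold dt
      rw [← Finset.sum_sub_distrib]
      refine Finset.sum_congr rfl fun i _ => ?_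
      rw [Pi.sub_apply]
      push_cast
      ring
    rw [h2, h, sub_zero]
  rw [h1]
  unfold dt cvb_s
  rw [Finset.sum_mul]
  refine (norm_sum_le _ _).trans (Finset.sum_le_sum fun i _ => ?_)
  rw [norm_mul, mul_comm]
  have h3 : ‖((m i : ℤ) : ℂ)‖ = |(m i : ℝ)| := by
    rw [Complex.norm_intCast]
  rw [h3]
  exact mul_le_mul_of_nonneg_left (cvb_n_le x i) (abs_nonneg _)

theorem t_CVB : S_CVB := by
  refine ⟨cvb_s, cvb_s_nonneg, ?_⟩
  intro g u v a b hg ha hb hdiv hu hv m j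
  let G : Wv → ℝ := fun k => cvb_s m * (cvb_n (u k) * cvb_n (v (m - k)))
  have hG0 : ∀ k, 0 ≤ G k := fun k => mul_nonneg (cvb_s_nonneg m)
    (mul_nonneg (cvb_n_nonneg _) (cvb_n_nonneg _))
  have hF : ∀ k, ‖(g k (m - k) (-m) : ℂ) * dt (u k) (m - k) * v (m - k) j‖ ≤ G k := by
    intro k
    rw [norm_mul, norm_mul, Complex.norm_real, Real.norm_eq_abs]
    have h1 := hg k (m - k) (-m)
    have h2 := cvb_dt (u k) k m (hdiv k)
    have h3 := cvb_n_le (v (m - k)) j
    calc |g k (m - k) (-m)| * ‖dt (u k) (m - k)‖ * ‖v (m - k) j‖ ≤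
        1 * (cvb_s m * cvb_n (u k)) * cvb_n (v (m - k)) := by
          refine mul_le_mul (mul_le_mul h1 h2 (norm_nonneg _) zero_le_one) h3 (norm_nonneg _) ?_
          exact mul_nonneg zero_le_one (mul_nonneg (cvb_s_nonneg m) (cvb_n_nonneg _))
      _ = G k := by
          show _ = cvb_s m * (cvb_n (u k) * cvb_n (v (m - k)))
          ring
  have hGs : ∀ T : Finset Wv, ∑ k ∈ T, G k ≤ cvb_s m * a * b := by
    intro T
    have h1 : ∑ k ∈ T, cvb_n (u k) ^ 2 ≤ a ^ 2 := by
      have h2 := cvb_sum u a hu T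
      simp only [cvb_n_sq]
      exact h2
    have h3 : ∑ k ∈ T, cvb_n (v (m - k)) ^ 2 ≤ b ^ 2 := by
      have h2 := cvb_sum v b hv (T.image fun k => m - k)
      rw [Finset.sum_image (fun x _ y _ h => sub_right_injective h)] at h2
      simp only [cvb_n_sq]
      exact h2
    have h4 := Finset.sum_mul_sq_le_sq_mul_sq T (fun k => cvb_n (u k))
      (fun k => cvb_n (v (m - k)))
    have h5 : (∑ k ∈ T, cvb_n (u k) * cvb_n (v (m - k))) ^ 2 ≤ (a * b) ^ 2 := by
      refine h4.trans ?_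
      rw [mul_pow]
      exact mul_le_mul h1 h3 (Finset.sum_nonneg fun _ _ => sq_nonneg _) (sq_nonneg _)
    have h6 : ∑ k ∈ T, cvb_n (u k) * cvb_n (v (m - k)) ≤ a * b :=
      le_of_sq_le_sq h5 (mul_nonneg ha hb)
    show ∑ k ∈ T, cvb_s m * (cvb_n (u k) * cvb_n (v (m - k))) ≤ _
    rw [← Finset.mul_sum, mul_assoc]
    exact mul_le_mul_of_nonneg_left h6 (cvb_s_nonneg m)
  have hGsum : Summable G := summable_of_sum_le hG0 hGs
  have hGt : ∑' k, G k ≤ cvb_s m * a * b := hGsum.tsum_le_of_sum_le hGs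
  refine ⟨Summable.of_norm_bounded hGsum hF, ?_, ?_⟩
  · exact (tsum_of_norm_bounded hGsum.hasSum hF).trans hGt
  · unfold cv
    refine tendsto_tsum_of_dominated_convergence hGsum ?_ (Eventually.of_forall fun N k => ?_)
    · intro k
      refine tendsto_const_nhds.congr' ?_
      filter_upwards [cvb_mem k, cvb_mem (m - k)] with N h1 h2
      unfold cut
      rw [if_pos h1, if_pos h2]
    · refine le_trans ?_ (hF k)
      unfold cut
      by_cases h1 : k ∈ cub N
      · by_cases h2 : m - k ∈ cub N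
        · rw [if_pos h1, if_pos h2]
        · rw [if_neg h2, Pi.zero_apply, mul_zero, norm_zero]
          exact norm_nonneg _
      · have h3 : dt (0 : Fin 3 → ℂ) (m - k) = 0 := by
          unfold dt
          simp
        rw [if_neg h1, h3, mul_zero, zero_mul, norm_zero]
        exact norm_nonneg _

end Pool.Agent.N983.WK
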