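import Pool.Agent.N983.WK.Stm
import Pool.Agent.N983.RT.PNT

set_option autoImplicit false

/-! (FX2) no energy flux to infinity, deterministic part (helper239 for helper983) -/

namespace Pool.Agent.N983.WK

open Pool.Agent.N983.RT Filter Topology Finset

/-! ### the cutoff -/

theorem fx2_ct_nonneg (n : ℕ) (m : Wv) : 0 ≤ ct n m := le_max_left _ _

theorem fx2_ct_le (n : ℕ) (m : Wv) : ct n m ≤ 1 := max_le zero_le_one (min_le_left _ _)

theorem fx2_ct_neg (n : ℕ) (m : Wv) : ct n (-m) = ct n m := by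
  unfold ct
  rw [pnt_nsq_neg]

theorem fx2_ct_zero {n : ℕ} {m : Wv} (h : 2 * ((n : ℝ) + 1) ≤ pnt_L m) : ct n m = 0 := by
  unfold ct
  have hn : (0 : ℝ) < (n : ℝ) + 1 := by positivity
  have h1 : 2 ≤ Real.sqrt (nsq m) / ((n : ℝ) + 1) := by
    rw [le_div_iff₀ hn]
    exact h
  have h2 : min 1 (2 - Real.sqrt (nsq m) / ((n : ℝ) + 1)) ≤ 0 :=
    (min_le_right _ _).trans (by linarith)
  exact max_eq_left h2

theorem fx2_ct_one {n : ℕ} {m : Wv} (h : pnt_L m ≤ (n : ℝ) + 1) : ct n m = 1 := by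
  unfold ct
  have hn : (0 : ℝ) < (n : ℝ) + 1 := by positivity
  have h1 : Real.sqrt (nsq m) / ((n : ℝ) + 1) ≤ 1 := by
    rw [div_le_iff₀ hn, one_mul]
    exact h
  rw [min_eq_left (by linarith), max_eq_right zero_le_one]

theorem fx2_ct_lip (n : ℕ) (p l : Wv) :
    |ct n p - ct n l| ≤ |pnt_L p - pnt_L l| / ((n : ℝ) + 1) := by
  have hn : (0 : ℝ) < (n : ℝ) + 1 := by positivity
  have h1 : |ct n p - ct n l| ≤
      |(2 - Real.sqrt (nsq p) / ((n : ℝ) + 1)) - (2 - Real.sqrt (nsq l) / ((n : ℝ) + 1))| := by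
    unfold ct
    generalize 2 - Real.sqrt (nsq p) / ((n : ℝ) + 1) = x
    generalize 2 - Real.sqrt (nsq l) / ((n : ℝ) + 1) = y
    have a1 : |max 0 (min 1 x) - max 0 (min 1 y)| ≤ |min 1 x - min 1 y| := by
      rw [max_comm 0, max_comm 0]
      exact abs_max_sub_max_le_abs _ _ _
    have a2 : |min 1 x - min 1 y| ≤ |x - y| := by
      refine (abs_min_sub_min_le_max 1 x 1 y).trans ?_
      simp
    exact a1.trans a2
  refine h1.trans (le_of_eq ?_)
  rw [sub_sub_sub_cancel_left, ← sub_div, abs_div, abs_of_pos hn, abs_sub_comm]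
  rfl

theorem fx2_ct_cub {n : ℕ} {m : Wv} (h : m ∉ cub (2 * n + 2)) : ct n m = 0 := by
  apply fx2_ct_zero
  rw [alg_mem] at h
  push Not at h
  obtain ⟨i, hi⟩ := h
  have h1 : (2 * ((n : ℝ) + 1)) ^ 2 ≤ (m i : ℝ) ^ 2 := by
    have h2 : (2 * (n : ℤ) + 2) < |m i| := by
      rw [lt_abs]
      by_contra hc
      push Not at hc
      have := hi (by push_cast; linarith [hc.2])
      push_cast at this
      linarith [hc.1]
    have h3 : (2 * (n : ℝ) + 2) < |(m i : ℝ)| := by exact_mod_cast h2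
    rw [← sq_abs (m i : ℝ)]
    have : (0 : ℝ) ≤ n := Nat.cast_nonneg n
    exact pow_le_pow_left₀ (by positivity) (by linarith) 2
  unfold pnt_L
  rw [Real.le_sqrt (by positivity) (lat_nsq_nonneg m)]
  exact h1.trans (lat_nsq_ge m i)

/-! ### the summand -/

/-- the summand -/
noncomputable def fx2_H (g : Wv → Wv → Wv → ℝ) (u : Fld) (k l : Wv) : ℂ :=
  (g k l (-(k + l)) : ℂ) * dt (u k) l * ∑ j, u l j * u (-(k + l)) j

theorem fx2_H_swap {g : Wv → Wv → Wv → ℝ} (hg : Arr g) {u : Fld} (hu : Adm u) (k l : Wv) :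
    fx2_H g u k (-(k + l)) = -fx2_H g u k l := by
  unfold fx2_H
  have e : -(k + -(k + l)) = l := by abel
  rw [e, alg_dt_neg, alg_dt_add, hu.div k, zero_add, hg.swap23 k (-(k + l)) l]
  have h3 : ∑ j, u (-(k + l)) j * u l j = ∑ j, u l j * u (-(k + l)) j :=
    Finset.sum_congr rfl fun j _ => mul_comm _ _
  rw [h3]
  ring

/-- the elementary inequality for the cutoff -/
theorem fx2_diff {u : Fld} (hu : Adm u) (n : ℕ) {k l m : Wv} (h : k + l + m = 0) :
    |ct n m - ct n l| * ‖dt (u k) l‖ ≤ 4 * (Real.sqrt (mn k l m) * pnt_U u k) := by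
  have hn : (0 : ℝ) < (n : ℝ) + 1 := by positivity
  have hU := pnt_U_nonneg u k
  have hLk := pnt_L_nonneg k
  have hLl := pnt_L_nonneg l
  have hLm := pnt_L_nonneg m
  have hd : |ct n m - ct n l| ≤ 1 := by
    rw [abs_le]
    have := fx2_ct_nonneg n m
    have := fx2_ct_nonneg n l
    have := fx2_ct_le n m
    have := fx2_ct_le n l
    constructor <;> linarith
  have key : ‖dt (u k) l‖ ≤ pnt_U u k * Real.sqrt (mn k l m) →
      |ct n m - ct n l| * ‖dt (u k) l‖ ≤ 4 * (Real.sqrt (mn k l m) * pnt_U u k) := by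
    intro h1
    have h2 : |ct n m - ct n l| * ‖dt (u k) l‖ ≤ 1 * (pnt_U u k * Real.sqrt (mn k l m)) :=
      mul_le_mul hd h1 (norm_nonneg _) zero_le_one
    have h3 : 0 ≤ Real.sqrt (mn k l m) * pnt_U u k := by positivity
    nlinarith
  by_cases c1 : nsq k ≤ nsq l ∧ nsq k ≤ nsq m
  · -- `k` is the shortest
    have hmn : mn k l m = nsq k := min_eq_left (le_min c1.1 c1.2)
    have hr : Real.sqrt (mn k l m) = pnt_L k := by rw [hmn]; rfl
    rw [hr]
    have t1 : pnt_L m ≤ pnt_L k + pnt_L l := pnt_tri h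
    have t2 : pnt_L l ≤ pnt_L k + pnt_L m := pnt_tri (by rw [← h]; abel)
    have g2 : pnt_L k ≤ pnt_L m := Real.sqrt_le_sqrt c1.2
    by_cases c : 4 * ((n : ℝ) + 1) < pnt_L l
    · have e1 : ct n l = 0 := fx2_ct_zero (by linarith)
      have e2 : ct n m = 0 := fx2_ct_zero (by linarith)
      rw [e1, e2, sub_zero, abs_zero, zero_mul]
      positivity
    · push Not at c
      have h1 : |ct n m - ct n l| ≤ pnt_L k / ((n : ℝ) + 1) := by
        refine (fx2_ct_lip n m l).trans ?_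
        gcongr
        rw [abs_le]
        constructor <;> linarith
      calc |ct n m - ct n l| * ‖dt (u k) l‖
          ≤ pnt_L k / ((n : ℝ) + 1) * (pnt_U u k * (4 * ((n : ℝ) + 1))) := by
            refine mul_le_mul h1 ((pnt_dt u k l).trans ?_) (norm_nonneg _) (by positivity)
            gcongr
        _ = 4 * (pnt_L k * pnt_U u k) := by
            field_simp
  · by_cases c2 : nsq l ≤ nsq m
    · -- `l` is the shortest
      have hlk : nsq l ≤ nsq k := by
        by_contra hc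
        push Not at hc
        exact c1 ⟨hc.le, hc.le.trans c2⟩
      have hmn : mn k l m = nsq l := by
        rw [pnt_mn12]
        exact min_eq_left (le_min hlk c2)
      apply key
      rw [hmn]
      exact pnt_dt u k l
    · -- `m` is the shortest
      push Not at c2
      have hmk : nsq m ≤ nsq k := by
        by_contra hc
        push Not at hc
        exact c1 ⟨(hc.trans c2).le, hc.le⟩
      have hmn : mn k l m = nsq m := by
        rw [pnt_mn23, pnt_mn12]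
        exact min_eq_left (le_min hmk c2.le)
      apply key
      rw [hmn]
      have e : l = -(k + m) := by
        rw [eq_neg_iff_add_eq_zero, ← h]
        abel
      have e2 : dt (u k) l = -dt (u k) m := by
        rw [e, alg_dt_neg, alg_dt_add, hu.div k, zero_add]
      rw [e2, norm_neg]
      exact pnt_dt u k m

/-- the majorant -/
noncomputable def fx2_M (γ α : ℝ) (u : Fld) (k l : Wv) : ℝ :=
  pnt_a γ u k * pnt_e α u l * pnt_e α u (-(k + l)) +
    pnt_e α u k * pnt_a γ u l * pnt_e α u (-(k + l)) +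
    pnt_e α u k * pnt_e α u l * pnt_a γ u (-(k + l))

theorem fx2_M_nonneg (γ α : ℝ) (u : Fld) (k l : Wv) : 0 ≤ fx2_M γ α u k l := by
  unfold fx2_M
  have ak := pnt_a_nonneg γ u k
  have al := pnt_a_nonneg γ u l
  have am := pnt_a_nonneg γ u (-(k + l))
  have ek := pnt_e_nonneg α u k
  have el := pnt_e_nonneg α u l
  have em := pnt_e_nonneg α u (-(k + l))
  positivity

theorem fx2_pt {g : Wv → Wv → Wv → ℝ} {B β α : ℝ} (hB : 0 ≤ B) (hα : 0 < α)
    (hβ : β < α) (hgb : ∀ k l m, k ≠ 0 → l ≠ 0 → m ≠ 0 → k + l + m = 0 →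
      |g k l m| * mn k l m ^ (5 / 4 : ℝ) ≤ B * mx k l m ^ β) {u : Fld} (hu : Adm u) (n : ℕ)
    (k l : Wv) :
    ‖((ct n (k + l) - ct n l : ℝ) : ℂ) * fx2_H g u k l‖ ≤
      4 * B * (4 : ℝ) ^ α * fx2_M (3 / 4 + (α - β)) α u k l := by
  set γ : ℝ := 3 / 4 + (α - β) with hγ
  have hnn : 0 ≤ 4 * B * (4 : ℝ) ^ α * fx2_M γ α u k l :=
    mul_nonneg (by positivity) (fx2_M_nonneg _ _ _ _ _)
  by_cases hk : k = 0
  · have : fx2_H g u k l = 0 := by
      unfold fx2_H dt
      rw [hk, hu.zero]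
      simp
    rw [this, mul_zero, norm_zero]
    exact hnn
  by_cases hl : l = 0
  · have : fx2_H g u k l = 0 := by
      unfold fx2_H
      rw [hl, hu.zero]
      simp
    rw [this, mul_zero, norm_zero]
    exact hnn
  by_cases hm : -(k + l) = 0
  · have : fx2_H g u k l = 0 := by
      unfold fx2_H
      rw [hm, hu.zero]
      simp
    rw [this, mul_zero, norm_zero]
    exact hnn
  rw [← fx2_ct_neg n (k + l)]
  unfold fx2_M fx2_H
  set m : Wv := -(k + l) with hmdef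
  have hsum : k + l + m = 0 := by rw [hmdef]; abel
  have hmn1 : 1 ≤ mn k l m := le_min (lat_nsq_one hk) (le_min (lat_nsq_one hl) (lat_nsq_one hm))
  have hmnp : 0 < mn k l m := by linarith
  have hmnmx : mn k l m ≤ mx k l m := (min_le_left _ _).trans (le_max_left _ _)
  have hmxp : 0 < mx k l m := by linarith
  have h1 := fx2_diff hu n hsum
  have h2 := pnt_uu u l m
  have h3 := hgb k l m hk hl hm hsum
  have hUk := pnt_U_nonneg u k
  have hUl := pnt_U_nonneg u l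
  have hUm := pnt_U_nonneg u m
  have h4 : |g k l m| * Real.sqrt (mn k l m) ≤ B * mx k l m ^ β * mn k l m ^ (-(3 / 4) : ℝ) := by
    have e3 : Real.sqrt (mn k l m) = mn k l m ^ (5 / 4 : ℝ) * mn k l m ^ (-(3 / 4) : ℝ) := by
      rw [← Real.rpow_add hmnp, Real.sqrt_eq_rpow]
      norm_num
    rw [e3, ← mul_assoc]
    exact mul_le_mul_of_nonneg_right h3 (by positivity)
  have h5 : mx k l m ^ β * mn k l m ^ (-(3 / 4) : ℝ) ≤ mx k l m ^ α * mn k l m ^ (-γ) := by
    have e4 : mx k l m ^ β = mx k l m ^ α * mx k l m ^ (-(α - β)) := by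
      rw [← Real.rpow_add hmxp]
      congr 1
      ring
    have e6 : mn k l m ^ (-γ) = mn k l m ^ (-(α - β)) * mn k l m ^ (-(3 / 4) : ℝ) := by
      rw [← Real.rpow_add hmnp]
      congr 1
      rw [hγ]
      ring
    rw [e4, e6, mul_assoc]
    refine mul_le_mul_of_nonneg_left ?_ (by positivity)
    refine mul_le_mul_of_nonneg_right ?_ (by positivity)
    exact Real.rpow_le_rpow_of_nonpos hmnp hmnmx (by linarith)
  have h6 := pnt_three u (γ := γ) hα.le hsum hk hl hm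
  rw [norm_mul, norm_mul, norm_mul, Complex.norm_real, Complex.norm_real, Real.norm_eq_abs,
    Real.norm_eq_abs]
  calc |ct n m - ct n l| * (|g k l m| * ‖dt (u k) l‖ * ‖∑ j, u l j * u m j‖)
      = |g k l m| * (|ct n m - ct n l| * ‖dt (u k) l‖) * ‖∑ j, u l j * u m j‖ := by ring
    _ ≤ |g k l m| * (4 * (Real.sqrt (mn k l m) * pnt_U u k)) * (pnt_U u l * pnt_U u m) := by
        refine mul_le_mul (mul_le_mul_of_nonneg_left h1 (abs_nonneg _)) h2 (norm_nonneg _) ?_
        positivity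
    _ = 4 * (|g k l m| * Real.sqrt (mn k l m)) * (pnt_U u k * pnt_U u l * pnt_U u m) := by ring
    _ ≤ 4 * (B * mx k l m ^ β * mn k l m ^ (-(3 / 4) : ℝ)) *
          (pnt_U u k * pnt_U u l * pnt_U u m) := by gcongr
    _ = 4 * B * (mx k l m ^ β * mn k l m ^ (-(3 / 4) : ℝ)) *
          (pnt_U u k * pnt_U u l * pnt_U u m) := by ring
    _ ≤ 4 * B * (mx k l m ^ α * mn k l m ^ (-γ)) *
          (pnt_U u k * pnt_U u l * pnt_U u m) := by gcongr
    _ = 4 * B * (mx k l m ^ α * mn k l m ^ (-γ) * (pnt_U u k * pnt_U u l * pnt_U u m)) := by ring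
    _ ≤ 4 * B * ((4 : ℝ) ^ α * (pnt_a γ u k * pnt_e α u l * pnt_e α u m +
          pnt_e α u k * pnt_a γ u l * pnt_e α u m +
          pnt_e α u k * pnt_e α u l * pnt_a γ u m)) := by gcongr
    _ = _ := by ring

/-! ### the sum of the majorant -/

theorem fx2_U_cut {n : ℕ} {k : Wv} (hk : k ∈ cub n) (u : Fld) :
    pnt_U (cut n u) k = pnt_U u k := by
  unfold pnt_U cut
  simp only [if_pos hk]

theorem fx2_U_cut0 {n : ℕ} {k : Wv} (hk : k ∉ cub n) (u : Fld) :
    pnt_U (cut n u) k = 0 := by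
  apply pnt_U_zero
  unfold cut
  rw [if_neg hk]

theorem fx2_a_cut {n : ℕ} {k : Wv} (hk : k ∈ cub n) (γ : ℝ) (u : Fld) :
    pnt_a γ (cut n u) k = pnt_a γ u k := by
  unfold pnt_a
  rw [fx2_U_cut hk]

theorem fx2_e_cut {n : ℕ} {k : Wv} (hk : k ∈ cub n) (α : ℝ) (u : Fld) :
    pnt_e α (cut n u) k = pnt_e α u k := by
  unfold pnt_e
  rw [fx2_U_cut hk]

theorem fx2_En_cut (n : ℕ) (u : Fld) : En 0 n (cut n u) = En 0 n u := by
  unfold En cut
  refine sum_congr rfl fun k hk => ?_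
  simp only [if_pos hk]

theorem fx2_Er_cut (α : ℝ) (n : ℕ) (u : Fld) : Er α n (cut n u) = Er α n u := by
  unfold Er cut
  refine sum_congr rfl fun k hk => ?_
  simp only [if_pos hk]

theorem fx2_M_sum {γ α S A D : ℝ} (hS0 : 0 ≤ S)
    (hS : ∀ (n : ℕ) (u : Fld), ∑ k ∈ cub n, pnt_a γ u k ≤ S * Real.sqrt (En 0 n u))
    {u : Fld} (hu : Adm u) (hA : 0 ≤ A) (hEn : ∀ n, En 0 n u ≤ A ^ 2)
    (hEr : ∀ n, Er α n u ≤ D) (n : ℕ) :
    ∑ k ∈ cub n, ∑ l ∈ cub n, fx2_M γ α u k l ≤ 3 * (S * A * D) := by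
  set N := 2 * n with hN
  set w := cut N u with hw
  have hmem : ∀ k ∈ cub n, k ∈ cub N := by
    intro k hk
    rw [alg_mem] at hk ⊢
    intro i
    have := hk i
    rw [hN]
    push_cast
    constructor <;> linarith [this.1, this.2, Int.natCast_nonneg n]
  have hmem2 : ∀ k ∈ cub n, ∀ l ∈ cub n, -(k + l) ∈ cub N := by
    intro k hk l hl
    rw [alg_mem] at hk hl ⊢
    intro i
    have h1 := hk i
    have h2 := hl i
    rw [hN]
    simp only [Pi.neg_apply, Pi.add_apply]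
    push_cast
    constructor <;> linarith [h1.1, h1.2, h2.1, h2.2]
  have e1 : ∑ k ∈ cub n, ∑ l ∈ cub n, fx2_M γ α u k l =
      ∑ k ∈ cub n, ∑ l ∈ cub n, fx2_M γ α w k l := by
    refine sum_congr rfl fun k hk => sum_congr rfl fun l hl => ?_
    unfold fx2_M
    rw [hw, fx2_a_cut (hmem k hk), fx2_a_cut (hmem l hl), fx2_a_cut (hmem2 k hk l hl),
      fx2_e_cut (hmem k hk), fx2_e_cut (hmem l hl), fx2_e_cut (hmem2 k hk l hl)]
  have e2 : ∑ k ∈ cub n, ∑ l ∈ cub n, fx2_M γ α w k l ≤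
      ∑ k ∈ cub N, ∑ l ∈ cub N, fx2_M γ α w k l := by
    refine (sum_le_sum fun k _ => sum_le_sum_of_subset_of_nonneg hmem
      fun l _ _ => fx2_M_nonneg _ _ _ _ _).trans ?_
    exact sum_le_sum_of_subset_of_nonneg hmem
      fun k _ _ => sum_nonneg fun l _ => fx2_M_nonneg _ _ _ _ _
  have ha := pnt_a_nonneg γ w
  have he0 : ∀ k, k ∉ cub N → pnt_e α w k = 0 := by
    intro k hk
    unfold pnt_e
    rw [hw, fx2_U_cut0 hk, mul_zero]
  have ha0 : ∀ k, k ∉ cub N → pnt_a γ w k = 0 := by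
    intro k hk
    unfold pnt_a
    rw [hw, fx2_U_cut0 hk, mul_zero, ite_self]
  have s1 := pnt_tri_sum (n := N) (a := pnt_a γ w) (e := pnt_e α w) ha he0
  have s2 := pnt_tri_sum2 (n := N) (a := pnt_a γ w) (e := pnt_e α w) ha he0
  have s3 := pnt_tri_sum3 (n := N) (a := pnt_a γ w) (e := pnt_e α w) ha he0 ha0
  have hw0 : w 0 = 0 := by
    rw [hw]
    unfold cut
    rw [hu.zero, ite_self]
  have hE : 0 ≤ ∑ l ∈ cub N, pnt_e α w l ^ 2 := sum_nonneg fun l _ => sq_nonneg _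
  have hEw : ∑ l ∈ cub N, pnt_e α w l ^ 2 ≤ D := by
    rw [pnt_e_sum α N w hw0, hw, fx2_Er_cut]
    exact hEr N
  have hSw : ∑ k ∈ cub N, pnt_a γ w k ≤ S * A := by
    refine (hS N w).trans (mul_le_mul_of_nonneg_left ?_ hS0)
    rw [Real.sqrt_le_left hA, hw, fx2_En_cut]
    exact hEn N
  have s4 : (∑ k ∈ cub N, pnt_a γ w k) * ∑ l ∈ cub N, pnt_e α w l ^ 2 ≤ S * A * D :=
    mul_le_mul hSw hEw hE (by positivity)
  have e3 : ∑ k ∈ cub N, ∑ l ∈ cub N, fx2_M γ α w k l =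
      ∑ k ∈ cub N, ∑ l ∈ cub N, pnt_a γ w k * pnt_e α w l * pnt_e α w (-(k + l)) +
      ∑ k ∈ cub N, ∑ l ∈ cub N, pnt_e α w k * pnt_a γ w l * pnt_e α w (-(k + l)) +
      ∑ k ∈ cub N, ∑ l ∈ cub N, pnt_e α w k * pnt_e α w l * pnt_a γ w (-(k + l)) := by
    unfold fx2_M
    simp only [sum_add_distrib]
  rw [e1]
  refine e2.trans ?_
  rw [e3]
  linarith

theorem fx2_M_fin {γ α S A D : ℝ} (hS0 : 0 ≤ S)
    (hS : ∀ (n : ℕ) (u : Fld), ∑ k ∈ cub n, pnt_a γ u k ≤ S * Real.sqrt (En 0 n u))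
    {u : Fld} (hu : Adm u) (hA : 0 ≤ A) (hEn : ∀ n, En 0 n u ≤ A ^ 2)
    (hEr : ∀ n, Er α n u ≤ D) (s : Finset (Wv × Wv)) :
    ∑ q ∈ s, fx2_M γ α u q.1 q.2 ≤ 3 * (S * A * D) := by
  classical
  obtain ⟨n, hn⟩ : ∃ n : ℕ, ∀ q ∈ s, q.1 ∈ cub n ∧ q.2 ∈ cub n := by
    refine ⟨s.sup fun q => (univ : Finset (Fin 3)).sup fun i => (q.1 i).natAbs + (q.2 i).natAbs,
      fun q hq => ?_⟩
    have h1 : ∀ i, (q.1 i).natAbs + (q.2 i).natAbs ≤
        s.sup fun q => (univ : Finset (Fin 3)).sup fun i => (q.1 i).natAbs + (q.2 i).natAbs := by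
      intro i
      refine le_trans ?_ (le_sup (f := fun q : Wv × Wv => (univ : Finset (Fin 3)).sup
        fun i => (q.1 i).natAbs + (q.2 i).natAbs) hq)
      exact le_sup (f := fun i => (q.1 i).natAbs + (q.2 i).natAbs) (mem_univ i)
    constructor
    · rw [alg_mem]
      intro i
      have := h1 i
      omega
    · rw [alg_mem]
      intro i
      have := h1 i
      omega
  refine le_trans ?_ (fx2_M_sum hS0 hS hu hA hEn hEr n)
  rw [← sum_product']
  refine sum_le_sum_of_subset_of_nonneg ?_ fun q _ _ => fx2_M_nonneg _ _ _ _ _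
  intro q hq
  rw [mem_product]
  exact hn q hq

/-! ### the symmetrised sum -/

/-- the change of variables `(k, l) ↦ (k + l, k)` -/
def fx2_e : Wv × Wv ≃ Wv × Wv where
  toFun q := (q.1 + q.2, q.1)
  invFun q := (q.2, q.1 - q.2)
  left_inv q := by simp
  right_inv q := by simp

/-- the change of variables `(k, l) ↦ (k, -(k + l))` -/
def fx2_s : Wv × Wv ≃ Wv × Wv where
  toFun q := (q.1, -(q.1 + q.2))
  invFun q := (q.1, -(q.1 + q.2))
  left_inv q := by simp
  right_inv q := by simp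

theorem fx2_inner (hC : S_CVB) {g : Wv → Wv → Wv → ℝ} (hg : Arr g) {u : Fld} (hu : Adm u)
    {A : ℝ} (hA : 0 ≤ A) (hEn : ∀ n, En 0 n u ≤ A ^ 2) (m : Wv) :
    Summable (fun k => fx2_H g u k (m - k)) ∧
    ∑ j, (starRingEnd ℂ) (u m j) * cv g u u m j = ∑' k, fx2_H g u k (m - k) := by
  obtain ⟨K, _, hK⟩ := hC
  have hs : ∀ j, Summable (fun k => (g k (m - k) (-m) : ℂ) * dt (u k) (m - k) * u (m - k) j) :=
    fun j => (hK g u u A A hg.le hA hA hu.div hEn hEn m j).1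
  have e : ∀ k, fx2_H g u k (m - k) = ∑ j, u (-m) j *
      ((g k (m - k) (-m) : ℂ) * dt (u k) (m - k) * u (m - k) j) := by
    intro k
    unfold fx2_H
    rw [add_sub_cancel, mul_sum]
    exact sum_congr rfl fun j _ => by ring
  have hs2 : ∀ j, Summable (fun k => u (-m) j *
      ((g k (m - k) (-m) : ℂ) * dt (u k) (m - k) * u (m - k) j)) :=
    fun j => (hs j).mul_left _
  constructor
  · simp_rw [e]
    exact summable_sum fun j _ => hs2 j
  · simp_rw [e]
    rw [Summable.tsum_finsetSum fun j _ => hs2 j]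
    refine sum_congr rfl fun j _ => ?_
    rw [tsum_mul_left, ← hu.real]
    rfl

theorem fx2_sym (hC : S_CVB) {g : Wv → Wv → Wv → ℝ} (hg : Arr g) {u : Fld} (hu : Adm u)
    {A : ℝ} (hA : 0 ≤ A) (hEn : ∀ n, En 0 n u ≤ A ^ 2) (n : ℕ) :
    2 * ∑ m ∈ cub (2 * n + 2), (ct n m : ℂ) * ∑ j, (starRingEnd ℂ) (u m j) * cv g u u m j =
      ∑' q : Wv × Wv, ((ct n (q.1 + q.2) - ct n q.2 : ℝ) : ℂ) * fx2_H g u q.1 q.2 := by
  set Φ : Wv × Wv → ℂ := fun q => (ct n q.1 : ℂ) * fx2_H g u q.2 (q.1 - q.2) with hΦ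
  have hin := fx2_inner hC hg hu hA hEn
  have hS : Summable Φ := by
    refine Summable.of_norm ?_
    rw [summable_prod_of_nonneg (fun q => norm_nonneg _)]
    constructor
    · intro m
      exact ((hin m).1.mul_left (ct n m : ℂ)).norm
    · refine summable_of_ne_finset_zero (s := cub (2 * n + 2)) fun m hm => ?_
      have : ∀ k, ‖Φ (m, k)‖ = 0 := by
        intro k
        rw [hΦ]
        simp only [fx2_ct_cub hm, Complex.ofReal_zero, zero_mul, norm_zero]
      simp only [this, tsum_zero]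
  have hZ : ∑ m ∈ cub (2 * n + 2), (ct n m : ℂ) * ∑ j, (starRingEnd ℂ) (u m j) * cv g u u m j =
      ∑' q, Φ q := by
    rw [hS.tsum_prod, tsum_eq_sum (s := cub (2 * n + 2))]
    · refine sum_congr rfl fun m _ => ?_
      rw [(hin m).2, ← tsum_mul_left]
    · intro m hm
      rw [hΦ]
      simp only [fx2_ct_cub hm, Complex.ofReal_zero, zero_mul, tsum_zero]
  set Ψ : Wv × Wv → ℂ := fun q => (ct n (q.1 + q.2) : ℂ) * fx2_H g u q.1 q.2 with hΨ
  have e1 : Φ ∘ fx2_e = Ψ := by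
    funext q
    simp only [Function.comp, hΦ, hΨ, fx2_e, Equiv.coe_fn_mk, add_sub_cancel_left]
  have hΨS : Summable Ψ := by
    rw [← e1]
    exact (Equiv.summable_iff fx2_e).2 hS
  have hZ2 : ∑' q, Φ q = ∑' q, Ψ q := by
    rw [← e1]
    exact (Equiv.tsum_eq fx2_e Φ).symm
  have e2 : Ψ ∘ fx2_s = fun q => -((ct n q.2 : ℂ) * fx2_H g u q.1 q.2) := by
    funext q
    have e3 : q.1 + -(q.1 + q.2) = -q.2 := by abel
    simp only [Function.comp, hΨ, fx2_s, Equiv.coe_fn_mk]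
    rw [e3, fx2_ct_neg, fx2_H_swap hg hu]
    ring
  have hS2 : Summable (fun q : Wv × Wv => -((ct n q.2 : ℂ) * fx2_H g u q.1 q.2)) := by
    rw [← e2]
    exact (Equiv.summable_iff fx2_s).2 hΨS
  have hZ3 : ∑' q, Ψ q = ∑' q : Wv × Wv, -((ct n q.2 : ℂ) * fx2_H g u q.1 q.2) := by
    rw [← e2]
    exact (Equiv.tsum_eq fx2_s Ψ).symm
  rw [hZ, hZ2, two_mul]
  nth_rw 2 [hZ3]
  rw [← hΨS.tsum_add hS2]
  refine tsum_congr fun q => ?_
  rw [hΨ]
  push_cast
  ring

theorem t_FX2 : S_FX2 := by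
  intro hC g B β α hg hB hα hβ hgb
  obtain ⟨S, hS0, hS⟩ := pnt_a_sum (γ := 3 / 4 + (α - β)) (by linarith)
  set C1 : ℝ := 4 * B * (4 : ℝ) ^ α with hC1
  have hC10 : 0 ≤ C1 := by rw [hC1]; positivity
  refine ⟨C1 * (3 * S), by positivity, fun u A D hu hA hD hEn hEr => ?_⟩
  have hfin := fx2_M_fin hS0 hS hu hA hEn hEr
  have hMs : Summable (fun q : Wv × Wv => fx2_M (3 / 4 + (α - β)) α u q.1 q.2) :=
    summable_of_sum_le (fun q => fx2_M_nonneg _ _ _ _ _) hfin
  have hMt : ∑' q : Wv × Wv, fx2_M (3 / 4 + (α - β)) α u q.1 q.2 ≤ 3 * (S * A * D) :=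
    hMs.tsum_le_of_sum_le hfin
  have hMs2 := hMs.mul_left C1
  have hpt := fx2_pt hB hα hβ hgb hu
  set Z : ℕ → ℂ := fun n => ∑ m ∈ cub (2 * n + 2),
    (ct n m : ℂ) * ∑ j, (starRingEnd ℂ) (u m j) * cv g u u m j with hZ
  have hZ2 : ∀ n, 2 * Z n =
      ∑' q : Wv × Wv, ((ct n (q.1 + q.2) - ct n q.2 : ℝ) : ℂ) * fx2_H g u q.1 q.2 :=
    fun n => fx2_sym hC hg hu hA hEn n
  have hfx : ∀ n, fx g n u = (Z n).im := fun n => rfl
  have hlim : Tendsto (fun n => 2 * Z n) atTop (𝓝 (∑' _q : Wv × Wv, (0 : ℂ))) := by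
    simp_rw [hZ2]
    refine tendsto_tsum_of_dominated_convergence hMs2 ?_
      (Eventually.of_forall fun n q => hpt n q.1 q.2)
    intro q
    refine tendsto_const_nhds.congr' ?_
    obtain ⟨N, hN⟩ := exists_nat_ge (max (pnt_L (q.1 + q.2)) (pnt_L q.2))
    filter_upwards [eventually_ge_atTop N] with n hn
    have hn' : (N : ℝ) ≤ n := by exact_mod_cast hn
    have h1 : pnt_L (q.1 + q.2) ≤ (n : ℝ) + 1 := by
      have := (le_max_left _ _).trans hN
      linarith
    have h2 : pnt_L q.2 ≤ (n : ℝ) + 1 := by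
      have := (le_max_right _ _).trans hN
      linarith
    rw [fx2_ct_one h1, fx2_ct_one h2]
    simp
  rw [tsum_zero] at hlim
  constructor
  · intro n
    have h1 : ‖2 * Z n‖ ≤ C1 * (3 * (S * A * D)) := by
      rw [hZ2]
      refine (tsum_of_norm_bounded hMs2.hasSum fun q => hpt n q.1 q.2).trans ?_
      rw [tsum_mul_left]
      exact mul_le_mul_of_nonneg_left hMt hC10
    rw [norm_mul] at h1
    have h2 : ‖(2 : ℂ)‖ = 2 := by norm_num
    rw [h2] at h1
    have h3 := Complex.abs_im_le_norm (Z n)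
    rw [hfx]
    have h4 : C1 * (3 * (S * A * D)) = C1 * (3 * S) * A * D := by ring
    have h5 : 0 ≤ ‖Z n‖ := norm_nonneg _
    linarith
  · have h1 : Tendsto Z atTop (𝓝 0) := by
      have := hlim.const_mul ((1 : ℂ) / 2)
      rw [mul_zero] at this
      refine this.congr fun n => ?_
      ring
    have h2 : Tendsto (fun n => (Z n).im) atTop (𝓝 (0 : ℂ).im) :=
      (Complex.continuous_im.tendsto 0).comp h1
    exact h2

end Pool.Agent.N983.WK
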