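import Pool.Agent.N983.WK.Stm5
import Pool.Agent.N983.WK.FX2
import Pool.Agent.N983.RT.BCS2

set_option autoImplicit false

/-! (FBR) the random bound for the flux symbols (helper657 for helper983, after BCS.lean by
helper402) -/

namespace Pool.Agent.N983.WK

open MeasureTheory ProbabilityTheory Pool.Agent.N983.RT

lemma fbr_n (a : ℕ) : ((2 ^ a - 1 : ℕ) : ℝ) + 1 = 2 ^ a := by
  have h : 1 ≤ 2 ^ a := Nat.one_le_two_pow
  rw [Nat.cast_sub h]
  push_cast
  ring

lemma fbr_qv (k l : Wv) : nsq (qv k l) = min (nsq l) (nsq (k + l)) := by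
  unfold qv
  split_ifs with h
  · exact (min_eq_left h).symm
  · exact (min_eq_right (not_le.1 h).le).symm

lemma fbr_Lle (k : Wv) (i : Fin 3) : |(k i : ℝ)| ≤ pnt_L k :=
  bcs_li k i _ (pnt_L_nonneg k) (le_of_eq (pnt_L_sq k).symm)

lemma fbr_key (n : ℕ) (k l : Wv) (i : Fin 3) :
    |ct n (k + l) - ct n l| * |(qv k l i : ℝ)| ≤
      2 * Real.sqrt (min (nsq k) (min (nsq l) (nsq (k + l)))) := by
  have hq : |(qv k l i : ℝ)| ≤ Real.sqrt (min (nsq l) (nsq (k + l))) := by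
    have := fbr_Lle (qv k l) i
    unfold pnt_L at this
    rwa [fbr_qv] at this
  have hd : |ct n (k + l) - ct n l| ≤ 1 := by
    rw [abs_le]
    have := fx2_ct_nonneg n (k + l)
    have := fx2_ct_nonneg n l
    have := fx2_ct_le n (k + l)
    have := fx2_ct_le n l
    constructor <;> linarith
  by_cases c1 : nsq k ≤ min (nsq l) (nsq (k + l))
  · rw [min_eq_left c1]
    have hn : (0 : ℝ) < (n : ℝ) + 1 := by positivity
    by_cases c2 : 2 * ((n : ℝ) + 1) ≤ Real.sqrt (min (nsq l) (nsq (k + l)))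
    · have e1 : ct n l = 0 := fx2_ct_zero (c2.trans (Real.sqrt_le_sqrt (min_le_left _ _)))
      have e2 : ct n (k + l) = 0 :=
        fx2_ct_zero (c2.trans (Real.sqrt_le_sqrt (min_le_right _ _)))
      rw [e1, e2, sub_zero, abs_zero, zero_mul]
      positivity
    · push Not at c2
      have h1 : |ct n (k + l) - ct n l| ≤ pnt_L k / ((n : ℝ) + 1) := by
        refine (fx2_ct_lip n (k + l) l).trans ?_
        have t1 : pnt_L (k + l) ≤ pnt_L k + pnt_L l := by
          have := pnt_tri (k := k) (l := l) (m := -(k + l)) (by abel)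
          unfold pnt_L at this ⊢
          rwa [pnt_nsq_neg] at this
        have t2 : pnt_L l ≤ pnt_L (k + l) + pnt_L k := by
          have := pnt_tri (k := k + l) (l := -k) (m := -l) (by abel)
          unfold pnt_L at this ⊢
          rwa [pnt_nsq_neg, pnt_nsq_neg] at this
        have t3 : |pnt_L (k + l) - pnt_L l| ≤ pnt_L k := by
          rw [abs_le]
          constructor <;> linarith
        exact div_le_div_of_nonneg_right t3 hn.le
      calc |ct n (k + l) - ct n l| * |(qv k l i : ℝ)|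
          ≤ pnt_L k / ((n : ℝ) + 1) * (2 * ((n : ℝ) + 1)) :=
            mul_le_mul h1 (hq.trans c2.le) (abs_nonneg _) (div_nonneg (pnt_L_nonneg k) hn.le)
        _ = 2 * pnt_L k := by field_simp
        _ = _ := rfl
  · push Not at c1
    rw [min_eq_right c1.le]
    have h0 := Real.sqrt_nonneg (min (nsq l) (nsq (k + l)))
    calc |ct n (k + l) - ct n l| * |(qv k l i : ℝ)|
        ≤ 1 * Real.sqrt (min (nsq l) (nsq (k + l))) :=
          mul_le_mul hd hq (abs_nonneg _) zero_le_one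
      _ ≤ _ := by linarith

lemma fbr_four (c : ℕ) : (4 : ℝ) ^ c = ((2 : ℝ) ^ c) ^ 2 := by
  rw [← pow_mul, mul_comm, pow_mul]; norm_num

lemma fbr_le (a b c : ℕ) (p i : Fin 3) (k l : Wv) : |fw a b c p i k l| ≤ 1 := by
  unfold fw
  split_ifs with h
  · obtain ⟨-, ⟨-, hlt⟩, -⟩ := h
    have hs : Real.sqrt (min (nsq k) (min (nsq l) (nsq (k + l)))) ≤ 2 ^ (b + 1) := by
      apply Real.sqrt_le_iff.2
      refine ⟨by positivity, ?_⟩
      rw [← fbr_four]
      exact hlt.le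
    rw [abs_div, abs_mul, abs_of_pos (by positivity : (0 : ℝ) < 2 ^ (b + 2)),
      div_le_one (by positivity)]
    refine (fbr_key _ k l i).trans ?_
    calc 2 * Real.sqrt (min (nsq k) (min (nsq l) (nsq (k + l)))) ≤ 2 * 2 ^ (b + 1) := by linarith
      _ = 2 ^ (b + 2) := by ring
  · rw [abs_zero]; exact zero_le_one

lemma fbr_zero {a b c : ℕ} (h : c < a ∨ c < b) (p i : Fin 3) (k l : Wv) :
    fw a b c p i k l = 0 := by
  unfold fw
  rw [ite_eq_right_iff]
  rintro ⟨⟨-, h2⟩, ⟨h3, -⟩, -⟩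
  rcases h with h | h
  · have hlen : ∀ v : Wv, nsq v < (4 : ℝ) ^ (c + 1) → ct (2 ^ a - 1) v = 1 := by
      intro v hv
      apply fx2_ct_one
      rw [fbr_n]
      unfold pnt_L
      apply Real.sqrt_le_iff.2
      refine ⟨by positivity, hv.le.trans ?_⟩
      rw [← fbr_four]
      exact pow_le_pow_right₀ (by norm_num) h
    rw [hlen (k + l) (lt_of_le_of_lt ((le_max_right _ _).trans (le_max_right _ _)) h2),
      hlen l (lt_of_le_of_lt ((le_max_left _ _).trans (le_max_right _ _)) h2)]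
    simp
  · exfalso
    have h5 : (4 : ℝ) ^ (c + 1) ≤ 4 ^ b := pow_le_pow_right₀ (by norm_num) h
    have h6 : min (nsq k) (min (nsq l) (nsq (k + l))) ≤
        max (nsq k) (max (nsq l) (nsq (k + l))) := (min_le_left _ _).trans (le_max_left _ _)
    linarith

lemma fbr_mem {a b c : ℕ} {p i : Fin 3} {k l : Wv} (h : fw a b c p i k l ≠ 0) :
    -(k + l) ∈ cub (2 ^ (c + 1)) := by
  have hcond : max (nsq k) (max (nsq l) (nsq (k + l))) < (4 : ℝ) ^ (c + 1) := by
    by_contra hh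
    apply h
    unfold fw
    rw [if_neg]
    intro h'
    exact hh h'.1.2
  have hkl' : nsq (k + l) ≤ ((2 : ℝ) ^ (c + 1)) ^ 2 := by
    rw [← fbr_four]
    exact ((le_max_right _ _).trans (le_max_right _ _)).trans hcond.le
  unfold cub
  rw [Fintype.mem_piFinset]
  intro j
  have hj := bcs_li (k + l) j _ (by positivity) hkl'
  rw [Finset.mem_Icc]
  have hj' : |((k + l) j : ℤ)| ≤ (2 : ℤ) ^ (c + 1) := by
    have : ((|((k + l) j : ℤ)| : ℤ) : ℝ) ≤ (((2 : ℤ) ^ (c + 1) : ℤ) : ℝ) := by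
      push_cast
      exact hj
    exact_mod_cast this
  rw [abs_le] at hj'
  have e : (-(k + l)) j = -((k + l) j) := rfl
  rw [e]
  push_cast
  exact ⟨by linarith [hj'.2], by linarith [hj'.1]⟩

/-- the exceptional events -/
def fbr_E {Ω : Type} (X : Sym2 (Finset Wv) → Ω → ℝ) (c : ℕ) (q : ℕ × ℕ × Fin 3 × Fin 3) :
    Set Ω :=
  {ω | ∃ A ⊆ cub (2 ^ (c + 1)), ∃ B ⊆ cub (2 ^ (c + 1)), ∃ C ⊆ cub (2 ^ (c + 1)),
    A.Nonempty ∧ B.Nonempty ∧ C.Nonempty ∧
      30 * Real.sqrt (Real.log (2 * ((2 ^ (c + 1) : ℕ) : ℝ) + 1)) *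
          Real.sqrt ((A.card : ℝ) * B.card * C.card) <
        |Box (fun k l => sgn X ω k l (-(k + l)) * fw q.1 q.2.1 c q.2.2.1 q.2.2.2 k l) A B C|}

/-- the indices of the exceptional events at the scale `c` -/
def fbr_F (c : ℕ) : Finset (ℕ × ℕ × Fin 3 × Fin 3) :=
  Finset.range (c + 1) ×ˢ Finset.range (c + 1) ×ˢ Finset.univ ×ˢ Finset.univ

lemma fbr_F_card (c : ℕ) : (fbr_F c).card = 9 * (c + 1) ^ 2 := by
  unfold fbr_F
  simp only [Finset.card_product, Finset.card_range, Finset.card_univ, Fintype.card_fin]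
  ring

theorem t_FBR : S_FBR := by
  intro hU hH hD Ω _ μ _ X hX hi hp
  obtain ⟨C₀, hC0, hD⟩ := hD
  have hb : ∀ᵐ ω ∂μ, ∀ c, |X c ω| ≤ 1 := ae_all_iff.2 fun c => (hp c).1
  -- Borel-Cantelli
  have hev : ∀ᵐ ω ∂μ, ∀ᶠ c in Filter.atTop, ω ∉ ⋃ q ∈ fbr_F c, fbr_E X c q := by
    have hone : ∀ c, μ (⋃ q ∈ fbr_F c, fbr_E X c q) ≤
        ENNReal.ofReal (900 * (((c + 1 : ℕ) : ℝ) ^ 2 * (1 / 2 : ℝ) ^ (c + 1))) := by
      intro c
      have h1 : ∀ q ∈ fbr_F c, μ (fbr_E X c q) ≤ ENNReal.ofReal (100 * (1 / 2 : ℝ) ^ (c + 1)) := by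
        intro q _
        refine (hU hH Ω μ X hX hi hp (2 ^ (c + 1)) Nat.one_le_two_pow
          (fw q.1 q.2.1 c q.2.2.1 q.2.2.2) (fbr_le q.1 q.2.1 c q.2.2.1 q.2.2.2)).trans ?_
        apply ENNReal.ofReal_le_ofReal
        push_cast
        rw [one_div, inv_pow, ← div_eq_mul_inv]
      refine (measure_biUnion_finset_le _ _).trans ?_
      refine (Finset.sum_le_card_nsmul _ _ _ h1).trans ?_
      rw [fbr_F_card, nsmul_eq_mul, ← ENNReal.ofReal_natCast,
        ← ENNReal.ofReal_mul (Nat.cast_nonneg _)]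
      apply ENNReal.ofReal_le_ofReal
      apply le_of_eq
      push_cast
      ring
    have hsm : Summable fun c : ℕ => 900 * (((c + 1 : ℕ) : ℝ) ^ 2 * (1 / 2 : ℝ) ^ (c + 1)) := by
      have h1 : Summable fun c : ℕ => ((c : ℝ) ^ 2 * (1 / 2 : ℝ) ^ c) :=
        summable_pow_mul_geometric_of_norm_lt_one 2 (by norm_num)
      exact ((summable_nat_add_iff 1).2 h1).mul_left _
    have hsum : (∑' c, μ (⋃ q ∈ fbr_F c, fbr_E X c q)) ≠ ⊤ := by
      refine ne_top_of_le_ne_top ?_ (ENNReal.tsum_le_tsum hone)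
      rw [← ENNReal.ofReal_tsum_of_nonneg (fun n => by positivity) hsm]
      exact ENNReal.ofReal_ne_top
    exact ae_eventually_notMem hsum
  filter_upwards [hb, hev] with ω hω1 hω2
  intro κ hκ
  have hsg : ∀ k l m : Wv, |sgn X ω k l m| ≤ 1 := fun k l m => hω1 _
  obtain ⟨D, hD0, hDg⟩ := bcs_growth κ hκ
  obtain ⟨c₀, hc₀⟩ := Filter.eventually_atTop.1 hω2
  obtain ⟨Q, hQ⟩ : ∃ Q : ℝ, Q = ((cub (2 ^ (c₀ + 1))).card : ℝ) ^ 2 := ⟨_, rfl⟩
  have hQ0 : 0 ≤ Q := by rw [hQ]; positivity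
  refine ⟨30 * C₀ * D + Q, by positivity, fun a b c p i x y z => ?_⟩
  have hc1 : (1 : ℝ) ≤ (2 : ℝ) ^ c := one_le_pow₀ (by norm_num)
  obtain ⟨P, hP⟩ : ∃ P : ℝ, P = ((2 : ℝ) ^ c) ^ κ := ⟨_, rfl⟩
  have hP1 : 1 ≤ P := by rw [hP]; exact Real.one_le_rpow hc1 hκ.le
  rw [← hP]
  have hN : 0 ≤ N2 (2 ^ (c + 1)) x * N2 (2 ^ (c + 1)) y * N2 (2 ^ (c + 1)) z := by
    unfold N2; positivity
  by_cases hz : c < a ∨ c < b
  · have e0 : Tri (fun k l => sgn X ω k l (-(k + l)) * fw a b c p i k l) (2 ^ (c + 1)) x y z = 0 := by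
      unfold Tri
      refine Finset.sum_eq_zero fun k _ => Finset.sum_eq_zero fun l _ => ?_
      show ((sgn X ω k l (-(k + l)) * fw a b c p i k l : ℝ) : ℂ) * x k * y l * z (-(k + l)) = 0
      rw [fbr_zero hz, mul_zero, Complex.ofReal_zero, zero_mul, zero_mul, zero_mul]
    rw [e0, norm_zero]
    positivity
  push Not at hz
  have hsupp : ∀ k l, sgn X ω k l (-(k + l)) * fw a b c p i k l ≠ 0 →
      -(k + l) ∈ cub (2 ^ (c + 1)) := by
    intro k l h
    exact fbr_mem (right_ne_zero_of_mul h)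
  have hone : ∀ k l, |sgn X ω k l (-(k + l)) * fw a b c p i k l| ≤ 1 := by
    intro k l
    rw [abs_mul]
    calc |sgn X ω k l (-(k + l))| * |fw a b c p i k l| ≤ 1 * 1 :=
          mul_le_mul (hsg _ _ _) (fbr_le _ _ _ _ _ _ _) (abs_nonneg _) zero_le_one
      _ = 1 := one_mul _
  by_cases hcc : c₀ ≤ c
  · have hn := hc₀ c hcc
    have hn2 : ω ∉ fbr_E X c (a, b, p, i) := by
      intro hmem
      apply hn
      refine Set.mem_biUnion (x := (a, b, p, i)) ?_ hmem
      unfold fbr_F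
      simp only [Finset.coe_product, Set.mem_prod, Finset.mem_coe, Finset.mem_range,
        Finset.mem_univ, and_true]
      exact ⟨by omega, by omega⟩
    have hbox : ∀ A ⊆ cub (2 ^ (c + 1)), ∀ B ⊆ cub (2 ^ (c + 1)), ∀ C ⊆ cub (2 ^ (c + 1)),
        A.Nonempty → B.Nonempty → C.Nonempty →
        |Box (fun k l => sgn X ω k l (-(k + l)) * fw a b c p i k l) A B C| ≤
          30 * Real.sqrt (Real.log (2 * ((2 ^ (c + 1) : ℕ) : ℝ) + 1)) *
            Real.sqrt ((A.card : ℝ) * B.card * C.card) := by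
      intro A hA B hB C hC h1 h2 h3
      by_contra hlt
      exact hn2 ⟨A, hA, B, hB, C, hC, h1, h2, h3, not_le.1 hlt⟩
    refine (hD (2 ^ (c + 1)) Nat.one_le_two_pow _ _ (by positivity) hsupp hbox x y z).trans ?_
    refine mul_le_mul_of_nonneg_right ?_ hN
    have hlog := bcs_log c
    have hg := hDg c
    rw [← hP] at hg
    calc C₀ * (30 * Real.sqrt (Real.log (2 * ((2 ^ (c + 1) : ℕ) : ℝ) + 1))) *
          (1 + Real.log (2 * ((2 ^ (c + 1) : ℕ) : ℝ) + 1)) ^ 3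
        = 30 * C₀ * (Real.sqrt (Real.log (2 * ((2 ^ (c + 1) : ℕ) : ℝ) + 1)) *
          (1 + Real.log (2 * ((2 ^ (c + 1) : ℕ) : ℝ) + 1)) ^ 3) := by ring
      _ ≤ 30 * C₀ * (D * P) := by
          refine mul_le_mul_of_nonneg_left (hlog.trans hg) (by positivity)
      _ ≤ (30 * C₀ * D + Q) * P := by
          have : 0 ≤ Q * P := by positivity
          linarith
  · push Not at hcc
    refine (bcs_triv (2 ^ (c + 1)) _ hone hsupp x y z).trans ?_
    refine mul_le_mul_of_nonneg_right ?_ hN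
    have hm : ((cub (2 ^ (c + 1))).card : ℝ) ≤ ((cub (2 ^ (c₀ + 1))).card : ℝ) := by
      exact_mod_cast bcs_mono (Nat.pow_le_pow_right (by norm_num) (by omega))
    calc ((cub (2 ^ (c + 1))).card : ℝ) ^ 2 ≤ Q := by rw [hQ]; gcongr
      _ ≤ Q * P := le_mul_of_one_le_right hQ0 hP1
      _ ≤ (30 * C₀ * D + Q) * P := by
          have : 0 ≤ 30 * C₀ * D * P := by positivity
          linarith

end Pool.Agent.N983.WK
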