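import Pool.Agent.N983.WK.EF1C
import Pool.Agent.N983.WK.FBR
import Pool.Agent.N983.WK.Asm
import Pool.Agent.N983.RT.BCD

set_option autoImplicit false

/-! The trilinear bound for random sets of wave vectors (after RT/BCD.lean) and energy
conservation for the decimated Euler equations. -/

namespace Pool.Agent.N983.WK

open MeasureTheory ProbabilityTheory Filter Topology Pool.Agent.N983.RT

/-- the deterministic part -/
theorem df_det (hC : S_CS) (K : Set Wv) (hK : ∀ k ∈ K, -k ∈ K) (hK0 : (0 : Wv) ∉ K)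
    (a' b c : ℕ) (p i : Fin 3) (M : ℝ) (hM : 0 ≤ M)
    (hcnt : ∀ p ∈ cub (2 ^ (c + 1)), ∀ q ∈ cub (2 ^ (c + 1)), p ≠ q → p ≠ 0 → q ≠ 0 →
      (cnt K (2 ^ (c + 1)) p q : ℝ) ≤ M) (x y z : Wv → ℂ) :
    ‖Tri (fun k l => dec K k l (-(k + l)) * fw a' b c p i k l) (2 ^ (c + 1)) x y z‖ ≤
      Real.sqrt (2 + M) *
        (N2 (2 ^ (c + 1)) x * N2 (2 ^ (c + 1)) y * N2 (2 ^ (c + 1)) z) := by
  classical
  refine hC K (2 ^ (c + 1)) _ M hM hK hK0 ?_ ?_ hcnt x y z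
  · intro k l
    have hd : |dec K k l (-(k + l))| ≤ 1 := by
      unfold dec
      split_ifs <;> simp
    rw [abs_mul]
    calc |dec K k l (-(k + l))| * |fw a' b c p i k l| ≤ 1 * 1 :=
          mul_le_mul hd (fbr_le _ _ _ _ _ _ _) (abs_nonneg _) zero_le_one
      _ = 1 := one_mul _
  · intro k l hkl
    have hd : dec K k l (-(k + l)) ≠ 0 := left_ne_zero_of_mul hkl
    have hw : fw a' b c p i k l ≠ 0 := right_ne_zero_of_mul hkl
    have hd' : k ∈ K ∧ l ∈ K ∧ -(k + l) ∈ K := by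
      by_contra hh
      apply hd
      unfold dec
      rw [if_neg hh]
    obtain ⟨h1, h2, h3⟩ := hd'
    refine ⟨h1, h2, ?_, ?_⟩
    · have := hK _ h3
      rwa [neg_neg] at this
    · by_contra hh
      exact absurd (ef1a_len hw).1.2.2 (not_lt.2 (shl_big hh))

theorem df_BCD (hC : S_CS) (hI : S_IND) (hE : S_ESY) (hT : S_TAIL) (hL : S_LAT) (a : ℝ)
    (h0 : 0 ≤ a) (h1 : a < 1) (Ω : Type) [MeasurableSpace Ω] (μ : Measure Ω)
    [IsProbabilityMeasure μ] (Y : Sym2 Wv → Ω → ℝ) (hY : ∀ c, Measurable (Y c))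
    (hi : iIndepFun Y μ)
    (hp : ∀ k, k ≠ 0 → μ {ω | Y s(k, -k) ω = 1} ≤ ENNReal.ofReal (nsq k ^ (-a / 2))) :
    ∀ᵐ ω ∂μ, ∀ κ : ℝ, (3 - 3 * a) / 2 < κ → FBk (dec (kept Y ω)) κ := by
  obtain ⟨C, hC0, hLC⟩ := hL a h0 h1
  have hsum : (∑' c, μ (bcd_E Y C a c)) ≠ ⊤ := by
    have hle : (∑' c, μ (bcd_E Y C a c)) ≤ ∑' c : ℕ, ENNReal.ofReal ((1 / 2 : ℝ) ^ c) :=
      ENNReal.tsum_le_tsum fun c => bcd_sum hI hE hT a C hC0 hLC μ Y hY hi hp c
    refine ne_top_of_le_ne_top ?_ hle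
    rw [← ENNReal.ofReal_tsum_of_nonneg (fun n => by positivity)
      (summable_geometric_of_lt_one (by norm_num) (by norm_num))]
    exact ENNReal.ofReal_ne_top
  filter_upwards [ae_eventually_notMem hsum] with ω hω κ hκ
  obtain ⟨c₀, hc₀⟩ := Filter.eventually_atTop.1 hω
  have hκ0 : 0 < κ := by linarith
  set K : Set Wv := kept Y ω with hKdef
  have hKs : ∀ k ∈ K, -k ∈ K := by
    intro k hk
    obtain ⟨h2, h3⟩ := hk
    refine ⟨neg_ne_zero.2 h2, ?_⟩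
    rw [neg_neg, Sym2.eq_swap]
    exact h3
  have hK0 : (0 : Wv) ∉ K := fun h => h.1 rfl
  obtain ⟨D, hD0, hD⟩ := bcd_growth C a hC0 h0 h1 κ hκ
  set D' : ℝ := 2 + ((cub (2 ^ (c₀ + 1))).card : ℝ) with hD'
  have hD'0 : 0 ≤ D' := by positivity
  refine ⟨Real.sqrt (D + D'), by positivity, fun a' b c p i x y z => ?_⟩
  have hc1 : (1 : ℝ) ≤ (2 : ℝ) ^ c := one_le_pow₀ (by norm_num)
  -- the bound for the counts
  have hM : ∃ M : ℝ, 0 ≤ M ∧ 2 + M ≤ (D + D') * ((2 : ℝ) ^ c) ^ (2 * κ) ∧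
      ∀ p ∈ cub (2 ^ (c + 1)), ∀ q ∈ cub (2 ^ (c + 1)), p ≠ q → p ≠ 0 → q ≠ 0 →
        (cnt K (2 ^ (c + 1)) p q : ℝ) ≤ M := by
    have hP1 : 1 ≤ ((2 : ℝ) ^ c) ^ (2 * κ) := Real.one_le_rpow hc1 (by linarith)
    by_cases hcc : c₀ ≤ c
    · refine ⟨19 * (bcd_s C a c : ℝ) + 3, by positivity, ?_, ?_⟩
      · refine (hD c).trans ?_
        gcongr
        linarith
      · intro p hpm q hqm hpq hp0 hq0
        have hn := hc₀ c hcc
        by_contra hlt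
        apply hn
        unfold bcd_E
        simp only [Set.mem_iUnion]
        refine ⟨(p, q), ?_, ?_⟩
        · rw [Finset.mem_filter, Finset.mem_product]
          exact ⟨⟨hpm, hqm⟩, hpq, hp0, hq0⟩
        · have hlt' := not_le.1 hlt
          have : 19 * bcd_s C a c + 3 < cnt K (2 ^ (c + 1)) p q := by
            exact_mod_cast hlt'
          exact this.le
    · push Not at hcc
      refine ⟨((cub (2 ^ (c + 1))).card : ℝ), by positivity, ?_, ?_⟩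
      · have hm : ((cub (2 ^ (c + 1))).card : ℝ) ≤ ((cub (2 ^ (c₀ + 1))).card : ℝ) := by
          exact_mod_cast bcd_mono (Nat.pow_le_pow_right (by norm_num) (by omega))
        have : 2 + ((cub (2 ^ (c + 1))).card : ℝ) ≤ D' := by rw [hD']; linarith
        calc 2 + ((cub (2 ^ (c + 1))).card : ℝ) ≤ D' * 1 := by linarith
          _ ≤ (D + D') * ((2 : ℝ) ^ c) ^ (2 * κ) := by
              gcongr
              linarith
      · intro p _ q _ _ _ _
        exact_mod_cast bcd_cnt_le K (2 ^ (c + 1)) p q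
  obtain ⟨M, hM0, hM1, hM2⟩ := hM
  refine (df_det hC K hKs hK0 a' b c p i M hM0 hM2 x y z).trans ?_
  have hN : 0 ≤ N2 (2 ^ (c + 1)) x * N2 (2 ^ (c + 1)) y * N2 (2 ^ (c + 1)) z := by
    unfold N2; positivity
  refine mul_le_mul_of_nonneg_right ?_ hN
  have hsq : Real.sqrt (2 + M) ≤ Real.sqrt (D + D') * ((2 : ℝ) ^ c) ^ κ := by
    calc Real.sqrt (2 + M) ≤ Real.sqrt ((D + D') * ((2 : ℝ) ^ c) ^ (2 * κ)) :=
          Real.sqrt_le_sqrt hM1
      _ = Real.sqrt (D + D') * Real.sqrt (((2 : ℝ) ^ c) ^ (2 * κ)) :=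
          Real.sqrt_mul (by positivity) _
      _ = Real.sqrt (D + D') * ((2 : ℝ) ^ c) ^ κ := by
          congr 1
          rw [show 2 * κ = κ + κ by ring, Real.rpow_add (by positivity),
            Real.sqrt_mul_self (by positivity)]
  exact hsq

/-- the bound for random sets -/
theorem df_all (hCS : S_CS) (hIND : S_IND) (hESY : S_ESY)
    (hTAIL : S_TAIL) (hLAT : S_LAT) (a : ℝ) (ha : 0 ≤ a)
    (Ω : Type) [MeasurableSpace Ω] (μ : Measure Ω) [IsProbabilityMeasure μ]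
    (Y : Sym2 Wv → Ω → ℝ) (hY : ∀ c, Measurable (Y c)) (hi : iIndepFun Y μ)
    (hs : ∀ k, k ≠ 0 → μ {ω | Y s(k, -k) ω = 1} ≤ ENNReal.ofReal (nsq k ^ (-a / 2))) :
    ∀ᵐ ω ∂μ, ∀ κ : ℝ, max 0 ((3 - 3 * a) / 2) < κ → FBk (dec (kept Y ω)) κ := by
  have hone : ∀ k : Wv, k ≠ 0 → 1 ≤ nsq k := by
    intro k hk
    have : ∃ i, k i ≠ 0 := by
      by_contra h
      push Not at h
      exact hk (funext h)
    obtain ⟨i, hi⟩ := this
    have h1 : (1 : ℝ) ≤ (k i : ℝ) ^ 2 := by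
      have : 1 ≤ (k i) ^ 2 := by
        have := sq_nonneg (k i)
        rcases this.lt_or_eq with h | h
        · omega
        · exact absurd (pow_eq_zero_iff (two_ne_zero)|>.1 h.symm) hi
      exact_mod_cast this
    calc (1 : ℝ) ≤ (k i : ℝ) ^ 2 := h1
      _ ≤ nsq k := by
        unfold nsq
        exact Finset.single_le_sum (f := fun i => (k i : ℝ) ^ 2) (fun i _ => by positivity)
          (Finset.mem_univ i)
  have hb : ∀ n : ℕ, ∀ᵐ ω ∂μ, ∀ κ : ℝ,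
      (3 - 3 * min a (1 - 1 / ((n : ℝ) + 1))) / 2 < κ → FBk (dec (kept Y ω)) κ := by
    intro n
    have hn : 0 < 1 / ((n : ℝ) + 1) := by positivity
    have hn1 : 1 / ((n : ℝ) + 1) ≤ 1 := by
      rw [div_le_one (by positivity)]
      have : (0 : ℝ) ≤ n := Nat.cast_nonneg n
      linarith
    refine df_BCD hCS hIND hESY hTAIL hLAT (min a (1 - 1 / ((n : ℝ) + 1)))
      (le_min ha (by linarith)) (lt_of_le_of_lt (min_le_right _ _) (by linarith)) Ω μ Y hY hi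
      fun k hk => (hs k hk).trans (ENNReal.ofReal_le_ofReal ?_)
    refine Real.rpow_le_rpow_of_exponent_le (hone k hk) ?_
    have := min_le_left a (1 - 1 / ((n : ℝ) + 1))
    linarith
  rw [← ae_all_iff] at hb
  filter_upwards [hb] with ω hω
  intro κ hκ
  have h0 : 0 < κ := lt_of_le_of_lt (le_max_left _ _) hκ
  have h1 : (3 - 3 * a) / 2 < κ := lt_of_le_of_lt (le_max_right _ _) hκ
  obtain ⟨n, hn⟩ := exists_nat_one_div_lt (show (0 : ℝ) < κ / 2 by linarith)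
  refine hω n κ ?_
  rcases le_total a (1 - 1 / ((n : ℝ) + 1)) with h | h
  · rw [min_eq_left h]; exact h1
  · rw [min_eq_right h]
    linarith

theorem df_main (hCS : S_CS) (hIND : S_IND) (hESY : S_ESY) (hTAIL : S_TAIL) (hLAT : S_LAT)
    (hCVB : S_CVB) (hBAL : S_BAL) (hSQ : S_SQ) (hMSB : S_MSB) (a : ℝ) (ha : 0 ≤ a)
    (Ω : Type) [MeasurableSpace Ω] (μ : Measure Ω) [IsProbabilityMeasure μ]
    (Y : Sym2 Wv → Ω → ℝ) (hY : ∀ c, Measurable (Y c)) (hi : iIndepFun Y μ)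
    (hs : ∀ k, k ≠ 0 → μ {ω | Y s(k, -k) ω = 1} ≤ ENNReal.ofReal (nsq k ^ (-a / 2))) :
    ∀ᵐ ω ∂μ, ∀ σ T : ℝ, 1 / 3 < σ → 5 / 6 - a / 2 < σ → σ ≤ 1 → 0 ≤ T →
      ∀ u : ℝ → Fld, IsEul (dec (kept Y ω)) σ T u →
        ∃ e : ℝ, ∀ t ∈ Set.Icc 0 T, Tendsto (fun n => En 0 n (u t)) atTop (𝓝 e) := by
  filter_upwards [df_all hCS hIND hESY hTAIL hLAT a ha Ω μ Y hY hi hs] with ω hω
  intro σ T h1 h2 h3 hT
  have hg : Arr (dec (kept Y ω)) := asm_arr_dec Y ω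
  have h4 : max 0 ((3 - 3 * a) / 2) < 3 * σ - 1 := max_lt (by linarith) (by linarith)
  obtain ⟨κ, hκ1, hκ2⟩ := exists_between h4
  exact t_ECO hCVB hBAL hSQ hMSB _ σ T hg (by linarith) hT
    (ef1c_main hCVB _ σ κ hg (hω κ hκ1) (by linarith) (by linarith) h3)

end Pool.Agent.N983.WK
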