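import Pool.Agent.N983.WK.DF

set_option autoImplicit false

/-! Energy conservation for solutions of the Euler equations with spectrum in a given set. -/

namespace Pool.Agent.N983.WK

open MeasureTheory Filter Topology Pool.Agent.N983.RT

/-- `u` has its wave vectors in `K`, is bounded in the Sobolev space of order `σ` and satisfies the
Euler equations in the Fourier modes of `K` -/
structure IsEulOn (K : Set Wv) (σ T : ℝ) (u : ℝ → Fld) : Prop where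
  adm : ∀ t ∈ Set.Icc 0 T, Adm (u t)
  supp : ∀ t ∈ Set.Icc 0 T, ∀ k, k ∉ K → u t k = 0
  cont : ∀ m j, ContinuousOn (fun t => u t m j) (Set.Icc 0 T)
  reg : ∃ C : ℝ, ∀ t ∈ Set.Icc 0 T, ∀ n, Er σ n (u t) ≤ C
  eqn : ∀ m, m ≠ 0 → m ∈ K → ∀ j, ∀ t ∈ Set.Icc 0 T,
    u t m j = u 0 m j + ∫ s in (0 : ℝ)..t,
      -(Complex.I * prj m (conv (fun _ _ _ => 1) (u s) m) j)

theorem dg_conv {K : Set Wv} (hK : ∀ k ∈ K, -k ∈ K) {u : Fld} (hu : ∀ k, k ∉ K → u k = 0) {m : Wv}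
    (hm : m ∈ K) : conv (dec K) u m = conv (fun _ _ _ => 1) u m := by
  funext j
  unfold conv
  refine tsum_congr fun k => ?_
  by_cases hk : k ∈ K
  · by_cases hl : m - k ∈ K
    · have : dec K k (m - k) (-m) = 1 := by
        unfold dec
        rw [if_pos ⟨hk, hl, hK m hm⟩]
      rw [this]
    · rw [hu _ hl]
      simp
  · rw [hu _ hk]
    simp [dt]

theorem dg_conv0 {K : Set Wv} (hK : ∀ k ∈ K, -k ∈ K) (u : Fld) {m : Wv}
    (hm : m ∉ K) : conv (dec K) u m = 0 := by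
  funext j
  unfold conv
  have : ∀ k, dec K k (m - k) (-m) = 0 := by
    intro k
    unfold dec
    rw [if_neg]
    rintro ⟨-, -, h⟩
    apply hm
    have := hK _ h
    rwa [neg_neg] at this
  simp [this]

theorem dg_eul {K : Set Wv} (hK : ∀ k ∈ K, -k ∈ K) {σ T : ℝ} (hT : 0 ≤ T) {u : ℝ → Fld}
    (hu : IsEulOn K σ T u) : IsEul (dec K) σ T u where
  adm := hu.adm
  cont := hu.cont
  reg := hu.reg
  eqn := by
    intro m hm0 j t ht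
    by_cases hm : m ∈ K
    · rw [hu.eqn m hm0 hm j t ht]
      congr 1
      refine intervalIntegral.integral_congr fun s hs => ?_
      rw [Set.uIcc_of_le ht.1] at hs
      have hs' : s ∈ Set.Icc 0 T := ⟨hs.1, hs.2.trans ht.2⟩
      show -(Complex.I * prj m (conv (fun _ _ _ => 1) (u s) m) j) =
        -(Complex.I * prj m (conv (dec K) (u s) m) j)
      rw [dg_conv hK (hu.supp s hs') hm]
    · rw [hu.supp t ht m hm, hu.supp 0 ⟨le_rfl, hT⟩ m hm]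
      have : ∀ s : ℝ, -(Complex.I * prj m (conv (dec K) (u s) m) j) = 0 := by
        intro s
        rw [dg_conv0 hK _ hm]
        simp [prj, dt]
      simp only [this]
      simp

theorem dg_FBk (hCS : S_CS) {K : Set Wv} (hK : ∀ k ∈ K, -k ∈ K) (h0 : (0 : Wv) ∉ K) {B γ : ℝ}
    (hB : 0 ≤ B) (hγ : 0 ≤ γ) (hc : ∀ R : ℕ, 1 ≤ R → ∀ p ∈ cub R, ∀ q ∈ cub R, p ≠ q → p ≠ 0 →
      q ≠ 0 → (cnt K R p q : ℝ) ≤ B * (R : ℝ) ^ γ) : FBk (dec K) (γ / 2) := by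
  refine ⟨Real.sqrt (2 + B * 2 ^ γ), Real.sqrt_nonneg _, fun a b c p i x y z => ?_⟩
  have hN : 0 ≤ N2 (2 ^ (c + 1)) x * N2 (2 ^ (c + 1)) y * N2 (2 ^ (c + 1)) z := by
    unfold N2; positivity
  refine (df_det hCS K hK h0 a b c p i (B * ((2 ^ (c + 1) : ℕ) : ℝ) ^ γ) (by positivity)
    (hc _ Nat.one_le_two_pow) x y z).trans ?_
  refine mul_le_mul_of_nonneg_right ?_ hN
  have hc1 : (1 : ℝ) ≤ (2 : ℝ) ^ c := one_le_pow₀ (by norm_num)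
  have hP1 : 1 ≤ ((2 : ℝ) ^ c) ^ γ := Real.one_le_rpow hc1 hγ
  have e1 : ((2 ^ (c + 1) : ℕ) : ℝ) ^ γ = ((2 : ℝ) ^ c) ^ γ * 2 ^ γ := by
    have : ((2 ^ (c + 1) : ℕ) : ℝ) = (2 : ℝ) ^ c * 2 := by push_cast; ring
    rw [this, Real.mul_rpow (by positivity) (by norm_num)]
  have e2 : ((2 : ℝ) ^ c) ^ (γ / 2) = Real.sqrt (((2 : ℝ) ^ c) ^ γ) := by
    rw [Real.sqrt_eq_rpow, ← Real.rpow_mul (by positivity)]
    congr 1
    ring
  rw [e1, e2, ← Real.sqrt_mul (by positivity)]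
  apply Real.sqrt_le_sqrt
  nlinarith

theorem dg_main (hCS : S_CS) (hCVB : S_CVB) (hBAL : S_BAL) (hSQ : S_SQ) (hMSB : S_MSB)
    (K : Set Wv) (hK : ∀ k ∈ K, -k ∈ K) (h0 : (0 : Wv) ∉ K) (B γ : ℝ)
    (hB : 0 ≤ B) (hγ : 0 ≤ γ) (hc : ∀ R : ℕ, 1 ≤ R → ∀ p ∈ cub R, ∀ q ∈ cub R, p ≠ q → p ≠ 0 →
      q ≠ 0 → (cnt K R p q : ℝ) ≤ B * (R : ℝ) ^ γ) (σ T : ℝ) (hσ : 1 / 3 + γ / 6 < σ) (hσ1 : σ ≤ 1)
    (hT : 0 ≤ T) (u : ℝ → Fld) (hu : IsEulOn K σ T u) :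
    ∃ e : ℝ, ∀ t ∈ Set.Icc 0 T, Tendsto (fun n => En 0 n (u t)) atTop (𝓝 e) :=
  t_ECO hCVB hBAL hSQ hMSB _ σ T (asm2_arr_dec K hK) (by linarith) hT
    (ef1c_main hCVB _ σ (γ / 2) (asm2_arr_dec K hK) (dg_FBk hCS hK h0 hB hγ hc) (by linarith)
      (by linarith) hσ1) u (dg_eul hK hT hu)

end Pool.Agent.N983.WK
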