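import Pool.Agent.N983.RT.Stm2

set_option autoImplicit false

/-! Weak solutions of the Navier-Stokes equations with coefficients in front of the triads. -/

namespace Pool.Agent.N983.WK

open Pool.Agent.N983.RT

/-- `u` is a weak solution on `[0, T]` with bounded energy and finite dissipation: it is weakly
continuous in time and satisfies the integrated equation -/
structure IsWeak (g : Wv → Wv → Wv → ℝ) (ν α T : ℝ) (u : ℝ → Fld) : Prop where
  adm : ∀ t ∈ Set.Icc 0 T, Adm (u t)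
  cont : ∀ m j, ContinuousOn (fun t => u t m j) (Set.Icc 0 T)
  energy : ∃ C : ℝ, ∀ t ∈ Set.Icc 0 T, ∀ n, En 0 n (u t) ≤ C
  diss : ∃ C : ℝ, ∀ n, ∫ t in (0 : ℝ)..T, Er α n (u t) ≤ C
  eqn : ∀ m, m ≠ 0 → ∀ j, ∀ t ∈ Set.Icc 0 T,
    u t m j = u 0 m j + ∫ s in (0 : ℝ)..t, rhs g ν α (u s) m j

end Pool.Agent.N983.WK
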