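import Pool.Agent.N983.RT.Stm2

set_option autoImplicit false

/-! Weak solutions of the Navier-Stokes equations with coefficients in front of the triads and an
external force. -/

namespace Pool.Agent.N983.WK

open Pool.Agent.N983.RT MeasureTheory Filter Topology

/-- an external force, square integrable in space and time on `[0, T]` -/
structure IsForce (T : ℝ) (f : ℝ → Fld) : Prop where
  adm : ∀ t ∈ Set.Icc 0 T, Adm (f t)
  meas : ∀ m j, Measurable fun t => f t m j
  int : ∀ m j, IntervalIntegrable (fun t => ‖f t m j‖ ^ 2) volume 0 T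
  bdd : ∃ C : ℝ, ∀ n, ∫ t in (0 : ℝ)..T, En 0 n (f t) ≤ C

/-- `u` is a weak solution on `[0, T]` with the force `f`, bounded energy and finite dissipation:
it is weakly continuous in time and satisfies the integrated equation -/
structure IsWeakF (g : Wv → Wv → Wv → ℝ) (ν α T : ℝ) (f u : ℝ → Fld) : Prop where
  adm : ∀ t ∈ Set.Icc 0 T, Adm (u t)
  cont : ∀ m j, ContinuousOn (fun t => u t m j) (Set.Icc 0 T)
  energy : ∃ C : ℝ, ∀ t ∈ Set.Icc 0 T, ∀ n, En 0 n (u t) ≤ C
  diss : ∃ C : ℝ, ∀ n, ∫ t in (0 : ℝ)..T, Er α n (u t) ≤ C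
  eqn : ∀ m, m ≠ 0 → ∀ j, ∀ t ∈ Set.Icc 0 T,
    u t m j = u 0 m j + ∫ s in (0 : ℝ)..t, (rhs g ν α (u s) m j + f s m j)

/-- the energy equality: the energy at time `t`, plus the energy dissipated before time `t`, minus
the work of the force before time `t`, is the initial energy -/
def EnergyEqF (ν α T : ℝ) (f u : ℝ → Fld) : Prop := ∃ e : ℝ,
  Tendsto (fun n => En 0 n (u 0)) atTop (𝓝 e) ∧ ∀ t ∈ Set.Icc 0 T,
    Tendsto (fun n => En 0 n (u t) + 2 * ν * (∫ s in (0 : ℝ)..t, Er α n (u s)) -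
      2 * ∫ s in (0 : ℝ)..t, ∑ m ∈ cub n, ∑ j, ((starRingEnd ℂ) (u s m j) * f s m j).re)
      atTop (𝓝 e)

end Pool.Agent.N983.WK
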