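import Pool.Agent.N983.WK.Stm3
import Pool.Agent.N983.WK.EEQ
import Pool.Agent.N983.WK.BAL

set_option autoImplicit false

/-! Energy equality of weak solutions with a force (helper826, from EEQ of helper97 and BAL of
helper764). -/

namespace Pool.Agent.N983.WK

open MeasureTheory ProbabilityTheory Filter Topology Pool.Agent.N983.RT

theorem eef_conv (hC : S_CVB) (hM : S_MSB) {g : Wv → Wv → Wv → ℝ} {ν α T : ℝ} (hg : Arr g)
    (hT : 0 ≤ T) {f u : ℝ → Fld} (hu : IsWeakF g ν α T f u) (m : Wv) (j : Fin 3) :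
    IntervalIntegrable (fun s => conv g (u s) m j) volume 0 T := by
  obtain ⟨C, h⟩ := hu.energy
  exact hM hC g T C u u hg.le hT hu.adm hu.cont hu.cont h h m j

theorem eef_rhs (hC : S_CVB) (hM : S_MSB) {g : Wv → Wv → Wv → ℝ} {ν α T : ℝ} (hg : Arr g)
    (hT : 0 ≤ T) {f u : ℝ → Fld} (hu : IsWeakF g ν α T f u) (m : Wv) (j : Fin 3) :
    IntervalIntegrable (fun s => rhs g ν α (u s) m j) volume 0 T := by
  have hc := eef_conv hC hM hg hT hu m
  have hl : IntervalIntegrable (fun s => -((ν * nsq m ^ α : ℝ) : ℂ) * u s m j) volume 0 T := by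
    apply ContinuousOn.intervalIntegrable
    rw [Set.uIcc_of_le hT]
    exact continuousOn_const.mul (hu.cont m j)
  have hd : IntervalIntegrable (fun s => dt (conv g (u s) m) m * (m j : ℂ) / (nsq m : ℂ))
      volume 0 T := by
    apply IntervalIntegrable.div_const
    apply IntervalIntegrable.mul_const
    exact bal_sum Finset.univ (fun (i : Fin 3) (s : ℝ) => conv g (u s) m i * (m i : ℂ)) 0 T
      (fun i _ => (hc i).mul_const _)
  exact hl.sub (((hc j).sub hd).const_mul Complex.I)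

/-- the force is integrable -/
theorem eef_force {T : ℝ} {f : ℝ → Fld} (hf : IsForce T f) (m : Wv) (j : Fin 3) :
    IntervalIntegrable (fun s => f s m j) volume 0 T := by
  have h1 : IntervalIntegrable (fun s => 1 + ‖f s m j‖ ^ 2) volume 0 T :=
    intervalIntegrable_const.add (hf.int m j)
  refine h1.mono_fun (hf.meas m j).aestronglyMeasurable (ae_of_all _ fun s => ?_)
  show ‖f s m j‖ ≤ ‖1 + ‖f s m j‖ ^ 2‖
  rw [Real.norm_of_nonneg (by positivity)]
  nlinarith [sq_nonneg (‖f s m j‖ - 1), norm_nonneg (f s m j)]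

/-- the power of the force is integrable -/
theorem eef_pow {g : Wv → Wv → Wv → ℝ} {ν α T : ℝ} (hT : 0 ≤ T) {f u : ℝ → Fld}
    (hf : IsForce T f) (hu : IsWeakF g ν α T f u) (m : Wv) (j : Fin 3) :
    IntervalIntegrable (fun s => ((starRingEnd ℂ) (u s m j) * f s m j).re) volume 0 T := by
  have h1 : IntervalIntegrable (fun s => (starRingEnd ℂ) (u s m j) * f s m j) volume 0 T := by
    apply IntervalIntegrable.continuousOn_mul
    · exact eef_force hf m j
    · rw [Set.uIcc_of_le hT]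
      exact Complex.continuous_conj.comp_continuousOn (hu.cont m j)
  exact ⟨h1.1.re, h1.2.re⟩

theorem eef_bal (hC : S_CVB) (hS : S_SQ) (hM : S_MSB) {g : Wv → Wv → Wv → ℝ} {ν α T : ℝ}
    (hg : Arr g) (hT : 0 ≤ T) {f u : ℝ → Fld} (hf : IsForce T f) (hu : IsWeakF g ν α T f u)
    (χ : Wv → ℝ) (n : ℕ) :
    IntervalIntegrable (fun s => (∑ m ∈ cub n, (χ m : ℂ) * ∑ j, (starRingEnd ℂ)
      (u s m j) * cv g (u s) (u s) m j).im) volume 0 T ∧
    ∀ t ∈ Set.Icc 0 T, ∑ m ∈ cub n, χ m * ∑ j, ‖u t m j‖ ^ 2 =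
      ∑ m ∈ cub n, χ m * ∑ j, ‖u 0 m j‖ ^ 2 + ∫ s in (0 : ℝ)..t,
        (-2 * ν * ∑ m ∈ cub n, χ m * (nsq m ^ α * ∑ j, ‖u s m j‖ ^ 2) +
        2 * (∑ m ∈ cub n, (χ m : ℂ) * ∑ j, (starRingEnd ℂ) (u s m j) *
          cv g (u s) (u s) m j).im +
        2 * ∑ m ∈ cub n, χ m * ∑ j, ((starRingEnd ℂ) (u s m j) * f s m j).re) := by
  let F : Wv → Fin 3 → ℝ → ℂ := fun m j s =>
    if m = 0 then 0 else rhs g ν α (u s) m j + f s m j
  let w : Wv → Fin 3 → ℝ → ℂ := fun m j s => u s m j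
  have h0 : (0 : ℝ) ∈ Set.Icc 0 T := ⟨le_rfl, hT⟩
  have hF : ∀ m j, IntervalIntegrable (F m j) volume 0 T := by
    intro m j
    by_cases hm : m = 0
    · have : F m j = fun _ => 0 := by funext s; exact if_pos hm
      rw [this]
      exact intervalIntegrable_const
    · have : F m j = fun s => rhs g ν α (u s) m j + f s m j := by
        funext s; exact if_neg hm
      rw [this]
      exact (eef_rhs hC hM hg hT hu m j).add (eef_force hf m j)
  have hsub : ∀ t ∈ Set.Icc 0 T, Set.uIcc 0 t ⊆ Set.uIcc 0 T := by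
    intro t ht
    rw [Set.uIcc_of_le hT, Set.uIcc_of_le ht.1]
    exact Set.Icc_subset_Icc le_rfl ht.2
  have hw : ∀ m j, ∀ t ∈ Set.Icc 0 T, w m j t = w m j 0 + ∫ s in (0 : ℝ)..t, F m j s := by
    intro m j t ht
    by_cases hm : m = 0
    · have : F m j = fun _ => 0 := by funext s; exact if_pos hm
      rw [this]
      simp only [intervalIntegral.integral_zero, add_zero]
      show u t m j = u 0 m j
      rw [hm, (hu.adm t ht).zero, (hu.adm 0 h0).zero]
    · have : F m j = fun s => rhs g ν α (u s) m j + f s m j := by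
        funext s; exact if_neg hm
      rw [this]
      exact hu.eqn m hm j t ht
  have hsq := fun m j => hS T (w m j) (F m j) hT (hF m j) (hw m j)
  -- pointwise identity for one wave vector
  have hpt : ∀ s ∈ Set.Icc 0 T, ∀ m, ∑ j, 2 * ((starRingEnd ℂ) (w m j s) * F m j s).re =
      -2 * ν * (nsq m ^ α * ∑ j, ‖w m j s‖ ^ 2) + 2 * (∑ j, (starRingEnd ℂ)
      (w m j s) * cv g (u s) (u s) m j).im +
        2 * ∑ j, ((starRingEnd ℂ) (w m j s) * f s m j).re := by
    intro s hs m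
    by_cases hm : m = 0
    · have e1 : ∀ j, w m j s = 0 := by
        intro j
        show u s m j = 0
        rw [hm, (hu.adm s hs).zero]; simp
      simp [e1]
    · have e1 : ∀ j, F m j s = rhs g ν α (u s) m j + f s m j := fun j => if_neg hm
      have e2 : ∀ j, (starRingEnd ℂ) (w m j s) * F m j s =
          -((ν * nsq m ^ α : ℝ) : ℂ) * ((‖w m j s‖ ^ 2 : ℝ) : ℂ) - Complex.I *
          ((starRingEnd ℂ) (w m j s) * prj m (conv g (u s) m) j) +
            (starRingEnd ℂ) (w m j s) * f s m j := by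
        intro j
        have e3 : ((‖w m j s‖ ^ 2 : ℝ) : ℂ) = (starRingEnd ℂ) (w m j s) * u s m j := by
          rw [← Complex.normSq_eq_norm_sq, ← Complex.mul_conj]
          show w m j s * (starRingEnd ℂ) (w m j s) = (starRingEnd ℂ) (w m j s) * (w m j s)
          ring
        rw [e1, e3]
        unfold rhs
        ring
      have e4 : ∑ j, (starRingEnd ℂ) (w m j s) * F m j s =
          -((ν * nsq m ^ α * ∑ j, ‖w m j s‖ ^ 2 : ℝ) : ℂ) - Complex.I * ∑ j, (starRingEnd ℂ)
            (w m j s) * cv g (u s) (u s) m j + ∑ j, (starRingEnd ℂ) (w m j s) * f s m j := by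
        rw [Finset.sum_congr rfl fun j _ => e2 j, Finset.sum_add_distrib, Finset.sum_sub_distrib,
          ← Finset.mul_sum, ← Finset.mul_sum]
        have e5 := bal_prj m (fun j => w m j s) (conv g (u s) m) ((hu.adm s hs).div m)
        rw [e5]
        congr 1
        congr 1
        push_cast
        ring
      have e7 : ∑ j, 2 * ((starRingEnd ℂ) (w m j s) * F m j s).re =
          2 * (∑ j, (starRingEnd ℂ) (w m j s) * F m j s).re := by
        rw [← Finset.mul_sum, Complex.re_sum]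
      have e8 : ∑ j, ((starRingEnd ℂ) (w m j s) * f s m j).re =
          (∑ j, (starRingEnd ℂ) (w m j s) * f s m j).re := by
        rw [Complex.re_sum]
      rw [e7, e4, e8]
      simp only [Complex.sub_re, Complex.add_re, Complex.neg_re, Complex.ofReal_re,
        Complex.mul_re, Complex.I_re, Complex.I_im, zero_mul, one_mul, zero_sub]
      ring
  refine ⟨?_, ?_⟩
  · -- integrability
    have h1 : ∀ m j, IntervalIntegrable (fun s => (starRingEnd ℂ) (u s m j) *
        cv g (u s) (u s) m j) volume 0 T := by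
      intro m j
      apply IntervalIntegrable.continuousOn_mul
      · exact eef_conv hC hM hg hT hu m j
      · rw [Set.uIcc_of_le hT]
        exact Complex.continuous_conj.comp_continuousOn (hu.cont m j)
    have h2 : IntervalIntegrable (fun s => ∑ m ∈ cub n, (χ m : ℂ) * ∑ j, (starRingEnd ℂ)
        (u s m j) * cv g (u s) (u s) m j) volume 0 T :=
      bal_sum (cub n) (fun (m : Wv) (s : ℝ) => (χ m : ℂ) * ∑ j, (starRingEnd ℂ)
        (u s m j) * cv g (u s) (u s) m j) 0 T fun m _ =>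
          (bal_sum Finset.univ (fun (j : Fin 3) (s : ℝ) => (starRingEnd ℂ) (u s m j) *
              cv g (u s) (u s) m j) 0 T fun j _ => h1 m j).const_mul _
    exact ⟨h2.1.im, h2.2.im⟩
  · intro t ht
    have hG : ∀ m j, IntervalIntegrable (fun s => 2 * ((starRingEnd ℂ) (w m j s) * F m j s).re)
        volume 0 t := fun m j => ((hsq m j).1.mono_set (hsub t ht)).const_mul 2
    have e1 : ∀ m, χ m * ∑ j, ‖w m j t‖ ^ 2 = χ m * ∑ j, ‖w m j 0‖ ^ 2 +
        ∫ s in (0 : ℝ)..t, χ m * ∑ j, 2 * ((starRingEnd ℂ) (w m j s) * F m j s).re := by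
      intro m
      rw [intervalIntegral.integral_const_mul, intervalIntegral.integral_finsetSum
        (fun j _ => hG m j), ← mul_add, ← Finset.sum_add_distrib]
      congr 1
      exact Finset.sum_congr rfl fun j _ => (hsq m j).2 t ht
    have e2 : ∑ m ∈ cub n, χ m * ∑ j, ‖w m j t‖ ^ 2 = ∑ m ∈ cub n, χ m * ∑ j, ‖w m j 0‖ ^ 2 +
        ∫ s in (0 : ℝ)..t, ∑ m ∈ cub n, χ m * ∑ j, 2 * ((starRingEnd ℂ) (w m j s) * F m j s).re := by
      rw [intervalIntegral.integral_finsetSum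
        (fun m _ => (bal_sumr Finset.univ _ 0 t fun j _ => hG m j).const_mul _),
        ← Finset.sum_add_distrib]
      exact Finset.sum_congr rfl fun m _ => e1 m
    show ∑ m ∈ cub n, χ m * ∑ j, ‖w m j t‖ ^ 2 = ∑ m ∈ cub n, χ m * ∑ j, ‖w m j 0‖ ^ 2 + _
    rw [e2]
    congr 1
    refine intervalIntegral.integral_congr fun s hs => ?_
    have hs' : s ∈ Set.Icc 0 T := by
      have := hsub t ht hs
      rwa [Set.uIcc_of_le hT] at this
    show ∑ m ∈ cub n, χ m * ∑ j, 2 * ((starRingEnd ℂ) (w m j s) * F m j s).re = _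
    rw [Finset.mul_sum, Complex.im_sum, Finset.mul_sum, Finset.mul_sum, ← Finset.sum_add_distrib,
      ← Finset.sum_add_distrib]
    refine Finset.sum_congr rfl fun m _ => ?_
    rw [hpt s hs' m, Complex.im_ofReal_mul]
    show _ = -2 * ν * (χ m * (nsq m ^ α * ∑ j, ‖u s m j‖ ^ 2)) + 2 * (χ m * (∑ j, (starRingEnd ℂ)
      (u s m j) * cv g (u s) (u s) m j).im) +
        2 * (χ m * ∑ j, ((starRingEnd ℂ) (u s m j) * f s m j).re)
    ring

theorem eef_cont {g : Wv → Wv → Wv → ℝ} {ν α T : ℝ} {f u : ℝ → Fld} (hu : IsWeakF g ν α T f u)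
    (S : Finset Wv) (c : Wv → ℝ) :
    ContinuousOn (fun s => ∑ m ∈ S, c m * ∑ j, ‖u s m j‖ ^ 2) (Set.Icc 0 T) :=
  continuousOn_finsetSum _ fun m _ => continuousOn_const.mul
    (continuousOn_finsetSum _ fun j _ => (hu.cont m j).norm.pow 2)

/-- signed weights -/
theorem eef_lim {w q : Wv → ℝ} {B : ℝ} (hw : ∀ m, |w m| ≤ q m)
    (hB : ∀ N, ∑ m ∈ cub N, q m ≤ B) :
    (∀ N, |∑ m ∈ cub N, w m| ≤ B) ∧ (∀ n, |∑ m ∈ cub (2 * n + 2), ct n m * w m| ≤ B) ∧
    Tendsto (fun n => (∑ m ∈ cub n, w m) - ∑ m ∈ cub (2 * n + 2), ct n m * w m) atTop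
      (𝓝 0) := by
  refine ⟨fun N => ?_, fun n => ?_, ?_⟩
  · exact (Finset.abs_sum_le_sum_abs _ _).trans ((Finset.sum_le_sum fun m _ => hw m).trans (hB N))
  · refine (Finset.abs_sum_le_sum_abs _ _).trans ((Finset.sum_le_sum fun m _ => ?_).trans
      (hB (2 * n + 2)))
    rw [abs_mul, abs_of_nonneg (eeq_ct0 n m)]
    exact (mul_le_of_le_one_left (abs_nonneg _) (eeq_ct1 n m)).trans (hw m)
  · have key : ∀ v : Wv → ℝ, (∀ m, 0 ≤ v m) → (∀ m, v m ≤ q m) →
        Tendsto (fun n => (∑ m ∈ cub n, v m) - ∑ m ∈ cub (2 * n + 2), ct n m * v m) atTop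
          (𝓝 0) := by
      intro v hv0 hv1
      have h1 := tendsto_atTop_ciSup (eeq_mono hv0) ⟨B, by
        rintro _ ⟨N, rfl⟩
        exact (Finset.sum_le_sum fun m _ => hv1 m).trans (hB N)⟩
      have h2 := h1.sub (eeq_lim hv0 h1)
      rwa [sub_self] at h2
    have k1 := key (fun m => max (w m) 0) (fun m => le_max_right _ _) fun m =>
      max_le ((le_abs_self _).trans (hw m)) ((abs_nonneg _).trans (hw m))
    have k2 := key (fun m => max (-w m) 0) (fun m => le_max_right _ _) fun m =>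
      max_le ((neg_le_abs _).trans (hw m)) ((abs_nonneg _).trans (hw m))
    have k3 := k1.sub k2
    rw [sub_zero] at k3
    refine k3.congr fun n => ?_
    have e : ∀ m, w m = max (w m) 0 - max (-w m) 0 := by
      intro m
      rcases le_total (w m) 0 with h | h
      · rw [max_eq_right h, max_eq_left (by linarith)]
        ring
      · rw [max_eq_left h, max_eq_right (by linarith)]
        ring
    have e1 : ∑ m ∈ cub n, w m = ∑ m ∈ cub n, max (w m) 0 - ∑ m ∈ cub n, max (-w m) 0 := by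
      rw [← Finset.sum_sub_distrib]
      exact Finset.sum_congr rfl fun m _ => e m
    have e2 : ∑ m ∈ cub (2 * n + 2), ct n m * w m = ∑ m ∈ cub (2 * n + 2), ct n m * max (w m) 0 -
        ∑ m ∈ cub (2 * n + 2), ct n m * max (-w m) 0 := by
      rw [← Finset.sum_sub_distrib]
      refine Finset.sum_congr rfl fun m _ => ?_
      rw [← mul_sub, ← e m]
    rw [e1, e2]
    ring

theorem eef_abs (a b : Fin 3 → ℂ) : |∑ j, ((starRingEnd ℂ) (a j) * b j).re| ≤
    ∑ j, ‖a j‖ ^ 2 + ∑ j, ‖b j‖ ^ 2 := by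
  rw [← Finset.sum_add_distrib]
  refine (Finset.abs_sum_le_sum_abs _ _).trans (Finset.sum_le_sum fun j _ => ?_)
  refine (Complex.abs_re_le_norm _).trans ?_
  rw [norm_mul, RCLike.norm_conj]
  nlinarith [sq_nonneg (‖a j‖ - ‖b j‖), sq_nonneg ‖a j‖, sq_nonneg ‖b j‖]

theorem t_EEF : S_EEF := by
  intro hCVB hSQ hMSB g ν α T hg hν hα hT hF f u hf hu
  obtain ⟨K, hK, hFX⟩ := hF
  obtain ⟨C, hC⟩ := hu.energy
  obtain ⟨C', hC'⟩ := hu.diss
  obtain ⟨C'', hC''⟩ := hf.bdd
  have hbal := fun n => eef_bal hCVB hSQ hMSB hg hT hf hu (ct n) (2 * n + 2)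
  have hq : ∀ (s : ℝ) (m : Wv), 0 ≤ ∑ j, ‖u s m j‖ ^ 2 := fun s m => Finset.sum_nonneg fun _ _ => sq_nonneg _
  have hqf : ∀ (s : ℝ) (m : Wv), 0 ≤ ∑ j, ‖f s m j‖ ^ 2 := fun s m => Finset.sum_nonneg fun _ _ => sq_nonneg _
  have hw : ∀ (s : ℝ) (m : Wv), 0 ≤ nsq m ^ α * ∑ j, ‖u s m j‖ ^ 2 :=
    fun s m => mul_nonneg (Real.rpow_nonneg (eeq_nsq m) α) (hq s m)
  have hEn : ∀ (v : ℝ → Fld) (s : ℝ) (N : ℕ), En 0 N (v s) = ∑ m ∈ cub N, ∑ j, ‖v s m j‖ ^ 2 := by
    intro v s N
    unfold En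
    simp only [pow_zero, one_mul]
  -- the energies converge
  have he : ∀ t ∈ Set.Icc 0 T, ∃ e : ℝ, Tendsto (fun N => En 0 N (u t)) atTop (𝓝 e) := by
    intro t ht
    simp only [hEn]
    refine ⟨_, tendsto_atTop_ciSup (eeq_mono (hq t)) ⟨C, ?_⟩⟩
    rintro _ ⟨N, rfl⟩
    have := hC t ht N
    rw [hEn] at this
    exact this
  have he2 : ∀ t e, Tendsto (fun N => En 0 N (u t)) atTop (𝓝 e) →
      Tendsto (fun n => ∑ m ∈ cub (2 * n + 2), ct n m * ∑ j, ‖u t m j‖ ^ 2) atTop (𝓝 e) := by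
    intro t e h
    simp only [hEn] at h
    exact eeq_lim (hq t) h
  -- the dissipation
  have hcE : ∀ N, ContinuousOn (fun s => Er α N (u s)) (Set.Icc 0 T) := fun N => eef_cont hu (cub N) fun m => nsq m ^ α
  have hiE : ∀ N, IntegrableOn (fun s => Er α N (u s)) (Set.Ioc 0 T) volume := fun N =>
    ((hcE N).integrableOn_Icc).mono_set Set.Ioc_subset_Icc_self
  obtain ⟨D, hD, hDl⟩ := eeq_mct (μ := volume.restrict (Set.Ioc 0 T)) (f := fun N s => Er α N (u s)) (C := C') hiE
    (ae_of_all _ fun s N => Finset.sum_nonneg fun m _ => hw s m)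
    (ae_of_all _ fun s => eeq_mono (hw s))
    (fun N => by
      have := hC' N
      rwa [intervalIntegral.integral_of_le hT] at this)
  have hDb : ∀ᵐ s ∂(volume.restrict (Set.Ioc 0 T)), ∀ N, Er α N (u s) ≤ D s := by
    filter_upwards [hDl] with s hs N
    exact (eeq_mono (hw s)).ge_of_tendsto hs N
  have hD0 : ∀ᵐ s ∂(volume.restrict (Set.Ioc 0 T)), 0 ≤ D s := by
    filter_upwards [hDb] with s hs
    exact (Finset.sum_nonneg fun m _ => hw s m).trans (hs 0)
  have hfx : ∀ᵐ s ∂(volume.restrict (Set.Ioc 0 T)),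
      (∀ n, |fx g n (u s)| ≤ K * Real.sqrt (max C 0) * D s) ∧ Tendsto (fun n => fx g n (u s)) atTop (𝓝 0) := by
    filter_upwards [hDb, hD0, ae_restrict_mem measurableSet_Ioc] with s h1 h2 h3
    have h4 : s ∈ Set.Icc 0 T := ⟨h3.1.le, h3.2⟩
    refine hFX (u s) (Real.sqrt (max C 0)) (D s) (hu.adm s h4) (Real.sqrt_nonneg _) h2 (fun n => ?_) h1
    rw [Real.sq_sqrt (le_max_right _ _)]
    exact (hC s h4 n).trans (le_max_left _ _)
  -- the force
  have hiF : ∀ N, IntervalIntegrable (fun s => En 0 N (f s)) volume 0 T := by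
    intro N
    have h1 := bal_sumr (cub N) (fun m s => ∑ j, ‖f s m j‖ ^ 2) 0 T fun m _ =>
      bal_sumr Finset.univ (fun (j : Fin 3) s => ‖f s m j‖ ^ 2) 0 T fun j _ => hf.int m j
    simpa only [hEn] using h1
  obtain ⟨P, hP, hPl⟩ := eeq_mct (μ := volume.restrict (Set.Ioc 0 T)) (f := fun N s => En 0 N (f s)) (C := C'')
    (fun N => (intervalIntegrable_iff_integrableOn_Ioc_of_le hT).1 (hiF N))
    (ae_of_all _ fun s N => by
      show 0 ≤ En 0 N (f s)
      rw [hEn]
      exact Finset.sum_nonneg fun m _ => hqf s m)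
    (ae_of_all _ fun s => by
      simp only [hEn]
      exact eeq_mono (hqf s))
    (fun N => by
      have := hC'' N
      rwa [intervalIntegral.integral_of_le hT] at this)
  have hPb : ∀ᵐ s ∂(volume.restrict (Set.Ioc 0 T)), ∀ N, En 0 N (f s) ≤ P s := by
    filter_upwards [hPl] with s hs N
    have h1 : Monotone fun N => En 0 N (f s) := by
      simp only [hEn]
      exact eeq_mono (hqf s)
    exact h1.ge_of_tendsto hs N
  have hfo : ∀ᵐ s ∂(volume.restrict (Set.Ioc 0 T)),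
      (∀ N, |∑ m ∈ cub N, ∑ j, ((starRingEnd ℂ) (u s m j) * f s m j).re| ≤ C + P s) ∧
      (∀ n, |∑ m ∈ cub (2 * n + 2), ct n m * ∑ j, ((starRingEnd ℂ) (u s m j) * f s m j).re| ≤
        C + P s) ∧
      Tendsto (fun n => (∑ m ∈ cub n, ∑ j, ((starRingEnd ℂ) (u s m j) * f s m j).re) -
        ∑ m ∈ cub (2 * n + 2), ct n m * ∑ j, ((starRingEnd ℂ) (u s m j) * f s m j).re) atTop
          (𝓝 0) := by
    filter_upwards [hPb, ae_restrict_mem measurableSet_Ioc] with s h1 h3
    have h4 : s ∈ Set.Icc 0 T := ⟨h3.1.le, h3.2⟩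
    refine eef_lim (w := fun m => ∑ j, ((starRingEnd ℂ) (u s m j) * f s m j).re)
      (q := fun m => ∑ j, ‖u s m j‖ ^ 2 + ∑ j, ‖f s m j‖ ^ 2) (fun m => eef_abs _ _) fun N => ?_
    rw [Finset.sum_add_distrib, ← hEn, ← hEn]
    exact add_le_add (hC s h4 N) (h1 N)
  have hiW : ∀ S : Finset Wv, ∀ c : Wv → ℝ, IntervalIntegrable (fun s => ∑ m ∈ S, c m *
      ∑ j, ((starRingEnd ℂ) (u s m j) * f s m j).re) volume 0 T := fun S c =>
    bal_sumr S (fun m s => c m * ∑ j, ((starRingEnd ℂ) (u s m j) * f s m j).re) 0 T fun m _ =>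
      (bal_sumr Finset.univ (fun (j : Fin 3) s => ((starRingEnd ℂ) (u s m j) * f s m j).re) 0 T
        fun j _ => eef_pow hT hf hu m j).const_mul _
  obtain ⟨e, hee⟩ := he 0 ⟨le_rfl, hT⟩
  refine ⟨e, hee, fun t ht => ?_⟩
  obtain ⟨e', hee'⟩ := he t ht
  have hsub : Set.Ioc 0 t ⊆ Set.Ioc 0 T := Set.Ioc_subset_Ioc_right ht.2
  have hsub' : Set.uIcc 0 t ⊆ Set.uIcc 0 T := by
    rw [Set.uIcc_of_le ht.1, Set.uIcc_of_le hT]
    exact Set.Icc_subset_Icc_right ht.2
  have hmono : ∀ {p : ℝ → Prop}, (∀ᵐ s ∂(volume.restrict (Set.Ioc 0 T)), p s) →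
      ∀ᵐ s ∂(volume : Measure ℝ), s ∈ Set.uIoc 0 t → p s := by
    intro p hp
    rw [Set.uIoc_of_le ht.1]
    have h1 := (ae_restrict_iff' measurableSet_Ioc).1 hp
    filter_upwards [h1] with s hs hs2
    exact hs (hsub hs2)
  have hDt : IntervalIntegrable D volume 0 t :=
    (intervalIntegrable_iff_integrableOn_Ioc_of_le ht.1).2 (hD.mono_measure (Measure.restrict_mono hsub le_rfl))
  have hPt : IntervalIntegrable P volume 0 t :=
    (intervalIntegrable_iff_integrableOn_Ioc_of_le ht.1).2 (hP.mono_measure (Measure.restrict_mono hsub le_rfl))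
  have hcn : ∀ n, ContinuousOn (fun s => ∑ m ∈ cub (2 * n + 2), ct n m * (nsq m ^ α * ∑ j, ‖u s m j‖ ^ 2))
      (Set.Icc 0 T) := by
    intro n
    have := eef_cont hu (cub (2 * n + 2)) fun m => ct n m * nsq m ^ α
    simpa only [mul_assoc] using this
  have hin : ∀ n, IntervalIntegrable
      (fun s => ∑ m ∈ cub (2 * n + 2), ct n m * (nsq m ^ α * ∑ j, ‖u s m j‖ ^ 2)) volume 0 t := fun n =>
    ((hcn n).mono (Set.Icc_subset_Icc_right ht.2)).intervalIntegrable_of_Icc ht.1
  have hiE' : ∀ N, IntervalIntegrable (fun s => Er α N (u s)) volume 0 t := fun n =>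
    ((hcE n).mono (Set.Icc_subset_Icc_right ht.2)).intervalIntegrable_of_Icc ht.1
  have hif : ∀ n, IntervalIntegrable (fun s => fx g n (u s)) volume 0 t := fun n =>
    (hbal n).1.mono_set hsub'
  have hiV : ∀ n, IntervalIntegrable (fun s => ∑ m ∈ cub (2 * n + 2), ct n m *
      ∑ j, ((starRingEnd ℂ) (u s m j) * f s m j).re) volume 0 t := fun n =>
    (hiW (cub (2 * n + 2)) (ct n)).mono_set hsub'
  have hiU : ∀ n, IntervalIntegrable (fun s => ∑ m ∈ cub n,
      ∑ j, ((starRingEnd ℂ) (u s m j) * f s m j).re) volume 0 t := fun n => by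
    have := (hiW (cub n) fun _ => 1).mono_set hsub'
    simpa only [one_mul] using this
  -- limits of the integrals
  have l1 : Tendsto (fun N => ∫ s in (0 : ℝ)..t, Er α N (u s)) atTop (𝓝 (∫ s in (0 : ℝ)..t, D s)) := by
    refine intervalIntegral.tendsto_integral_filter_of_dominated_convergence D
      (Eventually.of_forall fun N => (intervalIntegrable_iff.1 (hiE' N)).aestronglyMeasurable)
      (Eventually.of_forall fun N => ?_) hDt (hmono hDl)
    filter_upwards [hmono hDb] with s hs hs2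
    rw [Real.norm_of_nonneg (show 0 ≤ Er α N (u s) from Finset.sum_nonneg fun m _ => hw s m)]
    exact hs hs2 N
  have l2 : Tendsto (fun n => ∫ s in (0 : ℝ)..t,
      ∑ m ∈ cub (2 * n + 2), ct n m * (nsq m ^ α * ∑ j, ‖u s m j‖ ^ 2)) atTop (𝓝 (∫ s in (0 : ℝ)..t, D s)) := by
    refine intervalIntegral.tendsto_integral_filter_of_dominated_convergence D
      (Eventually.of_forall fun N => (intervalIntegrable_iff.1 (hin N)).aestronglyMeasurable)
      (Eventually.of_forall fun n => ?_) hDt ?_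
    · filter_upwards [hmono hDb] with s hs hs2
      rw [Real.norm_of_nonneg (Finset.sum_nonneg fun m _ => mul_nonneg (eeq_ct0 n m) (hw s m))]
      exact (eeq_sq n (hw s)).2.trans (hs hs2 _)
    · filter_upwards [hmono hDl] with s hs hs2
      exact eeq_lim (hw s) (hs hs2)
  have l3 : Tendsto (fun n => ∫ s in (0 : ℝ)..t, fx g n (u s)) atTop (𝓝 (∫ s in (0 : ℝ)..t, (0 : ℝ))) := by
    refine intervalIntegral.tendsto_integral_filter_of_dominated_convergence
      (fun s => K * Real.sqrt (max C 0) * D s)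
      (Eventually.of_forall fun N => (intervalIntegrable_iff.1 (hif N)).aestronglyMeasurable)
      (Eventually.of_forall fun n => ?_) (hDt.const_mul _) ?_
    · filter_upwards [hmono hfx] with s hs hs2
      rw [Real.norm_eq_abs]
      exact (hs hs2).1 n
    · filter_upwards [hmono hfx] with s hs hs2
      exact (hs hs2).2
  rw [intervalIntegral.integral_zero] at l3
  have l5 : Tendsto (fun n => ∫ s in (0 : ℝ)..t,
      ((∑ m ∈ cub n, ∑ j, ((starRingEnd ℂ) (u s m j) * f s m j).re) -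
        ∑ m ∈ cub (2 * n + 2), ct n m * ∑ j, ((starRingEnd ℂ) (u s m j) * f s m j).re)) atTop
      (𝓝 (∫ s in (0 : ℝ)..t, (0 : ℝ))) := by
    refine intervalIntegral.tendsto_integral_filter_of_dominated_convergence
      (fun s => 2 * (C + P s))
      (Eventually.of_forall fun N =>
        (intervalIntegrable_iff.1 ((hiU N).sub (hiV N))).aestronglyMeasurable)
      (Eventually.of_forall fun n => ?_) ((intervalIntegrable_const.add hPt).const_mul _) ?_
    · filter_upwards [hmono hfo] with s hs hs2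
      rw [Real.norm_eq_abs]
      refine (abs_sub _ _).trans ?_
      have a1 := (hs hs2).1 n
      have a2 := (hs hs2).2.1 n
      linarith
    · filter_upwards [hmono hfo] with s hs hs2
      exact (hs hs2).2.2
  rw [intervalIntegral.integral_zero] at l5
  -- the balance
  have hb : ∀ n, (∑ m ∈ cub (2 * n + 2), ct n m * ∑ j, ‖u t m j‖ ^ 2) +
      2 * ν * (∫ s in (0 : ℝ)..t,
        ∑ m ∈ cub (2 * n + 2), ct n m * (nsq m ^ α * ∑ j, ‖u s m j‖ ^ 2)) -
      2 * (∫ s in (0 : ℝ)..t, ∑ m ∈ cub (2 * n + 2), ct n m *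
        ∑ j, ((starRingEnd ℂ) (u s m j) * f s m j).re) =
      (∑ m ∈ cub (2 * n + 2), ct n m * ∑ j, ‖u 0 m j‖ ^ 2) +
        2 * ∫ s in (0 : ℝ)..t, fx g n (u s) := by
    intro n
    have h1 := (hbal n).2 t ht
    have h2 : ∫ s in (0 : ℝ)..t,
        (-2 * ν * ∑ m ∈ cub (2 * n + 2), ct n m * (nsq m ^ α * ∑ j, ‖u s m j‖ ^ 2) +
        2 * (∑ m ∈ cub (2 * n + 2), (ct n m : ℂ) * ∑ j, (starRingEnd ℂ) (u s m j) *
          cv g (u s) (u s) m j).im +
        2 * ∑ m ∈ cub (2 * n + 2), ct n m * ∑ j, ((starRingEnd ℂ) (u s m j) * f s m j).re) =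
        -2 * ν * (∫ s in (0 : ℝ)..t,
          ∑ m ∈ cub (2 * n + 2), ct n m * (nsq m ^ α * ∑ j, ‖u s m j‖ ^ 2)) +
        2 * (∫ s in (0 : ℝ)..t, fx g n (u s)) +
        2 * (∫ s in (0 : ℝ)..t, ∑ m ∈ cub (2 * n + 2), ct n m *
          ∑ j, ((starRingEnd ℂ) (u s m j) * f s m j).re) := by
      rw [← intervalIntegral.integral_const_mul, ← intervalIntegral.integral_const_mul,
        ← intervalIntegral.integral_const_mul,
        ← intervalIntegral.integral_add ((hin n).const_mul _) ((hif n).const_mul _),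
        ← intervalIntegral.integral_add (((hin n).const_mul _).add ((hif n).const_mul _))
          ((hiV n).const_mul _)]
      rfl
    rw [h2] at h1
    rw [h1]
    ring
  have l6 := (he2 0 e hee).add (l3.const_mul 2)
  have l7 := (hee'.sub (he2 t e' hee')).add (((l1.sub l2).const_mul (2 * ν)).sub
    (l5.const_mul 2))
  have l8 := l6.add l7
  rw [sub_self, sub_self, mul_zero, mul_zero, sub_zero, add_zero, add_zero, add_zero] at l8
  refine l8.congr fun n => ?_
  rw [← hb n, intervalIntegral.integral_sub (hiU n) (hiV n)]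
  ring

end Pool.Agent.N983.WK
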