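import Pool.Agent.N983.WK.Stm5
import Pool.Agent.N983.WK.FX2
import Pool.Agent.N983.RT.SHL
import Pool.Agent.N983.RT.EST

set_option autoImplicit false

/-! (EF1) no energy flux to infinity, from the bound of the random sums (helper521 for helper983) -/

namespace Pool.Agent.N983.WK

open Pool.Agent.N983.RT Filter Topology Finset

/-! ### the symbol -/

theorem ef1_dt {u : Fld} (hu : Adm u) (k l : Wv) :
    dt (u k) l = ∑ i, u k i * ((qv k l i : ℤ) : ℂ) := by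
  unfold qv
  split_ifs
  · rfl
  · have h : dt (u k) (k + l) = dt (u k) l := by rw [alg_dt_add, hu.div k, zero_add]
    rw [← h]
    rfl

theorem ef1_split {a M : ℕ} (i : Fin 3) {k l : Wv} (hk : k ≠ 0) (hl : l ≠ 0) (hkl : k + l ≠ 0)
    (hM : max (nsq k) (max (nsq l) (nsq (k + l))) < (4 : ℝ) ^ M) :
    (ct (2 ^ a - 1) (k + l) - ct (2 ^ a - 1) l) * (qv k l i : ℝ) =
      ∑ t ∈ (range M ×ˢ range M) ×ˢ (univ : Finset (Fin 3)),
        (2 : ℝ) ^ (t.1.2 + 2) * fw a t.1.2 t.1.1 t.2 i k l := by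
  obtain ⟨X, hX⟩ : ∃ X, X = max (nsq k) (max (nsq l) (nsq (k + l))) := ⟨_, rfl⟩
  obtain ⟨m, hm⟩ : ∃ m, m = min (nsq k) (min (nsq l) (nsq (k + l))) := ⟨_, rfl⟩
  have h1 : 1 ≤ m := by
    rw [hm]
    exact le_min (lat_nsq_one hk) (le_min (lat_nsq_one hl) (lat_nsq_one hkl))
  have h2 : m ≤ X := by
    rw [hm, hX]
    exact (min_le_left _ _).trans (le_max_left _ _)
  obtain ⟨c, hc1, hc2⟩ := exists_nat_pow_near (h1.trans h2) (by norm_num : (1 : ℝ) < 4)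
  obtain ⟨b, hb1, hb2⟩ := exists_nat_pow_near h1 (by norm_num : (1 : ℝ) < 4)
  rw [← hX] at hM
  have hcM : c < M := (pow_lt_pow_iff_right₀ (by norm_num : (1 : ℝ) < 4)).1 (hc1.trans_lt hM)
  have hbM : b < M :=
    (pow_lt_pow_iff_right₀ (by norm_num : (1 : ℝ) < 4)).1 ((hb1.trans h2).trans_lt hM)
  rw [Finset.sum_eq_single ((c, b), shp k l)]
  · unfold fw
    rw [← hX, ← hm, if_pos ⟨⟨hc1, hc2⟩, ⟨hb1, hb2⟩, rfl⟩]
    field_simp
  · rintro ⟨⟨c', b'⟩, p'⟩ _ hne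
    unfold fw
    rw [if_neg, mul_zero]
    rintro ⟨⟨a1, a2⟩, ⟨a3, a4⟩, a5⟩
    apply hne
    rw [← hX] at a1 a2
    rw [← hm] at a3 a4
    have b1 := est_uniq a1 a2 hc1 hc2
    have b2 := est_uniq a3 a4 hb1 hb2
    simp only at b1 b2 a5
    rw [b1, b2, a5]
  · intro h
    exfalso
    apply h
    simp only [mem_product, mem_range, mem_univ, and_true]
    exact ⟨hcM, hbM⟩

theorem ef1_zero {a b c : ℕ} (p i : Fin 3) (k l : Wv) (h : c < a ∨ c < b) :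
    fw a b c p i k l = 0 := by
  unfold fw
  split_ifs with hc
  · obtain ⟨⟨h1, h2⟩, ⟨h3, h4⟩, h5⟩ := hc
    rcases h with h | h
    · have e : (((2 ^ a - 1 : ℕ) : ℝ) + 1) = 2 ^ a := by
        rw [Nat.cast_sub Nat.one_le_two_pow]
        push_cast
        ring
      rw [max_lt_iff, max_lt_iff] at h2
      have key : ∀ v : Wv, nsq v < (4 : ℝ) ^ (c + 1) → ct (2 ^ a - 1) v = 1 := by
        intro v hv
        apply fx2_ct_one
        rw [e]
        unfold pnt_L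
        rw [Real.sqrt_le_left (by positivity)]
        refine hv.le.trans ?_
        have e2 : ((2 : ℝ) ^ a) ^ 2 = 4 ^ a := by
          rw [← pow_mul, mul_comm, pow_mul]
          norm_num
        rw [e2]
        exact pow_le_pow_right₀ (by norm_num) h
      rw [key _ h2.2.2, key _ h2.2.1]
      simp
    · exfalso
      have h6 : (4 : ℝ) ^ b < 4 ^ (c + 1) :=
        (h3.trans ((min_le_left _ _).trans (le_max_left _ _))).trans_lt h2
      have h7 := (pow_lt_pow_iff_right₀ (by norm_num : (1 : ℝ) < 4)).1 h6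
      omega
  · rfl

/-- the lower bounds for the squares of the lengths -/
noncomputable def ef1_thr (b c : ℕ) (p q : Fin 3) : ℝ :=
  if p = q then (4 : ℝ) ^ b else (4 : ℝ) ^ c / 4

theorem ef1_fw_ne {a b c : ℕ} {p i : Fin 3} {k l : Wv} (h : fw a b c p i k l ≠ 0) :
    (ef1_thr b c p 0 ≤ nsq k ∧ nsq k < (4 : ℝ) ^ (c + 1)) ∧
    (ef1_thr b c p 1 ≤ nsq l ∧ nsq l < (4 : ℝ) ^ (c + 1)) ∧
    (ef1_thr b c p 2 ≤ nsq (k + l) ∧ nsq (k + l) < (4 : ℝ) ^ (c + 1)) := by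
  unfold fw at h
  split_ifs at h with hc
  · obtain ⟨⟨h1, h2⟩, ⟨h3, h4⟩, h5⟩ := hc
    rw [max_lt_iff, max_lt_iff] at h2
    rw [le_max_iff, le_max_iff] at h1
    rw [le_min_iff, le_min_iff] at h3
    have t1 := shl_nsq_add k l
    have t2 := shl_nsq_sub k l
    have t3 := shl_nsq_sub' k l
    have n1 := shl_nsq_nonneg k
    have n2 := shl_nsq_nonneg l
    have n3 := shl_nsq_nonneg (k + l)
    obtain ⟨h2a, h2b, h2c⟩ := h2
    obtain ⟨h3a, h3b, h3c⟩ := h3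
    unfold shp at h5
    split_ifs at h5 with c1 c2
    · obtain ⟨c1, c1'⟩ := c1
      subst h5
      have e0 : ef1_thr b c 0 0 = (4 : ℝ) ^ b := if_pos rfl
      have e1 : ef1_thr b c 0 1 = (4 : ℝ) ^ c / 4 := if_neg (by decide)
      have e2 : ef1_thr b c 0 2 = (4 : ℝ) ^ c / 4 := if_neg (by decide)
      rw [e0, e1, e2]
      refine ⟨⟨h3a, h2a⟩, ⟨?_, h2b⟩, ?_, h2c⟩
      · rcases h1 with h1 | h1 | h1 <;> linarith
      · rcases h1 with h1 | h1 | h1 <;> linarith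
    · have c3 : nsq l ≤ nsq k := by
        by_contra hcc
        push Not at hcc
        exact c1 ⟨hcc.le, hcc.le.trans c2⟩
      subst h5
      have e0 : ef1_thr b c 1 0 = (4 : ℝ) ^ c / 4 := if_neg (by decide)
      have e1 : ef1_thr b c 1 1 = (4 : ℝ) ^ b := if_pos rfl
      have e2 : ef1_thr b c 1 2 = (4 : ℝ) ^ c / 4 := if_neg (by decide)
      rw [e0, e1, e2]
      refine ⟨⟨?_, h2a⟩, ⟨h3b, h2b⟩, ?_, h2c⟩
      · rcases h1 with h1 | h1 | h1 <;> linarith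
      · rcases h1 with h1 | h1 | h1 <;> linarith
    · push Not at c2
      have c3 : nsq (k + l) ≤ nsq k := by
        by_contra hcc
        push Not at hcc
        exact c1 ⟨(hcc.trans c2).le, hcc.le⟩
      subst h5
      have e0 : ef1_thr b c 2 0 = (4 : ℝ) ^ c / 4 := if_neg (by decide)
      have e1 : ef1_thr b c 2 1 = (4 : ℝ) ^ c / 4 := if_neg (by decide)
      have e2 : ef1_thr b c 2 2 = (4 : ℝ) ^ b := if_pos rfl
      rw [e0, e1, e2]
      refine ⟨⟨?_, h2a⟩, ⟨?_, h2b⟩, h3c, h2c⟩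
      · rcases h1 with h1 | h1 | h1 <;> linarith
      · rcases h1 with h1 | h1 | h1 <;> linarith
  · exact absurd rfl h

/-! ### one piece -/

theorem ef1_Er_nonneg (σ : ℝ) (n : ℕ) (u : Fld) : 0 ≤ Er σ n u := by
  unfold Er
  refine sum_nonneg fun k _ => ?_
  have h0 : 0 ≤ nsq k := shl_nsq_nonneg k
  have h1 : 0 ≤ ∑ i, ‖u k i‖ ^ 2 := sum_nonneg fun _ _ => sq_nonneg _
  positivity

theorem ef1_N2 {σ D s : ℝ} {u : Fld} (hσ : 0 < σ) (hs : 0 < s) (hD : ∀ n, Er σ n u ≤ D)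
    (P : Wv → Prop) [DecidablePred P] (hP : ∀ k, P k → s ≤ nsq k) (R : ℕ) (i : Fin 3) :
    N2 R (fun k => if P k then u k i else 0) ≤ s ^ (-(σ / 2)) * Real.sqrt D := by
  unfold N2
  have hD0 : 0 ≤ D := (ef1_Er_nonneg σ R u).trans (hD R)
  have h1 : ∑ k ∈ cub R, ‖(if P k then u k i else 0 : ℂ)‖ ^ 2 ≤ s ^ (-σ) * Er σ R u := by
    unfold Er
    rw [mul_sum]
    refine sum_le_sum fun k _ => ?_
    have h0 : 0 ≤ nsq k := shl_nsq_nonneg k
    have h5 : 0 ≤ ∑ i, ‖u k i‖ ^ 2 := sum_nonneg fun _ _ => sq_nonneg _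
    by_cases hk : P k
    · rw [if_pos hk]
      have h2 : ‖u k i‖ ^ 2 ≤ ∑ i, ‖u k i‖ ^ 2 :=
        single_le_sum (f := fun i => ‖u k i‖ ^ 2) (fun _ _ => sq_nonneg _) (mem_univ i)
      have h3 : 1 ≤ s ^ (-σ) * nsq k ^ σ := by
        rw [Real.rpow_neg hs.le, ← div_eq_inv_mul, one_le_div (by positivity)]
        exact Real.rpow_le_rpow hs.le (hP k hk) hσ.le
      calc ‖u k i‖ ^ 2 = 1 * ‖u k i‖ ^ 2 := (one_mul _).symm
        _ ≤ (s ^ (-σ) * nsq k ^ σ) * ∑ i, ‖u k i‖ ^ 2 :=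
          mul_le_mul h3 h2 (sq_nonneg _) (by positivity)
        _ = _ := by ring
    · rw [if_neg hk, norm_zero, zero_pow two_ne_zero]
      positivity
  have h4 : s ^ (-σ) = (s ^ (-(σ / 2))) ^ 2 := by
    rw [← Real.rpow_natCast, ← Real.rpow_mul hs.le]
    congr 1
    push_cast
    ring
  refine Real.sqrt_le_iff.2 ⟨by positivity, ?_⟩
  rw [mul_pow, Real.sq_sqrt hD0, ← h4]
  exact h1.trans (mul_le_mul_of_nonneg_left (hD R) (by positivity))

theorem ef1_prod {σ : ℝ} (hσ1 : σ ≤ 1) (b c : ℕ) (p : Fin 3) :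
    ef1_thr b c p 0 ^ (-(σ / 2)) * ef1_thr b c p 1 ^ (-(σ / 2)) *
      ef1_thr b c p 2 ^ (-(σ / 2)) ≤ 4 * ((2 : ℝ) ^ b) ^ (-σ) * (((2 : ℝ) ^ c) ^ (-σ)) ^ 2 := by
  have hA : ((4 : ℝ) ^ b) ^ (-(σ / 2)) = ((2 : ℝ) ^ b) ^ (-σ) := by
    have e : (4 : ℝ) ^ b = ((2 : ℝ) ^ b) ^ (2 : ℝ) := by
      rw [Real.rpow_two, ← pow_mul, mul_comm, pow_mul]
      norm_num
    rw [e, ← Real.rpow_mul (by positivity)]
    congr 1
    ring
  have hB : ((4 : ℝ) ^ c / 4) ^ (-(σ / 2)) ≤ 2 * ((2 : ℝ) ^ c) ^ (-σ) := by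
    have e : (4 : ℝ) ^ c / 4 = ((2 : ℝ) ^ c / 2) ^ (2 : ℝ) := by
      rw [Real.rpow_two, div_pow, ← pow_mul, mul_comm c, pow_mul]
      norm_num
    rw [e, ← Real.rpow_mul (by positivity)]
    have e2 : (2 : ℝ) * -(σ / 2) = -σ := by ring
    rw [e2, Real.div_rpow (by positivity) (by norm_num), Real.rpow_neg (by norm_num : (0 : ℝ) ≤ 2),
      div_inv_eq_mul, mul_comm]
    refine mul_le_mul_of_nonneg_right ?_ (by positivity)
    calc (2 : ℝ) ^ σ ≤ 2 ^ (1 : ℝ) := Real.rpow_le_rpow_of_exponent_le (by norm_num) hσ1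
      _ = 2 := Real.rpow_one 2
  obtain ⟨A, hA'⟩ : ∃ A : ℝ, A = ((2 : ℝ) ^ b) ^ (-σ) := ⟨_, rfl⟩
  obtain ⟨B, hB'⟩ : ∃ B : ℝ, B = ((2 : ℝ) ^ c) ^ (-σ) := ⟨_, rfl⟩
  obtain ⟨F, hF⟩ : ∃ F : ℝ, F = ((4 : ℝ) ^ c / 4) ^ (-(σ / 2)) := ⟨_, rfl⟩
  have hA0 : 0 ≤ A := by rw [hA']; positivity
  have hB0 : 0 ≤ B := by rw [hB']; positivity
  have hF0 : 0 ≤ F := by rw [hF]; positivity
  rw [← hA'] at hA
  rw [← hB', ← hF] at hB
  have h2 : F * F ≤ 2 * B * (2 * B) := mul_le_mul hB hB hF0 (by positivity)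
  have h3 : A * (F * F) ≤ A * (2 * B * (2 * B)) := mul_le_mul_of_nonneg_left h2 hA0
  rw [← hA', ← hB']
  have hp : p = 0 ∨ p = 1 ∨ p = 2 := by
    fin_cases p
    · exact Or.inl rfl
    · exact Or.inr (Or.inl rfl)
    · exact Or.inr (Or.inr rfl)
  rcases hp with rfl | rfl | rfl
  · have e0 : ef1_thr b c 0 0 = (4 : ℝ) ^ b := if_pos rfl
    have e1 : ef1_thr b c 0 1 = (4 : ℝ) ^ c / 4 := if_neg (by decide)
    have e2 : ef1_thr b c 0 2 = (4 : ℝ) ^ c / 4 := if_neg (by decide)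
    rw [e0, e1, e2, hA, ← hF]
    linarith
  · have e0 : ef1_thr b c 1 0 = (4 : ℝ) ^ c / 4 := if_neg (by decide)
    have e1 : ef1_thr b c 1 1 = (4 : ℝ) ^ b := if_pos rfl
    have e2 : ef1_thr b c 1 2 = (4 : ℝ) ^ c / 4 := if_neg (by decide)
    rw [e0, e1, e2, hA, ← hF]
    linarith
  · have e0 : ef1_thr b c 2 0 = (4 : ℝ) ^ c / 4 := if_neg (by decide)
    have e1 : ef1_thr b c 2 1 = (4 : ℝ) ^ c / 4 := if_neg (by decide)
    have e2 : ef1_thr b c 2 2 = (4 : ℝ) ^ b := if_pos rfl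
    rw [e0, e1, e2, hA, ← hF]
    linarith

theorem ef1_thr_pos (b c : ℕ) (p q : Fin 3) : 0 < ef1_thr b c p q := by
  unfold ef1_thr
  split_ifs <;> positivity

open Classical in
theorem ef1_piece {g : Wv → Wv → Wv → ℝ} {C ε σ D : ℝ} {u : Fld} (hC : 0 ≤ C) (hσ : 0 < σ)
    (hσ1 : σ ≤ 1) (hD : ∀ n, Er σ n u ≤ D) (a b c : ℕ) (p i : Fin 3)
    (hFB : ∀ x y z : Wv → ℂ,
      ‖Tri (fun k l => g k l (-(k + l)) * fw a b c p i k l) (2 ^ (c + 1)) x y z‖ ≤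
      C * ((2 : ℝ) ^ c) ^ ε * (N2 (2 ^ (c + 1)) x * N2 (2 ^ (c + 1)) y * N2 (2 ^ (c + 1)) z))
    (N : ℕ) (j : Fin 3) :
    ‖Tri (fun k l => g k l (-(k + l)) * fw a b c p i k l) N (fun k => u k i) (fun k => u k j)
      (fun k => u k j)‖ ≤ C * ((2 : ℝ) ^ c) ^ ε *
      (4 * ((2 : ℝ) ^ b) ^ (-σ) * (((2 : ℝ) ^ c) ^ (-σ)) ^ 2 * Real.sqrt D ^ 3) := by
  obtain ⟨R, hR⟩ : ∃ R : ℕ, R = 2 ^ (c + 1) := ⟨_, rfl⟩
  obtain ⟨al, hal⟩ : ∃ al : Wv → Wv → ℝ,
    al = fun k l => g k l (-(k + l)) * fw a b c p i k l := ⟨_, rfl⟩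
  rw [← hal, ← hR] at hFB
  rw [← hal]
  obtain ⟨x, hx⟩ : ∃ x : Wv → ℂ, x = fun k => if (k ∈ cub N ∧ ef1_thr b c p 0 ≤ nsq k ∧
    nsq k < (4 : ℝ) ^ (c + 1)) then u k i else 0 := ⟨_, rfl⟩
  obtain ⟨y, hy⟩ : ∃ y : Wv → ℂ, y = fun k => if (k ∈ cub N ∧ ef1_thr b c p 1 ≤ nsq k ∧
    nsq k < (4 : ℝ) ^ (c + 1)) then u k j else 0 := ⟨_, rfl⟩
  obtain ⟨z, hz⟩ : ∃ z : Wv → ℂ, z = fun k => if (ef1_thr b c p 2 ≤ nsq k ∧
    nsq k < (4 : ℝ) ^ (c + 1)) then u k j else 0 := ⟨_, rfl⟩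
  have hbig : ∀ k, k ∉ cub R → ¬ nsq k < (4 : ℝ) ^ (c + 1) := by
    intro k hk
    rw [hR] at hk
    exact not_lt.2 (shl_big hk)
  have e1 : Tri al N (fun k => u k i) (fun k => u k j) (fun k => u k j) = Tri al N x y z := by
    unfold Tri
    refine sum_congr rfl fun k hk => sum_congr rfl fun l hl => ?_
    by_cases hw : fw a b c p i k l = 0
    · have h0 : al k l = 0 := by
        rw [hal]
        show g k l (-(k + l)) * fw a b c p i k l = 0
        rw [hw, mul_zero]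
      rw [h0]
      simp
    · obtain ⟨h1, h2, h3⟩ := ef1_fw_ne hw
      have ex : x k = u k i := by
        rw [hx]
        exact if_pos ⟨hk, h1⟩
      have ey : y l = u l j := by
        rw [hy]
        exact if_pos ⟨hl, h2⟩
      have ez : z (-(k + l)) = u (-(k + l)) j := by
        rw [hz]
        exact if_pos (by rw [shl_nsq_neg]; exact h3)
      rw [ex, ey, ez]
  have e2 : Tri al N x y z = Tri al (max N R) x y z := shl_tri_big al (le_max_left N R) x y z (by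
      intro k l h
      rcases h with h | h
      · have h0 : x k = 0 := by
          rw [hx]
          exact if_neg fun h' => h h'.1
        rw [h0]
        ring
      · have h0 : y l = 0 := by
          rw [hy]
          exact if_neg fun h' => h h'.1
        rw [h0]
        ring)
  have e3 : Tri al R x y z = Tri al (max N R) x y z := shl_tri_big al (le_max_right N R) x y z (by
      intro k l h
      rcases h with h | h
      · have h0 : x k = 0 := by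
          rw [hx]
          exact if_neg fun h' => hbig k h h'.2.2
        rw [h0]
        ring
      · have h0 : y l = 0 := by
          rw [hy]
          exact if_neg fun h' => hbig l h h'.2.2
        rw [h0]
        ring)
  rw [e1, e2, ← e3]
  refine (hFB x y z).trans (mul_le_mul_of_nonneg_left ?_ (by positivity))
  have b1 : N2 R x ≤ ef1_thr b c p 0 ^ (-(σ / 2)) * Real.sqrt D := by
    rw [hx]
    exact ef1_N2 hσ (ef1_thr_pos b c p 0) hD (fun k => k ∈ cub N ∧ ef1_thr b c p 0 ≤ nsq k ∧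
      nsq k < (4 : ℝ) ^ (c + 1)) (fun k hk => hk.2.1) R i
  have b2 : N2 R y ≤ ef1_thr b c p 1 ^ (-(σ / 2)) * Real.sqrt D := by
    rw [hy]
    exact ef1_N2 hσ (ef1_thr_pos b c p 1) hD (fun k => k ∈ cub N ∧ ef1_thr b c p 1 ≤ nsq k ∧
      nsq k < (4 : ℝ) ^ (c + 1)) (fun k hk => hk.2.1) R j
  have b3 : N2 R z ≤ ef1_thr b c p 2 ^ (-(σ / 2)) * Real.sqrt D := by
    rw [hz]
    exact ef1_N2 hσ (ef1_thr_pos b c p 2) hD (fun k => ef1_thr b c p 2 ≤ nsq k ∧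
      nsq k < (4 : ℝ) ^ (c + 1)) (fun k hk => hk.1) R j
  have p1 := ef1_thr_pos b c p 0
  have p2 := ef1_thr_pos b c p 1
  have p3 := ef1_thr_pos b c p 2
  have n1 : 0 ≤ N2 R x := Real.sqrt_nonneg _
  have n2 : 0 ≤ N2 R y := Real.sqrt_nonneg _
  have n3 : 0 ≤ N2 R z := Real.sqrt_nonneg _
  calc N2 R x * N2 R y * N2 R z
      ≤ (ef1_thr b c p 0 ^ (-(σ / 2)) * Real.sqrt D) * (ef1_thr b c p 1 ^ (-(σ / 2)) * Real.sqrt D) *
        (ef1_thr b c p 2 ^ (-(σ / 2)) * Real.sqrt D) :=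
        mul_le_mul (mul_le_mul b1 b2 n2 (by positivity)) b3 n3 (by positivity)
    _ = (ef1_thr b c p 0 ^ (-(σ / 2)) * ef1_thr b c p 1 ^ (-(σ / 2)) *
          ef1_thr b c p 2 ^ (-(σ / 2))) * Real.sqrt D ^ 3 := by ring
    _ ≤ _ := mul_le_mul_of_nonneg_right (ef1_prod hσ1 b c p) (by positivity)

theorem ef1_term {g : Wv → Wv → Wv → ℝ} {C ε σ D : ℝ} {u : Fld} (hC : 0 ≤ C) (hσ : 0 < σ)
    (hσ1 : σ ≤ 1) (hε : ε = (3 * σ - 1) / 2) (hD : ∀ n, Er σ n u ≤ D)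
    (hFB : ∀ (a b c : ℕ) (p i : Fin 3) (x y z : Wv → ℂ),
      ‖Tri (fun k l => g k l (-(k + l)) * fw a b c p i k l) (2 ^ (c + 1)) x y z‖ ≤
      C * ((2 : ℝ) ^ c) ^ ε * (N2 (2 ^ (c + 1)) x * N2 (2 ^ (c + 1)) y * N2 (2 ^ (c + 1)) z))
    (N a b c : ℕ) (p i j : Fin 3) :
    ‖(2 : ℂ) ^ (b + 2) * Tri (fun k l => g k l (-(k + l)) * fw a b c p i k l) N (fun k => u k i)
      (fun k => u k j) (fun k => u k j)‖ ≤
      if a ≤ c ∧ b ≤ c then 16 * C * Real.sqrt D ^ 3 * ((2 : ℝ) ^ c) ^ (-ε) else 0 := by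
  split_ifs with h
  · rw [norm_mul, norm_pow]
    have e2 : ‖(2 : ℂ)‖ = 2 := by norm_num
    rw [e2]
    refine (mul_le_mul_of_nonneg_left (ef1_piece hC hσ hσ1 hD a b c p i (hFB a b c p i) N j)
      (by positivity)).trans ?_
    have h1 : (2 : ℝ) ^ b * ((2 : ℝ) ^ b) ^ (-σ) ≤ ((2 : ℝ) ^ c) ^ (1 - σ) := by
      have e3 : (2 : ℝ) ^ b * ((2 : ℝ) ^ b) ^ (-σ) = ((2 : ℝ) ^ b) ^ (1 - σ) := by
        rw [sub_eq_add_neg, Real.rpow_add (by positivity), Real.rpow_one]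
      rw [e3]
      exact Real.rpow_le_rpow (by positivity) (pow_le_pow_right₀ (by norm_num) h.2) (by linarith)
    have h2 : ((2 : ℝ) ^ c) ^ ε * ((2 : ℝ) ^ c) ^ (1 - σ) * (((2 : ℝ) ^ c) ^ (-σ)) ^ 2 =
        ((2 : ℝ) ^ c) ^ (-ε) := by
      have hw : (0 : ℝ) < (2 : ℝ) ^ c := by positivity
      rw [sq, ← mul_assoc, ← Real.rpow_add hw, ← Real.rpow_add hw, ← Real.rpow_add hw]
      congr 1
      rw [hε]
      ring
    calc (2 : ℝ) ^ (b + 2) * (C * ((2 : ℝ) ^ c) ^ ε *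
          (4 * ((2 : ℝ) ^ b) ^ (-σ) * (((2 : ℝ) ^ c) ^ (-σ)) ^ 2 * Real.sqrt D ^ 3))
        = 16 * C * Real.sqrt D ^ 3 * (((2 : ℝ) ^ c) ^ ε * ((2 : ℝ) ^ b * ((2 : ℝ) ^ b) ^ (-σ)) *
          (((2 : ℝ) ^ c) ^ (-σ)) ^ 2) := by ring
      _ ≤ 16 * C * Real.sqrt D ^ 3 * (((2 : ℝ) ^ c) ^ ε * ((2 : ℝ) ^ c) ^ (1 - σ) *
          (((2 : ℝ) ^ c) ^ (-σ)) ^ 2) := by gcongr
      _ = _ := by rw [h2]
  · have h0 : ∀ k l, fw a b c p i k l = 0 := by
      intro k l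
      apply ef1_zero
      omega
    have h1 : Tri (fun k l => g k l (-(k + l)) * fw a b c p i k l) N (fun k => u k i)
      (fun k => u k j) (fun k => u k j) = 0 := by
      unfold Tri
      refine sum_eq_zero fun k _ => sum_eq_zero fun l _ => ?_
      simp only [h0, mul_zero, Complex.ofReal_zero, zero_mul]
    rw [h1, mul_zero, norm_zero]

/-! ### the decomposition -/

theorem ef1_swap {ι : Type} (T : Finset ι) (A : Finset Wv) (G : ι → Wv → Wv → ℂ) :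
    ∑ t ∈ T, ∑ k ∈ A, ∑ l ∈ A, G t k l = ∑ k ∈ A, ∑ l ∈ A, ∑ t ∈ T, G t k l := by
  rw [Finset.sum_comm]
  exact sum_congr rfl fun k _ => Finset.sum_comm

theorem ef1_pt {g : Wv → Wv → Wv → ℝ} {u : Fld} (hu : Adm u) (a M : ℕ) (k l : Wv)
    (hM : max (nsq k) (max (nsq l) (nsq (k + l))) < (4 : ℝ) ^ M) :
    ((ct (2 ^ a - 1) (k + l) - ct (2 ^ a - 1) l : ℝ) : ℂ) * fx2_H g u k l =
      ∑ t ∈ (range M ×ˢ range M) ×ˢ (univ : Finset (Fin 3)), ∑ i, ∑ j,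
        (2 : ℂ) ^ (t.1.2 + 2) * (((g k l (-(k + l)) * fw a t.1.2 t.1.1 t.2 i k l : ℝ) : ℂ) *
          u k i * u l j * u (-(k + l)) j) := by
  by_cases hk : k = 0
  · have h1 : fx2_H g u k l = 0 := by
      unfold fx2_H dt
      rw [hk, hu.zero]
      simp
    rw [h1, mul_zero]
    symm
    refine sum_eq_zero fun t _ => sum_eq_zero fun i _ => sum_eq_zero fun j _ => ?_
    rw [hk, hu.zero]
    simp
  by_cases hl : l = 0
  · have h1 : fx2_H g u k l = 0 := by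
      unfold fx2_H
      rw [hl, hu.zero]
      simp
    rw [h1, mul_zero]
    symm
    refine sum_eq_zero fun t _ => sum_eq_zero fun i _ => sum_eq_zero fun j _ => ?_
    rw [hl, hu.zero]
    simp
  by_cases hkl : k + l = 0
  · have h1 : fx2_H g u k l = 0 := by
      unfold fx2_H
      rw [hkl, neg_zero, hu.zero]
      simp
    rw [h1, mul_zero]
    symm
    refine sum_eq_zero fun t _ => sum_eq_zero fun i _ => sum_eq_zero fun j _ => ?_
    rw [hkl, neg_zero, hu.zero]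
    simp
  unfold fx2_H
  rw [ef1_dt hu k l]
  have h2 : ∀ i, ((ct (2 ^ a - 1) (k + l) - ct (2 ^ a - 1) l : ℝ) : ℂ) * ((qv k l i : ℤ) : ℂ) =
      ∑ t ∈ (range M ×ˢ range M) ×ˢ (univ : Finset (Fin 3)),
        (2 : ℂ) ^ (t.1.2 + 2) * (fw a t.1.2 t.1.1 t.2 i k l : ℂ) := by
    intro i
    have h3 := ef1_split (a := a) i hk hl hkl hM
    have h4 := congrArg Complex.ofReal h3
    push_cast at h4
    push_cast
    exact h4
  have h5 : ((ct (2 ^ a - 1) (k + l) - ct (2 ^ a - 1) l : ℝ) : ℂ) *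
      ((g k l (-(k + l)) : ℂ) * (∑ i, u k i * ((qv k l i : ℤ) : ℂ)) *
        ∑ j, u l j * u (-(k + l)) j) =
      ∑ i, ∑ j, (((ct (2 ^ a - 1) (k + l) - ct (2 ^ a - 1) l : ℝ) : ℂ) * ((qv k l i : ℤ) : ℂ)) *
        ((g k l (-(k + l)) : ℂ) * u k i * u l j * u (-(k + l)) j) := by
    rw [mul_assoc (g k l (-(k + l)) : ℂ), Finset.sum_mul_sum, mul_sum, mul_sum]
    refine sum_congr rfl fun i _ => ?_
    rw [mul_sum, mul_sum]
    refine sum_congr rfl fun j _ => ?_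
    ring
  rw [h5]
  have h6 : ∀ i j, (((ct (2 ^ a - 1) (k + l) - ct (2 ^ a - 1) l : ℝ) : ℂ) *
      ((qv k l i : ℤ) : ℂ)) * ((g k l (-(k + l)) : ℂ) * u k i * u l j * u (-(k + l)) j) =
      ∑ t ∈ (range M ×ˢ range M) ×ˢ (univ : Finset (Fin 3)),
        (2 : ℂ) ^ (t.1.2 + 2) * (((g k l (-(k + l)) * fw a t.1.2 t.1.1 t.2 i k l : ℝ) : ℂ) *
          u k i * u l j * u (-(k + l)) j) := by
    intro i j
    rw [h2 i, sum_mul]
    refine sum_congr rfl fun t _ => ?_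
    push_cast
    ring
  rw [sum_congr rfl fun i _ => sum_congr rfl fun j _ => h6 i j]
  rw [sum_congr rfl fun i _ => Finset.sum_comm, Finset.sum_comm]

theorem ef1_dec {g : Wv → Wv → Wv → ℝ} {u : Fld} (hu : Adm u) (a N : ℕ) :
    ∑ k ∈ cub N, ∑ l ∈ cub N,
      ((ct (2 ^ a - 1) (k + l) - ct (2 ^ a - 1) l : ℝ) : ℂ) * fx2_H g u k l =
      ∑ t ∈ (range (12 * N ^ 2 + 1) ×ˢ range (12 * N ^ 2 + 1)) ×ˢ (univ : Finset (Fin 3)),
        ∑ i, ∑ j, (2 : ℂ) ^ (t.1.2 + 2) *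
          Tri (fun k l => g k l (-(k + l)) * fw a t.1.2 t.1.1 t.2 i k l) N (fun k => u k i)
            (fun k => u k j) (fun k => u k j) := by
  have hM : ∀ k ∈ cub N, ∀ l ∈ cub N,
      max (nsq k) (max (nsq l) (nsq (k + l))) < (4 : ℝ) ^ (12 * N ^ 2 + 1) := by
    intro k hk l hl
    have a1 := est_le (m := N) (est_abs hk)
    have a2 := est_le (m := N) (est_abs hl)
    have a3 : nsq (k + l) ≤ 3 * (2 * (N : ℝ)) ^ 2 := by
      apply est_le
      intro i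
      rw [Pi.add_apply]
      push_cast
      refine (abs_add_le _ _).trans ?_
      have := est_abs hk i
      have := est_abs hl i
      linarith
    have a4 : 0 ≤ (N : ℝ) ^ 2 := sq_nonneg _
    have h2 : 12 * N ^ 2 + 1 < 4 ^ (12 * N ^ 2 + 1) := Nat.lt_pow_self (by norm_num)
    have h3 : ((12 * N ^ 2 + 1 : ℕ) : ℝ) < (4 : ℝ) ^ (12 * N ^ 2 + 1) := by exact_mod_cast h2
    push_cast at h3
    refine max_lt (by linarith) (max_lt (by linarith) (by linarith))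
  rw [sum_congr rfl fun k hk => sum_congr rfl fun l hl => ef1_pt hu a _ k l (hM k hk l hl)]
  symm
  rw [← ef1_swap]
  refine sum_congr rfl fun t _ => ?_
  rw [← ef1_swap]
  refine sum_congr rfl fun i _ => ?_
  rw [← ef1_swap]
  refine sum_congr rfl fun j _ => ?_
  unfold Tri
  rw [mul_sum]
  refine sum_congr rfl fun k _ => ?_
  rw [mul_sum]

/-! ### the sum of the pieces -/

theorem ef1_sum {v : ℕ → ℝ} (hv : ∀ c, 0 ≤ v c) (hs : Summable fun c : ℕ => ((c : ℝ) + 1) * v c)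
    (a M : ℕ) :
    ∑ t ∈ (range M ×ˢ range M) ×ˢ (univ : Finset (Fin 3)), ∑ _i : Fin 3, ∑ _j : Fin 3,
      (if a ≤ t.1.1 ∧ t.1.2 ≤ t.1.1 then v t.1.1 else 0) ≤
      27 * ∑' c : ℕ, (((c + a : ℕ) : ℝ) + 1) * v (c + a) := by
  have h1 : ∀ c, ∑ b ∈ range M, (if a ≤ c ∧ b ≤ c then v c else 0) ≤
      if a ≤ c then ((c : ℝ) + 1) * v c else 0 := by
    intro c
    by_cases hc : a ≤ c
    · rw [if_pos hc]
      have e : ∀ b ∈ range M, (if a ≤ c ∧ b ≤ c then v c else 0) =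
          if b ∈ range (c + 1) then v c else 0 := by
        intro b _
        simp only [hc, true_and, mem_range, Nat.lt_succ_iff]
      rw [sum_congr rfl e, ← sum_filter, sum_const, nsmul_eq_mul]
      refine mul_le_mul_of_nonneg_right ?_ (hv c)
      have h2 : ((range M).filter (fun b => b ∈ range (c + 1))).card ≤ (range (c + 1)).card := by
        apply card_le_card
        intro b hb
        exact (mem_filter.1 hb).2
      rw [card_range] at h2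
      exact_mod_cast h2
    · rw [if_neg hc]
      refine le_of_eq (sum_eq_zero fun b _ => ?_)
      rw [if_neg]
      exact fun h => hc h.1
  set f : ℕ → ℝ := fun c => if a ≤ c then ((c : ℝ) + 1) * v c else 0 with hf
  have hf0 : ∀ c, 0 ≤ f c := by
    intro c
    rw [hf]
    simp only
    split_ifs
    · have := hv c
      positivity
    · exact le_rfl
  have hfs : Summable f := by
    refine Summable.of_nonneg_of_le hf0 (fun c => ?_) hs
    rw [hf]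
    simp only
    split_ifs
    · exact le_rfl
    · have := hv c
      positivity
  have h3 : ∑' c, f c = ∑' c : ℕ, (((c + a : ℕ) : ℝ) + 1) * v (c + a) := by
    rw [← hfs.sum_add_tsum_nat_add a]
    have e1 : ∑ i ∈ range a, f i = 0 := by
      refine sum_eq_zero fun c hc => ?_
      rw [hf]
      simp only
      rw [if_neg]
      rw [mem_range] at hc
      omega
    rw [e1, zero_add]
    refine tsum_congr fun c => ?_
    rw [hf]
    simp only
    rw [if_pos (by omega)]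
  have h4 : ∑ c ∈ range M, f c ≤ ∑' c, f c := hfs.sum_le_tsum _ fun c _ => hf0 c
  rw [h3] at h4
  rw [sum_product, sum_product]
  have h5 : ∀ c ∈ range M, ∑ b ∈ range M, ∑ _p : Fin 3, ∑ _i : Fin 3, ∑ _j : Fin 3,
      (if a ≤ c ∧ b ≤ c then v c else 0) ≤ 27 * f c := by
    intro c _
    have e1 : ∀ b ∈ range M, ∑ _p : Fin 3, ∑ _i : Fin 3, ∑ _j : Fin 3,
        (if a ≤ c ∧ b ≤ c then v c else 0) = 27 * (if a ≤ c ∧ b ≤ c then v c else 0) := by
      intro b _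
      simp only [sum_const, card_univ, Fintype.card_fin, nsmul_eq_mul]
      push_cast
      ring
    rw [sum_congr rfl e1, ← mul_sum]
    exact mul_le_mul_of_nonneg_left (h1 c) (by norm_num)
  refine (sum_le_sum h5).trans ?_
  rw [← mul_sum]
  exact mul_le_mul_of_nonneg_left h4 (by norm_num)

theorem ef1_mem (k : Wv) : ∃ n : ℕ, k ∈ cub n := by
  refine ⟨∑ i, (k i).natAbs, ?_⟩
  rw [shl_mem_cub]
  intro i
  have h1 : (k i).natAbs ≤ ∑ i, (k i).natAbs :=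
    single_le_sum (f := fun i => (k i).natAbs) (fun _ _ => Nat.zero_le _) (mem_univ i)
  omega

theorem ef1_tsum {F : Wv × Wv → ℂ} {B : ℝ} (hB : 0 ≤ B)
    (h : ∀ N, ‖∑ k ∈ cub N, ∑ l ∈ cub N, F (k, l)‖ ≤ B) : ‖∑' q, F q‖ ≤ B := by
  by_cases hs : Summable F
  · have h1 : Tendsto (fun N : ℕ => cub N ×ˢ cub N) atTop atTop := by
      apply tendsto_atTop_finset_of_monotone
      · intro m n hmn
        exact product_subset_product (shl_cub_mono hmn) (shl_cub_mono hmn)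
      · rintro ⟨k, l⟩
        obtain ⟨m, hm⟩ := ef1_mem k
        obtain ⟨n, hn⟩ := ef1_mem l
        refine ⟨max m n, ?_⟩
        rw [mem_product]
        exact ⟨shl_cub_mono (le_max_left _ _) hm, shl_cub_mono (le_max_right _ _) hn⟩
    have h2 := (hs.hasSum.comp h1).norm
    refine le_of_tendsto h2 (Eventually.of_forall fun N => ?_)
    simp only [Function.comp]
    rw [sum_product]
    exact h N
  · rw [tsum_eq_zero_of_not_summable hs, norm_zero]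
    exact hB

theorem ef1_En {σ D : ℝ} {u : Fld} (hu : Adm u) (hσ : 0 < σ) (hD : ∀ n, Er σ n u ≤ D) (n : ℕ) :
    En 0 n u ≤ Real.sqrt D ^ 2 := by
  have hD0 : 0 ≤ D := (ef1_Er_nonneg σ n u).trans (hD n)
  rw [Real.sq_sqrt hD0]
  refine le_trans ?_ (hD n)
  unfold En Er
  refine sum_le_sum fun k _ => ?_
  rw [pow_zero]
  have h5 : 0 ≤ ∑ i, ‖u k i‖ ^ 2 := sum_nonneg fun _ _ => sq_nonneg _
  by_cases hk : k = 0
  · have h6 : ∑ i, ‖u k i‖ ^ 2 = 0 := by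
      rw [hk, hu.zero]
      simp
    rw [h6, mul_zero, mul_zero]
  · exact mul_le_mul_of_nonneg_right (Real.one_le_rpow (lat_nsq_one hk) hσ.le) h5

theorem ef1_summable {ε : ℝ} (hε : 0 < ε) :
    Summable fun c : ℕ => ((c : ℝ) + 1) * ((2 : ℝ) ^ c) ^ (-ε) := by
  have hr0 : (0 : ℝ) ≤ (2 : ℝ) ^ (-ε) := by positivity
  have hr1 : (2 : ℝ) ^ (-ε) < 1 := Real.rpow_lt_one_of_one_lt_of_neg (by norm_num) (by linarith)
  have hn : ‖(2 : ℝ) ^ (-ε)‖ < 1 := by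
    rw [Real.norm_eq_abs, abs_of_nonneg hr0]
    exact hr1
  have h1 := summable_pow_mul_geometric_of_norm_lt_one 1 hn
  have h2 := summable_geometric_of_lt_one hr0 hr1
  refine (h1.add h2).congr fun c => ?_
  have e : ((2 : ℝ) ^ c) ^ (-ε) = ((2 : ℝ) ^ (-ε)) ^ c := by
    rw [← Real.rpow_natCast, ← Real.rpow_natCast, ← Real.rpow_mul (by norm_num),
      ← Real.rpow_mul (by norm_num)]
    congr 1
    ring
  rw [e]
  ring

theorem t_EF1 : S_EF1 := by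
  intro hC g σ hg hFB hσ3 hσ1 D hD0
  have hσ : 0 < σ := by linarith
  obtain ⟨ε, hε⟩ : ∃ ε : ℝ, ε = (3 * σ - 1) / 2 := ⟨_, rfl⟩
  have hε0 : 0 < ε := by rw [hε]; linarith
  obtain ⟨C, hC0, hCb⟩ := hFB ε hε0
  set K0 : ℝ := 16 * C * Real.sqrt D ^ 3 with hK0
  have hK00 : 0 ≤ K0 := by rw [hK0]; positivity
  set v : ℕ → ℝ := fun c => K0 * ((2 : ℝ) ^ c) ^ (-ε) with hv
  have hv0 : ∀ c, 0 ≤ v c := by
    intro c
    rw [hv]
    positivity
  set τ : ℕ → ℝ := fun c => ((c : ℝ) + 1) * v c with hτ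
  have hτ0 : ∀ c, 0 ≤ τ c := by
    intro c
    have := hv0 c
    rw [hτ]
    positivity
  have hvs : Summable τ := by
    refine ((ef1_summable hε0).mul_left K0).congr fun c => ?_
    rw [hτ, hv]
    ring
  have key : ∀ u : Fld, Adm u → (∀ n, Er σ n u ≤ D) → ∀ a : ℕ,
      |fx g (2 ^ a - 1) u| ≤ 27 * ∑' c : ℕ, τ (c + a) := by
    intro u hu hD a
    have hB0 : 0 ≤ ∑' c : ℕ, τ (c + a) := tsum_nonneg fun c => hτ0 _
    have h1 := fx2_sym hC hg hu (Real.sqrt_nonneg D) (ef1_En hu hσ hD) (2 ^ a - 1)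
    have h2 : ‖∑' q : Wv × Wv, ((ct (2 ^ a - 1) (q.1 + q.2) - ct (2 ^ a - 1) q.2 : ℝ) : ℂ) *
        fx2_H g u q.1 q.2‖ ≤ 27 * ∑' c : ℕ, τ (c + a) := by
      refine ef1_tsum (by positivity) fun N => ?_
      simp only
      rw [ef1_dec hu a N]
      refine le_trans ?_ (ef1_sum hv0 hvs a (12 * N ^ 2 + 1))
      refine (norm_sum_le _ _).trans (sum_le_sum fun t _ => ?_)
      refine (norm_sum_le _ _).trans (sum_le_sum fun i _ => ?_)
      refine (norm_sum_le _ _).trans (sum_le_sum fun j _ => ?_)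
      exact ef1_term hC0 hσ hσ1 hε hD hCb N a t.1.2 t.1.1 t.2 i j
    rw [← h1, norm_mul] at h2
    have e2 : ‖(2 : ℂ)‖ = 2 := by norm_num
    rw [e2] at h2
    unfold fx
    refine (Complex.abs_im_le_norm _).trans ?_
    refine le_trans ?_ h2
    have h3 := norm_nonneg (∑ m ∈ cub (2 * (2 ^ a - 1) + 2), (ct (2 ^ a - 1) m : ℂ) *
      ∑ j, (starRingEnd ℂ) (u m j) * cv g u u m j)
    linarith
  refine ⟨27 * ∑' c, τ c, fun u hu hD => ⟨fun a => ?_, ?_⟩⟩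
  · refine (key u hu hD a).trans (mul_le_mul_of_nonneg_left ?_ (by norm_num))
    rw [← hvs.sum_add_tsum_nat_add a]
    have h1 : 0 ≤ ∑ i ∈ range a, τ i := sum_nonneg fun i _ => hτ0 i
    linarith
  · have h1 : Tendsto (fun a : ℕ => 27 * ∑' c : ℕ, τ (c + a)) atTop (𝓝 0) := by
      have h2 := (tendsto_sum_nat_add τ).const_mul 27
      rw [mul_zero] at h2
      exact h2
    exact squeeze_zero_norm (fun a => by rw [Real.norm_eq_abs]; exact key u hu hD a) h1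

end Pool.Agent.N983.WK
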