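import Pool.Agent.N983.WK.Stm5
import Pool.Agent.N983.RT.SHL

set_option autoImplicit false

/-! One piece of the energy flux. -/

namespace Pool.Agent.N983.WK

open Pool.Agent.N983.RT Finset

/-- the lengths of the members of the triad if the symbol does not vanish -/
theorem ef1a_len {a b c : ℕ} {p i : Fin 3} {k l : Wv} (h : fw a b c p i k l ≠ 0) :
    (nsq k < (4 : ℝ) ^ (c + 1) ∧ nsq l < (4 : ℝ) ^ (c + 1) ∧ nsq (k + l) < (4 : ℝ) ^ (c + 1)) ∧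
    ((p = 0 ∧ (4 : ℝ) ^ b ≤ nsq k ∧ (4 : ℝ) ^ c ≤ 4 * nsq l ∧ (4 : ℝ) ^ c ≤ 4 * nsq (k + l)) ∨
    (p = 1 ∧ (4 : ℝ) ^ b ≤ nsq l ∧ (4 : ℝ) ^ c ≤ 4 * nsq k ∧ (4 : ℝ) ^ c ≤ 4 * nsq (k + l)) ∨
    (p = 2 ∧ (4 : ℝ) ^ b ≤ nsq (k + l) ∧ (4 : ℝ) ^ c ≤ 4 * nsq k ∧ (4 : ℝ) ^ c ≤ 4 * nsq l)) := by
  unfold fw at h
  split_ifs at h with h1
  · obtain ⟨⟨h2, h3⟩, ⟨h4, -⟩, h5⟩ := h1
    rw [max_lt_iff, max_lt_iff] at h3
    rw [le_max_iff, le_max_iff] at h2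
    rw [le_min_iff, le_min_iff] at h4
    refine ⟨⟨h3.1, h3.2.1, h3.2.2⟩, ?_⟩
    have t1 := shl_nsq_add k l
    have t2 := shl_nsq_sub k l
    have t3 := shl_nsq_sub' k l
    have n1 := shl_nsq_nonneg k
    have n2 := shl_nsq_nonneg l
    have n3 := shl_nsq_nonneg (k + l)
    unfold shp at h5
    split_ifs at h5 with c1 c2
    · left
      refine ⟨h5.symm, h4.1, ?_, ?_⟩
      · rcases h2 with h2 | h2 | h2 <;> linarith [c1.1, c1.2]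
      · rcases h2 with h2 | h2 | h2 <;> linarith [c1.1, c1.2]
    · right; left
      have c3 : nsq l ≤ nsq k := by
        by_contra hc
        push Not at hc
        exact c1 ⟨hc.le, hc.le.trans c2⟩
      refine ⟨h5.symm, h4.2.1, ?_, ?_⟩
      · rcases h2 with h2 | h2 | h2 <;> linarith
      · rcases h2 with h2 | h2 | h2 <;> linarith
    · right; right
      push Not at c2
      have c3 : nsq (k + l) ≤ nsq k := by
        by_contra hc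
        push Not at hc
        exact c1 ⟨(hc.trans c2).le, hc.le⟩
      refine ⟨h5.symm, h4.2.2, ?_, ?_⟩
      · rcases h2 with h2 | h2 | h2 <;> linarith
      · rcases h2 with h2 | h2 | h2 <;> linarith
  · exact absurd rfl h

open Classical in
/-- restriction to the wave vectors with `q ≤ nsq k < r` -/
noncomputable def ef1a_r (q r : ℝ) (x : Wv → ℂ) (k : Wv) : ℂ := if q ≤ nsq k ∧ nsq k < r then x k else 0

theorem ef1a_r_of {q r : ℝ} {x : Wv → ℂ} {k : Wv} (h : q ≤ nsq k ∧ nsq k < r) :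
    ef1a_r q r x k = x k := by
  unfold ef1a_r
  rw [if_pos h]

theorem ef1a_N2 {σ q r D : ℝ} (hq : 0 < q) {u : Fld} (hσ : 0 < σ) (hE : ∀ n, Er σ n u ≤ D)
    (R : ℕ) (i : Fin 3) :
    N2 R (ef1a_r q r fun k => u k i) ≤ q ^ (-(σ / 2)) * Real.sqrt D := by
  have hD : 0 ≤ D := (sum_nonneg fun k _ => mul_nonneg (Real.rpow_nonneg (shl_nsq_nonneg k) _)
    (sum_nonneg fun _ _ => sq_nonneg _)).trans (hE 0)
  have h0 : 0 ≤ q ^ (-(σ / 2)) := Real.rpow_nonneg hq.le _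
  unfold N2
  rw [Real.sqrt_le_left (mul_nonneg h0 (Real.sqrt_nonneg _)), mul_pow, Real.sq_sqrt hD]
  have e1 : (q ^ (-(σ / 2))) ^ 2 = q ^ (-σ) := by
    rw [← Real.rpow_natCast, ← Real.rpow_mul hq.le]
    congr 1
    push_cast
    ring
  rw [e1]
  have h1 : ∀ k ∈ cub R, ‖ef1a_r q r (fun k => u k i) k‖ ^ 2 ≤
      q ^ (-σ) * (nsq k ^ σ * ∑ i, ‖u k i‖ ^ 2) := by
    intro k _
    unfold ef1a_r
    split_ifs with h
    · have h2 : ‖u k i‖ ^ 2 ≤ ∑ i, ‖u k i‖ ^ 2 :=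
        single_le_sum (f := fun i => ‖u k i‖ ^ 2) (fun _ _ => sq_nonneg _) (mem_univ i)
      have h3 : 1 ≤ q ^ (-σ) * nsq k ^ σ := by
        rw [Real.rpow_neg hq.le, ← div_eq_inv_mul, one_le_div (Real.rpow_pos_of_pos hq _)]
        exact Real.rpow_le_rpow hq.le h.1 hσ.le
      calc ‖u k i‖ ^ 2 ≤ ∑ i, ‖u k i‖ ^ 2 := h2
        _ = 1 * ∑ i, ‖u k i‖ ^ 2 := (one_mul _).symm
        _ ≤ (q ^ (-σ) * nsq k ^ σ) * ∑ i, ‖u k i‖ ^ 2 :=
            mul_le_mul_of_nonneg_right h3 (sum_nonneg fun _ _ => sq_nonneg _)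
        _ = _ := by ring
    · rw [norm_zero, zero_pow two_ne_zero]
      exact mul_nonneg (Real.rpow_nonneg hq.le _) (mul_nonneg
        (Real.rpow_nonneg (shl_nsq_nonneg k) σ) (sum_nonneg fun _ _ => sq_nonneg _))
  refine (sum_le_sum h1).trans ?_
  rw [← mul_sum]
  exact mul_le_mul_of_nonneg_left (hE R) (Real.rpow_nonneg hq.le _)

/-- localisation of a trilinear sum -/
theorem ef1a_loc {w : Wv → Wv → ℝ} {q₁ q₂ q₃ r : ℝ}
    (hw : ∀ k l, w k l ≠ 0 → (q₁ ≤ nsq k ∧ nsq k < r) ∧ (q₂ ≤ nsq l ∧ nsq l < r) ∧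
      (q₃ ≤ nsq (k + l) ∧ nsq (k + l) < r)) (N : ℕ) (x y z : Wv → ℂ) :
    Tri w N x y z = Tri w N (ef1a_r q₁ r x) (ef1a_r q₂ r y) (ef1a_r q₃ r z) := by
  unfold Tri
  refine sum_congr rfl fun k _ => sum_congr rfl fun l _ => ?_
  by_cases h : w k l = 0
  · rw [h]
    simp
  · obtain ⟨h1, h2, h3⟩ := hw k l h
    rw [ef1a_r_of h1, ef1a_r_of h2, ef1a_r_of (k := -(k + l)) (by rw [shl_nsq_neg]; exact h3)]

theorem ef1a_piece {g : Wv → Wv → Wv → ℝ} {σ ε C D : ℝ} (hσ : 0 < σ) (hσ1 : σ ≤ 1) (hC : 0 ≤ C)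
    (hD : 0 ≤ D) (hFB : ∀ (a b c : ℕ) (p i : Fin 3) (x y z : Wv → ℂ),
      ‖Tri (fun k l => g k l (-(k + l)) * fw a b c p i k l) (2 ^ (c + 1)) x y z‖ ≤
        C * ((2 : ℝ) ^ c) ^ ε * (N2 (2 ^ (c + 1)) x * N2 (2 ^ (c + 1)) y * N2 (2 ^ (c + 1)) z))
    {N : ℕ} {u : Fld} (hE : ∀ n, Er σ n u ≤ D) (hs : ∀ k, k ∉ cub N → u k = 0) (a b c : ℕ)
    (p i i₁ i₂ i₃ : Fin 3) :
    ‖Tri (fun k l => g k l (-(k + l)) * fw a b c p i k l) N (fun k => u k i₁) (fun k => u k i₂)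
      (fun k => u k i₃)‖ ≤
      C * ((2 : ℝ) ^ c) ^ ε * (4 * ((2 : ℝ) ^ b) ^ (-σ) * ((2 : ℝ) ^ c) ^ (-(2 * σ))) *
        (D * Real.sqrt D) := by
  obtain ⟨w, hw⟩ : ∃ w : Wv → Wv → ℝ, w = fun k l => g k l (-(k + l)) * fw a b c p i k l := ⟨_, rfl⟩
  have hF := hFB a b c p i
  rw [← hw] at hF ⊢
  have hne : ∀ k l, w k l ≠ 0 → fw a b c p i k l ≠ 0 := by
    intro k l h h0
    apply h
    rw [hw]
    show g k l (-(k + l)) * fw a b c p i k l = 0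
    rw [h0, mul_zero]
  obtain ⟨S, hS⟩ : ∃ S : ℝ, S = ((2 : ℝ) ^ b) ^ (-σ) * Real.sqrt D := ⟨_, rfl⟩
  obtain ⟨H, hH⟩ : ∃ H : ℝ, H = 2 * ((2 : ℝ) ^ c) ^ (-σ) * Real.sqrt D := ⟨_, rfl⟩
  have hS0 : 0 ≤ S := by rw [hS]; positivity
  have hH0 : 0 ≤ H := by rw [hH]; positivity
  have hbS : ∀ (R : ℕ) (i : Fin 3), N2 R (ef1a_r (4 ^ b) (4 ^ (c + 1)) fun k => u k i) ≤ S := by
    intro R i
    refine (ef1a_N2 (by positivity) hσ hE R i).trans (le_of_eq ?_)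
    rw [hS]
    congr 1
    have e : (4 : ℝ) ^ b = ((2 : ℝ) ^ b) ^ (2 : ℝ) := by
      rw [Real.rpow_two, ← pow_mul, mul_comm, pow_mul]
      norm_num
    rw [e, ← Real.rpow_mul (by positivity)]
    congr 1
    ring
  have hbH : ∀ (R : ℕ) (i : Fin 3), N2 R (ef1a_r (4 ^ c / 4) (4 ^ (c + 1)) fun k => u k i) ≤ H := by
    intro R i
    refine (ef1a_N2 (by positivity) hσ hE R i).trans ?_
    rw [hH]
    refine mul_le_mul_of_nonneg_right ?_ (Real.sqrt_nonneg _)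
    have e : (4 : ℝ) ^ c / 4 = ((2 : ℝ) ^ c / 2) ^ (2 : ℝ) := by
      rw [Real.rpow_two, div_pow, ← pow_mul, mul_comm c 2, pow_mul]
      norm_num
    rw [e, ← Real.rpow_mul (by positivity)]
    have e2 : (2 : ℝ) * -(σ / 2) = -σ := by ring
    rw [e2, Real.div_rpow (by positivity) (by norm_num), Real.rpow_neg (by norm_num : (0:ℝ) ≤ 2),
      div_inv_eq_mul, mul_comm]
    refine mul_le_mul_of_nonneg_right ?_ (by positivity)
    calc (2 : ℝ) ^ σ ≤ (2 : ℝ) ^ (1 : ℝ) := Real.rpow_le_rpow_of_exponent_le (by norm_num) hσ1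
      _ = 2 := Real.rpow_one 2
  have hsz : ∀ (q : ℝ) (i : Fin 3) (k : Wv), k ∉ cub N →
      ef1a_r q (4 ^ (c + 1)) (fun k => u k i) k = 0 := by
    intro q i k hk
    unfold ef1a_r
    split_ifs
    · show u k i = 0
      rw [hs k hk]
      rfl
    · rfl
  have hbz : ∀ (q : ℝ) (i : Fin 3) (k : Wv), k ∉ cub (2 ^ (c + 1)) →
      ef1a_r q (4 ^ (c + 1)) (fun k => u k i) k = 0 := by
    intro q i k hk
    unfold ef1a_r
    rw [if_neg]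
    intro h
    exact absurd h.2 (not_lt.2 (shl_big hk))
  have hmain : ∀ q₁ q₂ q₃ : ℝ,
      (∀ k l, w k l ≠ 0 → (q₁ ≤ nsq k ∧ nsq k < 4 ^ (c + 1)) ∧ (q₂ ≤ nsq l ∧ nsq l < 4 ^ (c + 1)) ∧
        (q₃ ≤ nsq (k + l) ∧ nsq (k + l) < 4 ^ (c + 1))) →
      ‖Tri w N (fun k => u k i₁) (fun k => u k i₂) (fun k => u k i₃)‖ ≤ C * ((2 : ℝ) ^ c) ^ ε *
        (N2 (2 ^ (c + 1)) (ef1a_r q₁ (4 ^ (c + 1)) fun k => u k i₁) *
          N2 (2 ^ (c + 1)) (ef1a_r q₂ (4 ^ (c + 1)) fun k => u k i₂) *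
          N2 (2 ^ (c + 1)) (ef1a_r q₃ (4 ^ (c + 1)) fun k => u k i₃)) := by
    intro q₁ q₂ q₃ hq
    rw [ef1a_loc hq]
    have e1 : Tri w N (ef1a_r q₁ (4 ^ (c + 1)) fun k => u k i₁)
        (ef1a_r q₂ (4 ^ (c + 1)) fun k => u k i₂) (ef1a_r q₃ (4 ^ (c + 1)) fun k => u k i₃) =
        Tri w (2 ^ (c + 1)) (ef1a_r q₁ (4 ^ (c + 1)) fun k => u k i₁)
        (ef1a_r q₂ (4 ^ (c + 1)) fun k => u k i₂) (ef1a_r q₃ (4 ^ (c + 1)) fun k => u k i₃) := by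
      rw [shl_tri_big w (le_max_left N (2 ^ (c + 1))), ← shl_tri_big w (le_max_right N (2 ^ (c + 1)))]
      · rintro k l (h | h)
        · rw [hbz q₁ i₁ k h]
          simp
        · rw [hbz q₂ i₂ l h]
          simp
      · rintro k l (h | h)
        · rw [hsz q₁ i₁ k h]
          simp
        · rw [hsz q₂ i₂ l h]
          simp
    rw [e1]
    exact hF _ _ _
  have hfin : S * (H * H) = (4 * ((2 : ℝ) ^ b) ^ (-σ) * ((2 : ℝ) ^ c) ^ (-(2 * σ))) *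
      (D * Real.sqrt D) := by
    have e1 : ((2 : ℝ) ^ c) ^ (-(2 * σ)) = ((2 : ℝ) ^ c) ^ (-σ) * ((2 : ℝ) ^ c) ^ (-σ) := by
      rw [← Real.rpow_add (by positivity)]
      congr 1
      ring
    have e2 : Real.sqrt D * Real.sqrt D = D := Real.mul_self_sqrt hD
    rw [hS, hH, e1]
    calc _ = (4 * ((2 : ℝ) ^ b) ^ (-σ) * (((2 : ℝ) ^ c) ^ (-σ) * ((2 : ℝ) ^ c) ^ (-σ))) *
          ((Real.sqrt D * Real.sqrt D) * Real.sqrt D) := by ring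
      _ = _ := by rw [e2]
  rw [mul_assoc (C * ((2 : ℝ) ^ c) ^ ε), ← hfin]
  have hN : ∀ (R : ℕ) (x : Wv → ℂ), 0 ≤ N2 R x := fun R x => Real.sqrt_nonneg _
  by_cases hz : ∀ k l, w k l = 0
  · have : Tri w N (fun k => u k i₁) (fun k => u k i₂) (fun k => u k i₃) = 0 := by
      unfold Tri
      simp [hz]
    rw [this, norm_zero]
    positivity
  push Not at hz
  obtain ⟨k₀, l₀, hkl⟩ := hz
  have hCe : 0 ≤ C * ((2 : ℝ) ^ c) ^ ε := by positivity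
  rcases (ef1a_len (hne k₀ l₀ hkl)).2 with h | h | h
  · refine (hmain (4 ^ b) (4 ^ c / 4) (4 ^ c / 4) fun k l hk => ?_).trans
      (mul_le_mul_of_nonneg_left ?_ hCe)
    · obtain ⟨⟨h1, h2, h3⟩, h4⟩ := ef1a_len (hne k l hk)
      rcases h4 with h4 | h4 | h4
      · exact ⟨⟨h4.2.1, h1⟩, ⟨by linarith [h4.2.2.1], h2⟩, by linarith [h4.2.2.2], h3⟩
      · exact absurd (h.1.symm.trans h4.1) (by decide)
      · exact absurd (h.1.symm.trans h4.1) (by decide)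
    · rw [mul_assoc]
      exact mul_le_mul (hbS _ _) (mul_le_mul (hbH _ _) (hbH _ _) (hN _ _) hH0)
        (mul_nonneg (hN _ _) (hN _ _)) hS0
  · refine (hmain (4 ^ c / 4) (4 ^ b) (4 ^ c / 4) fun k l hk => ?_).trans
      (mul_le_mul_of_nonneg_left ?_ hCe)
    · obtain ⟨⟨h1, h2, h3⟩, h4⟩ := ef1a_len (hne k l hk)
      rcases h4 with h4 | h4 | h4
      · exact absurd (h.1.symm.trans h4.1) (by decide)
      · exact ⟨⟨by linarith [h4.2.2.1], h1⟩, ⟨h4.2.1, h2⟩, by linarith [h4.2.2.2], h3⟩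
      · exact absurd (h.1.symm.trans h4.1) (by decide)
    · rw [mul_comm (N2 _ _) (N2 _ _), mul_assoc]
      exact mul_le_mul (hbS _ _) (mul_le_mul (hbH _ _) (hbH _ _) (hN _ _) hH0)
        (mul_nonneg (hN _ _) (hN _ _)) hS0
  · refine (hmain (4 ^ c / 4) (4 ^ c / 4) (4 ^ b) fun k l hk => ?_).trans
      (mul_le_mul_of_nonneg_left ?_ hCe)
    · obtain ⟨⟨h1, h2, h3⟩, h4⟩ := ef1a_len (hne k l hk)
      rcases h4 with h4 | h4 | h4
      · exact absurd (h.1.symm.trans h4.1) (by decide)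
      · exact absurd (h.1.symm.trans h4.1) (by decide)
      · exact ⟨⟨by linarith [h4.2.2.1], h1⟩, ⟨by linarith [h4.2.2.2], h2⟩, h4.2.1, h3⟩
    · rw [mul_comm (N2 _ _ * N2 _ _) (N2 _ _)]
      exact mul_le_mul (hbS _ _) (mul_le_mul (hbH _ _) (hbH _ _) (hN _ _) hH0)
        (mul_nonneg (hN _ _) (hN _ _)) hS0

end Pool.Agent.N983.WK
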