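import Pool.Agent.N983.WK.EF1A
import Pool.Agent.N983.WK.FX2
import Pool.Agent.N983.RT.EST

set_option autoImplicit false

/-! The energy flux as a sum of pieces. -/

namespace Pool.Agent.N983.WK

open Pool.Agent.N983.RT Finset

theorem ef1b_dt {u : Fld} (hu : Adm u) (k l : Wv) : dt (u k) (qv k l) = dt (u k) l := by
  unfold qv
  split_ifs
  · rfl
  · rw [alg_dt_add, hu.div k, zero_add]

/-- the symbol vanishes for low shells -/
theorem ef1b_low {a b c : ℕ} (h : c < a) (p i : Fin 3) (k l : Wv) : fw a b c p i k l = 0 := by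
  by_contra hne
  obtain ⟨⟨-, h2, h3⟩, -⟩ := ef1a_len hne
  have key : ∀ m : Wv, nsq m < (4 : ℝ) ^ (c + 1) → ct (2 ^ a - 1) m = 1 := by
    intro m hm
    apply fx2_ct_one
    have e : (((2 ^ a - 1 : ℕ) : ℝ) + 1) = 2 ^ a := by
      rw [Nat.cast_sub Nat.one_le_two_pow]
      push_cast
      ring
    rw [e]
    unfold pnt_L
    rw [Real.sqrt_le_left (by positivity), ← pow_mul, mul_comm a 2, pow_mul]
    norm_num
    exact hm.le.trans (pow_le_pow_right₀ (by norm_num) (by omega))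
  apply hne
  unfold fw
  rw [key l h2, key (k + l) h3]
  simp

/-- the decomposition of one term -/
theorem ef1b_pt {g : Wv → Wv → Wv → ℝ} {u : Fld} (hu : Adm u) (a N : ℕ) {k l : Wv}
    (hk : k ∈ cub N) (hl : l ∈ cub N) :
    ((ct (2 ^ a - 1) (k + l) - ct (2 ^ a - 1) l : ℝ) : ℂ) * fx2_H g u k l =
      ∑ c ∈ range (12 * N ^ 2 + 1), ∑ b ∈ range (c + 1), ∑ p : Fin 3, ∑ i : Fin 3, ∑ j : Fin 3,
        ((2 : ℝ) ^ (b + 2) : ℂ) * (((g k l (-(k + l)) * fw a b c p i k l : ℝ) : ℂ) * u k i *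
          u l j * u (-(k + l)) j) := by
  have hzero : k = 0 ∨ l = 0 ∨ k + l = 0 → ((ct (2 ^ a - 1) (k + l) - ct (2 ^ a - 1) l : ℝ) : ℂ) *
      fx2_H g u k l = ∑ c ∈ range (12 * N ^ 2 + 1), ∑ b ∈ range (c + 1), ∑ p : Fin 3,
      ∑ i : Fin 3, ∑ j : Fin 3,
        ((2 : ℝ) ^ (b + 2) : ℂ) * (((g k l (-(k + l)) * fw a b c p i k l : ℝ) : ℂ) * u k i *
          u l j * u (-(k + l)) j) := by
    intro h
    have h1 : ∀ i j, u k i * u l j * u (-(k + l)) j = 0 := by
      intro i j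
      rcases h with h | h | h
      · rw [h, hu.zero]
        simp
      · rw [h, hu.zero]
        simp
      · rw [h, neg_zero, hu.zero]
        simp
    have h2 : fx2_H g u k l = 0 := by
      unfold fx2_H dt
      rw [mul_assoc, sum_mul_sum]
      have : ∑ i, ∑ j, u k i * (l i : ℂ) * (u l j * u (-(k + l)) j) = 0 :=
        sum_eq_zero fun i _ => sum_eq_zero fun j _ => by
          have := h1 i j
          calc _ = (l i : ℂ) * (u k i * u l j * u (-(k + l)) j) := by ring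
            _ = 0 := by rw [this, mul_zero]
      rw [this, mul_zero]
    rw [h2, mul_zero]
    symm
    refine sum_eq_zero fun c _ => sum_eq_zero fun b _ => sum_eq_zero fun p _ =>
      sum_eq_zero fun i _ => sum_eq_zero fun j _ => ?_
    have := h1 i j
    calc _ = ((2 : ℝ) ^ (b + 2) : ℂ) * ((g k l (-(k + l)) * fw a b c p i k l : ℝ) : ℂ) *
          (u k i * u l j * u (-(k + l)) j) := by ring
      _ = 0 := by rw [this, mul_zero]
  by_cases hk0 : k = 0
  · exact hzero (Or.inl hk0)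
  by_cases hl0 : l = 0
  · exact hzero (Or.inr (Or.inl hl0))
  by_cases hm0 : k + l = 0
  · exact hzero (Or.inr (Or.inr hm0))
  have o1 : 1 ≤ nsq k := by
    by_contra h
    exact hk0 (est_one h)
  have o2 : 1 ≤ nsq l := by
    by_contra h
    exact hl0 (est_one h)
  have o3 : 1 ≤ nsq (k + l) := by
    by_contra h
    exact hm0 (est_one h)
  obtain ⟨t, ht⟩ : ∃ t, t = max (nsq k) (max (nsq l) (nsq (k + l))) := ⟨_, rfl⟩
  obtain ⟨s, hs⟩ : ∃ s, s = min (nsq k) (min (nsq l) (nsq (k + l))) := ⟨_, rfl⟩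
  have ht1 : 1 ≤ t := by rw [ht]; exact o1.trans (le_max_left _ _)
  have hs1 : 1 ≤ s := by rw [hs]; exact le_min o1 (le_min o2 o3)
  have hst : s ≤ t := by rw [hs, ht]; exact (min_le_left _ _).trans (le_max_left _ _)
  obtain ⟨c, hc1, hc2⟩ := exists_nat_pow_near ht1 (by norm_num : (1 : ℝ) < 4)
  obtain ⟨b, hb1, hb2⟩ := exists_nat_pow_near hs1 (by norm_num : (1 : ℝ) < 4)
  have hbc : b < c + 1 :=
    (pow_lt_pow_iff_right₀ (by norm_num : (1 : ℝ) < 4)).1 (hb1.trans_lt (hst.trans_lt hc2))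
  have ht2 : t ≤ 12 * (N : ℝ) ^ 2 := by
    rw [ht]
    have a1 := est_le (m := N) (est_abs hk)
    have a2 := est_le (m := N) (est_abs hl)
    have a3 : nsq (k + l) ≤ 3 * (2 * (N : ℝ)) ^ 2 := by
      apply est_le
      intro i
      rw [Pi.add_apply]
      push_cast
      refine (abs_add_le _ _).trans ?_
      have := est_abs hk i
      have := est_abs hl i
      linarith
    have a4 : 0 ≤ (N : ℝ) ^ 2 := sq_nonneg _
    refine max_le (by linarith) (max_le (by linarith) (by linarith))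
  have hcM : c < 12 * N ^ 2 + 1 := by
    have h2 : 12 * N ^ 2 + 1 < 4 ^ (12 * N ^ 2 + 1) := Nat.lt_pow_self (by norm_num)
    have h3 : ((12 * N ^ 2 + 1 : ℕ) : ℝ) < (4 : ℝ) ^ (12 * N ^ 2 + 1) := by exact_mod_cast h2
    push_cast at h3
    have h4 : (4 : ℝ) ^ c < (4 : ℝ) ^ (12 * N ^ 2 + 1) := by
      refine (hc1.trans ht2).trans_lt ?_
      linarith
    exact (pow_lt_pow_iff_right₀ (by norm_num : (1 : ℝ) < 4)).1 h4
  -- the symbol vanishes for the other indices
  have hfc : ∀ c' b' p i, c' ≠ c → fw a b' c' p i k l = 0 := by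
    intro c' b' p i h
    unfold fw
    rw [if_neg]
    rintro ⟨⟨h1, h2⟩, -, -⟩
    rw [← ht] at h1 h2
    exact h (est_uniq h1 h2 hc1 hc2)
  have hfb : ∀ c' b' p i, b' ≠ b → fw a b' c' p i k l = 0 := by
    intro c' b' p i h
    unfold fw
    rw [if_neg]
    rintro ⟨-, ⟨h1, h2⟩, -⟩
    rw [← hs] at h1 h2
    exact h (est_uniq h1 h2 hb1 hb2)
  have hfp : ∀ c' b' p i, p ≠ shp k l → fw a b' c' p i k l = 0 := by
    intro c' b' p i h
    unfold fw
    rw [if_neg]
    rintro ⟨-, -, h3⟩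
    exact h h3.symm
  rw [sum_eq_single_of_mem c (mem_range.2 hcM) fun c' _ h => sum_eq_zero fun b' _ =>
      sum_eq_zero fun p _ => sum_eq_zero fun i _ => sum_eq_zero fun j _ => by
        rw [hfc c' b' p i h]; simp,
    sum_eq_single_of_mem b (mem_range.2 hbc) fun b' _ h =>
      sum_eq_zero fun p _ => sum_eq_zero fun i _ => sum_eq_zero fun j _ => by
        rw [hfb c b' p i h]; simp,
    sum_eq_single_of_mem (shp k l) (mem_univ _) fun p _ h =>
      sum_eq_zero fun i _ => sum_eq_zero fun j _ => by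
        rw [hfp c b p i h]; simp]
  have hfw : ∀ i, fw a b c (shp k l) i k l =
      (ct (2 ^ a - 1) (k + l) - ct (2 ^ a - 1) l) * (qv k l i : ℝ) / 2 ^ (b + 2) := by
    intro i
    unfold fw
    rw [if_pos]
    rw [← ht, ← hs]
    exact ⟨⟨hc1, hc2⟩, ⟨hb1, hb2⟩, rfl⟩
  unfold fx2_H
  rw [← ef1b_dt hu k l]
  unfold dt
  have h2 : (2 : ℂ) ^ (b + 2) ≠ 0 := pow_ne_zero _ two_ne_zero
  rw [mul_assoc, sum_mul_sum, mul_sum, mul_sum]
  refine sum_congr rfl fun i _ => ?_
  rw [mul_sum, mul_sum]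
  refine sum_congr rfl fun j _ => ?_
  rw [hfw i]
  push_cast
  field_simp

end Pool.Agent.N983.WK
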