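import Pool.Agent.N983.WK.EF1B
import Pool.Agent.N983.WK.ECO
import Pool.Agent.N983.WK.ANT

set_option autoImplicit false

/-! The bound of the energy flux. -/

namespace Pool.Agent.N983.WK

open Pool.Agent.N983.RT Finset Filter Topology

theorem ef1c_swap {ι : Type} (s : Finset ι) (A B : Finset Wv) (f : Wv → Wv → ι → ℂ) :
    ∑ k ∈ A, ∑ l ∈ B, ∑ c ∈ s, f k l c = ∑ c ∈ s, ∑ k ∈ A, ∑ l ∈ B, f k l c := by
  rw [sum_congr rfl fun k _ => sum_comm]
  exact sum_comm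

/-- the part of the flux of one shell -/
noncomputable def ef1c_S (g : Wv → Wv → Wv → ℝ) (a N : ℕ) (v : Fld) (c : ℕ) : ℂ :=
  ∑ b ∈ range (c + 1), ∑ p : Fin 3, ∑ i : Fin 3, ∑ j : Fin 3, ((2 : ℝ) ^ (b + 2) : ℂ) *
    Tri (fun k l => g k l (-(k + l)) * fw a b c p i k l) N (fun k => v k i) (fun k => v k j)
      (fun k => v k j)

theorem ef1c_sum (hC : S_CVB) {g : Wv → Wv → Wv → ℝ} (hg : Arr g) {v : Fld} (hv : Adm v)
    {A : ℝ} (hA : 0 ≤ A) (hEn : ∀ n, En 0 n v ≤ A ^ 2) {N : ℕ} (hs : ∀ k, k ∉ cub N → v k = 0)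
    (a : ℕ) :
    2 * ∑ m ∈ cub (2 * (2 ^ a - 1) + 2), (ct (2 ^ a - 1) m : ℂ) *
      ∑ j, (starRingEnd ℂ) (v m j) * cv g v v m j =
      ∑ c ∈ range (12 * N ^ 2 + 1), ef1c_S g a N v c := by
  rw [fx2_sym hC hg hv hA hEn (2 ^ a - 1), tsum_eq_sum (s := cub N ×ˢ cub N), sum_product]
  · rw [sum_congr rfl fun k hk => sum_congr rfl fun l hl => ef1b_pt (g := g) hv a N hk hl]
    rw [ef1c_swap]
    refine sum_congr rfl fun c _ => ?_
    unfold ef1c_S
    rw [ef1c_swap]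
    refine sum_congr rfl fun b _ => ?_
    rw [ef1c_swap]
    refine sum_congr rfl fun p _ => ?_
    rw [ef1c_swap]
    refine sum_congr rfl fun i _ => ?_
    rw [ef1c_swap]
    refine sum_congr rfl fun j _ => ?_
    unfold Tri
    rw [mul_sum]
    refine sum_congr rfl fun k _ => ?_
    rw [mul_sum]
  · intro q hq
    rw [mem_product, not_and_or] at hq
    have : fx2_H g v q.1 q.2 = 0 := by
      unfold fx2_H dt
      rcases hq with h | h
      · rw [hs _ h]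
        simp
      · rw [hs _ h]
        simp
    rw [this, mul_zero]

theorem ef1c_one {g : Wv → Wv → Wv → ℝ} {σ δ κ C D : ℝ} (hσ : 0 < σ) (hσ1 : σ ≤ 1) (hC : 0 ≤ C)
    (hε : κ + 1 - 3 * σ = -δ)
    (hD : 0 ≤ D) (hFB : ∀ (a b c : ℕ) (p i : Fin 3) (x y z : Wv → ℂ),
      ‖Tri (fun k l => g k l (-(k + l)) * fw a b c p i k l) (2 ^ (c + 1)) x y z‖ ≤
        C * ((2 : ℝ) ^ c) ^ κ * (N2 (2 ^ (c + 1)) x * N2 (2 ^ (c + 1)) y * N2 (2 ^ (c + 1)) z))
    {N : ℕ} {u : Fld} (hE : ∀ n, Er σ n u ≤ D) (hs : ∀ k, k ∉ cub N → u k = 0) (a c : ℕ) :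
    ‖ef1c_S g a N u c‖ ≤ 432 * C * (D * Real.sqrt D) * (((c : ℝ) + 1) * ((2 : ℝ) ^ (-δ)) ^ c) := by
  have hDD : 0 ≤ D * Real.sqrt D := mul_nonneg hD (Real.sqrt_nonneg _)
  have h1 : ∀ b ∈ range (c + 1), ‖∑ p : Fin 3, ∑ i : Fin 3, ∑ j : Fin 3,
      ((2 : ℝ) ^ (b + 2) : ℂ) * Tri (fun k l => g k l (-(k + l)) * fw a b c p i k l) N
        (fun k => u k i) (fun k => u k j) (fun k => u k j)‖ ≤
      432 * C * (D * Real.sqrt D) * ((2 : ℝ) ^ (-δ)) ^ c := by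
    intro b hb
    have hbc : b ≤ c := Nat.lt_succ_iff.1 (mem_range.1 hb)
    have hone : ∀ p i j : Fin 3, ‖((2 : ℝ) ^ (b + 2) : ℂ) *
        Tri (fun k l => g k l (-(k + l)) * fw a b c p i k l) N
        (fun k => u k i) (fun k => u k j) (fun k => u k j)‖ ≤
        16 * C * (D * Real.sqrt D) * ((2 : ℝ) ^ (-δ)) ^ c := by
      intro p i j
      have h2 := ef1a_piece hσ hσ1 hC hD hFB hE hs a b c p i i j j
      have e0 : ‖((2 : ℝ) ^ (b + 2) : ℂ)‖ = (2 : ℝ) ^ (b + 2) := by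
        rw [norm_pow]
        norm_num
      rw [norm_mul, e0]
      have hb0 : (0 : ℝ) < 2 ^ b := by positivity
      have hc0 : (0 : ℝ) < 2 ^ c := by positivity
      have e1 : (2 : ℝ) ^ b * ((2 : ℝ) ^ b) ^ (-σ) ≤ ((2 : ℝ) ^ c) ^ (1 - σ) := by
        have e2 : (2 : ℝ) ^ b * ((2 : ℝ) ^ b) ^ (-σ) = ((2 : ℝ) ^ b) ^ (1 - σ) := by
          nth_rw 1 [← Real.rpow_one ((2 : ℝ) ^ b)]
          rw [← Real.rpow_add hb0]
          congr 1
        rw [e2]
        exact Real.rpow_le_rpow hb0.le (pow_le_pow_right₀ (by norm_num) hbc) (by linarith)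
      have e3 : ((2 : ℝ) ^ (-δ)) ^ c =
          ((2 : ℝ) ^ c) ^ κ * (((2 : ℝ) ^ c) ^ (1 - σ) * ((2 : ℝ) ^ c) ^ (-(2 * σ))) := by
        rw [← Real.rpow_add hc0, ← Real.rpow_add hc0, ← Real.rpow_natCast, ← Real.rpow_natCast,
          ← Real.rpow_mul (by norm_num), ← Real.rpow_mul (by norm_num)]
        congr 1
        have : κ + (1 - σ + -(2 * σ)) = -δ := by linarith
        rw [this]
        ring
      calc (2 : ℝ) ^ (b + 2) * ‖Tri (fun k l => g k l (-(k + l)) * fw a b c p i k l) N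
            (fun k => u k i) (fun k => u k j) (fun k => u k j)‖
          ≤ (2 : ℝ) ^ (b + 2) * (C * ((2 : ℝ) ^ c) ^ κ *
            (4 * ((2 : ℝ) ^ b) ^ (-σ) * ((2 : ℝ) ^ c) ^ (-(2 * σ))) * (D * Real.sqrt D)) :=
            mul_le_mul_of_nonneg_left h2 (by positivity)
        _ = 16 * C * (D * Real.sqrt D) * (((2 : ℝ) ^ c) ^ κ *
            (((2 : ℝ) ^ b * ((2 : ℝ) ^ b) ^ (-σ)) * ((2 : ℝ) ^ c) ^ (-(2 * σ)))) := by
            rw [pow_succ, pow_succ]
            ring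
        _ ≤ 16 * C * (D * Real.sqrt D) * (((2 : ℝ) ^ c) ^ κ *
            (((2 : ℝ) ^ c) ^ (1 - σ) * ((2 : ℝ) ^ c) ^ (-(2 * σ)))) := by gcongr
        _ = _ := by rw [e3]
    calc _ ≤ ∑ _p : Fin 3, ∑ _i : Fin 3, ∑ _j : Fin 3,
          16 * C * (D * Real.sqrt D) * ((2 : ℝ) ^ (-δ)) ^ c := by
          refine (norm_sum_le _ _).trans (sum_le_sum fun p _ => ?_)
          refine (norm_sum_le _ _).trans (sum_le_sum fun i _ => ?_)
          exact (norm_sum_le _ _).trans (sum_le_sum fun j _ => hone p i j)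
      _ = _ := by
          simp only [sum_const, card_univ, Fintype.card_fin, nsmul_eq_mul]
          push_cast
          ring
  calc ‖ef1c_S g a N u c‖ ≤ ∑ _b ∈ range (c + 1),
        432 * C * (D * Real.sqrt D) * ((2 : ℝ) ^ (-δ)) ^ c :=
        (norm_sum_le _ _).trans (sum_le_sum h1)
    _ = _ := by
        rw [sum_const, card_range, nsmul_eq_mul]
        push_cast
        ring

theorem ef1c_low {g : Wv → Wv → Wv → ℝ} {a N c : ℕ} (h : c < a) (u : Fld) :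
    ef1c_S g a N u c = 0 := by
  unfold ef1c_S
  refine sum_eq_zero fun b _ => sum_eq_zero fun p _ => sum_eq_zero fun i _ =>
    sum_eq_zero fun j _ => ?_
  unfold Tri
  simp only [ef1b_low h]
  simp

/-- the tail -/
theorem ef1c_tail {S : ℕ → ℂ} {F : ℕ → ℝ} (hF : Summable F) (hF0 : ∀ c, 0 ≤ F c)
    (hS : ∀ c, ‖S c‖ ≤ F c) {a : ℕ} (h0 : ∀ c, c < a → S c = 0) (M : ℕ) :
    ‖∑ c ∈ range M, S c‖ ≤ ∑' c, F (c + a) := by
  have h1 : ‖∑ c ∈ range M, S c‖ ≤ ∑ c ∈ range (M + a), ‖S c‖ :=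
    (norm_sum_le _ _).trans (sum_le_sum_of_subset_of_nonneg
      (range_subset_range.2 (Nat.le_add_right M a)) fun _ _ _ => norm_nonneg _)
  have h2 : ∑ c ∈ range (M + a), ‖S c‖ = ∑ c ∈ range M, ‖S (c + a)‖ := by
    rw [add_comm M a, sum_range_add]
    rw [sum_eq_zero (s := range a) fun c hc => by rw [h0 c (mem_range.1 hc), norm_zero], zero_add]
    exact sum_congr rfl fun c _ => by rw [add_comm]
  rw [h2] at h1
  refine h1.trans ((sum_le_sum fun c _ => hS (c + a)).trans ?_)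
  exact ((summable_nat_add_iff a).2 hF).sum_le_tsum _ fun c _ => hF0 _

theorem ef1c_cut (r : ℝ) (n N : ℕ) (u : Fld) : Er r n (cut N u) ≤ Er r n u := by
  unfold Er
  refine sum_le_sum fun k _ => mul_le_mul_of_nonneg_left ?_ (Real.rpow_nonneg (shl_nsq_nonneg k) _)
  refine sum_le_sum fun i _ => ?_
  unfold cut
  split_ifs
  · rfl
  · rw [Pi.zero_apply, norm_zero, zero_pow two_ne_zero]
    exact sq_nonneg _

/-- the bound of the trilinear sums -/
def FBk (g : Wv → Wv → Wv → ℝ) (κ : ℝ) : Prop := ∃ C : ℝ, 0 ≤ C ∧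
  ∀ (a b c : ℕ) (p i : Fin 3) (x y z : Wv → ℂ),
    ‖Tri (fun k l => g k l (-(k + l)) * fw a b c p i k l) (2 ^ (c + 1)) x y z‖ ≤
      C * ((2 : ℝ) ^ c) ^ κ * (N2 (2 ^ (c + 1)) x * N2 (2 ^ (c + 1)) y * N2 (2 ^ (c + 1)) z)

theorem ef1c_main (hCVB : S_CVB) (g : Wv → Wv → Wv → ℝ) (σ κ : ℝ) (hg : Arr g) (hFB : FBk g κ)
    (hσ0 : 0 < σ) (hκ : 1 + κ < 3 * σ) (hσ1 : σ ≤ 1) : EFP g σ := by
  obtain ⟨ε, hε⟩ : ∃ ε : ℝ, ε = 3 * σ - 1 - κ := ⟨_, rfl⟩
  have hε0 : 0 < ε := by rw [hε]; linarith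
  have hε2 : κ + 1 - 3 * σ = -ε := by rw [hε]; ring
  obtain ⟨C, hC, hFC⟩ := hFB
  intro D hD
  obtain ⟨r, hr⟩ : ∃ r : ℝ, r = (2 : ℝ) ^ (-ε) := ⟨_, rfl⟩
  have hr0 : 0 < r := by rw [hr]; positivity
  have hr1 : r < 1 := by
    rw [hr]
    exact Real.rpow_lt_one_of_one_lt_of_neg (by norm_num) (by linarith)
  obtain ⟨F, hF⟩ : ∃ F : ℕ → ℝ, F = fun c : ℕ =>
      432 * C * (D * Real.sqrt D) * (((c : ℝ) + 1) * r ^ c) := ⟨_, rfl⟩
  have hDD : 0 ≤ D * Real.sqrt D := mul_nonneg hD (Real.sqrt_nonneg _)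
  have hF0 : ∀ c, 0 ≤ F c := by
    intro c
    rw [hF]
    positivity
  have hFs : Summable F := by
    rw [hF]
    refine Summable.mul_left _ ?_
    have h1 : Summable (fun c : ℕ => (c : ℝ) ^ 1 * r ^ c) :=
      summable_pow_mul_geometric_of_norm_lt_one 1 (by rwa [Real.norm_of_nonneg hr0.le])
    have h2 : Summable (fun c : ℕ => r ^ c) := summable_geometric_of_lt_one hr0.le hr1
    refine (h1.add h2).congr fun c => ?_
    rw [pow_one]
    ring
  have hT := tendsto_sum_nat_add F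
  obtain ⟨K, hK⟩ := hT.bddAbove_range
  have hK' : ∀ a, ∑' c, F (c + a) ≤ K := fun a => hK ⟨a, rfl⟩
  -- the bound for truncated fields
  have hmain : ∀ u : Fld, Adm u → (∀ n, Er σ n u ≤ D) → ∀ a : ℕ,
      |fx g (2 ^ a - 1) u| ≤ ∑' c, F (c + a) := by
    intro u hu hE a
    have hA := Real.sqrt_nonneg D
    have hEn : ∀ n, En 0 n u ≤ Real.sqrt D ^ 2 := by
      intro n
      rw [Real.sq_sqrt hD]
      exact (eco_En hσ0 hu n).trans (hE n)
    have hfin : ∀ N : ℕ, |fx g (2 ^ a - 1) (cut N u)| ≤ ∑' c, F (c + a) := by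
      intro N
      have hv : Adm (cut N u) := ant_adm_cut hu N
      have hEv : ∀ n, Er σ n (cut N u) ≤ D := fun n => (ef1c_cut σ n N u).trans (hE n)
      have hEnv : ∀ n, En 0 n (cut N u) ≤ Real.sqrt D ^ 2 := by
        intro n
        rw [Real.sq_sqrt hD]
        exact (eco_En hσ0 hv n).trans (hEv n)
      have hs : ∀ k, k ∉ cub N → cut N u k = 0 := by
        intro k hk
        unfold cut
        rw [if_neg hk]
      have h1 := ef1c_sum hCVB hg hv hA hEnv hs a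
      have h2 : ‖∑ c ∈ range (12 * N ^ 2 + 1), ef1c_S g a N (cut N u) c‖ ≤ ∑' c, F (c + a) := by
        refine ef1c_tail hFs hF0 (fun c => ?_) (fun c hc => ef1c_low hc _) _
        rw [hF, hr]
        exact ef1c_one hσ0 hσ1 hC hε2 hD hFC hEv hs a c
      rw [← h1, norm_mul] at h2
      have h3 : ‖(2 : ℂ)‖ = 2 := by norm_num
      rw [h3] at h2
      unfold fx
      refine (Complex.abs_im_le_norm _).trans ?_
      refine le_trans ?_ h2
      have := norm_nonneg (∑ m ∈ cub (2 * (2 ^ a - 1) + 2), (ct (2 ^ a - 1) m : ℂ) *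
        ∑ j, (starRingEnd ℂ) (cut N u m j) * cv g (cut N u) (cut N u) m j)
      linarith
    have hlim : Tendsto (fun N => |fx g (2 ^ a - 1) (cut N u)|) atTop
        (𝓝 |fx g (2 ^ a - 1) u|) := by
      refine Tendsto.abs ?_
      unfold fx
      refine (Complex.continuous_im.tendsto _).comp ?_
      refine tendsto_finsetSum _ fun m hm => Tendsto.const_mul _ ?_
      refine tendsto_finsetSum _ fun j _ => ?_
      obtain ⟨K', -, hK'⟩ := hCVB
      have h4 := (hK' g u u _ _ hg.le hA hA hu.div hEn hEn m j).2.2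
      refine Tendsto.mul ?_ h4
      refine tendsto_const_nhds.congr' ?_
      filter_upwards [eventually_ge_atTop (2 * (2 ^ a - 1) + 2)] with N hN
      have : m ∈ cub N := shl_cub_mono hN hm
      unfold cut
      rw [if_pos this]
    exact le_of_tendsto hlim (Eventually.of_forall hfin)
  refine ⟨K, fun u hu hE => ⟨fun a => (hmain u hu hE a).trans (hK' a), ?_⟩⟩
  exact squeeze_zero_norm (fun a => by rw [Real.norm_eq_abs]; exact hmain u hu hE a) hT

end Pool.Agent.N983.WK
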