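import Pool.Agent.N983.WK.Stm5
import Pool.Agent.N983.WK.FX2

set_option autoImplicit false

/-! (EF2) the flux of energy, deterministic part (helper92 for helper983) -/

namespace Pool.Agent.N983.WK

open Pool.Agent.N983.RT Filter Topology Finset

theorem ef2_pt {g : Wv → Wv → Wv → ℝ} {B β α : ℝ} (hB : 0 ≤ B) (hα : 0 < α)
    (hβ : β < α) (hgb : ∀ k l m, k ≠ 0 → l ≠ 0 → m ≠ 0 → k + l + m = 0 →
      |g k l m| * mn k l m ^ (5 / 4 - α / 2 : ℝ) ≤ B * mx k l m ^ β) {u : Fld} (hu : Adm u) (n : ℕ)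
    (k l : Wv) :
    ‖((ct n (k + l) - ct n l : ℝ) : ℂ) * fx2_H g u k l‖ ≤
      4 * B * (4 : ℝ) ^ α * fx2_M (3 / 4 + (α - β) - α / 2) α u k l := by
  set γ : ℝ := 3 / 4 + (α - β) - α / 2 with hγ
  have hnn : 0 ≤ 4 * B * (4 : ℝ) ^ α * fx2_M γ α u k l :=
    mul_nonneg (by positivity) (fx2_M_nonneg _ _ _ _ _)
  by_cases hk : k = 0
  · have : fx2_H g u k l = 0 := by
      unfold fx2_H dt
      rw [hk, hu.zero]
      simp
    rw [this, mul_zero, norm_zero]
    exact hnn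
  by_cases hl : l = 0
  · have : fx2_H g u k l = 0 := by
      unfold fx2_H
      rw [hl, hu.zero]
      simp
    rw [this, mul_zero, norm_zero]
    exact hnn
  by_cases hm : -(k + l) = 0
  · have : fx2_H g u k l = 0 := by
      unfold fx2_H
      rw [hm, hu.zero]
      simp
    rw [this, mul_zero, norm_zero]
    exact hnn
  rw [← fx2_ct_neg n (k + l)]
  unfold fx2_M fx2_H
  set m : Wv := -(k + l) with hmdef
  have hsum : k + l + m = 0 := by rw [hmdef]; abel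
  have hmn1 : 1 ≤ mn k l m := le_min (lat_nsq_one hk) (le_min (lat_nsq_one hl) (lat_nsq_one hm))
  have hmnp : 0 < mn k l m := by linarith
  have hmnmx : mn k l m ≤ mx k l m := (min_le_left _ _).trans (le_max_left _ _)
  have hmxp : 0 < mx k l m := by linarith
  have h1 := fx2_diff hu n hsum
  have h2 := pnt_uu u l m
  have h3 := hgb k l m hk hl hm hsum
  have hUk := pnt_U_nonneg u k
  have hUl := pnt_U_nonneg u l
  have hUm := pnt_U_nonneg u m
  have h4 : |g k l m| * Real.sqrt (mn k l m) ≤ B * mx k l m ^ β * mn k l m ^ (-(3 / 4) + α / 2 : ℝ) := by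
    have e3 : Real.sqrt (mn k l m) = mn k l m ^ (5 / 4 - α / 2 : ℝ) * mn k l m ^ (-(3 / 4) + α / 2 : ℝ) := by
      rw [← Real.rpow_add hmnp, Real.sqrt_eq_rpow]
      congr 1
      ring
    rw [e3, ← mul_assoc]
    exact mul_le_mul_of_nonneg_right h3 (by positivity)
  have h5 : mx k l m ^ β * mn k l m ^ (-(3 / 4) + α / 2 : ℝ) ≤ mx k l m ^ α * mn k l m ^ (-γ) := by
    have e4 : mx k l m ^ β = mx k l m ^ α * mx k l m ^ (-(α - β)) := by
      rw [← Real.rpow_add hmxp]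
      congr 1
      ring
    have e6 : mn k l m ^ (-γ) = mn k l m ^ (-(α - β)) * mn k l m ^ (-(3 / 4) + α / 2 : ℝ) := by
      rw [← Real.rpow_add hmnp]
      congr 1
      rw [hγ]
      ring
    rw [e4, e6, mul_assoc]
    refine mul_le_mul_of_nonneg_left ?_ (by positivity)
    refine mul_le_mul_of_nonneg_right ?_ (by positivity)
    exact Real.rpow_le_rpow_of_nonpos hmnp hmnmx (by linarith)
  have h6 := pnt_three u (γ := γ) hα.le hsum hk hl hm
  rw [norm_mul, norm_mul, norm_mul, Complex.norm_real, Complex.norm_real, Real.norm_eq_abs,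
    Real.norm_eq_abs]
  calc |ct n m - ct n l| * (|g k l m| * ‖dt (u k) l‖ * ‖∑ j, u l j * u m j‖)
      = |g k l m| * (|ct n m - ct n l| * ‖dt (u k) l‖) * ‖∑ j, u l j * u m j‖ := by ring
    _ ≤ |g k l m| * (4 * (Real.sqrt (mn k l m) * pnt_U u k)) * (pnt_U u l * pnt_U u m) := by
        refine mul_le_mul (mul_le_mul_of_nonneg_left h1 (abs_nonneg _)) h2 (norm_nonneg _) ?_
        positivity
    _ = 4 * (|g k l m| * Real.sqrt (mn k l m)) * (pnt_U u k * pnt_U u l * pnt_U u m) := by ring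
    _ ≤ 4 * (B * mx k l m ^ β * mn k l m ^ (-(3 / 4) + α / 2 : ℝ)) *
          (pnt_U u k * pnt_U u l * pnt_U u m) := by gcongr
    _ = 4 * B * (mx k l m ^ β * mn k l m ^ (-(3 / 4) + α / 2 : ℝ)) *
          (pnt_U u k * pnt_U u l * pnt_U u m) := by ring
    _ ≤ 4 * B * (mx k l m ^ α * mn k l m ^ (-γ)) *
          (pnt_U u k * pnt_U u l * pnt_U u m) := by gcongr
    _ = 4 * B * (mx k l m ^ α * mn k l m ^ (-γ) * (pnt_U u k * pnt_U u l * pnt_U u m)) := by ring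
    _ ≤ 4 * B * ((4 : ℝ) ^ α * (pnt_a γ u k * pnt_e α u l * pnt_e α u m +
          pnt_e α u k * pnt_a γ u l * pnt_e α u m +
          pnt_e α u k * pnt_e α u l * pnt_a γ u m)) := by gcongr
    _ = _ := by ring

/-! ### the sum over the short wave vectors -/

theorem ef2_a_sum {γ α : ℝ} (hα : 0 < α) (hγ : 3 / 4 < γ + α / 2) : ∃ S : ℝ, 0 ≤ S ∧
    ∀ (n : ℕ) (u : Fld), ∑ k ∈ cub n, pnt_a γ u k ≤ S * Real.sqrt (Er α n u) := by
  obtain ⟨S, hS0, hS⟩ := pnt_a_sum (γ := γ + α / 2) hγ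
  refine ⟨S, hS0, fun n u => ?_⟩
  have h := hS n (fun k i => ((nsq k ^ (α / 2) : ℝ) : ℂ) * u k i)
  have e0 : ∀ k : Wv, ∑ i, ‖((nsq k ^ (α / 2) : ℝ) : ℂ) * u k i‖ ^ 2 =
      (nsq k ^ (α / 2)) ^ 2 * ∑ i, ‖u k i‖ ^ 2 := by
    intro k
    rw [mul_sum]
    refine sum_congr rfl fun i _ => ?_
    rw [norm_mul, Complex.norm_real, Real.norm_eq_abs,
      abs_of_nonneg (Real.rpow_nonneg (lat_nsq_nonneg k) _), mul_pow]
  have e1 : ∀ k ∈ cub n, pnt_a (γ + α / 2) (fun k i => ((nsq k ^ (α / 2) : ℝ) : ℂ) * u k i) k =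
      pnt_a γ u k := by
    intro k _
    unfold pnt_a
    split_ifs with hk
    · rfl
    · have hp : 0 < nsq k := by linarith [lat_nsq_one hk]
      have e2 : pnt_U (fun k i => ((nsq k ^ (α / 2) : ℝ) : ℂ) * u k i) k =
          nsq k ^ (α / 2) * pnt_U u k := by
        unfold pnt_U
        rw [e0 k, Real.sqrt_mul (sq_nonneg _), Real.sqrt_sq (Real.rpow_nonneg hp.le _)]
      rw [e2, ← mul_assoc, ← Real.rpow_add hp]
      congr 2
      ring
  have e3 : En 0 n (fun k i => ((nsq k ^ (α / 2) : ℝ) : ℂ) * u k i) = Er α n u := by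
    unfold En Er
    refine sum_congr rfl fun k _ => ?_
    rw [pow_zero, one_mul, e0 k]
    congr 1
    have hp : 0 ≤ nsq k := lat_nsq_nonneg k
    rw [← Real.rpow_natCast, ← Real.rpow_mul hp]
    congr 1
    push_cast
    ring
  rw [sum_congr rfl e1, e3] at h
  exact h

/-- bounded energy -/
theorem ef2_En {α : ℝ} (hα : 0 < α) {u : Fld} (hu : Adm u) (n : ℕ) : En 0 n u ≤ Er α n u := by
  unfold En Er
  refine sum_le_sum fun k _ => ?_
  rw [pow_zero]
  by_cases hk : k = 0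
  · rw [hk, hu.zero]
    simp
  · refine mul_le_mul_of_nonneg_right ?_ (sum_nonneg fun i _ => sq_nonneg _)
    exact Real.one_le_rpow (lat_nsq_one hk) hα.le

theorem ef2_M_sum {γ α S A D : ℝ} (hS0 : 0 ≤ S)
    (hS : ∀ (n : ℕ) (u : Fld), ∑ k ∈ cub n, pnt_a γ u k ≤ S * Real.sqrt (Er α n u))
    {u : Fld} (hu : Adm u) (hA : 0 ≤ A) (hEn : ∀ n, Er α n u ≤ A ^ 2)
    (hEr : ∀ n, Er α n u ≤ D) (n : ℕ) :
    ∑ k ∈ cub n, ∑ l ∈ cub n, fx2_M γ α u k l ≤ 3 * (S * A * D) := by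
  set N := 2 * n with hN
  set w := cut N u with hw
  have hmem : ∀ k ∈ cub n, k ∈ cub N := by
    intro k hk
    rw [alg_mem] at hk ⊢
    intro i
    have := hk i
    rw [hN]
    push_cast
    constructor <;> linarith [this.1, this.2, Int.natCast_nonneg n]
  have hmem2 : ∀ k ∈ cub n, ∀ l ∈ cub n, -(k + l) ∈ cub N := by
    intro k hk l hl
    rw [alg_mem] at hk hl ⊢
    intro i
    have h1 := hk i
    have h2 := hl i
    rw [hN]
    simp only [Pi.neg_apply, Pi.add_apply]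
    push_cast
    constructor <;> linarith [h1.1, h1.2, h2.1, h2.2]
  have e1 : ∑ k ∈ cub n, ∑ l ∈ cub n, fx2_M γ α u k l =
      ∑ k ∈ cub n, ∑ l ∈ cub n, fx2_M γ α w k l := by
    refine sum_congr rfl fun k hk => sum_congr rfl fun l hl => ?_
    unfold fx2_M
    rw [hw, fx2_a_cut (hmem k hk), fx2_a_cut (hmem l hl), fx2_a_cut (hmem2 k hk l hl),
      fx2_e_cut (hmem k hk), fx2_e_cut (hmem l hl), fx2_e_cut (hmem2 k hk l hl)]
  have e2 : ∑ k ∈ cub n, ∑ l ∈ cub n, fx2_M γ α w k l ≤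
      ∑ k ∈ cub N, ∑ l ∈ cub N, fx2_M γ α w k l := by
    refine (sum_le_sum fun k _ => sum_le_sum_of_subset_of_nonneg hmem
      fun l _ _ => fx2_M_nonneg _ _ _ _ _).trans ?_
    exact sum_le_sum_of_subset_of_nonneg hmem
      fun k _ _ => sum_nonneg fun l _ => fx2_M_nonneg _ _ _ _ _
  have ha := pnt_a_nonneg γ w
  have he0 : ∀ k, k ∉ cub N → pnt_e α w k = 0 := by
    intro k hk
    unfold pnt_e
    rw [hw, fx2_U_cut0 hk, mul_zero]
  have ha0 : ∀ k, k ∉ cub N → pnt_a γ w k = 0 := by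
    intro k hk
    unfold pnt_a
    rw [hw, fx2_U_cut0 hk, mul_zero, ite_self]
  have s1 := pnt_tri_sum (n := N) (a := pnt_a γ w) (e := pnt_e α w) ha he0
  have s2 := pnt_tri_sum2 (n := N) (a := pnt_a γ w) (e := pnt_e α w) ha he0
  have s3 := pnt_tri_sum3 (n := N) (a := pnt_a γ w) (e := pnt_e α w) ha he0 ha0
  have hw0 : w 0 = 0 := by
    rw [hw]
    unfold cut
    rw [hu.zero, ite_self]
  have hE : 0 ≤ ∑ l ∈ cub N, pnt_e α w l ^ 2 := sum_nonneg fun l _ => sq_nonneg _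
  have hEw : ∑ l ∈ cub N, pnt_e α w l ^ 2 ≤ D := by
    rw [pnt_e_sum α N w hw0, hw, fx2_Er_cut]
    exact hEr N
  have hSw : ∑ k ∈ cub N, pnt_a γ w k ≤ S * A := by
    refine (hS N w).trans (mul_le_mul_of_nonneg_left ?_ hS0)
    rw [Real.sqrt_le_left hA, hw, fx2_Er_cut]
    exact hEn N
  have s4 : (∑ k ∈ cub N, pnt_a γ w k) * ∑ l ∈ cub N, pnt_e α w l ^ 2 ≤ S * A * D :=
    mul_le_mul hSw hEw hE (by positivity)
  have e3 : ∑ k ∈ cub N, ∑ l ∈ cub N, fx2_M γ α w k l =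
      ∑ k ∈ cub N, ∑ l ∈ cub N, pnt_a γ w k * pnt_e α w l * pnt_e α w (-(k + l)) +
      ∑ k ∈ cub N, ∑ l ∈ cub N, pnt_e α w k * pnt_a γ w l * pnt_e α w (-(k + l)) +
      ∑ k ∈ cub N, ∑ l ∈ cub N, pnt_e α w k * pnt_e α w l * pnt_a γ w (-(k + l)) := by
    unfold fx2_M
    simp only [sum_add_distrib]
  rw [e1]
  refine e2.trans ?_
  rw [e3]
  linarith

theorem ef2_M_fin {γ α S A D : ℝ} (hS0 : 0 ≤ S)
    (hS : ∀ (n : ℕ) (u : Fld), ∑ k ∈ cub n, pnt_a γ u k ≤ S * Real.sqrt (Er α n u))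
    {u : Fld} (hu : Adm u) (hA : 0 ≤ A) (hEn : ∀ n, Er α n u ≤ A ^ 2)
    (hEr : ∀ n, Er α n u ≤ D) (s : Finset (Wv × Wv)) :
    ∑ q ∈ s, fx2_M γ α u q.1 q.2 ≤ 3 * (S * A * D) := by
  classical
  obtain ⟨n, hn⟩ : ∃ n : ℕ, ∀ q ∈ s, q.1 ∈ cub n ∧ q.2 ∈ cub n := by
    refine ⟨s.sup fun q => (univ : Finset (Fin 3)).sup fun i => (q.1 i).natAbs + (q.2 i).natAbs,
      fun q hq => ?_⟩
    have h1 : ∀ i, (q.1 i).natAbs + (q.2 i).natAbs ≤
        s.sup fun q => (univ : Finset (Fin 3)).sup fun i => (q.1 i).natAbs + (q.2 i).natAbs := by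
      intro i
      refine le_trans ?_ (le_sup (f := fun q : Wv × Wv => (univ : Finset (Fin 3)).sup
        fun i => (q.1 i).natAbs + (q.2 i).natAbs) hq)
      exact le_sup (f := fun i => (q.1 i).natAbs + (q.2 i).natAbs) (mem_univ i)
    constructor
    · rw [alg_mem]
      intro i
      have := h1 i
      omega
    · rw [alg_mem]
      intro i
      have := h1 i
      omega
  refine le_trans ?_ (ef2_M_sum hS0 hS hu hA hEn hEr n)
  rw [← sum_product']
  refine sum_le_sum_of_subset_of_nonneg ?_ fun q _ _ => fx2_M_nonneg _ _ _ _ _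
  intro q hq
  rw [mem_product]
  exact hn q hq

theorem t_EF2 : S_EF2 := by
  intro hC g B β α hg hB hα _ hβ hgb D hD
  obtain ⟨S, hS0, hS⟩ := ef2_a_sum (γ := 3 / 4 + (α - β) - α / 2) hα (by linarith)
  set C1 : ℝ := 4 * B * (4 : ℝ) ^ α with hC1
  have hC10 : 0 ≤ C1 := by rw [hC1]; positivity
  refine ⟨C1 * (3 * (S * Real.sqrt D * D)), fun u hu hEr => ?_⟩
  have hA : 0 ≤ Real.sqrt D := Real.sqrt_nonneg D
  have hErA : ∀ n, Er α n u ≤ Real.sqrt D ^ 2 := fun n => by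
    rw [Real.sq_sqrt hD]
    exact hEr n
  have hEn : ∀ n, En 0 n u ≤ Real.sqrt D ^ 2 := fun n => (ef2_En hα hu n).trans (hErA n)
  have hfin := ef2_M_fin hS0 hS hu hA hErA hEr
  have hMs : Summable (fun q : Wv × Wv => fx2_M (3 / 4 + (α - β) - α / 2) α u q.1 q.2) :=
    summable_of_sum_le (fun q => fx2_M_nonneg _ _ _ _ _) hfin
  have hMt : ∑' q : Wv × Wv, fx2_M (3 / 4 + (α - β) - α / 2) α u q.1 q.2 ≤
      3 * (S * Real.sqrt D * D) :=
    hMs.tsum_le_of_sum_le hfin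
  have hMs2 := hMs.mul_left C1
  have hpt := ef2_pt hB hα hβ hgb hu
  set Z : ℕ → ℂ := fun n => ∑ m ∈ cub (2 * n + 2),
    (ct n m : ℂ) * ∑ j, (starRingEnd ℂ) (u m j) * cv g u u m j with hZ
  have hZ2 : ∀ n, 2 * Z n =
      ∑' q : Wv × Wv, ((ct n (q.1 + q.2) - ct n q.2 : ℝ) : ℂ) * fx2_H g u q.1 q.2 :=
    fun n => fx2_sym hC hg hu hA hEn n
  have hfx : ∀ n, fx g n u = (Z n).im := fun n => rfl
  have hlim : Tendsto (fun n => 2 * Z n) atTop (𝓝 (∑' _q : Wv × Wv, (0 : ℂ))) := by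
    simp_rw [hZ2]
    refine tendsto_tsum_of_dominated_convergence hMs2 ?_
      (Eventually.of_forall fun n q => hpt n q.1 q.2)
    intro q
    refine tendsto_const_nhds.congr' ?_
    obtain ⟨N, hN⟩ := exists_nat_ge (max (pnt_L (q.1 + q.2)) (pnt_L q.2))
    filter_upwards [eventually_ge_atTop N] with n hn
    have hn' : (N : ℝ) ≤ n := by exact_mod_cast hn
    have h1 : pnt_L (q.1 + q.2) ≤ (n : ℝ) + 1 := by
      have := (le_max_left _ _).trans hN
      linarith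
    have h2 : pnt_L q.2 ≤ (n : ℝ) + 1 := by
      have := (le_max_right _ _).trans hN
      linarith
    rw [fx2_ct_one h1, fx2_ct_one h2]
    simp
  rw [tsum_zero] at hlim
  constructor
  · intro a
    have h1 : ∀ n, ‖2 * Z n‖ ≤ C1 * (3 * (S * Real.sqrt D * D)) := by
      intro n
      rw [hZ2]
      refine (tsum_of_norm_bounded hMs2.hasSum fun q => hpt n q.1 q.2).trans ?_
      rw [tsum_mul_left]
      exact mul_le_mul_of_nonneg_left hMt hC10
    have h1 := h1 (2 ^ a - 1)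
    rw [norm_mul] at h1
    have h2 : ‖(2 : ℂ)‖ = 2 := by norm_num
    rw [h2] at h1
    have h3 := Complex.abs_im_le_norm (Z (2 ^ a - 1))
    rw [hfx]
    have h5 : 0 ≤ ‖Z (2 ^ a - 1)‖ := norm_nonneg _
    linarith
  · have h1 : Tendsto Z atTop (𝓝 0) := by
      have := hlim.const_mul ((1 : ℂ) / 2)
      rw [mul_zero] at this
      refine this.congr fun n => ?_
      ring
    have h2 : Tendsto (fun n => (Z n).im) atTop (𝓝 (0 : ℂ).im) :=
      (Complex.continuous_im.tendsto 0).comp h1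
    have h3 : Tendsto (fun a : ℕ => 2 ^ a - 1) atTop atTop := by
      refine tendsto_atTop_mono (fun a => ?_) tendsto_id
      have : a < 2 ^ a := Nat.lt_two_pow_self
      show a ≤ 2 ^ a - 1
      omega
    exact h2.comp h3

end Pool.Agent.N983.WK
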