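import Pool.Agent.N983.WK.Stm
import Pool.Agent.N983.RT.APR

/-! The energy of the truncated systems (helper667). -/

set_option autoImplicit false

namespace Pool.Agent.N983.WK

open MeasureTheory Pool.Agent.N983.RT

theorem t_ENT : S_ENT := by
  intro hA g ν α n u hg hν hu hsupp T hT
  have hd : ∀ t, 0 ≤ t → HasDerivWithinAt (fun t => En 0 n (u t)) (-2 * ν * Er α n (u t))
      (Set.Ici 0) t := by
    intro t ht
    have h1 := apr_deriv (cutg n g) ν α n 0 u hu t ht
    rw [(hA g n (u t) hg (hu.adm t ht) (hsupp t ht)).2, Nat.cast_zero, zero_add, mul_zero,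
      add_zero] at h1
    exact h1
  have hc0 : ∀ k i, ContinuousOn (fun t => u t k i) (Set.Ici 0) := by
    intro k i
    by_cases hk : k = 0
    · refine (continuousOn_const (c := (0 : ℂ))).congr fun t ht => ?_
      show u t k i = 0
      rw [hk, (hu.adm t ht).zero]
      rfl
    · intro t ht
      exact (hu.eqn t ht k hk i).continuousWithinAt
  have hc : ContinuousOn (fun t => Er α n (u t)) (Set.Icc 0 T) := by
    unfold Er
    exact continuousOn_finset_sum _ fun k _ => continuousOn_const.mul
      (continuousOn_finset_sum _ fun i _ => ((hc0 k i).mono Set.Icc_subset_Ici_self).norm.pow 2)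
  have hce : ContinuousOn (fun t => En 0 n (u t)) (Set.Icc 0 T) := fun t ht =>
    ((hd t ht.1).continuousWithinAt).mono Set.Icc_subset_Ici_self
  have hint : IntervalIntegrable (fun t => -2 * ν * Er α n (u t)) volume 0 T := by
    apply ContinuousOn.intervalIntegrable
    rw [Set.uIcc_of_le hT]
    exact continuousOn_const.mul hc
  have h1 := intervalIntegral.integral_eq_sub_of_hasDeriv_right_of_le hT hce
    (fun t ht => (hd t ht.1.le).mono fun s hs => le_of_lt (lt_trans ht.1 hs)) hint
  rw [intervalIntegral.integral_const_mul] at h1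
  have h2 : 0 ≤ ∫ t in (0 : ℝ)..T, Er α n (u t) :=
    intervalIntegral.integral_nonneg hT fun t _ => apr_Er_nonneg _ _ _
  have h3 := apr_En_nonneg 0 n (u T)
  have h4 := mul_nonneg hν.le h2
  constructor <;> linarith

end Pool.Agent.N983.WK
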