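import Pool.Agent.N983.WK.Stm

set_option autoImplicit false

/-! (FX1) no energy flux to infinity, random part. -/

namespace Pool.Agent.N983.WK

open MeasureTheory ProbabilityTheory Filter Topology Pool.Agent.N983.RT

lemma fx1_mem_cub {R : ℕ} {m : Wv} : m ∈ cub R ↔ ∀ i, -(R : ℤ) ≤ m i ∧ m i ≤ R := by
  unfold cub
  rw [Fintype.mem_piFinset]
  simp only [Finset.mem_Icc]

lemma fx1_cub_mono {M N : ℕ} (h : M ≤ N) : cub M ⊆ cub N := by
  intro m hm
  rw [fx1_mem_cub] at hm ⊢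
  intro i
  have := hm i
  omega

lemma fx1_nsq_nonneg (k : Wv) : 0 ≤ nsq k := Finset.sum_nonneg fun i _ => sq_nonneg _

lemma fx1_nsq_ge (k : Wv) (i : Fin 3) : (k i : ℝ) ^ 2 ≤ nsq k :=
  Finset.single_le_sum (f := fun i => (k i : ℝ) ^ 2) (fun i _ => sq_nonneg _) (Finset.mem_univ i)

lemma fx1_nsq_one {k : Wv} (hk : k ≠ 0) : 1 ≤ nsq k := by
  obtain ⟨i, hi⟩ : ∃ i, k i ≠ 0 := by
    by_contra h
    push Not at h
    exact hk (funext h)
  refine le_trans ?_ (fx1_nsq_ge k i)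
  have h1 : (1 : ℤ) ≤ (k i) ^ 2 := by
    have := sq_pos_of_ne_zero hi
    omega
  exact_mod_cast h1

lemma fx1_ct_nonneg (n : ℕ) (m : Wv) : 0 ≤ ct n m := le_max_left _ _

lemma fx1_ct_le (n : ℕ) (m : Wv) : ct n m ≤ 1 := max_le zero_le_one (min_le_left _ _)

lemma fx1_ct_neg (n : ℕ) (m : Wv) : ct n (-m) = ct n m := by
  unfold ct
  have : nsq (-m) = nsq m := by
    unfold nsq
    refine Finset.sum_congr rfl fun i _ => ?_
    rw [Pi.neg_apply]
    push_cast
    ring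
  rw [this]

lemma fx1_ct_one {n : ℕ} {m : Wv} (h : Real.sqrt (nsq m) ≤ n + 1) : ct n m = 1 := by
  unfold ct
  have h0 : (0 : ℝ) < (n : ℝ) + 1 := by positivity
  have h1 : Real.sqrt (nsq m) / (n + 1) ≤ 1 := by
    rw [div_le_one h0]
    exact h
  rw [min_eq_left (by linarith)]
  exact max_eq_right zero_le_one

lemma fx1_ct_zero {n : ℕ} {m : Wv} (h : m ∉ cub (2 * n + 2)) : ct n m = 0 := by
  rw [fx1_mem_cub] at h
  push Not at h
  obtain ⟨i, hi⟩ := h
  have h0 : (0 : ℝ) < (n : ℝ) + 1 := by positivity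
  have h1 : (2 * (n : ℝ) + 2) ≤ Real.sqrt (nsq m) := by
    apply Real.le_sqrt_of_sq_le
    refine le_trans ?_ (fx1_nsq_ge m i)
    have h2 : (2 * (n : ℤ) + 2) ≤ |m i| := by
      by_cases h3 : -((2 * n + 2 : ℕ) : ℤ) ≤ m i
      · have h4 := hi h3
        have h5 := le_abs_self (m i)
        push_cast at h4
        omega
      · have h5 := neg_le_abs (m i)
        push_cast at h3
        omega
    have h3 : (2 * (n : ℝ) + 2) ≤ |(m i : ℝ)| := by exact_mod_cast h2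
    rw [← sq_abs (m i : ℝ)]
    exact pow_le_pow_left₀ (by positivity) h3 2
  unfold ct
  have h2 : 2 ≤ Real.sqrt (nsq m) / (n + 1) := by
    rw [le_div_iff₀ h0]
    linarith
  apply max_eq_left
  exact (min_le_right _ _).trans (by linarith)

/-- the cutoff field -/
noncomputable def fx1_w (n : ℕ) (u : Fld) : Fld := fun m j => (ct n m : ℂ) * u m j

lemma fx1_adm {n : ℕ} {u : Fld} (hu : Adm u) : Adm (fx1_w n u) := by
  refine ⟨?_, ?_, ?_⟩
  · funext j
    show (ct n 0 : ℂ) * u 0 j = 0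
    rw [hu.zero]
    simp
  · intro k
    have h1 : dt (fx1_w n u k) k = (ct n k : ℂ) * dt (u k) k := by
      unfold dt fx1_w
      rw [Finset.mul_sum]
      exact Finset.sum_congr rfl fun i _ => by ring
    rw [h1, hu.div, mul_zero]
  · intro k i
    show (ct n (-k) : ℂ) * u (-k) i = (starRingEnd ℂ) ((ct n k : ℂ) * u k i)
    rw [fx1_ct_neg, hu.real, map_mul, Complex.conj_ofReal]

lemma fx1_adm_sub {u v : Fld} (hu : Adm u) (hv : Adm v) : Adm (u - v) := by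
  refine ⟨?_, ?_, ?_⟩
  · show u 0 - v 0 = 0
    rw [hu.zero, hv.zero, sub_zero]
  · intro k
    have h1 : dt ((u - v) k) k = dt (u k) k - dt (v k) k := by
      unfold dt
      rw [← Finset.sum_sub_distrib]
      exact Finset.sum_congr rfl fun i _ => by
        show (u k i - v k i) * _ = _
        ring
    rw [h1, hu.div, hv.div, sub_zero]
  · intro k i
    show u (-k) i - v (-k) i = (starRingEnd ℂ) (u k i - v k i)
    rw [hu.real, hv.real, map_sub]

/-- comparison of the norms of two fields -/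
lemma fx1_er_le {r s : ℝ} (hrs : r ≤ s) (n : ℕ) {u v : Fld} (hu : u 0 = 0)
    (h : ∀ k i, ‖u k i‖ ≤ ‖v k i‖) : Er r n u ≤ Er s n v := by
  unfold Er
  refine Finset.sum_le_sum fun k _ => ?_
  by_cases hk : k = 0
  · subst hk
    rw [hu]
    have : 0 ≤ nsq 0 ^ s * ∑ i, ‖v 0 i‖ ^ 2 :=
      mul_nonneg (Real.rpow_nonneg (fx1_nsq_nonneg _) _) (Finset.sum_nonneg fun i _ => sq_nonneg _)
    simpa using this
  · apply mul_le_mul
    · exact Real.rpow_le_rpow_of_exponent_le (fx1_nsq_one hk) hrs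
    · exact Finset.sum_le_sum fun i _ => pow_le_pow_left₀ (norm_nonneg _) (h k i) 2
    · exact Finset.sum_nonneg fun i _ => sq_nonneg _
    · exact Real.rpow_nonneg (fx1_nsq_nonneg _) _

lemma fx1_en_eq (n : ℕ) (u : Fld) : En 0 n u = Er 0 n u := by
  unfold En Er
  refine Finset.sum_congr rfl fun k _ => ?_
  rw [pow_zero, Real.rpow_zero]

lemma fx1_er_mono (r : ℝ) (u : Fld) : Monotone fun n => Er r n u := by
  intro M N h
  refine Finset.sum_le_sum_of_subset_of_nonneg (fx1_cub_mono h) fun k _ _ => ?_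
  exact mul_nonneg (Real.rpow_nonneg (fx1_nsq_nonneg _) _) (Finset.sum_nonneg fun i _ => sq_nonneg _)

lemma fx1_norm_w (n : ℕ) (u : Fld) (k : Wv) (i : Fin 3) : ‖fx1_w n u k i‖ ≤ ‖u k i‖ := by
  show ‖(ct n k : ℂ) * u k i‖ ≤ _
  rw [norm_mul, Complex.norm_real, Real.norm_eq_abs, abs_of_nonneg (fx1_ct_nonneg n k)]
  exact mul_le_of_le_one_left (norm_nonneg _) (fx1_ct_le n k)

lemma fx1_norm_sub (n : ℕ) (u : Fld) (k : Wv) (i : Fin 3) :
    ‖(u - fx1_w n u) k i‖ ≤ ‖u k i‖ := by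
  have h1 : (u - fx1_w n u) k i = ((1 - ct n k : ℝ) : ℂ) * u k i := by
    show u k i - (ct n k : ℂ) * u k i = _
    push_cast
    ring
  have h2 := fx1_ct_nonneg n k
  have h3 := fx1_ct_le n k
  rw [h1, norm_mul, Complex.norm_real, Real.norm_eq_abs, abs_of_nonneg (by linarith)]
  exact mul_le_of_le_one_left (norm_nonneg _) (by linarith)

/-- the tails are small -/
lemma fx1_tail {r D : ℝ} {u : Fld} (hD : ∀ n, Er r n u ≤ D) {ε : ℝ} (hε : 0 < ε) :
    ∃ n₀ : ℕ, ∀ n, n₀ ≤ n → ∀ M, Er r M (u - fx1_w n u) ≤ ε := by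
  have hb : BddAbove (Set.range fun n => Er r n u) := ⟨D, by rintro _ ⟨n, rfl⟩; exact hD n⟩
  obtain ⟨M₀, hM₀⟩ := exists_lt_of_lt_ciSup
    (show (⨆ n, Er r n u) - ε < ⨆ n, Er r n u by linarith)
  obtain ⟨n₀, hn₀⟩ : ∃ n₀ : ℕ, ∀ k ∈ cub M₀, Real.sqrt (nsq k) ≤ n₀ := by
    refine ⟨∑ k ∈ cub M₀, ⌈Real.sqrt (nsq k)⌉₊, fun k hk => ?_⟩
    refine (Nat.le_ceil _).trans ?_
    exact_mod_cast Finset.single_le_sum (f := fun k => ⌈Real.sqrt (nsq k)⌉₊)
      (fun _ _ => Nat.zero_le _) hk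
  refine ⟨n₀, fun n hn M => ?_⟩
  have h1 : Er r M (u - fx1_w n u) ≤ Er r (max M M₀) (u - fx1_w n u) :=
    fx1_er_mono r _ (le_max_left _ _)
  have h2 : Er r (max M M₀) (u - fx1_w n u) + Er r M₀ u ≤ Er r (max M M₀) u := by
    unfold Er
    have hsub : cub M₀ ⊆ cub (max M M₀) := fx1_cub_mono (le_max_right _ _)
    rw [← Finset.sum_sdiff hsub, ← Finset.sum_sdiff (f := fun k => nsq k ^ r * ∑ i, ‖u k i‖ ^ 2) hsub]
    have h3 : ∑ k ∈ cub M₀, nsq k ^ r * ∑ i, ‖(u - fx1_w n u) k i‖ ^ 2 = 0 := by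
      refine Finset.sum_eq_zero fun k hk => ?_
      have h4 : ct n k = 1 := fx1_ct_one (by
        have := hn₀ k hk
        have h5 : (n₀ : ℝ) ≤ n := by exact_mod_cast hn
        linarith)
      have h5 : ∀ i, (u - fx1_w n u) k i = 0 := by
        intro i
        show u k i - (ct n k : ℂ) * u k i = 0
        rw [h4]
        push_cast
        ring
      simp [h5]
    rw [h3, add_zero]
    refine add_le_add (Finset.sum_le_sum fun k _ => ?_) le_rfl
    apply mul_le_mul_of_nonneg_left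
    · exact Finset.sum_le_sum fun i _ =>
        pow_le_pow_left₀ (norm_nonneg _) (fx1_norm_sub n u k i) 2
    · exact Real.rpow_nonneg (fx1_nsq_nonneg _) _
  have h3 : Er r (max M M₀) u ≤ ⨆ n, Er r n u := le_ciSup hb _
  linarith

lemma fx1_pr_eq (g : Wv → Wv → Wv → ℝ) (n M : ℕ) (u : Fld) (hM : 2 * n + 2 ≤ M) :
    (∑ m ∈ cub (2 * n + 2), (ct n m : ℂ) * ∑ j, (starRingEnd ℂ) (u m j) * cv g u u m j) =
      pr g M u u (fx1_w n u) := by
  unfold pr
  rw [← Finset.sum_sdiff (fx1_cub_mono hM)]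
  have h1 : ∑ m ∈ cub M \ cub (2 * n + 2), ∑ j, (starRingEnd ℂ) (fx1_w n u m j) * cv g u u m j
      = 0 := by
    refine Finset.sum_eq_zero fun m hm => ?_
    have h2 : ct n m = 0 := fx1_ct_zero (Finset.mem_sdiff.1 hm).2
    refine Finset.sum_eq_zero fun j _ => ?_
    have h3 : fx1_w n u m j = 0 := by
      show (ct n m : ℂ) * u m j = 0
      rw [h2]
      simp
    rw [h3, map_zero, zero_mul]
  rw [h1, zero_add]
  refine Finset.sum_congr rfl fun m _ => ?_
  rw [Finset.mul_sum]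
  refine Finset.sum_congr rfl fun j _ => ?_
  show _ = (starRingEnd ℂ) ((ct n m : ℂ) * u m j) * _
  rw [map_mul, Complex.conj_ofReal]
  ring

lemma fx1_pr_sub (g : Wv → Wv → Wv → ℝ) (M : ℕ) (u v w w' : Fld) :
    pr g M u v (w - w') = pr g M u v w - pr g M u v w' := by
  unfold pr
  rw [← Finset.sum_sub_distrib]
  refine Finset.sum_congr rfl fun m _ => ?_
  rw [← Finset.sum_sub_distrib]
  refine Finset.sum_congr rfl fun j _ => ?_
  show (starRingEnd ℂ) (w m j - w' m j) * _ = _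
  rw [map_sub]
  ring

theorem t_FX1 : S_FX1 := by
  intro hCVB hTRB hPRB hANT g κ α hg hκ hα hTB
  obtain ⟨C, hC, hpr⟩ := hPRB hTRB hCVB g κ hg hκ hTB
  have hσ : (0 : ℝ) ≤ (1 + κ) / 2 := by linarith
  refine ⟨3 * C, by positivity, fun u A D hu hA hD hEn hEr => ?_⟩
  have hs : Real.sqrt D ^ 2 = D := Real.sq_sqrt hD
  have hs0 : 0 ≤ Real.sqrt D := Real.sqrt_nonneg D
  have hEσ : ∀ n, Er ((1 + κ) / 2) n u ≤ Real.sqrt D ^ 2 := fun n => by
    rw [hs]
    exact (fx1_er_le hα n hu.zero fun k i => le_rfl).trans (hEr n)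
  have hw0 : ∀ n, fx1_w n u 0 = 0 := fun n => (fx1_adm hu).zero
  have hwE : ∀ n N, En 0 N (fx1_w n u) ≤ A ^ 2 := fun n N => by
    rw [fx1_en_eq]
    refine (fx1_er_le le_rfl N (hw0 n) (fx1_norm_w n u)).trans ?_
    rw [← fx1_en_eq]
    exact hEn N
  have hwσ : ∀ n N, Er ((1 + κ) / 2) N (fx1_w n u) ≤ Real.sqrt D ^ 2 := fun n N =>
    (fx1_er_le le_rfl N (hw0 n) (fx1_norm_w n u)).trans (hEσ N)
  have hfx : ∀ n, |fx g n u| ≤ ‖pr g (2 * n + 2) u u (fx1_w n u)‖ := fun n => by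
    unfold fx
    rw [fx1_pr_eq g n (2 * n + 2) u le_rfl]
    exact Complex.abs_im_le_norm _
  refine ⟨fun n => ?_, ?_⟩
  · refine (hfx n).trans ((hpr u u (fx1_w n u) A A A (Real.sqrt D) (Real.sqrt D) (Real.sqrt D)
      hA hA hA hs0 hs0 hs0 hu hu (fx1_adm hu) hEn hEn (hwE n) hEσ hEσ (hwσ n) _).trans
      (le_of_eq ?_))
    have : A * Real.sqrt D * Real.sqrt D = A * D := by
      rw [mul_assoc, ← sq, hs]
    rw [this]
    ring
  · rw [Metric.tendsto_atTop]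
    intro ε hε
    obtain ⟨K, hK⟩ : ∃ K : ℝ, K = C * (2 * A * Real.sqrt D + D) := ⟨_, rfl⟩
    have hK0 : 0 ≤ K := by rw [hK]; positivity
    obtain ⟨η, hη, hηK⟩ : ∃ η : ℝ, 0 < η ∧ K * η < ε := by
      refine ⟨ε / (K + 1), by positivity, ?_⟩
      rw [mul_div_assoc', div_lt_iff₀ (by positivity)]
      nlinarith
    obtain ⟨n₀, hn₀⟩ := fx1_tail hEσ (show 0 < η ^ 2 by positivity)
    refine ⟨n₀, fun n hn => ?_⟩
    rw [Real.dist_eq, sub_zero]
    refine lt_of_le_of_lt (hfx n) (lt_of_le_of_lt ?_ hηK)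
    have hz := fx1_adm_sub hu (fx1_adm (n := n) hu)
    have h1 : ∀ M, Er ((1 + κ) / 2) M (u - fx1_w n u) ≤ η ^ 2 := hn₀ n hn
    have h2 : ∀ M, En 0 M (u - fx1_w n u) ≤ η ^ 2 := fun M => by
      rw [fx1_en_eq]
      exact (fx1_er_le hσ M hz.zero fun k i => le_rfl).trans (h1 M)
    have h3 := hANT hCVB hPRB hTRB g κ hg hκ hTB u u hu hu ⟨_, hEσ⟩ ⟨_, hEσ⟩
    have h4 : Tendsto (fun M => ‖pr g M u u u‖ + K * η) atTop (𝓝 (0 + K * η)) := by
      have := h3.norm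
      rw [norm_zero] at this
      exact this.add_const _
    rw [zero_add] at h4
    refine ge_of_tendsto h4 ?_
    filter_upwards [eventually_ge_atTop (2 * n + 2)] with M hM
    have e1 : pr g (2 * n + 2) u u (fx1_w n u) = pr g M u u (fx1_w n u) := by
      rw [← fx1_pr_eq g n (2 * n + 2) u le_rfl, ← fx1_pr_eq g n M u hM]
    have e2 : pr g M u u (fx1_w n u) = pr g M u u u - pr g M u u (u - fx1_w n u) := by
      rw [fx1_pr_sub]
      ring
    rw [e1, e2]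
    refine (norm_sub_le _ _).trans (add_le_add le_rfl ?_)
    refine (hpr u u (u - fx1_w n u) A A η (Real.sqrt D) (Real.sqrt D) η
      hA hA hη.le hs0 hs0 hη.le hu hu hz hEn hEn h2 hEσ hEσ h1 _).trans (le_of_eq ?_)
    rw [hK]
    have : η * Real.sqrt D * Real.sqrt D = η * D := by
      rw [mul_assoc, ← sq, hs]
    rw [this]
    ring

end Pool.Agent.N983.WK
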