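import Pool.Agent.N983.WK.Stm2
import Pool.Agent.N983.WK.FX1

set_option autoImplicit false

/-! (FZ1) transport does no work in the limit, random part. By helper106; the lemmas with the prefix
`fx1` are those of helper72 for (FX1). -/

namespace Pool.Agent.N983.WK

open MeasureTheory ProbabilityTheory Filter Topology Pool.Agent.N983.RT

lemma fz1_pr_eq (g : Wv → Wv → Wv → ℝ) (n M : ℕ) (v w : Fld) (hM : 2 * n + 2 ≤ M) :
    (∑ m ∈ cub (2 * n + 2), (ct n m : ℂ) * ∑ j, (starRingEnd ℂ) (w m j) * cv g v w m j) =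
      pr g M v w (fx1_w n w) := by
  unfold pr
  rw [← Finset.sum_sdiff (fx1_cub_mono hM)]
  have h1 : ∑ m ∈ cub M \ cub (2 * n + 2), ∑ j, (starRingEnd ℂ) (fx1_w n w m j) * cv g v w m j
      = 0 := by
    refine Finset.sum_eq_zero fun m hm => ?_
    have h2 : ct n m = 0 := fx1_ct_zero (Finset.mem_sdiff.1 hm).2
    refine Finset.sum_eq_zero fun j _ => ?_
    have h3 : fx1_w n w m j = 0 := by
      show (ct n m : ℂ) * w m j = 0
      rw [h2]
      simp
    rw [h3, map_zero, zero_mul]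
  rw [h1, zero_add]
  refine Finset.sum_congr rfl fun m _ => ?_
  rw [Finset.mul_sum]
  refine Finset.sum_congr rfl fun j _ => ?_
  show _ = (starRingEnd ℂ) ((ct n m : ℂ) * w m j) * _
  rw [map_mul, Complex.conj_ofReal]
  ring

theorem t_FZ1 : S_FZ1 := by
  intro hCVB hTRB hPRB hANT g κ α hg hκ hα hTB
  obtain ⟨C, hC, hpr⟩ := hPRB hTRB hCVB g κ hg hκ hTB
  have hσ : (0 : ℝ) ≤ (1 + κ) / 2 := by linarith
  refine ⟨3 * C, by positivity, fun v w A D hv hw hA hD hEv hEw hRv hRw => ?_⟩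
  have hs : Real.sqrt D ^ 2 = D := Real.sq_sqrt hD
  have hs0 : 0 ≤ Real.sqrt D := Real.sqrt_nonneg D
  have hσv : ∀ n, Er ((1 + κ) / 2) n v ≤ Real.sqrt D ^ 2 := fun n => by
    rw [hs]
    exact (fx1_er_le hα n hv.zero fun k i => le_rfl).trans (hRv n)
  have hσw : ∀ n, Er ((1 + κ) / 2) n w ≤ Real.sqrt D ^ 2 := fun n => by
    rw [hs]
    exact (fx1_er_le hα n hw.zero fun k i => le_rfl).trans (hRw n)
  have hw0 : ∀ n, fx1_w n w 0 = 0 := fun n => (fx1_adm hw).zero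
  have hwE : ∀ n N, En 0 N (fx1_w n w) ≤ A ^ 2 := fun n N => by
    rw [fx1_en_eq]
    refine (fx1_er_le le_rfl N (hw0 n) (fx1_norm_w n w)).trans ?_
    rw [← fx1_en_eq]
    exact hEw N
  have hwσ : ∀ n N, Er ((1 + κ) / 2) N (fx1_w n w) ≤ Real.sqrt D ^ 2 := fun n N =>
    (fx1_er_le le_rfl N (hw0 n) (fx1_norm_w n w)).trans (hσw N)
  have hfz : ∀ n, |fz g n v w| ≤ ‖pr g (2 * n + 2) v w (fx1_w n w)‖ := fun n => by
    unfold fz
    rw [fz1_pr_eq g n (2 * n + 2) v w le_rfl]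
    exact Complex.abs_im_le_norm _
  refine ⟨fun n => ?_, ?_⟩
  · refine (hfz n).trans ((hpr v w (fx1_w n w) A A A (Real.sqrt D) (Real.sqrt D) (Real.sqrt D)
      hA hA hA hs0 hs0 hs0 hv hw (fx1_adm hw) hEv hEw (hwE n) hσv hσw (hwσ n) _).trans
      (le_of_eq ?_))
    have : A * Real.sqrt D * Real.sqrt D = A * D := by
      rw [mul_assoc, ← sq, hs]
    rw [this]
    ring
  · rw [Metric.tendsto_atTop]
    intro ε hε
    obtain ⟨K, hK⟩ : ∃ K : ℝ, K = C * (2 * A * Real.sqrt D + D) := ⟨_, rfl⟩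
    have hK0 : 0 ≤ K := by rw [hK]; positivity
    obtain ⟨η, hη, hηK⟩ : ∃ η : ℝ, 0 < η ∧ K * η < ε := by
      refine ⟨ε / (K + 1), by positivity, ?_⟩
      rw [mul_div_assoc', div_lt_iff₀ (by positivity)]
      nlinarith
    obtain ⟨n₀, hn₀⟩ := fx1_tail hσw (show 0 < η ^ 2 by positivity)
    refine ⟨n₀, fun n hn => ?_⟩
    rw [Real.dist_eq, sub_zero]
    refine lt_of_le_of_lt (hfz n) (lt_of_le_of_lt ?_ hηK)
    have hz := fx1_adm_sub hw (fx1_adm (n := n) hw)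
    have h1 : ∀ M, Er ((1 + κ) / 2) M (w - fx1_w n w) ≤ η ^ 2 := hn₀ n hn
    have h2 : ∀ M, En 0 M (w - fx1_w n w) ≤ η ^ 2 := fun M => by
      rw [fx1_en_eq]
      exact (fx1_er_le hσ M hz.zero fun k i => le_rfl).trans (h1 M)
    have h3 := hANT hCVB hPRB hTRB g κ hg hκ hTB v w hv hw ⟨_, hσv⟩ ⟨_, hσw⟩
    have h4 : Tendsto (fun M => ‖pr g M v w w‖ + K * η) atTop (𝓝 (0 + K * η)) := by
      have := h3.norm
      rw [norm_zero] at this
      exact this.add_const _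
    rw [zero_add] at h4
    refine ge_of_tendsto h4 ?_
    filter_upwards [eventually_ge_atTop (2 * n + 2)] with M hM
    have e1 : pr g (2 * n + 2) v w (fx1_w n w) = pr g M v w (fx1_w n w) := by
      rw [← fz1_pr_eq g n (2 * n + 2) v w le_rfl, ← fz1_pr_eq g n M v w hM]
    have e2 : pr g M v w (fx1_w n w) = pr g M v w w - pr g M v w (w - fx1_w n w) := by
      rw [fx1_pr_sub]
      ring
    rw [e1, e2]
    refine (norm_sub_le _ _).trans (add_le_add le_rfl ?_)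
    refine (hpr v w (w - fx1_w n w) A A η (Real.sqrt D) (Real.sqrt D) η
      hA hA hη.le hs0 hs0 hη.le hv hw hz hEv hEw h2 hσv hσw h1 _).trans (le_of_eq ?_)
    rw [hK]
    have : η * Real.sqrt D * Real.sqrt D = η * D := by
      rw [mul_assoc, ← sq, hs]
    rw [this]
    ring

end Pool.Agent.N983.WK
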