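import Pool.Agent.N983.WK.Stm2
import Pool.Agent.N983.RT.PNT

set_option autoImplicit false

/-! (FZ2) transport does no work, deterministic part (helper2 for helper983) -/

namespace Pool.Agent.N983.WK

open Pool.Agent.N983.RT Filter Topology

/-! ### the cutoff -/

theorem fz2_ct_eq (n : ℕ) (m : Wv) : ct n m = max 0 (min 1 (2 - pnt_L m / ((n : ℝ) + 1))) := rfl

theorem fz2_ct_neg (n : ℕ) (m : Wv) : ct n (-m) = ct n m := by
  unfold ct
  rw [pnt_nsq_neg]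

theorem fz2_ct_nonneg (n : ℕ) (m : Wv) : 0 ≤ ct n m := le_max_left _ _

theorem fz2_ct_le (n : ℕ) (m : Wv) : ct n m ≤ 1 := max_le zero_le_one (min_le_left _ _)

theorem fz2_ct_zero (n : ℕ) (m : Wv) (h : 2 * ((n : ℝ) + 1) ≤ pnt_L m) : ct n m = 0 := by
  rw [fz2_ct_eq]
  have hn : (0 : ℝ) < n + 1 := by positivity
  have h1 : 2 ≤ pnt_L m / ((n : ℝ) + 1) := by
    rw [le_div_iff₀ hn]
    exact h
  exact max_eq_left ((min_le_right _ _).trans (by linarith))

theorem fz2_ct_out (n : ℕ) (m : Wv) (h : m ∉ cub (2 * n + 2)) : ct n m = 0 := by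
  apply fz2_ct_zero
  rw [alg_mem] at h
  push Not at h
  obtain ⟨i, hi⟩ := h
  have h1 : (2 * (n : ℝ) + 2) ^ 2 ≤ (m i : ℝ) ^ 2 := by
    by_cases h2 : -((2 * n + 2 : ℕ) : ℤ) ≤ m i
    · have h3 := hi h2
      have h4 : ((2 * n + 2 : ℕ) : ℝ) < (m i : ℝ) := by exact_mod_cast h3
      push_cast at h4
      have : (0 : ℝ) ≤ n := Nat.cast_nonneg n
      nlinarith
    · push Not at h2
      have h4 : (m i : ℝ) < -((2 * n + 2 : ℕ) : ℝ) := by exact_mod_cast h2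
      push_cast at h4
      have : (0 : ℝ) ≤ n := Nat.cast_nonneg n
      nlinarith
  have h2 := h1.trans (lat_nsq_ge m i)
  have h3 : 2 * ((n : ℝ) + 1) = Real.sqrt ((2 * (n : ℝ) + 2) ^ 2) := by
    rw [Real.sqrt_sq (by positivity)]
    ring
  rw [h3]
  exact Real.sqrt_le_sqrt h2

theorem fz2_ct_lip (n : ℕ) (p l : Wv) :
    |ct n p - ct n l| ≤ |pnt_L p - pnt_L l| / ((n : ℝ) + 1) := by
  have hn : (0 : ℝ) < n + 1 := by positivity
  rw [fz2_ct_eq, fz2_ct_eq]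
  have h1 : ∀ x y : ℝ, |max 0 (min 1 x) - max 0 (min 1 y)| ≤ |x - y| := by
    intro x y
    have a1 := le_abs_self (x - y)
    have a2 := neg_abs_le (x - y)
    have a3 := abs_nonneg (x - y)
    rw [abs_le]
    rcases max_cases 0 (min 1 x) with h | h <;> rcases max_cases 0 (min 1 y) with h' | h' <;>
      rcases min_cases 1 x with h'' | h'' <;> rcases min_cases 1 y with h''' | h''' <;>
      constructor <;> linarith [h.1, h.2, h'.1, h'.2, h''.1, h''.2, h'''.1, h'''.2]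
  refine (h1 _ _).trans (le_of_eq ?_)
  rw [← abs_of_pos hn, ← abs_div, abs_of_pos hn, ← abs_neg]
  congr 1
  ring

theorem fz2_ct_tendsto (m : Wv) : Tendsto (fun n => ct n m) atTop (𝓝 1) := by
  have h1 : ∀ᶠ n : ℕ in atTop, ct n m = 1 := by
    obtain ⟨N, hN⟩ := exists_nat_ge (pnt_L m)
    filter_upwards [eventually_ge_atTop N] with n hn
    have hn1 : (0 : ℝ) < (n : ℝ) + 1 := by positivity
    have h2 : pnt_L m / ((n : ℝ) + 1) ≤ 1 := by
      rw [div_le_one hn1]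
      have : (N : ℝ) ≤ n := by exact_mod_cast hn
      linarith
    rw [fz2_ct_eq, min_eq_left (by linarith), max_eq_right zero_le_one]
  exact tendsto_const_nhds.congr' (EventuallyEq.symm h1)

/-! ### the pointwise bound -/

theorem fz2_diff {v : Fld} (hv : Adm v) (n : ℕ) {k l p : Wv} (h : k + l + p = 0) :
    |ct n p - ct n l| * ‖dt (v k) l‖ ≤ 4 * (Real.sqrt (mn k l p) * pnt_U v k) := by
  have hU := pnt_U_nonneg v k
  have hrnn : 0 ≤ Real.sqrt (mn k l p) := Real.sqrt_nonneg _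
  have hd : |ct n p - ct n l| ≤ 1 := by
    have a1 := fz2_ct_nonneg n p
    have a2 := fz2_ct_nonneg n l
    have a3 := fz2_ct_le n p
    have a4 := fz2_ct_le n l
    rw [abs_le]
    constructor <;> linarith
  have key : ‖dt (v k) l‖ ≤ pnt_U v k * Real.sqrt (mn k l p) →
      |ct n p - ct n l| * ‖dt (v k) l‖ ≤ 4 * (Real.sqrt (mn k l p) * pnt_U v k) := by
    intro h1
    have h2 : |ct n p - ct n l| * ‖dt (v k) l‖ ≤ 1 * (pnt_U v k * Real.sqrt (mn k l p)) :=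
      mul_le_mul hd h1 (norm_nonneg _) zero_le_one
    have h3 : 0 ≤ Real.sqrt (mn k l p) * pnt_U v k := by positivity
    nlinarith
  by_cases c1 : nsq k ≤ nsq l ∧ nsq k ≤ nsq p
  · have hmn : mn k l p = nsq k := min_eq_left (le_min c1.1 c1.2)
    have hr : Real.sqrt (mn k l p) = pnt_L k := by rw [hmn]; rfl
    have hLkp : pnt_L k ≤ pnt_L p := Real.sqrt_le_sqrt c1.2
    have hLk := pnt_L_nonneg k
    have hLl := pnt_L_nonneg l
    have t1 : pnt_L p ≤ pnt_L k + pnt_L l := pnt_tri h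
    have t2 : pnt_L l ≤ pnt_L k + pnt_L p := pnt_tri (by rw [← h]; abel)
    have hn : (0 : ℝ) < (n : ℝ) + 1 := by positivity
    rw [hr]
    by_cases c3 : 2 * ((n : ℝ) + 1) ≤ pnt_L p ∧ 2 * ((n : ℝ) + 1) ≤ pnt_L l
    · rw [fz2_ct_zero n p c3.1, fz2_ct_zero n l c3.2, sub_self, abs_zero, zero_mul]
      positivity
    · have hl4 : pnt_L l ≤ 4 * ((n : ℝ) + 1) := by
        by_cases c4 : 2 * ((n : ℝ) + 1) ≤ pnt_L p
        · have c5 : ¬ 2 * ((n : ℝ) + 1) ≤ pnt_L l := fun hc => c3 ⟨c4, hc⟩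
          push Not at c5
          linarith
        · push Not at c4
          linarith
      have h1 : |ct n p - ct n l| ≤ pnt_L k / ((n : ℝ) + 1) := by
        refine (fz2_ct_lip n p l).trans ?_
        refine div_le_div_of_nonneg_right ?_ hn.le
        rw [abs_le]
        constructor <;> linarith
      have h2 : ‖dt (v k) l‖ ≤ pnt_U v k * (4 * ((n : ℝ) + 1)) :=
        (pnt_dt v k l).trans (mul_le_mul_of_nonneg_left hl4 hU)
      calc |ct n p - ct n l| * ‖dt (v k) l‖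
          ≤ (pnt_L k / ((n : ℝ) + 1)) * (pnt_U v k * (4 * ((n : ℝ) + 1))) :=
            mul_le_mul h1 h2 (norm_nonneg _) (by positivity)
        _ = 4 * (pnt_L k * pnt_U v k) := by
            field_simp
  · by_cases c2 : nsq l ≤ nsq p
    · have hlk : nsq l ≤ nsq k := by
        by_contra hc
        push Not at hc
        exact c1 ⟨hc.le, hc.le.trans c2⟩
      have hmn : mn k l p = nsq l := by
        rw [pnt_mn12]
        exact min_eq_left (le_min hlk c2)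
      apply key
      rw [hmn]
      exact pnt_dt v k l
    · push Not at c2
      have hmk : nsq p ≤ nsq k := by
        by_contra hc
        push Not at hc
        exact c1 ⟨(hc.trans c2).le, hc.le⟩
      have hmn : mn k l p = nsq p := by
        rw [pnt_mn23, pnt_mn12]
        exact min_eq_left (le_min hmk c2.le)
      apply key
      rw [hmn]
      have e : l = -(k + p) := by
        rw [eq_neg_iff_add_eq_zero, ← h]
        abel
      have e2 : dt (v k) l = -dt (v k) p := by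
        rw [e, alg_dt_neg, alg_dt_add, hv.div k, zero_add]
      rw [e2, norm_neg]
      exact pnt_dt v k p

/-- three fields -/
theorem fz2_three {γ t : ℝ} (ht : 0 ≤ t) (u v w : Fld) {k l m : Wv} (h : k + l + m = 0)
    (hk : k ≠ 0) (hl : l ≠ 0) (hm : m ≠ 0) :
    mx k l m ^ t * mn k l m ^ (-γ) * (pnt_U u k * pnt_U v l * pnt_U w m) ≤
      (4 : ℝ) ^ t * (pnt_a γ u k * pnt_e t v l * pnt_e t w m + pnt_e t u k * pnt_a γ v l *
        pnt_e t w m + pnt_e t u k * pnt_e t v l * pnt_a γ w m) := by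
  have h1 := pnt_three (γ := γ) (fun _ i => if i = 0 then 1 else 0) ht h hk hl hm
  have hU : ∀ q : Wv, pnt_U (fun _ i => if i = 0 then 1 else 0) q = 1 := by
    intro q
    unfold pnt_U
    simp [Fin.sum_univ_three]
  unfold pnt_a pnt_e at h1 ⊢
  rw [hU, hU, hU] at h1
  rw [if_neg hk, if_neg hl, if_neg hm] at h1 ⊢
  have h2 : 0 ≤ pnt_U u k * pnt_U v l * pnt_U w m :=
    mul_nonneg (mul_nonneg (pnt_U_nonneg u k) (pnt_U_nonneg v l)) (pnt_U_nonneg w m)
  have h3 := mul_le_mul_of_nonneg_right h1 h2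
  refine le_trans (le_of_eq ?_) (h3.trans (le_of_eq ?_))
  · ring
  · ring

/-- the summand -/
noncomputable def fz2_T (g : Wv → Wv → Wv → ℝ) (v w : Fld) (k l : Wv) : ℂ :=
  (g k l (-(k + l)) : ℂ) * dt (v k) l * ∑ j, w l j * w (-(k + l)) j

theorem fz2_T_swap {g : Wv → Wv → Wv → ℝ} (hg : Arr g) {v w : Fld} (hv : Adm v) (k l : Wv) :
    fz2_T g v w k (-(k + l)) = - fz2_T g v w k l := by
  unfold fz2_T
  have e : -(k + -(k + l)) = l := by abel
  have e3 : dt (v k) (-(k + l)) = -dt (v k) l := by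
    rw [alg_dt_neg, alg_dt_add, hv.div k, zero_add]
  have h3 : ∑ j, w (-(k + l)) j * w l j = ∑ j, w l j * w (-(k + l)) j :=
    Finset.sum_congr rfl fun j _ => mul_comm _ _
  rw [e, e3, hg.swap23 k (-(k + l)) l, h3]
  ring

/-- the majorant -/
noncomputable def fz2_M (γ t : ℝ) (v w : Fld) (k l : Wv) : ℝ :=
  pnt_a γ v k * pnt_e t w l * pnt_e t w (-(k + l)) +
    pnt_e t v k * pnt_a γ w l * pnt_e t w (-(k + l)) +
    pnt_e t v k * pnt_e t w l * pnt_a γ w (-(k + l))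

theorem fz2_M_nonneg (γ t : ℝ) (v w : Fld) (k l : Wv) : 0 ≤ fz2_M γ t v w k l := by
  unfold fz2_M
  have ak := pnt_a_nonneg γ v k
  have al := pnt_a_nonneg γ w l
  have am := pnt_a_nonneg γ w (-(k + l))
  have ek := pnt_e_nonneg t v k
  have el := pnt_e_nonneg t w l
  have em := pnt_e_nonneg t w (-(k + l))
  positivity

theorem fz2_pt {g : Wv → Wv → Wv → ℝ} {B β α : ℝ} (hB : 0 ≤ B) (hα : 0 < α)
    (hβ : β < α) (hgb : ∀ k l m, k ≠ 0 → l ≠ 0 → m ≠ 0 → k + l + m = 0 →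
      |g k l m| * mn k l m ^ (5 / 4 : ℝ) ≤ B * mx k l m ^ β) {v w : Fld} (hv : Adm v) (hw : Adm w)
    (n : ℕ) (k l : Wv) :
    ‖((ct n (k + l) : ℂ) - (ct n l : ℂ)) * fz2_T g v w k l‖ ≤
      4 * B * (4 : ℝ) ^ α * fz2_M (3 / 4 + (α - β)) α v w k l := by
  have hnn : 0 ≤ 4 * B * (4 : ℝ) ^ α * fz2_M (3 / 4 + (α - β)) α v w k l := by
    have := fz2_M_nonneg (3 / 4 + (α - β)) α v w k l
    positivity
  by_cases hk : k = 0
  · have : fz2_T g v w k l = 0 := by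
      unfold fz2_T dt
      rw [hk, hv.zero]
      simp
    rw [this, mul_zero, norm_zero]
    exact hnn
  by_cases hl : l = 0
  · have : fz2_T g v w k l = 0 := by
      unfold fz2_T
      rw [hl, hw.zero]
      simp
    rw [this, mul_zero, norm_zero]
    exact hnn
  by_cases hm : -(k + l) = 0
  · have : fz2_T g v w k l = 0 := by
      unfold fz2_T
      rw [hm, hw.zero]
      simp
    rw [this, mul_zero, norm_zero]
    exact hnn
  unfold fz2_M
  have hct : ct n (k + l) = ct n (-(k + l)) := (fz2_ct_neg n (k + l)).symm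
  rw [hct]
  unfold fz2_T
  set m : Wv := -(k + l) with hmdef
  have hsum : k + l + m = 0 := by rw [hmdef]; abel
  have hmn1 : 1 ≤ mn k l m := le_min (lat_nsq_one hk) (le_min (lat_nsq_one hl) (lat_nsq_one hm))
  have hmnp : 0 < mn k l m := by linarith
  have hmnmx : mn k l m ≤ mx k l m := (min_le_left _ _).trans (le_max_left _ _)
  have hmxp : 0 < mx k l m := by linarith
  have e1 : ‖((ct n m : ℂ) - (ct n l : ℂ)) * ((g k l m : ℂ) * dt (v k) l * ∑ j, w l j * w m j)‖ =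
      |g k l m| * (|ct n m - ct n l| * ‖dt (v k) l‖) * ‖∑ j, w l j * w m j‖ := by
    rw [norm_mul, norm_mul, norm_mul, Complex.norm_real, Real.norm_eq_abs, ← Complex.ofReal_sub,
      Complex.norm_real, Real.norm_eq_abs]
    ring
  have h1 := fz2_diff hv n hsum
  have h2 := pnt_uu w l m
  have h3 := hgb k l m hk hl hm hsum
  have hUk := pnt_U_nonneg v k
  have hUl := pnt_U_nonneg w l
  have hUm := pnt_U_nonneg w m
  have h4 : |g k l m| * Real.sqrt (mn k l m) ≤ B * mx k l m ^ β * mn k l m ^ (-(3 / 4) : ℝ) := by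
    have e3 : Real.sqrt (mn k l m) = mn k l m ^ (5 / 4 : ℝ) * mn k l m ^ (-(3 / 4) : ℝ) := by
      rw [← Real.rpow_add hmnp, Real.sqrt_eq_rpow]
      norm_num
    rw [e3, ← mul_assoc]
    exact mul_le_mul_of_nonneg_right h3 (by positivity)
  have h5 : mx k l m ^ β * mn k l m ^ (-(3 / 4) : ℝ) ≤
      mx k l m ^ α * mn k l m ^ (-(3 / 4 + (α - β))) := by
    have e4 : mx k l m ^ β * mn k l m ^ (-(3 / 4) : ℝ) =
        mx k l m ^ α * mn k l m ^ (-(3 / 4) : ℝ) * mx k l m ^ (-(α - β)) := by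
      have e5 : mx k l m ^ α * mx k l m ^ (-(α - β)) = mx k l m ^ β := by
        rw [← Real.rpow_add hmxp]
        congr 1
        ring
      rw [← e5]
      ring
    have e6 : mn k l m ^ (-(3 / 4 + (α - β))) =
        mn k l m ^ (-(3 / 4) : ℝ) * mn k l m ^ (-(α - β)) := by
      rw [← Real.rpow_add hmnp]
      congr 1
      ring
    rw [e4, e6, ← mul_assoc]
    refine mul_le_mul_of_nonneg_left ?_ (by positivity)
    exact Real.rpow_le_rpow_of_nonpos hmnp hmnmx (by linarith)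
  have h6 := fz2_three (γ := 3 / 4 + (α - β)) hα.le v w w hsum hk hl hm
  rw [e1]
  calc |g k l m| * (|ct n m - ct n l| * ‖dt (v k) l‖) * ‖∑ j, w l j * w m j‖
      ≤ |g k l m| * (4 * (Real.sqrt (mn k l m) * pnt_U v k)) * (pnt_U w l * pnt_U w m) := by
        refine mul_le_mul (mul_le_mul_of_nonneg_left h1 (abs_nonneg _)) h2 (norm_nonneg _) ?_
        positivity
    _ = 4 * (|g k l m| * Real.sqrt (mn k l m)) * (pnt_U v k * pnt_U w l * pnt_U w m) := by ring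
    _ ≤ 4 * (B * mx k l m ^ β * mn k l m ^ (-(3 / 4) : ℝ)) *
          (pnt_U v k * pnt_U w l * pnt_U w m) := by gcongr
    _ = 4 * B * (mx k l m ^ β * mn k l m ^ (-(3 / 4) : ℝ)) *
          (pnt_U v k * pnt_U w l * pnt_U w m) := by ring
    _ ≤ 4 * B * (mx k l m ^ α * mn k l m ^ (-(3 / 4 + (α - β)))) *
          (pnt_U v k * pnt_U w l * pnt_U w m) := by gcongr
    _ = 4 * B * (mx k l m ^ α * mn k l m ^ (-(3 / 4 + (α - β))) *
          (pnt_U v k * pnt_U w l * pnt_U w m)) := by ring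
    _ ≤ 4 * B * ((4 : ℝ) ^ α * (pnt_a (3 / 4 + (α - β)) v k * pnt_e α w l * pnt_e α w m +
          pnt_e α v k * pnt_a (3 / 4 + (α - β)) w l * pnt_e α w m +
          pnt_e α v k * pnt_e α w l * pnt_a (3 / 4 + (α - β)) w m)) := by gcongr
    _ = _ := by ring

/-! ### summability -/

theorem fz2_mem (k : Wv) : ∃ N : ℕ, ∀ n, N ≤ n → k ∈ cub n := by
  refine ⟨∑ i, (k i).natAbs, fun n hn => ?_⟩
  rw [alg_mem]
  intro i
  have h1 : (k i).natAbs ≤ ∑ i, (k i).natAbs :=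
    Finset.single_le_sum (f := fun i => (k i).natAbs) (fun i _ => Nat.zero_le _)
      (Finset.mem_univ i)
  have h2 : (k i).natAbs ≤ n := h1.trans hn
  omega

theorem fz2_sub (s : Finset Wv) : ∃ N : ℕ, s ⊆ cub N := by
  classical
  induction s using Finset.induction_on with
  | empty => exact ⟨0, Finset.empty_subset _⟩
  | insert k s _ ih =>
    obtain ⟨N, hN⟩ := ih
    obtain ⟨M, hM⟩ := fz2_mem k
    refine ⟨max N M, ?_⟩
    intro x hx
    rcases Finset.mem_insert.1 hx with rfl | hx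
    · exact hM _ (le_max_right _ _)
    · have h1 := hN hx
      rw [alg_mem] at h1 ⊢
      intro i
      have := h1 i
      have h3 : N ≤ max N M := le_max_left _ _
      generalize max N M = Q at h3
      omega

theorem fz2_summable {f : Wv → ℝ} {c : ℝ} (hf : ∀ k, 0 ≤ f k)
    (h : ∀ n, ∑ k ∈ cub n, f k ≤ c) : Summable f ∧ ∑' k, f k ≤ c := by
  have h1 : ∀ s : Finset Wv, ∑ k ∈ s, f k ≤ c := by
    intro s
    obtain ⟨N, hN⟩ := fz2_sub s
    exact (Finset.sum_le_sum_of_subset_of_nonneg hN fun k _ _ => hf k).trans (h N)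
  have h2 : Summable f := summable_of_sum_le hf h1
  exact ⟨h2, h2.tsum_le_of_sum_le h1⟩

/-- the map `(k, l) ↦ (k, -(k + l))` -/
def fz2_σ : Wv × Wv ≃ Wv × Wv where
  toFun x := (x.1, -(x.1 + x.2))
  invFun x := (x.1, -(x.1 + x.2))
  left_inv x := by
    apply Prod.ext
    · rfl
    · show -(x.1 + -(x.1 + x.2)) = x.2
      abel
  right_inv x := by
    apply Prod.ext
    · rfl
    · show -(x.1 + -(x.1 + x.2)) = x.2
      abel

/-- the map `(k, l) ↦ (k + l, k)` -/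
def fz2_τ : Wv × Wv ≃ Wv × Wv where
  toFun x := (x.1 + x.2, x.1)
  invFun x := (x.2, x.1 - x.2)
  left_inv x := by
    apply Prod.ext
    · rfl
    · show x.1 + x.2 - x.1 = x.2
      abel
  right_inv x := by
    apply Prod.ext
    · show x.2 + (x.1 - x.2) = x.1
      abel
    · rfl

/-- the basic sum -/
theorem fz2_basic {a e f : Wv → ℝ} {A D : ℝ} (ha : ∀ k, 0 ≤ a k) (he : ∀ k, 0 ≤ e k)
    (hf : ∀ k, 0 ≤ f k) (h1 : Summable a ∧ ∑' k, a k ≤ A)
    (h2 : Summable (fun k => e k ^ 2) ∧ ∑' k, e k ^ 2 ≤ D)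
    (h3 : Summable (fun k => f k ^ 2) ∧ ∑' k, f k ^ 2 ≤ D) :
    Summable (fun x : Wv × Wv => a x.1 * e x.2 * f (-(x.1 + x.2))) ∧
      ∑' x : Wv × Wv, a x.1 * e x.2 * f (-(x.1 + x.2)) ≤ A * D := by
  have s1 : Summable (fun x : Wv × Wv => a x.1 * e x.2 ^ 2) :=
    h1.1.mul_of_nonneg h2.1 ha fun k => sq_nonneg _
  have s2 : Summable (fun x : Wv × Wv => a x.1 * f x.2 ^ 2) :=
    h1.1.mul_of_nonneg h3.1 ha fun k => sq_nonneg _
  have s3 : Summable (fun x : Wv × Wv => a x.1 * f (-(x.1 + x.2)) ^ 2) :=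
    (fz2_σ.summable_iff (f := fun x : Wv × Wv => a x.1 * f x.2 ^ 2)).2 s2
  have t1 : ∑' x : Wv × Wv, a x.1 * e x.2 ^ 2 ≤ A * D := by
    rw [← h1.1.tsum_mul_tsum h2.1 s1]
    exact mul_le_mul h1.2 h2.2 (tsum_nonneg fun k => sq_nonneg _)
      ((tsum_nonneg ha).trans h1.2)
  have t2 : ∑' x : Wv × Wv, a x.1 * f x.2 ^ 2 ≤ A * D := by
    rw [← h1.1.tsum_mul_tsum h3.1 s2]
    exact mul_le_mul h1.2 h3.2 (tsum_nonneg fun k => sq_nonneg _)
      ((tsum_nonneg ha).trans h1.2)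
  have t3 : ∑' x : Wv × Wv, a x.1 * f (-(x.1 + x.2)) ^ 2 ≤ A * D := by
    rw [← fz2_σ.tsum_eq] at t2
    exact t2
  have s4 : Summable (fun x : Wv × Wv => (1 / 2) * (a x.1 * e x.2 ^ 2) +
      (1 / 2) * (a x.1 * f (-(x.1 + x.2)) ^ 2)) := (s1.mul_left _).add (s3.mul_left _)
  have hle : ∀ x : Wv × Wv, a x.1 * e x.2 * f (-(x.1 + x.2)) ≤ (1 / 2) * (a x.1 * e x.2 ^ 2) +
      (1 / 2) * (a x.1 * f (-(x.1 + x.2)) ^ 2) := by
    intro x
    have := mul_nonneg (ha x.1) (sq_nonneg (e x.2 - f (-(x.1 + x.2))))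
    nlinarith
  have hnn : ∀ x : Wv × Wv, 0 ≤ a x.1 * e x.2 * f (-(x.1 + x.2)) := fun x =>
    mul_nonneg (mul_nonneg (ha _) (he _)) (hf _)
  have s5 := Summable.of_nonneg_of_le hnn hle s4
  refine ⟨s5, ?_⟩
  refine (s5.tsum_le_tsum hle s4).trans ?_
  rw [(s1.mul_left _).tsum_add (s3.mul_left _), tsum_mul_left, tsum_mul_left]
  linarith

/-- the map `(k, l) ↦ (-(k + l), k)` -/
def fz2_ρ : Wv × Wv ≃ Wv × Wv where
  toFun x := (-(x.1 + x.2), x.1)
  invFun x := (x.2, -(x.1 + x.2))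
  left_inv x := by
    apply Prod.ext
    · rfl
    · show -(-(x.1 + x.2) + x.1) = x.2
      abel
  right_inv x := by
    apply Prod.ext
    · show -(x.2 + -(x.1 + x.2)) = x.1
      abel
    · rfl

/-- the sum of the majorant -/
theorem fz2_majorant {γ t : ℝ} (hγ : 3 / 4 < γ) : ∃ S : ℝ, 0 ≤ S ∧ ∀ (v w : Fld) (A D : ℝ),
    Adm v → Adm w → 0 ≤ A → (∀ n, En 0 n v ≤ A ^ 2) → (∀ n, En 0 n w ≤ A ^ 2) →
    (∀ n, Er t n v ≤ D) → (∀ n, Er t n w ≤ D) →
    Summable (fun x : Wv × Wv => fz2_M γ t v w x.1 x.2) ∧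
      ∑' x : Wv × Wv, fz2_M γ t v w x.1 x.2 ≤ 3 * (S * A * D) := by
  obtain ⟨S, hS0, hS⟩ := pnt_a_sum hγ
  refine ⟨S, hS0, fun v w A D hv hw hA ev ew dv dw => ?_⟩
  have aux : ∀ u : Fld, (∀ n, En 0 n u ≤ A ^ 2) →
      Summable (pnt_a γ u) ∧ ∑' k, pnt_a γ u k ≤ S * A := by
    intro u hu
    refine fz2_summable (pnt_a_nonneg γ u) fun n => (hS n u).trans ?_
    refine mul_le_mul_of_nonneg_left ?_ hS0
    calc Real.sqrt (En 0 n u) ≤ Real.sqrt (A ^ 2) := Real.sqrt_le_sqrt (hu n)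
      _ = A := Real.sqrt_sq hA
  have aux2 : ∀ u : Fld, Adm u → (∀ n, Er t n u ≤ D) →
      Summable (fun k => pnt_e t u k ^ 2) ∧ ∑' k, pnt_e t u k ^ 2 ≤ D := by
    intro u hu hD
    refine fz2_summable (fun k => sq_nonneg _) fun n => ?_
    rw [pnt_e_sum t n u hu.zero]
    exact hD n
  have b1 := fz2_basic (pnt_a_nonneg γ v) (pnt_e_nonneg t w) (pnt_e_nonneg t w) (aux v ev)
    (aux2 w hw dw) (aux2 w hw dw)
  have b2 := fz2_basic (pnt_a_nonneg γ w) (pnt_e_nonneg t v) (pnt_e_nonneg t w) (aux w ew)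
    (aux2 v hv dv) (aux2 w hw dw)
  have c2 : Summable (fun x : Wv × Wv => pnt_e t v x.1 * pnt_a γ w x.2 *
      pnt_e t w (-(x.1 + x.2))) ∧ ∑' x : Wv × Wv, pnt_e t v x.1 * pnt_a γ w x.2 *
      pnt_e t w (-(x.1 + x.2)) ≤ S * A * D := by
    have e : (fun x : Wv × Wv => pnt_e t v x.1 * pnt_a γ w x.2 * pnt_e t w (-(x.1 + x.2))) =
        (fun x : Wv × Wv => pnt_a γ w x.1 * pnt_e t v x.2 * pnt_e t w (-(x.1 + x.2))) ∘
          (Equiv.prodComm Wv Wv) := by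
      funext x
      show pnt_e t v x.1 * pnt_a γ w x.2 * pnt_e t w (-(x.1 + x.2)) =
        pnt_a γ w x.2 * pnt_e t v x.1 * pnt_e t w (-(x.2 + x.1))
      rw [add_comm x.2 x.1]
      ring
    constructor
    · rw [e, (Equiv.prodComm Wv Wv).summable_iff]
      exact b2.1
    · refine le_trans (le_of_eq ?_) b2.2
      rw [← (Equiv.prodComm Wv Wv).tsum_eq (fun x : Wv × Wv => pnt_a γ w x.1 * pnt_e t v x.2 *
        pnt_e t w (-(x.1 + x.2)))]
      exact tsum_congr fun x => congrFun e x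
  have c3 : Summable (fun x : Wv × Wv => pnt_e t v x.1 * pnt_e t w x.2 *
      pnt_a γ w (-(x.1 + x.2))) ∧ ∑' x : Wv × Wv, pnt_e t v x.1 * pnt_e t w x.2 *
      pnt_a γ w (-(x.1 + x.2)) ≤ S * A * D := by
    have e : (fun x : Wv × Wv => pnt_e t v x.1 * pnt_e t w x.2 * pnt_a γ w (-(x.1 + x.2))) =
        (fun x : Wv × Wv => pnt_a γ w x.1 * pnt_e t v x.2 * pnt_e t w (-(x.1 + x.2))) ∘
          fz2_ρ := by
      funext x
      show pnt_e t v x.1 * pnt_e t w x.2 * pnt_a γ w (-(x.1 + x.2)) =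
        pnt_a γ w (-(x.1 + x.2)) * pnt_e t v x.1 * pnt_e t w (-(-(x.1 + x.2) + x.1))
      have e1 : -(-(x.1 + x.2) + x.1) = x.2 := by abel
      rw [e1]
      ring
    constructor
    · rw [e, fz2_ρ.summable_iff]
      exact b2.1
    · refine le_trans (le_of_eq ?_) b2.2
      rw [← fz2_ρ.tsum_eq (fun x : Wv × Wv => pnt_a γ w x.1 * pnt_e t v x.2 *
        pnt_e t w (-(x.1 + x.2)))]
      exact tsum_congr fun x => congrFun e x
  unfold fz2_M
  refine ⟨(b1.1.add c2.1).add c3.1, ?_⟩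
  rw [(b1.1.add c2.1).tsum_add c3.1, b1.1.tsum_add c2.1]
  linarith [b1.2, c2.2, c3.2]

/-- the work as a sum over pairs -/
theorem fz2_Z (hCVB : S_CVB) {g : Wv → Wv → Wv → ℝ} (hg : Arr g) {v w : Fld} {A : ℝ}
    (hA : 0 ≤ A) (hv : Adm v) (hw : Adm w) (ev : ∀ n, En 0 n v ≤ A ^ 2)
    (ew : ∀ n, En 0 n w ≤ A ^ 2) (n : ℕ) :
    Summable (fun x : Wv × Wv => (ct n (x.1 + x.2) : ℂ) * fz2_T g v w x.1 x.2) ∧
    ∑' x : Wv × Wv, (ct n (x.1 + x.2) : ℂ) * fz2_T g v w x.1 x.2 =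
      ∑ m ∈ cub (2 * n + 2), (ct n m : ℂ) * ∑ j, (starRingEnd ℂ) (w m j) * cv g v w m j := by
  obtain ⟨K', _, hK⟩ := hCVB
  have hs : ∀ m j, Summable (fun k => (g k (m - k) (-m) : ℂ) * dt (v k) (m - k) * w (m - k) j) :=
    fun m j => (hK g v w A A hg.le hA hA hv.div ev ew m j).1
  have hT : ∀ m, HasSum (fun k => fz2_T g v w k (m - k))
      (∑ j, (starRingEnd ℂ) (w m j) * cv g v w m j) := by
    intro m
    have h1 : HasSum (fun k => ∑ j, (starRingEnd ℂ) (w m j) * ((g k (m - k) (-m) : ℂ) *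
        dt (v k) (m - k) * w (m - k) j)) (∑ j, (starRingEnd ℂ) (w m j) * cv g v w m j) :=
      hasSum_sum fun j _ => (hs m j).hasSum.mul_left _
    have h2 : (fun k => fz2_T g v w k (m - k)) = (fun k => ∑ j, (starRingEnd ℂ) (w m j) *
        ((g k (m - k) (-m) : ℂ) * dt (v k) (m - k) * w (m - k) j)) := by
      funext k
      unfold fz2_T
      have e : -(k + (m - k)) = -m := by abel
      rw [e, Finset.mul_sum]
      refine Finset.sum_congr rfl fun j _ => ?_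
      rw [hw.real m j]
      ring
    rw [h2]
    exact h1
  have hG0 : ∀ m, m ∉ cub (2 * n + 2) → ∀ k : Wv,
      (ct n m : ℂ) * fz2_T g v w k (m - k) = 0 := by
    intro m hm k
    rw [fz2_ct_out n m hm, Complex.ofReal_zero, zero_mul]
  have hGs : Summable (fun x : Wv × Wv => (ct n x.1 : ℂ) * fz2_T g v w x.2 (x.1 - x.2)) := by
    have h3 : ∀ m : Wv, Summable (fun k : Wv => ‖(ct n m : ℂ) * fz2_T g v w k (m - k)‖) :=
      fun m => ((hT m).summable.mul_left (ct n m : ℂ)).norm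
    rw [← summable_norm_iff, summable_prod_of_nonneg (fun x => norm_nonneg _)]
    constructor
    · exact h3
    · refine summable_of_ne_finset_zero (s := cub (2 * n + 2)) fun m hm => ?_
      have : ∀ k, ‖(ct n m : ℂ) * fz2_T g v w k (m - k)‖ = 0 := fun k => by
        rw [hG0 m hm k, norm_zero]
      show ∑' k, ‖(ct n m : ℂ) * fz2_T g v w k (m - k)‖ = 0
      rw [tsum_congr this, tsum_zero]
  have hGt : ∑' x : Wv × Wv, (ct n x.1 : ℂ) * fz2_T g v w x.2 (x.1 - x.2) =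
      ∑ m ∈ cub (2 * n + 2), (ct n m : ℂ) * ∑ j, (starRingEnd ℂ) (w m j) * cv g v w m j := by
    have key : ∑' x : Wv × Wv, (ct n x.1 : ℂ) * fz2_T g v w x.2 (x.1 - x.2) =
        ∑' m : Wv, ∑' k : Wv, (ct n m : ℂ) * fz2_T g v w k (m - k) := hGs.tsum_prod
    have h0 : ∀ m, m ∉ cub (2 * n + 2) →
        ∑' k : Wv, (ct n m : ℂ) * fz2_T g v w k (m - k) = 0 := by
      intro m hm
      rw [tsum_congr (hG0 m hm), tsum_zero]
    have h1 : ∀ m : Wv, ∑' k : Wv, (ct n m : ℂ) * fz2_T g v w k (m - k) =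
        (ct n m : ℂ) * ∑ j, (starRingEnd ℂ) (w m j) * cv g v w m j := by
      intro m
      rw [tsum_mul_left, (hT m).tsum_eq]
    rw [key, tsum_eq_sum (f := fun m : Wv => ∑' k : Wv, (ct n m : ℂ) * fz2_T g v w k (m - k))
      (s := cub (2 * n + 2)) h0]
    exact Finset.sum_congr rfl fun m _ => h1 m
  have e : (fun x : Wv × Wv => (ct n (x.1 + x.2) : ℂ) * fz2_T g v w x.1 x.2) =
      (fun x : Wv × Wv => (ct n x.1 : ℂ) * fz2_T g v w x.2 (x.1 - x.2)) ∘ fz2_τ := by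
    funext x
    show (ct n (x.1 + x.2) : ℂ) * fz2_T g v w x.1 x.2 =
      (ct n (x.1 + x.2) : ℂ) * fz2_T g v w x.1 (x.1 + x.2 - x.1)
    rw [add_sub_cancel_left]
  constructor
  · rw [e, fz2_τ.summable_iff]
    exact hGs
  · rw [← hGt, ← fz2_τ.tsum_eq (fun x : Wv × Wv => (ct n x.1 : ℂ) *
      fz2_T g v w x.2 (x.1 - x.2))]
    exact tsum_congr fun x => congrFun e x

/-- the symmetrised sum -/
theorem fz2_sym (hCVB : S_CVB) {g : Wv → Wv → Wv → ℝ} (hg : Arr g) {v w : Fld} {A : ℝ}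
    (hA : 0 ≤ A) (hv : Adm v) (hw : Adm w) (ev : ∀ n, En 0 n v ≤ A ^ 2)
    (ew : ∀ n, En 0 n w ≤ A ^ 2) (n : ℕ) :
    2 * ∑ m ∈ cub (2 * n + 2), (ct n m : ℂ) * ∑ j, (starRingEnd ℂ) (w m j) * cv g v w m j =
      ∑' x : Wv × Wv, ((ct n (x.1 + x.2) : ℂ) - (ct n x.2 : ℂ)) * fz2_T g v w x.1 x.2 := by
  obtain ⟨h1, h2⟩ := fz2_Z hCVB hg hA hv hw ev ew n
  have e : (fun x : Wv × Wv => -(ct n x.2 : ℂ) * fz2_T g v w x.1 x.2) =
      (fun x : Wv × Wv => (ct n (x.1 + x.2) : ℂ) * fz2_T g v w x.1 x.2) ∘ fz2_σ := by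
    funext x
    show -(ct n x.2 : ℂ) * fz2_T g v w x.1 x.2 =
      (ct n (x.1 + -(x.1 + x.2)) : ℂ) * fz2_T g v w x.1 (-(x.1 + x.2))
    have e1 : x.1 + -(x.1 + x.2) = -x.2 := by abel
    rw [e1, fz2_ct_neg, fz2_T_swap hg hv]
    ring
  have h3 : Summable (fun x : Wv × Wv => -(ct n x.2 : ℂ) * fz2_T g v w x.1 x.2) := by
    rw [e, fz2_σ.summable_iff]
    exact h1
  have h4 : ∑' x : Wv × Wv, -(ct n x.2 : ℂ) * fz2_T g v w x.1 x.2 =
      ∑' x : Wv × Wv, (ct n (x.1 + x.2) : ℂ) * fz2_T g v w x.1 x.2 := by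
    rw [← fz2_σ.tsum_eq (fun x : Wv × Wv => (ct n (x.1 + x.2) : ℂ) * fz2_T g v w x.1 x.2)]
    exact tsum_congr fun x => congrFun e x
  rw [← h2, two_mul]
  nth_rewrite 2 [← h4]
  rw [← h1.tsum_add h3]
  refine tsum_congr fun x => ?_
  ring

theorem t_FZ2 : S_FZ2 := by
  intro hCVB g B β α hg hB hα hβ hgb
  obtain ⟨S, hS0, hS⟩ := fz2_majorant (γ := 3 / 4 + (α - β)) (t := α) (by linarith)
  have hC : 0 ≤ 4 * B * (4 : ℝ) ^ α := by positivity
  refine ⟨4 * B * (4 : ℝ) ^ α * (3 * S), by positivity, ?_⟩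
  intro v w A D hv hw hA hD ev ew dv dw
  obtain ⟨hM, hMt⟩ := hS v w A D hv hw hA ev ew dv dw
  have hsum := hM.mul_left (4 * B * (4 : ℝ) ^ α)
  have hpt := fun n (x : Wv × Wv) => fz2_pt hB hα hβ hgb hv hw n x.1 x.2
  have hZ := fun n => fz2_sym hCVB hg hA hv hw ev ew n
  constructor
  · intro n
    have h1 : ‖∑' x : Wv × Wv, ((ct n (x.1 + x.2) : ℂ) - (ct n x.2 : ℂ)) *
        fz2_T g v w x.1 x.2‖ ≤ ∑' x : Wv × Wv, 4 * B * (4 : ℝ) ^ α *
          fz2_M (3 / 4 + (α - β)) α v w x.1 x.2 :=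
      tsum_of_norm_bounded hsum.hasSum (hpt n)
    rw [← hZ n, tsum_mul_left, norm_mul] at h1
    have h2 : ‖(2 : ℂ)‖ = 2 := by norm_num
    rw [h2] at h1
    have h3 : 4 * B * (4 : ℝ) ^ α * ∑' x : Wv × Wv, fz2_M (3 / 4 + (α - β)) α v w x.1 x.2 ≤
        4 * B * (4 : ℝ) ^ α * (3 * (S * A * D)) := mul_le_mul_of_nonneg_left hMt hC
    have h4 := Complex.abs_im_le_norm
      (∑ m ∈ cub (2 * n + 2), (ct n m : ℂ) * ∑ j, (starRingEnd ℂ) (w m j) * cv g v w m j)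
    have h5 := norm_nonneg
      (∑ m ∈ cub (2 * n + 2), (ct n m : ℂ) * ∑ j, (starRingEnd ℂ) (w m j) * cv g v w m j)
    unfold fz
    calc _ ≤ _ := h4
      _ ≤ 4 * B * (4 : ℝ) ^ α * (3 * (S * A * D)) := by linarith
      _ = 4 * B * (4 : ℝ) ^ α * (3 * S) * A * D := by ring
  · have h1 : Tendsto (fun n => ∑' x : Wv × Wv, ((ct n (x.1 + x.2) : ℂ) - (ct n x.2 : ℂ)) *
        fz2_T g v w x.1 x.2) atTop (𝓝 (∑' _ : Wv × Wv, (0 : ℂ))) := by
      refine tendsto_tsum_of_dominated_convergence hsum ?_ (Eventually.of_forall hpt)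
      intro x
      have t1 : Tendsto (fun n => (ct n (x.1 + x.2) : ℂ)) atTop (𝓝 ((1 : ℝ) : ℂ)) :=
        (Complex.continuous_ofReal.tendsto 1).comp (fz2_ct_tendsto _)
      have t2 : Tendsto (fun n => (ct n x.2 : ℂ)) atTop (𝓝 ((1 : ℝ) : ℂ)) :=
        (Complex.continuous_ofReal.tendsto 1).comp (fz2_ct_tendsto _)
      have t3 := (t1.sub t2).mul_const (fz2_T g v w x.1 x.2)
      rw [sub_self, zero_mul] at t3
      exact t3
    rw [tsum_zero] at h1
    have h2 : Tendsto (fun n => (1 / 2 : ℂ) * ∑' x : Wv × Wv, ((ct n (x.1 + x.2) : ℂ) -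
        (ct n x.2 : ℂ)) * fz2_T g v w x.1 x.2) atTop (𝓝 ((1 / 2 : ℂ) * 0)) := h1.const_mul _
    rw [mul_zero] at h2
    have h3 : Tendsto (fun n => ∑ m ∈ cub (2 * n + 2), (ct n m : ℂ) * ∑ j, (starRingEnd ℂ)
        (w m j) * cv g v w m j) atTop (𝓝 0) := by
      refine h2.congr fun n => ?_
      rw [← hZ n]
      ring
    have h4 := (Complex.continuous_im.tendsto 0).comp h3
    rw [Complex.zero_im] at h4
    exact h4

end Pool.Agent.N983.WK
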