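import Pool.Agent.N983.WK.Stm

set_option autoImplicit false

/-! Project WK (helper983), task GRO (helper402): Gronwall inequality with an integrable coefficient. -/

namespace Pool.Agent.N983.WK

open MeasureTheory ProbabilityTheory Filter Topology Pool.Agent.N983.RT

theorem gro_exp {c η : ℝ} (hc : 1 < c) (h0 : 0 ≤ η) (h1 : η ≤ (c - 1) / c) :
    1 ≤ Real.exp (c * η) * (1 - η) := by
  have hc0 : 0 < c := by linarith
  have h2 : c * η ≤ c - 1 := by
    rw [le_div_iff₀ hc0] at h1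
    linarith
  have h3 : η ≤ 1 := h1.trans (by rw [div_le_one hc0]; linarith)
  have h4 : c * η + 1 ≤ Real.exp (c * η) := Real.add_one_le_exp _
  have h5 : (c * η + 1) * (1 - η) ≤ Real.exp (c * η) * (1 - η) :=
    mul_le_mul_of_nonneg_right h4 (by linarith)
  nlinarith

theorem gro_int {T M : ℝ} {a y : ℝ → ℝ} (hT : 0 ≤ T) (hai : IntervalIntegrable a volume 0 T)
    (hym : Measurable y) (hy : ∀ s ∈ Set.Icc 0 T, 0 ≤ y s ∧ y s ≤ M) :
    IntervalIntegrable (fun s => a s * y s) volume 0 T := by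
  rw [intervalIntegrable_iff_integrableOn_Ioc_of_le hT] at hai ⊢
  refine Integrable.mono' (hai.norm.mul_const M) (hai.aestronglyMeasurable.mul hym.aestronglyMeasurable) ?_
  rw [ae_restrict_iff' measurableSet_Ioc]
  refine Eventually.of_forall fun s hs => ?_
  have h1 := hy s ⟨hs.1.le, hs.2⟩
  rw [norm_mul, Real.norm_eq_abs (y s), abs_of_nonneg h1.1]
  exact mul_le_mul_of_nonneg_left h1.2 (norm_nonneg _)

/-- (GRO) -/
theorem t_GRO : S_GRO := by
  intro T δ M a y hT hδ ha hai hym hy h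
  have hayi := gro_int hT hai hym hy
  obtain ⟨A, hA⟩ : ∃ A : ℝ → ℝ, A = fun t => ∫ s in (0 : ℝ)..t, a s := ⟨_, rfl⟩
  obtain ⟨Y, hY⟩ : ∃ Y : ℝ → ℝ, Y = fun t => ∫ s in (0 : ℝ)..t, a s * y s := ⟨_, rfl⟩
  have hu : Set.uIcc 0 T = Set.Icc 0 T := Set.uIcc_of_le hT
  have hAc : ContinuousOn A (Set.Icc 0 T) := by
    rw [hA, ← hu]
    exact intervalIntegral.continuousOn_primitive_interval' hai Set.left_mem_uIcc
  have hYc : ContinuousOn Y (Set.Icc 0 T) := by
    rw [hY, ← hu]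
    exact intervalIntegral.continuousOn_primitive_interval' hayi Set.left_mem_uIcc
  have hsub : ∀ {f : ℝ → ℝ}, IntervalIntegrable f volume 0 T → ∀ x ∈ Set.Icc 0 T, ∀ t ∈ Set.Icc 0 T,
      IntervalIntegrable f volume x t := by
    intro f hf x hx t ht
    refine hf.mono_set ?_
    rw [hu]
    exact Set.uIcc_subset_Icc hx ht
  have hdiff : ∀ {f : ℝ → ℝ}, IntervalIntegrable f volume 0 T → ∀ x ∈ Set.Icc 0 T, ∀ t ∈ Set.Icc 0 T,
      (∫ s in (0 : ℝ)..t, f s) = (∫ s in (0 : ℝ)..x, f s) + ∫ s in x..t, f s := by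
    intro f hf x hx t ht
    rw [intervalIntegral.integral_add_adjacent_intervals (hsub hf 0 ⟨le_rfl, hT⟩ x hx) (hsub hf x hx t ht)]
  have hAmono : ∀ x ∈ Set.Icc 0 T, ∀ t ∈ Set.Icc 0 T, x ≤ t → A x ≤ A t := by
    intro x hx t ht hxt
    have h1 := hdiff hai x hx t ht
    have h2 : 0 ≤ ∫ s in x..t, a s := intervalIntegral.integral_nonneg hxt fun s hs =>
      ha s ⟨hx.1.trans hs.1, hs.2.trans ht.2⟩
    rw [hA]
    simp only
    linarith
  have hYmono : ∀ x ∈ Set.Icc 0 T, ∀ t ∈ Set.Icc 0 T, x ≤ t → Y x ≤ Y t := by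
    intro x hx t ht hxt
    have h1 := hdiff hayi x hx t ht
    have h2 : 0 ≤ ∫ s in x..t, a s * y s := intervalIntegral.integral_nonneg hxt fun s hs =>
      mul_nonneg (ha s ⟨hx.1.trans hs.1, hs.2.trans ht.2⟩) (hy s ⟨hx.1.trans hs.1, hs.2.trans ht.2⟩).1
    rw [hY]
    simp only
    linarith
  have hy2 : ∀ t ∈ Set.Icc 0 T, y t ≤ δ + Y t := by
    intro t ht
    rw [hY]
    exact h t ht
  have hY0 : ∀ t ∈ Set.Icc 0 T, 0 ≤ δ + Y t := fun t ht => (hy t ht).1.trans (hy2 t ht)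
  have hstep : ∀ x ∈ Set.Icc 0 T, ∀ t ∈ Set.Icc 0 T, x ≤ t → δ + Y t ≤ δ + Y x + (A t - A x) * (δ + Y t) := by
    intro x hx t ht hxt
    have h1 := hdiff hayi x hx t ht
    have h2 := hdiff hai x hx t ht
    have h3 : ∫ s in x..t, a s * y s ≤ ∫ s in x..t, a s * (δ + Y t) := by
      refine intervalIntegral.integral_mono_on hxt (hsub hayi x hx t ht)
        ((hsub hai x hx t ht).mul_const _) fun s hs => ?_
      have hs' : s ∈ Set.Icc 0 T := ⟨hx.1.trans hs.1, hs.2.trans ht.2⟩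
      refine mul_le_mul_of_nonneg_left ((hy2 s hs').trans ?_) (ha s hs')
      linarith [hYmono s hs' t ht hs.2]
    rw [intervalIntegral.integral_mul_const] at h3
    have h4 : A t - A x = ∫ s in x..t, a s := by rw [hA]; simp only; linarith
    have h5 : Y t - Y x = ∫ s in x..t, a s * y s := by rw [hY]; simp only; linarith
    rw [← h4, ← h5] at h3
    linarith
  have key : ∀ c : ℝ, 1 < c → ∀ t ∈ Set.Icc 0 T, δ + Y t ≤ δ * Real.exp (c * A t) := by
    intro c hc
    have hcl : IsClosed ({t | δ + Y t ≤ δ * Real.exp (c * A t)} ∩ Set.Icc 0 T) := by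
      have h1 : ContinuousOn (fun t => δ * Real.exp (c * A t) - (δ + Y t)) (Set.Icc 0 T) :=
        (continuousOn_const.mul (Real.continuous_exp.comp_continuousOn (continuousOn_const.mul hAc))).sub
          (continuousOn_const.add hYc)
      have h2 := h1.preimage_isClosed_of_isClosed isClosed_Icc (isClosed_Ici (a := (0 : ℝ)))
      convert h2 using 1
      ext t
      simp only [Set.mem_inter_iff, Set.mem_ofPred_eq, Set.mem_preimage, Set.mem_Ici]
      constructor
      · rintro ⟨h3, h4⟩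
        exact ⟨h4, by linarith⟩
      · rintro ⟨h3, h4⟩
        exact ⟨by linarith, h3⟩
    have h0 : (0 : ℝ) ∈ {t | δ + Y t ≤ δ * Real.exp (c * A t)} := by
      rw [Set.mem_ofPred_eq, hA, hY]
      simp
    refine fun t ht => hcl.Icc_subset_of_forall_mem_nhdsWithin h0 ?_ ht
    rintro x ⟨hx1, hx2⟩
    rw [Set.mem_ofPred_eq] at hx1
    have hxT : x ∈ Set.Icc 0 T := ⟨hx2.1, hx2.2.le⟩
    have hc1 : 0 < (c - 1) / c := div_pos (by linarith) (by linarith)
    have hAx : ContinuousWithinAt A (Set.Icc 0 T) x := hAc x hxT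
    have h1 : ∀ᶠ t in 𝓝[Set.Icc 0 T] x, A t < A x + (c - 1) / c :=
      hAx.eventually_lt_const (by linarith)
    have h2 : 𝓝[>] x ≤ 𝓝[Set.Icc 0 T] x := by
      rw [← nhdsWithin_Ioo_eq_nhdsGT hx2.2]
      exact nhdsWithin_mono _ fun s hs => ⟨hx2.1.trans hs.1.le, hs.2.le⟩
    have h3 : ∀ᶠ t in 𝓝[>] x, t ∈ Set.Ioo x T := Ioo_mem_nhdsGT hx2.2
    filter_upwards [h2 h1, h3] with t ht1 ht2
    have htT : t ∈ Set.Icc 0 T := ⟨hx2.1.trans ht2.1.le, ht2.2.le⟩
    have h4 := hstep x hxT t htT ht2.1.le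
    have h5 := hAmono x hxT t htT ht2.1.le
    have h6 : A t - A x ≤ (c - 1) / c := by
      have : A t < A x + (c - 1) / c := ht1
      linarith
    have h7 := gro_exp hc (by linarith : 0 ≤ A t - A x) h6
    have h8 : Real.exp (c * A t) = Real.exp (c * A x) * Real.exp (c * (A t - A x)) := by
      rw [← Real.exp_add]
      ring_nf
    have h9 := hY0 t htT
    have h10 : 0 ≤ Real.exp (c * (A t - A x)) := (Real.exp_pos _).le
    rw [h8]
    calc δ + Y t ≤ (Real.exp (c * (A t - A x)) * (1 - (A t - A x))) * (δ + Y t) := by nlinarith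
      _ = Real.exp (c * (A t - A x)) * ((δ + Y t) - (A t - A x) * (δ + Y t)) := by ring
      _ ≤ Real.exp (c * (A t - A x)) * (δ + Y x) := mul_le_mul_of_nonneg_left (by linarith) h10
      _ ≤ Real.exp (c * (A t - A x)) * (δ * Real.exp (c * A x)) := mul_le_mul_of_nonneg_left hx1 h10
      _ = δ * (Real.exp (c * A x) * Real.exp (c * (A t - A x))) := by ring
  intro t ht
  have hlim : Tendsto (fun c : ℝ => δ * Real.exp (c * A t)) (𝓝[>] 1) (𝓝 (δ * Real.exp (1 * A t))) := by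
    refine Tendsto.mono_left ?_ nhdsWithin_le_nhds
    exact ((continuous_const.mul (Real.continuous_exp.comp (continuous_id.mul continuous_const))).tendsto 1)
  have h1 : δ + Y t ≤ δ * Real.exp (1 * A t) := by
    refine ge_of_tendsto hlim ?_
    filter_upwards [self_mem_nhdsWithin] with c hc
    exact key c hc t ht
  rw [one_mul, hA] at h1
  exact (hy2 t ht).trans h1

end Pool.Agent.N983.WK
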