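import Pool.Agent.N983.WK.Stm
import Pool.Agent.N983.RT.UNQ

set_option autoImplicit false

/-! Project WK (helper983), task MSB (helper402): measurability of the convolution in time. -/

namespace Pool.Agent.N983.WK

open MeasureTheory ProbabilityTheory Filter Topology Pool.Agent.N983.RT

theorem msb_term {g : Wv → Wv → Wv → ℝ} {T : ℝ} {u v : ℝ → Fld}
    (hu : ∀ m j, ContinuousOn (fun t => u t m j) (Set.Icc 0 T))
    (hv : ∀ m j, ContinuousOn (fun t => v t m j) (Set.Icc 0 T)) (k m : Wv) (j : Fin 3) :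
    ContinuousOn (fun t => (g k (m - k) (-m) : ℂ) * dt (u t k) (m - k) * v t (m - k) j) (Set.Icc 0 T) := by
  unfold dt
  refine (continuousOn_const.mul ?_).mul (hv (m - k) j)
  exact continuousOn_finsetSum _ fun i _ => (hu k i).mul continuousOn_const

/-- (MSB) -/
theorem t_MSB : S_MSB := by
  intro hC g T C u v hg hT hadm hu hv hEu hEv m j
  obtain ⟨K, hK0, hK⟩ := hC
  obtain ⟨a, ha⟩ : ∃ a : ℝ, a = Real.sqrt (max C 0) := ⟨_, rfl⟩
  have ha0 : 0 ≤ a := by rw [ha]; exact Real.sqrt_nonneg _
  have ha2 : C ≤ a ^ 2 := by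
    rw [ha, Real.sq_sqrt (le_max_right _ _)]
    exact le_max_left _ _
  have hmain : ∀ t ∈ Set.Icc 0 T,
      Summable (fun k => (g k (m - k) (-m) : ℂ) * dt (u t k) (m - k) * v t (m - k) j) ∧
      ‖cv g (u t) (v t) m j‖ ≤ K m * a * a := by
    intro t ht
    have h1 := hK g (u t) (v t) a a hg ha0 ha0 (hadm t ht).div (fun n => (hEu t ht n).trans ha2)
      (fun n => (hEv t ht n).trans ha2) m j
    exact ⟨h1.1, h1.2.1⟩
  rw [intervalIntegrable_iff_integrableOn_Icc_of_le hT]
  have hms : AEStronglyMeasurable (fun t => cv g (u t) (v t) m j) (volume.restrict (Set.Icc 0 T)) := by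
    refine aestronglyMeasurable_of_tendsto_ae atTop
      (f := fun (n : ℕ) t => ∑ k ∈ cub n, (g k (m - k) (-m) : ℂ) * dt (u t k) (m - k) * v t (m - k) j) ?_ ?_
    · intro n
      exact (continuousOn_finsetSum _ fun k _ => msb_term hu hv k m j).aestronglyMeasurable measurableSet_Icc
    · rw [ae_restrict_iff' measurableSet_Icc]
      refine Eventually.of_forall fun t ht => ?_
      exact (hmain t ht).1.hasSum.comp unq_cub
  refine Integrable.of_bound hms (K m * a * a) ?_
  rw [ae_restrict_iff' measurableSet_Icc]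
  exact Eventually.of_forall fun t ht => (hmain t ht).2

end Pool.Agent.N983.WK
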