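import Pool.Agent.N983.WK.Stm
import Pool.Agent.N983.RT.APR

/-! (SMT) smoothing for the truncated systems (helper323). -/

set_option autoImplicit false

namespace Pool.Agent.N983.WK

open Pool.Agent.N983.RT

theorem smt_elem (p ν X : ℝ) (hp : 1 ≤ p) (hν : 0 < ν) (hX : 0 ≤ X) :
    p * X ^ (p - 1) ≤ ν * X ^ p + p * (p / ν) ^ (p - 1) := by
  have hp0 : 0 < p := by linarith
  rcases le_total X (p / ν) with h | h
  · have h1 : X ^ (p - 1) ≤ (p / ν) ^ (p - 1) := Real.rpow_le_rpow hX h (by linarith)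
    have h2 : 0 ≤ ν * X ^ p := by positivity
    nlinarith
  · have hXp : 0 < X := lt_of_lt_of_le (by positivity) h
    have h1 : X ^ p = X * X ^ (p - 1) := by
      rw [Real.rpow_sub_one hXp.ne']
      field_simp
    have h2 : 0 ≤ X ^ (p - 1) := by positivity
    have h3 : p ≤ ν * X := by
      rw [div_le_iff₀ hν] at h
      linarith
    have h4 : 0 ≤ p * (p / ν) ^ (p - 1) := by positivity
    rw [h1]
    nlinarith [mul_le_mul_of_nonneg_right h3 h2]

theorem smt_mode (s : ℕ) (α ν x q : ℝ) (hα : 0 < α) (hν : 0 < ν) (hx : 0 ≤ x) (hq : 1 ≤ q) :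
    ((s + α) / α) * x ^ ((s + α) / α - 1) * q ^ s ≤
      ν * x ^ ((s + α) / α) * q ^ ((s : ℝ) + α) +
        ((s + α) / α) * (((s + α) / α) / ν) ^ ((s + α) / α - 1) := by
  have hs : (0 : ℝ) ≤ s := Nat.cast_nonneg s
  have hp : 1 ≤ (s + α) / α := by
    rw [le_div_iff₀ hα]
    linarith
  have hq0 : 0 ≤ q := by linarith
  have hqα : 0 ≤ q ^ α := by positivity
  have h := smt_elem ((s + α) / α) ν (x * q ^ α) hp hν (by positivity)
  rw [Real.mul_rpow hx hqα, Real.mul_rpow hx hqα, ← Real.rpow_mul hq0, ← Real.rpow_mul hq0] at h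
  have e1 : α * ((s + α) / α - 1) = s := by
    field_simp
    ring
  have e2 : α * ((s + α) / α) = s + α := by
    field_simp
  rw [e1, e2, Real.rpow_natCast] at h
  linarith

theorem smt_sum (s n : ℕ) (α ν x : ℝ) (hα : 0 < α) (hν : 0 < ν) (hx : 0 ≤ x) (u : Fld)
    (hu : u 0 = 0) :
    ((s + α) / α) * x ^ ((s + α) / α - 1) * En s n u ≤
      ν * x ^ ((s + α) / α) * Er ((s : ℝ) + α) n u +
        ((s + α) / α) * (((s + α) / α) / ν) ^ ((s + α) / α - 1) * En 0 n u := by
  unfold Er En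
  rw [Finset.mul_sum, Finset.mul_sum, Finset.mul_sum, ← Finset.sum_add_distrib]
  refine Finset.sum_le_sum fun k _ => ?_
  by_cases hk : k = 0
  · subst hk
    simp [hu]
  · have hk1 := apr_nsq_one k hk
    have h2 : 0 ≤ ∑ i, ‖u k i‖ ^ 2 := Finset.sum_nonneg fun _ _ => sq_nonneg _
    have h3 := mul_le_mul_of_nonneg_right (smt_mode s α ν x _ hα hν hx hk1) h2
    rw [pow_zero, one_mul]
    linarith

theorem t_SMT : S_SMT := by
  intro hA _ g ν α κ hg hν hκ hα hE s R τ hR hτ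
  obtain ⟨C, hC, hC'⟩ := hE s
  have hb : 0 < (1 + κ) / 2 := by linarith
  have hα0 : 0 < α := by linarith
  have hs : (0 : ℝ) ≤ s := Nat.cast_nonneg s
  obtain ⟨M, hM⟩ : ∃ M, M = C * Real.sqrt R := ⟨_, rfl⟩
  have hM0 : 0 ≤ M := by rw [hM]; positivity
  have hδ : 0 < ν / (2 * (M + 1)) := by positivity
  obtain ⟨K, hK, hK'⟩ := apr_elem (s + (1 + κ) / 2) (s + α) (ν / (2 * (M + 1))) (by linarith)
    (by linarith) hδ
  have hMδ : 2 * M * (ν / (2 * (M + 1))) ≤ ν := by
    rw [mul_div_assoc', div_le_iff₀ (by positivity)]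
    nlinarith
  obtain ⟨p, hp⟩ : ∃ p, p = (s + α) / α := ⟨_, rfl⟩
  have hp1 : 1 ≤ p := by
    rw [hp, le_div_iff₀ hα0]
    linarith
  obtain ⟨c₂, hc₂⟩ : ∃ c₂, c₂ = p * (p / ν) ^ (p - 1) := ⟨_, rfl⟩
  have hc₂0 : 0 ≤ c₂ := by
    rw [hc₂]
    positivity
  obtain ⟨D, hD⟩ : ∃ D, D = c₂ * R + 2 * M * K * R := ⟨_, rfl⟩
  obtain ⟨r, hr⟩ : ∃ r, r = min τ 1 := ⟨_, rfl⟩
  have hr0 : 0 < r := by
    rw [hr]
    exact lt_min hτ one_pos
  have hr1 : r ≤ 1 := by
    rw [hr]
    exact min_le_right _ _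
  refine ⟨D * r / r ^ p, ?_⟩
  intro n u hu hsupp hR0 t htτ
  have hrt : r ≤ t := by
    rw [hr]
    exact (min_le_left _ _).trans htτ
  have hfl : ∀ t, 0 ≤ t → ∀ s' : ℕ,
      flux (cutg n g) s' n (u t) = (-Complex.I * form g s' n (u t)).re := fun t ht s' =>
    (hA g n (u t) hg (hu.adm t ht) (hsupp t ht)).1 s'
  have hfl0 : ∀ t, 0 ≤ t → flux (cutg n g) 0 n (u t) = 0 := fun t ht =>
    (hA g n (u t) hg (hu.adm t ht) (hsupp t ht)).2
  have hen0 : ∀ t, 0 ≤ t → En 0 n (u t) ≤ R := by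
    intro t ht
    have h1 := apr_gron (fun t => En 0 n (u t)) _ 0
      (fun t ht => apr_deriv (cutg n g) ν α n 0 u hu t ht)
      (fun t ht => by
        rw [hfl0 t ht]
        have := apr_Er_nonneg (((0 : ℕ) : ℝ) + α) n (u t)
        nlinarith) t ht
    simp only [zero_mul, Real.exp_zero, one_mul] at h1
    exact h1.trans hR0
  -- the derivative
  have hder : ∀ t, 0 ≤ t → -2 * ν * Er (s + α) n (u t) + 2 * flux (cutg n g) s n (u t) ≤
      -(ν * Er (s + α) n (u t)) + 2 * M * K * R := by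
    intro t ht
    have a1 : flux (cutg n g) s n (u t) ≤ M * Er (s + (1 + κ) / 2) n (u t) := by
      rw [hfl t ht s]
      refine (Complex.re_le_norm _).trans ?_
      rw [norm_mul, norm_neg, Complex.norm_I, one_mul]
      refine (hC' n (u t) (hu.adm t ht) (hsupp t ht)).trans ?_
      refine mul_le_mul_of_nonneg_right ?_ (apr_Er_nonneg _ _ _)
      rw [hM]
      exact mul_le_mul_of_nonneg_left (Real.sqrt_le_sqrt (hen0 t ht)) hC
    have a2 := apr_interp 0 n (s + (1 + κ) / 2) (s + α) (ν / (2 * (M + 1))) K hK' (u t)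
      (hu.adm t ht).zero
    rw [Nat.cast_zero, zero_add, zero_add] at a2
    have a3 := mul_le_mul_of_nonneg_left a2 (by positivity : 0 ≤ 2 * M)
    have a4 := mul_le_mul_of_nonneg_right hMδ (apr_Er_nonneg (s + α) n (u t))
    have a5 := mul_le_mul_of_nonneg_left (hen0 t ht) (by positivity : 0 ≤ 2 * M * K)
    have a6 : 2 * M * (ν / (2 * (M + 1)) * Er (s + α) n (u t) + K * En 0 n (u t)) =
      2 * M * (ν / (2 * (M + 1))) * Er (s + α) n (u t) + 2 * M * K * En 0 n (u t) := by ring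
    rw [a6] at a3
    linarith
  -- the weighted function
  have hd : ∀ x ∈ Set.Icc 0 r, HasDerivWithinAt
      (fun x => x ^ p * En s n (u (t - r + x)) - D * x)
      (p * x ^ (p - 1) * En s n (u (t - r + x)) + x ^ p * (-2 * ν * Er (s + α) n (u (t - r + x)) +
        2 * flux (cutg n g) s n (u (t - r + x))) - D) (Set.Icc 0 r) x := by
    intro x hx
    have h1 : HasDerivWithinAt (fun x : ℝ => x ^ p) (p * x ^ (p - 1)) (Set.Icc 0 r) x :=
      (Real.hasDerivAt_rpow_const (Or.inr hp1)).hasDerivWithinAt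
    have h2 : HasDerivWithinAt (fun x : ℝ => t - r + x) 1 (Set.Icc 0 r) x :=
      ((hasDerivAt_id' x).const_add (t - r)).hasDerivWithinAt
    have h3 := (apr_deriv (cutg n g) ν α n s u hu (t - r + x) (by linarith [hx.1])).comp x h2
      (fun y hy => Set.mem_Ici.2 (by linarith [hy.1]))
    have h4 : HasDerivWithinAt (fun x : ℝ => D * x) (D * 1) (Set.Icc 0 r) x :=
      ((hasDerivAt_id' x).const_mul D).hasDerivWithinAt
    refine ((h1.fun_mul h3).fun_sub h4).congr_deriv ?_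
    simp only [Function.comp]
    ring
  have hanti : AntitoneOn (fun x => x ^ p * En s n (u (t - r + x)) - D * x) (Set.Icc 0 r) := by
    refine antitoneOn_of_hasDerivWithinAt_nonpos (convex_Icc 0 r)
      (f' := fun x => p * x ^ (p - 1) * En s n (u (t - r + x)) + x ^ p *
        (-2 * ν * Er (s + α) n (u (t - r + x)) +
        2 * flux (cutg n g) s n (u (t - r + x))) - D) ?_ ?_ ?_
    · intro x hx
      exact (hd x hx).continuousWithinAt
    · intro x hx
      exact (hd x (interior_subset hx)).mono interior_subset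
    · intro x hx
      have hx' := interior_subset hx
      have ht' : 0 ≤ t - r + x := by linarith [hx'.1]
      have hxp : 0 ≤ x ^ p := Real.rpow_nonneg hx'.1 _
      have hxp1 : x ^ p ≤ 1 := Real.rpow_le_one hx'.1 (hx'.2.trans hr1) (by linarith)
      have b1 := mul_le_mul_of_nonneg_left (hder _ ht') hxp
      have b2 := smt_sum s n α ν x hα0 hν hx'.1 (u (t - r + x)) (hu.adm _ ht').zero
      rw [← hp, ← hc₂] at b2
      have b3 := mul_le_mul_of_nonneg_left (hen0 _ ht') hc₂0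
      have b4 : x ^ p * (2 * M * K * R) ≤ 2 * M * K * R :=
        mul_le_of_le_one_left (by positivity) hxp1
      show p * x ^ (p - 1) * En s n (u (t - r + x)) + x ^ p *
        (-2 * ν * Er (s + α) n (u (t - r + x)) +
        2 * flux (cutg n g) s n (u (t - r + x))) - D ≤ 0
      rw [hD]
      nlinarith
  have h1 := hanti (Set.left_mem_Icc.2 hr0.le) (Set.right_mem_Icc.2 hr0.le) hr0.le
  simp only [sub_add_cancel, mul_zero, sub_zero] at h1
  rw [Real.zero_rpow (by linarith), zero_mul] at h1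
  rw [le_div_iff₀ (Real.rpow_pos_of_pos hr0 p)]
  linarith

end Pool.Agent.N983.WK
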