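import Pool.Agent.N983.WK.Stm

set_option autoImplicit false

/-! Part SQ: the square of an absolutely continuous function (worker: helper407). -/

namespace Pool.Agent.N983.WK

open MeasureTheory Filter Topology Pool.Agent.N983.RT

theorem sq_real (t y : ℝ) (h : ℝ → ℝ) (hh : IntervalIntegrable h volume 0 t) :
    (y + ∫ s in (0 : ℝ)..t, h s) ^ 2 = y ^ 2 +
      ∫ s in (0 : ℝ)..t, 2 * ((y + ∫ r in (0 : ℝ)..s, h r) * h s) := by
  have h1 : AbsolutelyContinuousOnInterval (fun s => ∫ r in (0 : ℝ)..s, h r) 0 t :=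
    hh.absolutelyContinuousOnInterval_intervalIntegral (c := 0) (by simp)
  have h2 : AbsolutelyContinuousOnInterval (fun _ : ℝ => y) 0 t :=
    ((LipschitzWith.const' y).lipschitzOnWith (K := 0)).absolutelyContinuousOnInterval
  have h3 : AbsolutelyContinuousOnInterval (fun s => y + ∫ r in (0 : ℝ)..s, h r) 0 t :=
    h2.fun_add h1
  have h4 := (h3.fun_mul h3).integral_deriv_eq_sub
  have h5 : ∫ x in (0 : ℝ)..t, deriv (fun s => (y + ∫ r in (0 : ℝ)..s, h r) *
      (y + ∫ r in (0 : ℝ)..s, h r)) x =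
      ∫ s in (0 : ℝ)..t, 2 * ((y + ∫ r in (0 : ℝ)..s, h r) * h s) := by
    apply intervalIntegral.integral_congr_ae
    filter_upwards [hh.ae_hasDerivAt_integral] with x hx hx'
    have h6 := hx (Set.uIoc_subset_uIcc hx') 0 (by simp)
    have h7 : HasDerivAt (fun s => y + ∫ r in (0 : ℝ)..s, h r) (h x) x := h6.const_add y
    have h8 := (h7.mul h7).deriv
    refine Eq.trans h8 ?_
    ring
  rw [h5] at h4
  rw [h4]
  simp
  ring

theorem t_SQ : S_SQ := by
  intro T x f hT hf hx
  have hsub : ∀ t ∈ Set.Icc (0 : ℝ) T, IntervalIntegrable f volume 0 t := by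
    intro t ht
    refine hf.mono_set ?_
    rw [Set.uIcc_of_le ht.1, Set.uIcc_of_le hT]
    exact Set.Icc_subset_Icc_right ht.2
  have hcont : ContinuousOn x (Set.uIcc 0 T) := by
    have h1 : ContinuousOn (fun t => x 0 + ∫ s in (0 : ℝ)..t, f s) (Set.uIcc 0 T) := by
      refine continuousOn_const.add ?_
      exact intervalIntegral.continuousOn_primitive_interval
        (by rw [← intervalIntegrable_iff']; exact hf)
    refine h1.congr ?_
    intro t ht
    rw [Set.uIcc_of_le hT] at ht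
    exact hx t ht
  have hint : IntervalIntegrable (fun s => (starRingEnd ℂ) (x s) * f s) volume 0 T :=
    hf.continuousOn_mul (Complex.continuous_conj.comp_continuousOn hcont)
  have hre : ∀ t ∈ Set.Icc (0 : ℝ) T, IntervalIntegrable (fun s => (f s).re) volume 0 t := by
    intro t ht
    exact ⟨(hsub t ht).1.re, (hsub t ht).2.re⟩
  have him : ∀ t ∈ Set.Icc (0 : ℝ) T, IntervalIntegrable (fun s => (f s).im) volume 0 t := by
    intro t ht
    exact ⟨(hsub t ht).1.im, (hsub t ht).2.im⟩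
  refine ⟨⟨hint.1.re, hint.2.re⟩, ?_⟩
  have hxre : ∀ t ∈ Set.Icc (0 : ℝ) T, (x t).re = (x 0).re + ∫ s in (0 : ℝ)..t, (f s).re := by
    intro t ht
    have h1 := congrArg Complex.re (hx t ht)
    rw [Complex.add_re] at h1
    rw [h1]
    congr 1
    exact (intervalIntegral.intervalIntegral_re (𝕜 := ℂ) (hsub t ht)).symm
  have hxim : ∀ t ∈ Set.Icc (0 : ℝ) T, (x t).im = (x 0).im + ∫ s in (0 : ℝ)..t, (f s).im := by
    intro t ht
    have h1 := congrArg Complex.im (hx t ht)
    rw [Complex.add_im] at h1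
    rw [h1]
    congr 1
    exact (intervalIntegral.intervalIntegral_im (𝕜 := ℂ) (hsub t ht)).symm
  intro t ht
  have e1 := sq_real t (x 0).re (fun s => (f s).re) (hre t ht)
  have e2 := sq_real t (x 0).im (fun s => (f s).im) (him t ht)
  rw [← hxre t ht] at e1
  rw [← hxim t ht] at e2
  have hn : ∀ z : ℂ, ‖z‖ ^ 2 = z.re ^ 2 + z.im ^ 2 := by
    intro z
    rw [← Complex.normSq_eq_norm_sq, Complex.normSq_apply]
    ring
  have hIcc : ∀ s ∈ Set.uIcc (0 : ℝ) t, s ∈ Set.Icc (0 : ℝ) T := by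
    intro s hs
    rw [Set.uIcc_of_le ht.1] at hs
    exact ⟨hs.1, hs.2.trans ht.2⟩
  have hcre : ContinuousOn (fun s => (x s).re) (Set.uIcc 0 t) :=
    Complex.continuous_re.comp_continuousOn (hcont.mono fun s hs => by
      rw [Set.uIcc_of_le hT]; exact hIcc s hs)
  have hcim : ContinuousOn (fun s => (x s).im) (Set.uIcc 0 t) :=
    Complex.continuous_im.comp_continuousOn (hcont.mono fun s hs => by
      rw [Set.uIcc_of_le hT]; exact hIcc s hs)
  have i1 : IntervalIntegrable (fun s => 2 * ((x s).re * (f s).re)) volume 0 t :=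
    ((hre t ht).continuousOn_mul hcre).const_mul 2
  have i2 : IntervalIntegrable (fun s => 2 * ((x s).im * (f s).im)) volume 0 t :=
    ((him t ht).continuousOn_mul hcim).const_mul 2
  have e3 : ∫ s in (0 : ℝ)..t, 2 * (((x 0).re + ∫ r in (0 : ℝ)..s, (f r).re) * (f s).re) =
      ∫ s in (0 : ℝ)..t, 2 * ((x s).re * (f s).re) := by
    refine intervalIntegral.integral_congr fun s hs => ?_
    show 2 * (((x 0).re + ∫ r in (0 : ℝ)..s, (f r).re) * (f s).re) = 2 * ((x s).re * (f s).re)
    rw [← hxre s (hIcc s hs)]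
  have e4 : ∫ s in (0 : ℝ)..t, 2 * (((x 0).im + ∫ r in (0 : ℝ)..s, (f r).im) * (f s).im) =
      ∫ s in (0 : ℝ)..t, 2 * ((x s).im * (f s).im) := by
    refine intervalIntegral.integral_congr fun s hs => ?_
    show 2 * (((x 0).im + ∫ r in (0 : ℝ)..s, (f r).im) * (f s).im) = 2 * ((x s).im * (f s).im)
    rw [← hxim s (hIcc s hs)]
  have e5 : ∫ s in (0 : ℝ)..t, 2 * ((starRingEnd ℂ) (x s) * f s).re =
      (∫ s in (0 : ℝ)..t, 2 * ((x s).re * (f s).re)) +
        ∫ s in (0 : ℝ)..t, 2 * ((x s).im * (f s).im) := by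
    rw [← intervalIntegral.integral_add i1 i2]
    refine intervalIntegral.integral_congr fun s _ => ?_
    simp only [Complex.mul_re, Complex.conj_re, Complex.conj_im]
    ring
  rw [hn, hn, e5, e1, e2, e3, e4]
  ring

end Pool.Agent.N983.WK
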