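import Pool.Agent.N983.WK.Stm

set_option autoImplicit false

/-! STB: stability of weak solutions. -/

namespace Pool.Agent.N983.WK

open MeasureTheory ProbabilityTheory Filter Topology Pool.Agent.N983.RT

theorem stb_nsq_nonneg (k : Wv) : 0 ≤ nsq k := Finset.sum_nonneg fun _ _ => sq_nonneg _

theorem stb_nsq_one (k : Wv) (hk : k ≠ 0) : 1 ≤ nsq k := by
  obtain ⟨i, hi⟩ : ∃ i, k i ≠ 0 := by
    by_contra h
    push Not at h
    exact hk (funext h)
  have h1 : (1 : ℝ) ≤ (k i : ℝ) ^ 2 := by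
    have h2 : (1 : ℤ) ≤ (k i) ^ 2 := by
      have := Int.one_le_abs hi
      nlinarith [sq_abs (k i), abs_nonneg (k i)]
    exact_mod_cast h2
  unfold nsq
  exact h1.trans (Finset.single_le_sum (f := fun i => (k i : ℝ) ^ 2)
    (fun j _ => sq_nonneg _) (Finset.mem_univ i))

theorem stb_nsq_cases (k : Wv) : nsq k = 0 ∨ 1 ≤ nsq k := by
  by_cases hk : k = 0
  · left
    subst hk
    simp [nsq]
  · right
    exact stb_nsq_one k hk

theorem stb_cub_mono {m n : ℕ} (h : m ≤ n) : cub m ⊆ cub n := by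
  unfold cub
  apply Fintype.piFinset_subset
  intro i
  apply Finset.Icc_subset_Icc
  · have : (m : ℤ) ≤ n := by exact_mod_cast h
    linarith
  · exact_mod_cast h

theorem stb_Er_nonneg (r : ℝ) (n : ℕ) (u : Fld) : 0 ≤ Er r n u :=
  Finset.sum_nonneg fun k _ => mul_nonneg (Real.rpow_nonneg (stb_nsq_nonneg k) _)
    (Finset.sum_nonneg fun _ _ => sq_nonneg _)

theorem stb_En_nonneg (s n : ℕ) (u : Fld) : 0 ≤ En s n u :=
  Finset.sum_nonneg fun k _ => mul_nonneg (pow_nonneg (stb_nsq_nonneg k) _)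
    (Finset.sum_nonneg fun _ _ => sq_nonneg _)

theorem stb_Er_mono (r : ℝ) (u : Fld) : Monotone (fun n => Er r n u) := fun _ _ h =>
  Finset.sum_le_sum_of_subset_of_nonneg (stb_cub_mono h) fun k _ _ =>
    mul_nonneg (Real.rpow_nonneg (stb_nsq_nonneg k) _) (Finset.sum_nonneg fun _ _ => sq_nonneg _)

theorem stb_En_mono (s : ℕ) (u : Fld) : Monotone (fun n => En s n u) := fun _ _ h =>
  Finset.sum_le_sum_of_subset_of_nonneg (stb_cub_mono h) fun k _ _ =>
    mul_nonneg (pow_nonneg (stb_nsq_nonneg k) _) (Finset.sum_nonneg fun _ _ => sq_nonneg _)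

theorem stb_Er_le {σ α : ℝ} (h0 : 0 < σ) (h : σ ≤ α) (n : ℕ) (w : Fld) : Er σ n w ≤ Er α n w := by
  refine Finset.sum_le_sum fun k _ => mul_le_mul_of_nonneg_right ?_
    (Finset.sum_nonneg fun _ _ => sq_nonneg _)
  rcases stb_nsq_cases k with hk | hk
  · rw [hk, Real.zero_rpow h0.ne', Real.zero_rpow (h0.trans_le h).ne']
  · exact Real.rpow_le_rpow_of_exponent_le hk h

theorem stb_interp {σ α ε : ℝ} (h0 : 0 < σ) (h : σ < α) (hε : 0 < ε) :
    ∃ c : ℝ, 0 ≤ c ∧ ∀ (n : ℕ) (w : Fld), Er σ n w ≤ ε * Er α n w + c * En 0 n w := by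
  refine ⟨(1 / ε) ^ (σ / (α - σ)), Real.rpow_nonneg (by positivity) _, fun n w => ?_⟩
  unfold Er En
  rw [Finset.mul_sum, Finset.mul_sum, ← Finset.sum_add_distrib]
  refine Finset.sum_le_sum fun k _ => ?_
  have hs : 0 ≤ ∑ i, ‖w k i‖ ^ 2 := Finset.sum_nonneg fun _ _ => sq_nonneg _
  have key : nsq k ^ σ ≤ ε * nsq k ^ α + (1 / ε) ^ (σ / (α - σ)) := by
    rcases stb_nsq_cases k with hk | hk
    · rw [hk, Real.zero_rpow h0.ne', Real.zero_rpow (h0.trans h).ne', mul_zero, zero_add]
      exact Real.rpow_nonneg (by positivity) _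
    · have hpos : 0 < nsq k := by linarith
      by_cases h1 : 1 / ε ≤ nsq k ^ (α - σ)
      · have h2 : nsq k ^ α = nsq k ^ σ * nsq k ^ (α - σ) := by
          rw [← Real.rpow_add hpos]
          congr 1
          ring
        have h3 : nsq k ^ σ ≤ ε * nsq k ^ α := by
          rw [h2]
          have h4 : 0 ≤ nsq k ^ σ := Real.rpow_nonneg hpos.le _
          have h5 : 1 ≤ ε * nsq k ^ (α - σ) := by
            rw [div_le_iff₀ hε] at h1
            linarith
          nlinarith
        have h6 : 0 ≤ (1 / ε) ^ (σ / (α - σ)) := Real.rpow_nonneg (by positivity) _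
        linarith
      · push Not at h1
        have h2 : nsq k ^ σ = (nsq k ^ (α - σ)) ^ (σ / (α - σ)) := by
          rw [← Real.rpow_mul hpos.le]
          congr 1
          field_simp [(sub_pos.mpr h).ne']
        have h3 : nsq k ^ σ ≤ (1 / ε) ^ (σ / (α - σ)) := by
          rw [h2]
          exact Real.rpow_le_rpow (Real.rpow_nonneg hpos.le _) h1.le
            (div_nonneg h0.le (sub_pos.mpr h).le)
        have h4 : 0 ≤ ε * nsq k ^ α := mul_nonneg hε.le (Real.rpow_nonneg hpos.le _)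
        linarith
  calc nsq k ^ σ * ∑ i, ‖w k i‖ ^ 2
      ≤ (ε * nsq k ^ α + (1 / ε) ^ (σ / (α - σ))) * ∑ i, ‖w k i‖ ^ 2 :=
        mul_le_mul_of_nonneg_right key hs
    _ = _ := by rw [pow_zero]; ring

theorem stb_norm_sub (a b : ℂ) : ‖a - b‖ ^ 2 ≤ 2 * ‖a‖ ^ 2 + 2 * ‖b‖ ^ 2 := by
  have h := norm_sub_le a b
  nlinarith [norm_nonneg (a - b), norm_nonneg a, norm_nonneg b, sq_nonneg (‖a‖ - ‖b‖)]

theorem stb_sum_sub (u v : Fld) (k : Wv) : ∑ i, ‖(u - v) k i‖ ^ 2 ≤
    2 * ∑ i, ‖u k i‖ ^ 2 + 2 * ∑ i, ‖v k i‖ ^ 2 := by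
  rw [Finset.mul_sum, Finset.mul_sum, ← Finset.sum_add_distrib]
  exact Finset.sum_le_sum fun i _ => stb_norm_sub _ _

theorem stb_En_sub (s n : ℕ) (u v : Fld) : En s n (u - v) ≤ 2 * En s n u + 2 * En s n v := by
  unfold En
  rw [Finset.mul_sum, Finset.mul_sum, ← Finset.sum_add_distrib]
  refine Finset.sum_le_sum fun k _ => ?_
  have h := mul_le_mul_of_nonneg_left (stb_sum_sub u v k) (pow_nonneg (stb_nsq_nonneg k) s)
  linarith

theorem stb_Er_sub (r : ℝ) (n : ℕ) (u v : Fld) : Er r n (u - v) ≤ 2 * Er r n u + 2 * Er r n v := by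
  unfold Er
  rw [Finset.mul_sum, Finset.mul_sum, ← Finset.sum_add_distrib]
  refine Finset.sum_le_sum fun k _ => ?_
  have h := mul_le_mul_of_nonneg_left (stb_sum_sub u v k)
    (Real.rpow_nonneg (stb_nsq_nonneg k) r)
  linarith

theorem stb_adm_sub {u v : Fld} (hu : Adm u) (hv : Adm v) : Adm (u - v) where
  zero := by
    show u 0 - v 0 = 0
    rw [hu.zero, hv.zero, sub_zero]
  div := fun k => by
    have h1 := hu.div k
    have h2 := hv.div k
    unfold dt at h1 h2 ⊢
    calc ∑ i, (u - v) k i * (k i : ℂ) = ∑ i, u k i * (k i : ℂ) - ∑ i, v k i * (k i : ℂ) := by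
          rw [← Finset.sum_sub_distrib]
          exact Finset.sum_congr rfl fun i _ => sub_mul _ _ _
      _ = 0 := by rw [h1, h2, sub_zero]
  real := fun k i => by
    show u (-k) i - v (-k) i = (starRingEnd ℂ) (u k i - v k i)
    rw [hu.real, hv.real, map_sub]

/-- the pointwise estimates -/
theorem stb_pw (h1 : S_CVB) (h2 : S_PRB) (h3 : S_TRB) (h4 : S_ANT)
    (g : Wv → Wv → Wv → ℝ) (κ ν α : ℝ) (hg : Arr g) (hν : 0 < ν) (hκ : -1 < κ)
    (hα : (1 + κ) / 2 < α) (hTB : TB g κ) (R : ℝ) (hR : 0 ≤ R) :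
    ∃ K B : ℝ, 0 ≤ K ∧ 0 ≤ B ∧ ∀ (x y : Fld) (D Y : ℝ), Adm x → Adm y → 0 ≤ D → 0 ≤ Y →
      (∀ n, Er α n x ≤ D) → (∀ n, Er α n y ≤ D) → (∀ n, Er α n (x - y) ≤ 4 * D) →
      (∀ n, En 0 n x ≤ R) → (∀ n, En 0 n y ≤ R) → (∀ n, En 0 n (x - y) ≤ Y) →
      (∀ n, -2 * ν * Er α n (x - y) + 2 * (pr g n (x - y) x (x - y) +
        pr g n y (x - y) (x - y)).im ≤ B * D) ∧
      Tendsto (fun n => max (-2 * ν * Er α n (x - y) + 2 * (pr g n (x - y) x (x - y) +
        pr g n y (x - y) (x - y)).im - K * (1 + D) * Y) 0) atTop (𝓝 0) := by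
  obtain ⟨C, hC, hP⟩ := h2 h3 h1 g κ hg hκ hTB
  set σ : ℝ := (1 + κ) / 2 with hσ
  have hσ0 : 0 < σ := by rw [hσ]; linarith
  have hR' : 0 ≤ Real.sqrt R := Real.sqrt_nonneg R
  set ε : ℝ := ν / (C * (1 + Real.sqrt R) + 1) with hε
  have hden : 0 < C * (1 + Real.sqrt R) + 1 := by positivity
  have hε0 : 0 < ε := div_pos hν hden
  have hε1 : C * (1 + Real.sqrt R) * ε ≤ ν := by
    rw [hε, mul_div_assoc', div_le_iff₀ hden]
    nlinarith
  obtain ⟨c, hc, hI⟩ := stb_interp hσ0 hα hε0
  refine ⟨2 * C + 2 * (C * (1 + Real.sqrt R)) * c, 96 * C * Real.sqrt R, by positivity,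
    by positivity, ?_⟩
  intro x y D Y hx hy hD hY hxD hyD hwD hxR hyR hwY
  have hw : Adm (x - y) := stb_adm_sub hx hy
  have hxσ : ∀ n, Er σ n x ≤ D := fun n => (stb_Er_le hσ0 hα.le n x).trans (hxD n)
  have hyσ : ∀ n, Er σ n y ≤ D := fun n => (stb_Er_le hσ0 hα.le n y).trans (hyD n)
  have hwσ : ∀ n, Er σ n (x - y) ≤ 4 * D := fun n => (stb_Er_le hσ0 hα.le n _).trans (hwD n)
  have hw4 : ∀ n, En 0 n (x - y) ≤ 4 * R := fun n => by
    have := stb_En_sub 0 n x y
    linarith [hxR n, hyR n]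
  have s4D : Real.sqrt (4 * D) = 2 * Real.sqrt D := by
    rw [Real.sqrt_mul (by norm_num), show (4:ℝ) = 2 ^ 2 by norm_num, Real.sqrt_sq (by norm_num)]
  have s4R : Real.sqrt (4 * R) = 2 * Real.sqrt R := by
    rw [Real.sqrt_mul (by norm_num), show (4:ℝ) = 2 ^ 2 by norm_num, Real.sqrt_sq (by norm_num)]
  have sD : Real.sqrt D * Real.sqrt D = D := Real.mul_self_sqrt hD
  have sDn : 0 ≤ Real.sqrt D := Real.sqrt_nonneg D
  constructor
  · intro n
    have e1 := hP (x - y) x (x - y) (2 * Real.sqrt R) (2 * Real.sqrt R) (2 * Real.sqrt R)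
      (2 * Real.sqrt D) (2 * Real.sqrt D) (2 * Real.sqrt D) (by positivity) (by positivity)
      (by positivity) (by positivity) (by positivity) (by positivity) hw hx hw
      (fun n => by
        have := hw4 n
        nlinarith [Real.mul_self_sqrt hR])
      (fun n => by
        have := hxR n
        nlinarith [Real.mul_self_sqrt hR])
      (fun n => by
        have := hw4 n
        nlinarith [Real.mul_self_sqrt hR])
      (fun n => by
        have := hwσ n
        nlinarith)
      (fun n => by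
        have := hxσ n
        nlinarith)
      (fun n => by
        have := hwσ n
        nlinarith) n
    have e2 := hP y (x - y) (x - y) (2 * Real.sqrt R) (2 * Real.sqrt R) (2 * Real.sqrt R)
      (2 * Real.sqrt D) (2 * Real.sqrt D) (2 * Real.sqrt D) (by positivity) (by positivity)
      (by positivity) (by positivity) (by positivity) (by positivity) hy hw hw
      (fun n => by
        have := hyR n
        nlinarith [Real.mul_self_sqrt hR])
      (fun n => by
        have := hw4 n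
        nlinarith [Real.mul_self_sqrt hR])
      (fun n => by
        have := hw4 n
        nlinarith [Real.mul_self_sqrt hR])
      (fun n => by
        have := hyσ n
        nlinarith)
      (fun n => by
        have := hwσ n
        nlinarith)
      (fun n => by
        have := hwσ n
        nlinarith) n
    have e3 : C * (2 * Real.sqrt R * (2 * Real.sqrt D) * (2 * Real.sqrt D) +
        2 * Real.sqrt R * (2 * Real.sqrt D) * (2 * Real.sqrt D) +
        2 * Real.sqrt R * (2 * Real.sqrt D) * (2 * Real.sqrt D)) = 24 * C * Real.sqrt R * D := by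
      linear_combination (24 * C * Real.sqrt R) * sD
    rw [e3] at e1 e2
    have e4 : (pr g n (x - y) x (x - y) + pr g n y (x - y) (x - y)).im ≤
        48 * C * Real.sqrt R * D := by
      have e6 := (Complex.abs_im_le_norm (pr g n (x - y) x (x - y) + pr g n y (x - y) (x - y)))
      have e7 := norm_add_le (pr g n (x - y) x (x - y)) (pr g n y (x - y) (x - y))
      have e8 := le_abs_self (pr g n (x - y) x (x - y) + pr g n y (x - y) (x - y)).im
      linarith
    have e5 : 0 ≤ ν * Er α n (x - y) := mul_nonneg hν.le (stb_Er_nonneg _ _ _)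
    linarith
  · have hbd : BddAbove (Set.range fun n => Er α n (x - y)) := by
      refine ⟨4 * D, ?_⟩
      rintro _ ⟨n, rfl⟩
      exact hwD n
    set W : ℝ := ⨆ n, Er α n (x - y) with hW
    have hWn : ∀ n, Er α n (x - y) ≤ W := fun n => le_ciSup hbd n
    have hWt : Tendsto (fun n => Er α n (x - y)) atTop (𝓝 W) :=
      tendsto_atTop_ciSup (stb_Er_mono α (x - y)) hbd
    have hW0 : 0 ≤ W := (stb_Er_nonneg α 0 (x - y)).trans (hWn 0)
    have hz : Tendsto (fun n => 2 * ν * (W - Er α n (x - y)) + 2 * ‖pr g n y (x - y) (x - y)‖)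
        atTop (𝓝 0) := by
      have t1 := h4 h1 h2 h3 g κ hg hκ hTB y (x - y) hy hw ⟨D, hyσ⟩ ⟨4 * D, hwσ⟩
      have t2 := (tendsto_const_nhds (x := W)).sub hWt
      have t3 := (t2.const_mul (2 * ν)).add ((t1.norm).const_mul 2)
      simpa using t3
    refine squeeze_zero (fun n => le_max_right _ _) (fun n => ?_) hz
    set S : ℝ := ε * W + c * Y with hS
    have hS0 : 0 ≤ S := by positivity
    have sS : Real.sqrt S * Real.sqrt S = S := Real.mul_self_sqrt hS0
    have sSn : 0 ≤ Real.sqrt S := Real.sqrt_nonneg S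
    have sY : Real.sqrt Y * Real.sqrt Y = Y := Real.mul_self_sqrt hY
    have sYn : 0 ≤ Real.sqrt Y := Real.sqrt_nonneg Y
    have hwS : ∀ n, Er σ n (x - y) ≤ Real.sqrt S ^ 2 := fun n => by
      rw [Real.sq_sqrt hS0, hS]
      have a1 := hI n (x - y)
      have a2 := mul_le_mul_of_nonneg_left (hWn n) hε0.le
      have a3 := mul_le_mul_of_nonneg_left (hwY n) hc
      linarith
    have hwY' : ∀ n, En 0 n (x - y) ≤ Real.sqrt Y ^ 2 := fun n => by
      rw [Real.sq_sqrt hY]
      exact hwY n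
    have e1 := hP (x - y) x (x - y) (Real.sqrt Y) (Real.sqrt R) (Real.sqrt Y)
      (Real.sqrt S) (Real.sqrt D) (Real.sqrt S) sYn hR' sYn sSn sDn sSn hw hx hw hwY'
      (fun n => by
        rw [Real.sq_sqrt hR]
        exact hxR n) hwY' hwS
      (fun n => by
        rw [Real.sq_sqrt hD]
        exact hxσ n) hwS n
    have e6 := (Complex.abs_im_le_norm (pr g n (x - y) x (x - y) + pr g n y (x - y) (x - y)))
    have e7 := norm_add_le (pr g n (x - y) x (x - y)) (pr g n y (x - y) (x - y))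
    have e8 := le_abs_self (pr g n (x - y) x (x - y) + pr g n y (x - y) (x - y)).im
    -- the main estimate
    have m1 : 2 * (Real.sqrt Y * Real.sqrt D * Real.sqrt S) ≤ Y * D + S := by
      have := sq_nonneg (Real.sqrt Y * Real.sqrt D - Real.sqrt S)
      nlinarith
    have m2 : Real.sqrt Y * Real.sqrt D * Real.sqrt S + Real.sqrt R * Real.sqrt S * Real.sqrt S +
        Real.sqrt Y * Real.sqrt S * Real.sqrt D ≤ Y * D + (1 + Real.sqrt R) * S := by
      have : Real.sqrt R * Real.sqrt S * Real.sqrt S = Real.sqrt R * S := by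
        rw [mul_assoc, sS]
      rw [this]
      linarith
    have m3 := mul_le_mul_of_nonneg_left m2 hC
    have m4 : C * (1 + Real.sqrt R) * (ε * W) ≤ ν * W := by
      have := mul_le_mul_of_nonneg_right hε1 hW0
      linarith
    have m5 : 2 * ‖pr g n (x - y) x (x - y)‖ ≤ 2 * ν * W +
        (2 * C + 2 * (C * (1 + Real.sqrt R)) * c) * (1 + D) * Y := by
      have a1 : 0 ≤ C * Y := mul_nonneg hC hY
      have a2 : 0 ≤ C * (1 + Real.sqrt R) * c * (D * Y) := by positivity
      have a3 : 2 * (C * (Y * D + (1 + Real.sqrt R) * S)) =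
          2 * (C * Y * D) + 2 * (C * (1 + Real.sqrt R) * (ε * W)) +
            2 * (C * (1 + Real.sqrt R)) * c * Y := by
        rw [hS]
        ring
      have a4 : (2 * C + 2 * (C * (1 + Real.sqrt R)) * c) * (1 + D) * Y =
          2 * (C * Y) + 2 * (C * Y * D) + 2 * (C * (1 + Real.sqrt R)) * c * Y +
            2 * (C * (1 + Real.sqrt R) * c * (D * Y)) := by ring
      rw [a4]
      linarith
    apply max_le
    · linarith
    · have := mul_nonneg hν.le (sub_nonneg.mpr (hWn n))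
      have := norm_nonneg (pr g n y (x - y) (x - y))
      linarith

/-- monotone convergence -/
theorem stb_mono (T R : ℝ) (hT : 0 ≤ T) (f : ℕ → ℝ → ℝ)
    (hf : ∀ n, IntervalIntegrable (f n) volume 0 T) (h0 : ∀ n s, 0 ≤ f n s)
    (hm : ∀ s, Monotone (fun n => f n s)) (hR : ∀ n, ∫ s in (0 : ℝ)..T, f n s ≤ R) :
    ∃ D : ℝ → ℝ, (∀ s, 0 ≤ D s) ∧ IntervalIntegrable D volume 0 T ∧
      ∫ s in (0 : ℝ)..T, D s ≤ R ∧ ∀ᵐ s ∂(volume.restrict (Set.Ioc 0 T)), ∀ n, f n s ≤ D s := by
  have hR0 : 0 ≤ R := (intervalIntegral.integral_nonneg hT fun s _ => h0 0 s).trans (hR 0)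
  set μ : Measure ℝ := volume.restrict (Set.Ioc 0 T) with hμ
  have hf' : ∀ n, Integrable (f n) μ := fun n =>
    (intervalIntegrable_iff_integrableOn_Ioc_of_le hT).mp (hf n)
  have hmeas : ∀ n, AEMeasurable (fun s => ENNReal.ofReal (f n s)) μ := fun n =>
    (hf' n).1.aemeasurable.ennreal_ofReal
  have hl : ∫⁻ s, ⨆ n, ENNReal.ofReal (f n s) ∂μ ≤ ENNReal.ofReal R := by
    rw [lintegral_iSup' hmeas (Filter.Eventually.of_forall fun s => fun a b hab =>
      ENNReal.ofReal_le_ofReal (hm s hab))]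
    refine iSup_le fun n => ?_
    rw [← ofReal_integral_eq_lintegral_ofReal (hf' n) (Filter.Eventually.of_forall fun s => h0 n s)]
    apply ENNReal.ofReal_le_ofReal
    rw [← intervalIntegral.integral_of_le hT]
    exact hR n
  have hmeas' : AEMeasurable (fun s => ⨆ n, ENNReal.ofReal (f n s)) μ := AEMeasurable.iSup hmeas
  have hne : ∫⁻ s, ⨆ n, ENNReal.ofReal (f n s) ∂μ ≠ ⊤ := (hl.trans_lt ENNReal.ofReal_lt_top).ne
  have hae := ae_lt_top' hmeas' hne
  refine ⟨fun s => (⨆ n, ENNReal.ofReal (f n s)).toReal, fun s => ENNReal.toReal_nonneg, ?_, ?_, ?_⟩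
  · exact (intervalIntegrable_iff_integrableOn_Ioc_of_le hT).mpr
      (integrable_toReal_of_lintegral_ne_top hmeas' hne)
  · rw [intervalIntegral.integral_of_le hT, integral_toReal hmeas' hae]
    exact ENNReal.toReal_le_of_le_ofReal hR0 hl
  · filter_upwards [hae] with s hs n
    rw [← ENNReal.ofReal_le_iff_le_toReal hs.ne]
    exact le_iSup (fun n => ENNReal.ofReal (f n s)) n

theorem stb_Er_cont (r : ℝ) (n : ℕ) (S : Set ℝ) (u : ℝ → Fld)
    (hu : ∀ m j, ContinuousOn (fun t => u t m j) S) :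
    ContinuousOn (fun t => Er r n (u t)) S := by
  unfold Er
  exact continuousOn_finsetSum _ fun k _ => ContinuousOn.mul continuousOn_const
    (continuousOn_finsetSum _ fun i _ => ((hu k i).norm.pow 2))

theorem stb_En_cont (s n : ℕ) (S : Set ℝ) (u : ℝ → Fld)
    (hu : ∀ m j, ContinuousOn (fun t => u t m j) S) :
    ContinuousOn (fun t => En s n (u t)) S := by
  unfold En
  exact continuousOn_finsetSum _ fun k _ => ContinuousOn.mul continuousOn_const
    (continuousOn_finsetSum _ fun i _ => ((hu k i).norm.pow 2))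

theorem t_STB : S_STB := by
  intro h1 h2 h3 h4 h5 h6 h7 h8 g κ ν α hg hν hκ hα hTB R T hR hT
  obtain ⟨K, B, hK, hB, hPW⟩ := stb_pw h1 h2 h3 h4 g κ ν α hg hν hκ hα hTB R hR
  refine ⟨Real.exp (K * (T + 2 * R)), (Real.exp_pos _).le, ?_⟩
  intro u v hu hv hEu hEv hDu hDv δ hδ h0
  have hcw : ∀ m j, ContinuousOn (fun t => (u t - v t) m j) (Set.Icc 0 T) := fun m j =>
    (hu.cont m j).sub (hv.cont m j)
  have hii : ∀ (x : ℝ → Fld), (∀ m j, ContinuousOn (fun t => x t m j) (Set.Icc 0 T)) → ∀ n,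
      IntervalIntegrable (fun s => Er α n (x s)) volume 0 T := fun x hx n =>
    ContinuousOn.intervalIntegrable (by rw [Set.uIcc_of_le hT]; exact stb_Er_cont α n _ x hx)
  obtain ⟨D1, hD10, hD1i, hD1R, hD1ae⟩ := stb_mono T R hT (fun n s => Er α n (u s))
    (hii u hu.cont) (fun n s => stb_Er_nonneg _ _ _) (fun s => stb_Er_mono α (u s)) hDu
  obtain ⟨D2, hD20, hD2i, hD2R, hD2ae⟩ := stb_mono T R hT (fun n s => Er α n (v s))
    (hii v hv.cont) (fun n s => stb_Er_nonneg _ _ _) (fun s => stb_Er_mono α (v s)) hDv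
  set D : ℝ → ℝ := fun s => D1 s + D2 s with hD
  have hD0 : ∀ s, 0 ≤ D s := fun s => add_nonneg (hD10 s) (hD20 s)
  have hDi : IntervalIntegrable D volume 0 T := hD1i.add hD2i
  set a : ℝ → ℝ := fun s => K * (1 + D s) with ha
  have ha0 : ∀ s, 0 ≤ a s := fun s => mul_nonneg hK (by have := hD0 s; linarith)
  have hai : IntervalIntegrable a volume 0 T :=
    (intervalIntegrable_const.add hDi).const_mul K
  set y : ℝ → ℝ := fun t => ⨆ n, En 0 n (u (Set.projIcc 0 T hT t) - v (Set.projIcc 0 T hT t))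
    with hy
  have hb4 : ∀ t ∈ Set.Icc 0 T, ∀ n, En 0 n (u t - v t) ≤ 4 * R := fun t ht n => by
    have := stb_En_sub 0 n (u t) (v t)
    linarith [hEu t ht n, hEv t ht n]
  have hbd : ∀ t, BddAbove (Set.range fun n =>
      En 0 n (u (Set.projIcc 0 T hT t) - v (Set.projIcc 0 T hT t))) := fun t => by
    refine ⟨4 * R, ?_⟩
    rintro _ ⟨n, rfl⟩
    exact hb4 _ (Set.projIcc 0 T hT t).2 n
  have hym : Measurable y := by
    refine Measurable.iSup fun n => Continuous.measurable ?_
    have hc := stb_En_cont 0 n (Set.Icc 0 T) (fun t => u t - v t) hcw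
    exact hc.comp_continuous (continuous_subtype_val.comp continuous_projIcc)
      fun t => (Set.projIcc 0 T hT t).2
  have hy0 : ∀ t, 0 ≤ y t := fun t => (stb_En_nonneg 0 0 _).trans (le_ciSup (hbd t) 0)
  have hy4 : ∀ t, y t ≤ 4 * R := fun t => ciSup_le fun n => hb4 _ (Set.projIcc 0 T hT t).2 n
  have hyn : ∀ t ∈ Set.Icc 0 T, ∀ n, En 0 n (u t - v t) ≤ y t := fun t ht n => by
    have h := le_ciSup (hbd t) n
    have e : ((Set.projIcc 0 T hT t : Set.Icc 0 T) : ℝ) = t := by rw [Set.projIcc_of_mem hT ht]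
    calc En 0 n (u t - v t) =
        En 0 n (u (Set.projIcc 0 T hT t) - v (Set.projIcc 0 T hT t)) := by rw [e]
      _ ≤ y t := h
  have hyle : ∀ t ∈ Set.Icc 0 T, ∀ c, (∀ n, En 0 n (u t - v t) ≤ c) → y t ≤ c := by
    intro t ht c hc
    refine ciSup_le fun n => ?_
    rw [Set.projIcc_of_mem hT ht]
    exact hc n
  have hay : IntervalIntegrable (fun s => a s * y s) volume 0 T := by
    rw [intervalIntegrable_iff_integrableOn_Ioc_of_le hT] at hai ⊢
    exact Integrable.mul_bdd (c := 4 * R) hai hym.aestronglyMeasurable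
      (Filter.Eventually.of_forall fun s => by
        rw [Real.norm_eq_abs, abs_of_nonneg (hy0 s)]
        exact hy4 s)
  -- the functions `G n`
  set G : ℕ → ℝ → ℝ := fun n s => -2 * ν * Er α n (u s - v s) +
    2 * (pr g n (u s - v s) (u s) (u s - v s) + pr g n (v s) (u s - v s) (u s - v s)).im with hG
  have hbal : ∀ n, IntervalIntegrable (G n) volume 0 T ∧ ∀ t ∈ Set.Icc 0 T,
      En 0 n (u t - v t) = En 0 n (u 0 - v 0) + ∫ s in (0 : ℝ)..t, G n s := by
    intro n
    obtain ⟨b1, b2⟩ := h5 h1 h6 h7 g ν α T hg hT u v hu hv (fun _ => 1) n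
    have epr : ∀ s, (∑ m ∈ cub n, ((1 : ℝ) : ℂ) * ∑ j, (starRingEnd ℂ)
        (u s m j - v s m j) * (cv g (u s - v s) (u s) m j + cv g (v s) (u s - v s) m j)) =
        pr g n (u s - v s) (u s) (u s - v s) + pr g n (v s) (u s - v s) (u s - v s) := by
      intro s
      unfold pr
      rw [← Finset.sum_add_distrib]
      refine Finset.sum_congr rfl fun m _ => ?_
      rw [← Finset.sum_add_distrib, Complex.ofReal_one, one_mul]
      refine Finset.sum_congr rfl fun j _ => ?_
      rw [← mul_add]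
      rfl
    have eEn : ∀ t, ∑ m ∈ cub n, (1 : ℝ) * ∑ j, ‖u t m j - v t m j‖ ^ 2 = En 0 n (u t - v t) := by
      intro t
      unfold En
      refine Finset.sum_congr rfl fun m _ => ?_
      rw [pow_zero]
      rfl
    have eEr : ∀ t, ∑ m ∈ cub n, (1 : ℝ) * (nsq m ^ α * ∑ j, ‖u t m j - v t m j‖ ^ 2) =
        Er α n (u t - v t) := by
      intro t
      unfold Er
      refine Finset.sum_congr rfl fun m _ => ?_
      rw [one_mul]
      rfl
    simp only [epr, eEn, eEr] at b1 b2
    exact ⟨((hii _ hcw n).const_mul _).add (b1.const_mul 2), b2⟩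
  -- remainders
  set r : ℕ → ℝ → ℝ := fun n s => max (G n s - a s * y s) 0 with hr
  have hri : ∀ n, IntervalIntegrable (r n) volume 0 T := fun n => by
    have := (hbal n).1.sub hay
    rw [intervalIntegrable_iff_integrableOn_Ioc_of_le hT] at this ⊢
    exact this.pos_part
  have hr0 : ∀ n s, 0 ≤ r n s := fun n s => le_max_right _ _
  have hae : ∀ᵐ s ∂(volume.restrict (Set.Ioc 0 T)), (∀ n, ‖r n s‖ ≤ B * D s) ∧
      Tendsto (fun n => r n s) atTop (𝓝 0) := by
    filter_upwards [hD1ae, hD2ae, ae_restrict_mem measurableSet_Ioc] with s hs1 hs2 hs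
    have hs' : s ∈ Set.Icc 0 T := ⟨hs.1.le, hs.2⟩
    have c1 : D1 s ≤ D s := by have := hD20 s; simp only [hD]; linarith
    have c2 : D2 s ≤ D s := by have := hD10 s; simp only [hD]; linarith
    obtain ⟨p1, p2⟩ := hPW (u s) (v s) (D s) (y s) (hu.adm s hs') (hv.adm s hs') (hD0 s) (hy0 s)
      (fun n => (hs1 n).trans c1) (fun n => (hs2 n).trans c2)
      (fun n => by
        have := stb_Er_sub α n (u s) (v s)
        have := (hs1 n).trans c1
        have := (hs2 n).trans c2
        linarith)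
      (hEu s hs') (hEv s hs') (hyn s hs')
    refine ⟨fun n => ?_, p2⟩
    rw [Real.norm_eq_abs, abs_of_nonneg (hr0 n s)]
    apply max_le
    · have := p1 n
      have := mul_nonneg (ha0 s) (hy0 s)
      simp only [hG]
      linarith
    · exact mul_nonneg hB (hD0 s)
  have hrt : Tendsto (fun n => ∫ s in (0 : ℝ)..T, r n s) atTop (𝓝 0) := by
    have := intervalIntegral.tendsto_integral_filter_of_dominated_convergence
      (μ := volume) (a := 0) (b := T) (F := r) (f := fun _ => (0 : ℝ)) (l := atTop)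
      (fun s => B * D s)
      (Filter.Eventually.of_forall fun n => by
        rw [Set.uIoc_of_le hT]
        exact ((intervalIntegrable_iff_integrableOn_Ioc_of_le hT).mp (hri n)).1)
      (Filter.Eventually.of_forall fun n => by
        rw [Set.uIoc_of_le hT]
        rw [ae_restrict_iff' measurableSet_Ioc] at hae
        filter_upwards [hae] with s hs hs'
        exact (hs hs').1 n)
      (hDi.const_mul B)
      (by
        rw [Set.uIoc_of_le hT]
        rw [ae_restrict_iff' measurableSet_Ioc] at hae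
        filter_upwards [hae] with s hs hs'
        exact (hs hs').2)
    simpa using this
  have hineq : ∀ t ∈ Set.Icc 0 T, y t ≤ δ + ∫ s in (0 : ℝ)..t, a s * y s := by
    intro t ht
    have hsub : Set.uIcc 0 t ⊆ Set.uIcc 0 T := by
      rw [Set.uIcc_of_le ht.1, Set.uIcc_of_le hT]
      exact Set.Icc_subset_Icc_right ht.2
    have hn : ∀ n, En 0 n (u t - v t) ≤
        (δ + ∫ s in (0 : ℝ)..t, a s * y s) + ∫ s in (0 : ℝ)..T, r n s := by
      intro n
      rw [(hbal n).2 t ht]
      have e1 : ∫ s in (0 : ℝ)..t, G n s ≤ ∫ s in (0 : ℝ)..t, (a s * y s + r n s) := by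
        apply intervalIntegral.integral_mono_on ht.1 ((hbal n).1.mono_set hsub)
          ((hay.add (hri n)).mono_set hsub)
        intro s _
        have := le_max_left (G n s - a s * y s) 0
        simp only [hr]
        linarith
      rw [intervalIntegral.integral_add (hay.mono_set hsub) ((hri n).mono_set hsub)] at e1
      have e2 : ∫ s in (0 : ℝ)..t, r n s ≤ ∫ s in (0 : ℝ)..T, r n s :=
        intervalIntegral.integral_mono_interval le_rfl ht.1 ht.2
          (Filter.Eventually.of_forall fun s => hr0 n s) (hri n)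
      linarith [h0 n]
    apply hyle t ht
    intro m
    have hlim : Tendsto (fun n => (δ + ∫ s in (0 : ℝ)..t, a s * y s) + ∫ s in (0 : ℝ)..T, r n s)
        atTop (𝓝 (δ + ∫ s in (0 : ℝ)..t, a s * y s)) := by
      simpa using hrt.const_add (δ + ∫ s in (0 : ℝ)..t, a s * y s)
    refine ge_of_tendsto hlim ?_
    filter_upwards [eventually_ge_atTop m] with n hmn
    exact (stb_En_mono 0 (u t - v t) hmn).trans (hn n)
  have hgr := h8 T δ (4 * R) a y hT hδ (fun s _ => ha0 s) hai hym
    (fun s _ => ⟨hy0 s, hy4 s⟩) hineq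
  intro t ht n
  have hsub : Set.uIcc 0 t ⊆ Set.uIcc 0 T := by
    rw [Set.uIcc_of_le ht.1, Set.uIcc_of_le hT]
    exact Set.Icc_subset_Icc_right ht.2
  have hia : ∫ s in (0 : ℝ)..t, a s ≤ K * (T + 2 * R) := by
    have e1 : ∫ s in (0 : ℝ)..t, a s ≤ ∫ s in (0 : ℝ)..T, a s :=
      intervalIntegral.integral_mono_interval le_rfl ht.1 ht.2
        (Filter.Eventually.of_forall fun s => ha0 s) hai
    have e2 : ∫ s in (0 : ℝ)..T, a s = K * (T + (∫ s in (0 : ℝ)..T, D1 s + D2 s)) := by
      simp only [ha]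
      rw [intervalIntegral.integral_const_mul,
        intervalIntegral.integral_add intervalIntegrable_const hDi]
      simp [hD]
    rw [intervalIntegral.integral_add hD1i hD2i] at e2
    have e3 : K * (T + ((∫ s in (0 : ℝ)..T, D1 s) + ∫ s in (0 : ℝ)..T, D2 s)) ≤
        K * (T + 2 * R) := mul_le_mul_of_nonneg_left (by linarith) hK
    linarith
  calc En 0 n (u t - v t) ≤ y t := hyn t ht n
    _ ≤ δ * Real.exp (∫ s in (0 : ℝ)..t, a s) := hgr t ht
    _ ≤ δ * Real.exp (K * (T + 2 * R)) :=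
        mul_le_mul_of_nonneg_left (Real.exp_le_exp.mpr hia) hδ
    _ = Real.exp (K * (T + 2 * R)) * δ := mul_comm _ _

end Pool.Agent.N983.WK
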