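import Pool.Agent.N983.WK.Stm2

set_option autoImplicit false

/-! Smooth solutions are weak solutions (helper820). -/

namespace Pool.Agent.N983.WK

open MeasureTheory ProbabilityTheory Filter Topology Pool.Agent.N983.RT

theorem sw_nn (k : Wv) : 0 ≤ nsq k := Finset.sum_nonneg fun _ _ => sq_nonneg _

theorem sw_cont {g : Wv → Wv → Wv → ℝ} {ν α : ℝ} {u : ℝ → Fld} (hu : IsSol g ν α u) (k : Wv)
    (i : Fin 3) : ContinuousOn (fun t => u t k i) (Set.Ici 0) := by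
  intro t ht
  by_cases hk : k = 0
  · subst hk
    have h2 : ∀ t ∈ Set.Ici (0 : ℝ), u t 0 i = 0 := by
      intro t ht
      rw [(hu.adm t ht).zero]
      rfl
    exact (continuousOn_const (c := (0 : ℂ))).congr h2 t ht
  · exact (hu.eqn t ht k hk i).continuousWithinAt

theorem sw_Er_cont {g : Wv → Wv → Wv → ℝ} {ν α : ℝ} {u : ℝ → Fld} (hu : IsSol g ν α u) (r : ℝ)
    (N : ℕ) : ContinuousOn (fun t => Er r N (u t)) (Set.Ici 0) := by
  unfold Er
  refine continuousOn_finsetSum _ fun k _ => ?_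
  refine continuousOn_const.mul ?_
  exact continuousOn_finsetSum _ fun i _ => ((sw_cont hu k i).norm).pow 2

theorem sw_term (r : ℝ) (C : ℝ) (k : Wv) (hr : 0 ≤ r) (x : ℝ) (hx : 0 ≤ x)
    (h : (1 + nsq k) ^ (2 + ⌈r⌉₊) * x ≤ C) :
    nsq k ^ r * x ^ 2 ≤ C ^ 2 * ((1 + nsq k) ^ 3)⁻¹ := by
  have hk := sw_nn k
  have h1 : (1 : ℝ) ≤ 1 + nsq k := by linarith
  have h2 : nsq k ^ r ≤ (1 + nsq k) ^ ⌈r⌉₊ := by
    calc nsq k ^ r ≤ (1 + nsq k) ^ r := Real.rpow_le_rpow hk (by linarith) hr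
      _ ≤ (1 + nsq k) ^ ((⌈r⌉₊ : ℕ) : ℝ) := Real.rpow_le_rpow_of_exponent_le h1 (Nat.le_ceil r)
      _ = (1 + nsq k) ^ ⌈r⌉₊ := Real.rpow_natCast _ _
  rw [← div_eq_mul_inv, le_div_iff₀ (by positivity)]
  have h3 : 0 ≤ (1 + nsq k) ^ (2 + ⌈r⌉₊) * x := by positivity
  calc nsq k ^ r * x ^ 2 * (1 + nsq k) ^ 3 ≤ (1 + nsq k) ^ ⌈r⌉₊ * x ^ 2 * (1 + nsq k) ^ 3 := by
        gcongr
    _ = (1 + nsq k) ^ (3 + ⌈r⌉₊) * x ^ 2 := by ring
    _ ≤ (1 + nsq k) ^ (2 * (2 + ⌈r⌉₊)) * x ^ 2 := by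
        refine mul_le_mul_of_nonneg_right (pow_le_pow_right₀ h1 ?_) (sq_nonneg x)
        omega
    _ = ((1 + nsq k) ^ (2 + ⌈r⌉₊) * x) ^ 2 := by ring
    _ ≤ C ^ 2 := pow_le_pow_left₀ h3 h 2

theorem sw_bound (hSUM : S_SUM) {g : Wv → Wv → Wv → ℝ} {ν α : ℝ} {u : ℝ → Fld}
    (hu : IsSol g ν α u) (T r : ℝ) (hr : 0 ≤ r) :
    ∃ C : ℝ, ∀ t ∈ Set.Icc 0 T, ∀ n, Er r n (u t) ≤ C := by
  obtain ⟨C, hC⟩ := hu.decay T (2 + ⌈r⌉₊)
  refine ⟨3 * C ^ 2 * ∑' k : Wv, ((1 + nsq k) ^ 3)⁻¹, fun t ht n => ?_⟩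
  have h1 : ∀ k : Wv, 0 ≤ ((1 + nsq k) ^ 3)⁻¹ := fun k => by
    have := sw_nn k
    positivity
  have h2 : ∀ k, nsq k ^ r * ∑ i, ‖u t k i‖ ^ 2 ≤ 3 * C ^ 2 * ((1 + nsq k) ^ 3)⁻¹ := by
    intro k
    rw [Finset.mul_sum]
    calc ∑ i : Fin 3, nsq k ^ r * ‖u t k i‖ ^ 2 ≤ ∑ i : Fin 3, C ^ 2 * ((1 + nsq k) ^ 3)⁻¹ :=
          Finset.sum_le_sum fun i _ => sw_term r C k hr _ (norm_nonneg _) (hC t ht.1 ht.2 k i)
      _ = 3 * C ^ 2 * ((1 + nsq k) ^ 3)⁻¹ := by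
          rw [Finset.sum_const, Finset.card_univ, Fintype.card_fin, nsmul_eq_mul]
          push_cast
          ring
  unfold Er
  calc ∑ k ∈ cub n, nsq k ^ r * ∑ i, ‖u t k i‖ ^ 2
      ≤ ∑ k ∈ cub n, 3 * C ^ 2 * ((1 + nsq k) ^ 3)⁻¹ := Finset.sum_le_sum fun k _ => h2 k
    _ = 3 * C ^ 2 * ∑ k ∈ cub n, ((1 + nsq k) ^ 3)⁻¹ := by rw [Finset.mul_sum]
    _ ≤ 3 * C ^ 2 * ∑' k : Wv, ((1 + nsq k) ^ 3)⁻¹ :=
        mul_le_mul_of_nonneg_left (hSUM.sum_le_tsum _ fun k _ => h1 k) (by positivity)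

theorem t_SW : S_SW := by
  intro hSUM hCVB hMSB g ν α T hg hT hα u hu
  have hE : ∃ C : ℝ, ∀ t ∈ Set.Icc 0 T, ∀ n, En 0 n (u t) ≤ C := by
    obtain ⟨C, hC⟩ := sw_bound hSUM hu T 0 le_rfl
    refine ⟨C, fun t ht n => ?_⟩
    refine le_trans (le_of_eq ?_) (hC t ht n)
    unfold En Er
    refine Finset.sum_congr rfl fun k _ => ?_
    rw [pow_zero, Real.rpow_zero]
  have hcont : ∀ m j, ContinuousOn (fun t => u t m j) (Set.Icc 0 T) := fun m j =>
    (sw_cont hu m j).mono Set.Icc_subset_Ici_self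
  refine ⟨fun t ht => hu.adm t ht.1, hcont, hE, ?_, ?_⟩
  · obtain ⟨C, hC⟩ := sw_bound hSUM hu T α hα.le
    refine ⟨∫ _t in (0 : ℝ)..T, C, fun n => ?_⟩
    refine intervalIntegral.integral_mono_on hT ?_ (by simp) fun t ht => hC t ht n
    refine ((sw_Er_cont hu α n).mono ?_).intervalIntegrable
    rw [Set.uIcc_of_le hT]
    exact Set.Icc_subset_Ici_self
  · intro m hm j t ht
    obtain ⟨C, hC⟩ := hE
    have hcv : ∀ i, IntervalIntegrable (fun s => conv g (u s) m i) volume 0 t := by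
      intro i
      have h1 := hMSB hCVB g T C u u hg.le hT (fun t ht => hu.adm t ht.1) hcont hcont hC hC m i
      refine h1.mono_set ?_
      rw [Set.uIcc_of_le ht.1, Set.uIcc_of_le hT]
      exact Set.Icc_subset_Icc_right ht.2
    have hint : IntervalIntegrable (fun s => rhs g ν α (u s) m j) volume 0 t := by
      unfold rhs prj dt
      refine IntervalIntegrable.sub ?_ ?_
      · refine IntervalIntegrable.const_mul ?_ _
        refine ((sw_cont hu m j).mono ?_).intervalIntegrable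
        rw [Set.uIcc_of_le ht.1]
        exact Set.Icc_subset_Ici_self
      · refine IntervalIntegrable.const_mul ?_ _
        refine (hcv j).sub ?_
        refine IntervalIntegrable.div_const ?_ _
        refine IntervalIntegrable.mul_const ?_ _
        have h3 : IntervalIntegrable
            (∑ i : Fin 3, fun s => conv g (u s) m i * ((m i : ℤ) : ℂ)) volume 0 t :=
          IntervalIntegrable.sum _ fun i _ => (hcv i).mul_const _
        refine h3.congr fun s _ => ?_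
        simp only [Finset.sum_apply]
    have h2 := intervalIntegral.integral_eq_sub_of_hasDeriv_right_of_le (f := fun s => u s m j)
      (f' := fun s => rhs g ν α (u s) m j) ht.1
      ((sw_cont hu m j).mono Set.Icc_subset_Ici_self)
      (fun x hx => (hu.eqn x hx.1.le m hm j).mono fun y hy => le_of_lt (hx.1.trans hy)) hint
    rw [h2]
    ring

end Pool.Agent.N983.WK
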