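import Pool.Agent.N983.WK.Def

set_option autoImplicit false

/-! Statements of the parts of the proof. -/

namespace Pool.Agent.N983.WK

open MeasureTheory ProbabilityTheory Filter Topology Pool.Agent.N983.RT

/-- the bilinear version of `conv` -/
noncomputable def cv (g : Wv → Wv → Wv → ℝ) (u v : Fld) (m : Wv) : Fin 3 → ℂ :=
  fun j => ∑' k, (g k (m - k) (-m) : ℂ) * dt (u k) (m - k) * v (m - k) j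

/-- the nonlinear term `cv g u v`, tested with `w` on `cub n` -/
noncomputable def pr (g : Wv → Wv → Wv → ℝ) (n : ℕ) (u v w : Fld) : ℂ :=
  ∑ m ∈ cub n, ∑ j, (starRingEnd ℂ) (w m j) * cv g u v m j

/-- Sobolev norm of a scalar sequence -/
noncomputable def Nr (κ : ℝ) (n : ℕ) (x : Wv → ℂ) : ℝ :=
  Real.sqrt (∑ k ∈ cub n, nsq k ^ ((1 + κ) / 2) * ‖x k‖ ^ 2)

/-- (TRB) the bound for the trilinear form -/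
def S_TRB : Prop := ∀ (g : Wv → Wv → Wv → ℝ) (κ : ℝ), -1 < κ → TB g κ → ∃ C : ℝ, 0 ≤ C ∧
  ∀ (n : ℕ) (i : Fin 3) (x y z : Wv → ℂ), x 0 = 0 → y 0 = 0 → z 0 = 0 →
    (∀ k, k ∉ cub n → x k = 0 ∧ y k = 0 ∧ z k = 0) →
    ‖Tri (fun k l => g k l (-(k + l)) * (l i : ℝ)) n x y z‖ ≤
      C * (N2 n x * Nr κ n y * Nr κ n z + N2 n y * Nr κ n x * Nr κ n z +
        N2 n z * Nr κ n x * Nr κ n y)

/-- (CVB) the convolution: bounds and truncation -/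
def S_CVB : Prop := ∃ K : Wv → ℝ, (∀ m, 0 ≤ K m) ∧
  ∀ (g : Wv → Wv → Wv → ℝ) (u v : Fld) (a b : ℝ), (∀ k l m, |g k l m| ≤ 1) → 0 ≤ a → 0 ≤ b →
    (∀ k, dt (u k) k = 0) → (∀ n, En 0 n u ≤ a ^ 2) → (∀ n, En 0 n v ≤ b ^ 2) →
    ∀ m j, Summable (fun k => (g k (m - k) (-m) : ℂ) * dt (u k) (m - k) * v (m - k) j) ∧
      ‖cv g u v m j‖ ≤ K m * a * b ∧
      Tendsto (fun N => cv g (cut N u) (cut N v) m j) atTop (𝓝 (cv g u v m j))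

/-- (PRB) the bound for the tested nonlinear term -/
def S_PRB : Prop := S_TRB → S_CVB → ∀ (g : Wv → Wv → Wv → ℝ) (κ : ℝ), Arr g → -1 < κ → TB g κ →
  ∃ C : ℝ, 0 ≤ C ∧ ∀ (u v w : Fld) (a b c p q r : ℝ), 0 ≤ a → 0 ≤ b → 0 ≤ c → 0 ≤ p → 0 ≤ q →
    0 ≤ r → Adm u → Adm v → Adm w → (∀ n, En 0 n u ≤ a ^ 2) → (∀ n, En 0 n v ≤ b ^ 2) →
    (∀ n, En 0 n w ≤ c ^ 2) → (∀ n, Er ((1 + κ) / 2) n u ≤ p ^ 2) →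
    (∀ n, Er ((1 + κ) / 2) n v ≤ q ^ 2) → (∀ n, Er ((1 + κ) / 2) n w ≤ r ^ 2) →
    ∀ n, ‖pr g n u v w‖ ≤ C * (a * q * r + b * p * r + c * p * q)

/-- (ANT) no work -/
def S_ANT : Prop := S_CVB → S_PRB → S_TRB → ∀ (g : Wv → Wv → Wv → ℝ) (κ : ℝ), Arr g → -1 < κ →
  TB g κ → ∀ u w : Fld, Adm u → Adm w → (∃ C : ℝ, ∀ n, Er ((1 + κ) / 2) n u ≤ C) →
    (∃ C : ℝ, ∀ n, Er ((1 + κ) / 2) n w ≤ C) → Tendsto (fun n => pr g n u w w) atTop (𝓝 0)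

/-- (SQ) the square of an absolutely continuous function -/
def S_SQ : Prop := ∀ (T : ℝ) (x f : ℝ → ℂ), 0 ≤ T → IntervalIntegrable f volume 0 T →
  (∀ t ∈ Set.Icc 0 T, x t = x 0 + ∫ s in (0 : ℝ)..t, f s) →
    IntervalIntegrable (fun s => ((starRingEnd ℂ) (x s) * f s).re) volume 0 T ∧
    ∀ t ∈ Set.Icc 0 T, ‖x t‖ ^ 2 = ‖x 0‖ ^ 2 +
      ∫ s in (0 : ℝ)..t, 2 * ((starRingEnd ℂ) (x s) * f s).re

/-- (MSB) measurability -/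
def S_MSB : Prop := S_CVB → ∀ (g : Wv → Wv → Wv → ℝ) (T C : ℝ) (u v : ℝ → Fld),
  (∀ k l m, |g k l m| ≤ 1) → 0 ≤ T → (∀ t ∈ Set.Icc 0 T, Adm (u t)) →
  (∀ m j, ContinuousOn (fun t => u t m j) (Set.Icc 0 T)) →
  (∀ m j, ContinuousOn (fun t => v t m j) (Set.Icc 0 T)) →
  (∀ t ∈ Set.Icc 0 T, ∀ n, En 0 n (u t) ≤ C) → (∀ t ∈ Set.Icc 0 T, ∀ n, En 0 n (v t) ≤ C) →
  ∀ m j, IntervalIntegrable (fun t => cv g (u t) (v t) m j) volume 0 T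

/-- (BAL) the balance of the difference of two solutions, with weights -/
def S_BAL : Prop := S_CVB → S_SQ → S_MSB → ∀ (g : Wv → Wv → Wv → ℝ) (ν α T : ℝ), Arr g → 0 ≤ T →
  ∀ u v : ℝ → Fld, IsWeak g ν α T u → IsWeak g ν α T v → ∀ (χ : Wv → ℝ) (n : ℕ),
    IntervalIntegrable (fun s => (∑ m ∈ cub n, (χ m : ℂ) * ∑ j, (starRingEnd ℂ)
      (u s m j - v s m j) * (cv g (u s - v s) (u s) m j + cv g (v s) (u s - v s) m j)).im)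
      volume 0 T ∧
    ∀ t ∈ Set.Icc 0 T, ∑ m ∈ cub n, χ m * ∑ j, ‖u t m j - v t m j‖ ^ 2 =
      ∑ m ∈ cub n, χ m * ∑ j, ‖u 0 m j - v 0 m j‖ ^ 2 + ∫ s in (0 : ℝ)..t,
        (-2 * ν * ∑ m ∈ cub n, χ m * (nsq m ^ α * ∑ j, ‖u s m j - v s m j‖ ^ 2) +
        2 * (∑ m ∈ cub n, (χ m : ℂ) * ∑ j, (starRingEnd ℂ)
      (u s m j - v s m j) * (cv g (u s - v s) (u s) m j + cv g (v s) (u s - v s) m j)).im)

/-- a cutoff function -/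
noncomputable def ct (n : ℕ) (m : Wv) : ℝ := max 0 (min 1 (2 - Real.sqrt (nsq m) / (n + 1)))

/-- the work of the nonlinear term on the cutoff field -/
noncomputable def fx (g : Wv → Wv → Wv → ℝ) (n : ℕ) (u : Fld) : ℝ :=
  (∑ m ∈ cub (2 * n + 2), (ct n m : ℂ) * ∑ j, (starRingEnd ℂ) (u m j) * cv g u u m j).im

/-- no energy flux to infinity -/
def FXP (g : Wv → Wv → Wv → ℝ) (α : ℝ) : Prop := ∃ K : ℝ, 0 ≤ K ∧ ∀ (u : Fld) (A D : ℝ),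
  Adm u → 0 ≤ A → 0 ≤ D → (∀ n, En 0 n u ≤ A ^ 2) → (∀ n, Er α n u ≤ D) →
    (∀ n, |fx g n u| ≤ K * A * D) ∧ Tendsto (fun n => fx g n u) atTop (𝓝 0)

/-- (FX1) the flux, random part -/
def S_FX1 : Prop := S_CVB → S_TRB → S_PRB → S_ANT → ∀ (g : Wv → Wv → Wv → ℝ) (κ α : ℝ), Arr g →
  -1 < κ → (1 + κ) / 2 ≤ α → TB g κ → FXP g α

/-- (FX2) the flux, deterministic part -/
def S_FX2 : Prop := S_CVB → ∀ (g : Wv → Wv → Wv → ℝ) (B β α : ℝ), Arr g → 0 ≤ B → 0 < α → β < α →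
  (∀ k l m, k ≠ 0 → l ≠ 0 → m ≠ 0 → k + l + m = 0 →
    |g k l m| * mn k l m ^ (5 / 4 : ℝ) ≤ B * mx k l m ^ β) → FXP g α

/-- the energy equality: the energy at time `t`, plus the energy dissipated before time `t`, is the
initial energy -/
def EnergyEq (ν α T : ℝ) (u : ℝ → Fld) : Prop := ∃ e : ℝ,
  Tendsto (fun n => En 0 n (u 0)) atTop (𝓝 e) ∧ ∀ t ∈ Set.Icc 0 T,
    Tendsto (fun n => En 0 n (u t) + 2 * ν * ∫ s in (0 : ℝ)..t, Er α n (u s)) atTop (𝓝 e)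

/-- (EEQ) energy equality -/
def S_EEQ : Prop := S_CVB → S_BAL → S_SQ → S_MSB → ∀ (g : Wv → Wv → Wv → ℝ) (ν α T : ℝ), Arr g →
  0 < ν → 0 < α → 0 ≤ T → FXP g α → ∀ u : ℝ → Fld, IsWeak g ν α T u → EnergyEq ν α T u

/-- (GRO) Gronwall's inequality with an integrable coefficient -/
def S_GRO : Prop := ∀ (T δ M : ℝ) (a y : ℝ → ℝ), 0 ≤ T → 0 ≤ δ → (∀ s ∈ Set.Icc 0 T, 0 ≤ a s) →
  IntervalIntegrable a volume 0 T → Measurable y → (∀ s ∈ Set.Icc 0 T, 0 ≤ y s ∧ y s ≤ M) →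
  (∀ t ∈ Set.Icc 0 T, y t ≤ δ + ∫ s in (0 : ℝ)..t, a s * y s) →
    ∀ t ∈ Set.Icc 0 T, y t ≤ δ * Real.exp (∫ s in (0 : ℝ)..t, a s)

/-- (STB) stability -/
def S_STB : Prop := S_CVB → S_PRB → S_TRB → S_ANT → S_BAL → S_SQ → S_MSB → S_GRO →
  ∀ (g : Wv → Wv → Wv → ℝ) (κ ν α : ℝ), Arr g → 0 < ν → -1 < κ → (1 + κ) / 2 < α → TB g κ →
  ∀ R T : ℝ, 0 ≤ R → 0 ≤ T → ∃ K : ℝ, 0 ≤ K ∧ ∀ u v : ℝ → Fld,
    IsWeak g ν α T u → IsWeak g ν α T v →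
    (∀ t ∈ Set.Icc 0 T, ∀ n, En 0 n (u t) ≤ R) → (∀ t ∈ Set.Icc 0 T, ∀ n, En 0 n (v t) ≤ R) →
    (∀ n, ∫ t in (0 : ℝ)..T, Er α n (u t) ≤ R) → (∀ n, ∫ t in (0 : ℝ)..T, Er α n (v t) ≤ R) →
    ∀ δ : ℝ, 0 ≤ δ → (∀ n, En 0 n (u 0 - v 0) ≤ δ) →
      ∀ t ∈ Set.Icc 0 T, ∀ n, En 0 n (u t - v t) ≤ K * δ

/-- (ENT) the energy of the truncated systems -/
def S_ENT : Prop := S_ALG → ∀ (g : Wv → Wv → Wv → ℝ) (ν α : ℝ) (n : ℕ) (u : ℝ → Fld), Arr g →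
  0 < ν → IsSol (cutg n g) ν α u → (∀ t, 0 ≤ t → ∀ k, k ∉ cub n → u t k = 0) →
    ∀ T, 0 ≤ T → En 0 n (u T) ≤ En 0 n (u 0) ∧
      2 * ν * ∫ t in (0 : ℝ)..T, Er α n (u t) ≤ En 0 n (u 0)

/-- (SMT) smoothing for the truncated systems -/
def S_SMT : Prop := S_ALG → S_ENT → ∀ (g : Wv → Wv → Wv → ℝ) (ν α κ : ℝ), Arr g → 0 < ν →
  -1 < κ → (1 + κ) / 2 < α → HE g κ → ∀ (s : ℕ) (R τ : ℝ), 0 ≤ R → 0 < τ →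
    ∃ C : ℝ, ∀ (n : ℕ) (u : ℝ → Fld), IsSol (cutg n g) ν α u →
      (∀ t, 0 ≤ t → ∀ k, k ∉ cub n → u t k = 0) → En 0 n (u 0) ≤ R →
        ∀ t, τ ≤ t → En s n (u t) ≤ C

/-- (CPT) passage to the limit -/
def S_CPT : Prop := S_SUM → S_RHS → S_CVB → ∀ (g : Wv → Wv → Wv → ℝ) (ν α C₀ C₁ : ℝ), Arr g →
  0 < ν → 0 < α → ∀ u₀ : Fld, Adm u₀ → (∀ n, En 0 n u₀ ≤ C₀) → ∀ U : ℕ → ℝ → Fld,
  (∀ n, IsSol (cutg n g) ν α (U n)) → (∀ n, U n 0 = cut n u₀) →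
  (∀ n t, 0 ≤ t → ∀ k, k ∉ cub n → U n t k = 0) →
  (∀ n t, 0 ≤ t → ∀ N, En 0 N (U n t) ≤ C₀) →
  (∀ n t N, 0 ≤ t → ∫ s in (0 : ℝ)..t, Er α N (U n s) ≤ C₁) →
  (∀ (τ : ℝ) (s : ℕ), 0 < τ → ∃ C : ℝ, ∀ n t, τ ≤ t → ∀ k i,
    (1 + nsq k) ^ s * ‖U n t k i‖ ≤ C) →
    ∃ u : ℝ → Fld, u 0 = u₀ ∧ (∀ T, 0 ≤ T → IsWeak g ν α T u) ∧
      ∀ τ, 0 < τ → IsSol g ν α fun t => u (τ + t)

end Pool.Agent.N983.WK
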