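import Pool.Agent.N983.WK.Stm

set_option autoImplicit false

/-! Statements for the uniqueness of smooth solutions among weak solutions. -/

namespace Pool.Agent.N983.WK

open MeasureTheory ProbabilityTheory Filter Topology Pool.Agent.N983.RT

/-- the work of the transport by `v` on the cutoff of the field `w` -/
noncomputable def fz (g : Wv → Wv → Wv → ℝ) (n : ℕ) (v w : Fld) : ℝ :=
  (∑ m ∈ cub (2 * n + 2), (ct n m : ℂ) * ∑ j, (starRingEnd ℂ) (w m j) * cv g v w m j).im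

/-- transport does no work in the limit -/
def FZP (g : Wv → Wv → Wv → ℝ) (α : ℝ) : Prop := ∃ K : ℝ, 0 ≤ K ∧ ∀ (v w : Fld) (A D : ℝ),
  Adm v → Adm w → 0 ≤ A → 0 ≤ D → (∀ n, En 0 n v ≤ A ^ 2) → (∀ n, En 0 n w ≤ A ^ 2) →
  (∀ n, Er α n v ≤ D) → (∀ n, Er α n w ≤ D) →
    (∀ n, |fz g n v w| ≤ K * A * D) ∧ Tendsto (fun n => fz g n v w) atTop (𝓝 0)

/-- (FZ1) random part -/
def S_FZ1 : Prop := S_CVB → S_TRB → S_PRB → S_ANT → ∀ (g : Wv → Wv → Wv → ℝ) (κ α : ℝ), Arr g →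
  -1 < κ → (1 + κ) / 2 ≤ α → TB g κ → FZP g α

/-- (FZ2) deterministic part -/
def S_FZ2 : Prop := S_CVB → ∀ (g : Wv → Wv → Wv → ℝ) (B β α : ℝ), Arr g → 0 ≤ B → 0 < α → β < α →
  (∀ k l m, k ≠ 0 → l ≠ 0 → m ≠ 0 → k + l + m = 0 →
    |g k l m| * mn k l m ^ (5 / 4 : ℝ) ≤ B * mx k l m ^ β) → FZP g α

/-- (SW) smooth solutions are weak solutions -/
def S_SW : Prop := S_SUM → S_CVB → S_MSB → ∀ (g : Wv → Wv → Wv → ℝ) (ν α T : ℝ), Arr g → 0 ≤ T →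
  0 < α → ∀ u : ℝ → Fld, IsSol g ν α u → IsWeak g ν α T u

/-- (WSU) a smooth solution is unique among all weak solutions -/
def S_WSU : Prop := S_SUM → S_CVB → S_BAL → S_SQ → S_MSB → S_SW →
  ∀ (g : Wv → Wv → Wv → ℝ) (ν α T : ℝ), Arr g → 0 < ν → 0 < α → 0 ≤ T → FZP g α →
  ∀ u v : ℝ → Fld, IsWeak g ν α T u → IsSol g ν α v → u 0 = v 0 →
    ∀ t ∈ Set.Icc 0 T, u t = v t

end Pool.Agent.N983.WK
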