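import Pool.Agent.N983.WK.Stm
import Pool.Agent.N983.WK.DefF

set_option autoImplicit false

/-! The energy equality with a force. -/

namespace Pool.Agent.N983.WK

open MeasureTheory ProbabilityTheory Filter Topology Pool.Agent.N983.RT

/-- (EEF) energy equality with a force -/
def S_EEF : Prop := S_CVB → S_SQ → S_MSB → ∀ (g : Wv → Wv → Wv → ℝ) (ν α T : ℝ), Arr g →
  0 < ν → 0 < α → 0 ≤ T → FXP g α → ∀ f u : ℝ → Fld, IsForce T f → IsWeakF g ν α T f u →
    EnergyEqF ν α T f u

end Pool.Agent.N983.WK
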