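import Pool.Agent.N983.WK.Stm

set_option autoImplicit false

/-! Weak solutions without finite dissipation. -/

namespace Pool.Agent.N983.WK

open MeasureTheory ProbabilityTheory Filter Topology Pool.Agent.N983.RT

/-- `u` is a weak solution on `[0, T]` which is bounded in the Sobolev space of order `σ`: it is
weakly continuous in time and satisfies the integrated equation -/
structure IsVW (g : Wv → Wv → Wv → ℝ) (ν α σ T : ℝ) (u : ℝ → Fld) : Prop where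
  adm : ∀ t ∈ Set.Icc 0 T, Adm (u t)
  cont : ∀ m j, ContinuousOn (fun t => u t m j) (Set.Icc 0 T)
  reg : ∃ C : ℝ, ∀ t ∈ Set.Icc 0 T, ∀ n, Er σ n (u t) ≤ C
  eqn : ∀ m, m ≠ 0 → ∀ j, ∀ t ∈ Set.Icc 0 T,
    u t m j = u 0 m j + ∫ s in (0 : ℝ)..t, rhs g ν α (u s) m j

open Classical in
/-- the `ℓ²` norm of a block -/
noncomputable def nb (c n : ℕ) (x : Wv → ℂ) : ℝ :=
  Real.sqrt (∑ k ∈ (cub n).filter (fun k => (4 : ℝ) ^ c ≤ 4 * nsq k ∧ nsq k < (4 : ℝ) ^ (c + 1)),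
    ‖x k‖ ^ 2)

open Classical in
/-- the norm of the gradient of the low frequencies -/
noncomputable def lo (c n : ℕ) (x : Wv → ℂ) : ℝ :=
  Real.sqrt (∑ k ∈ (cub n).filter (fun k => nsq k < (4 : ℝ) ^ (c + 1)), nsq k * ‖x k‖ ^ 2)

/-- (VT) trilinear estimate, the symbol on the third function -/
def S_VT : Prop := ∀ (g : Wv → Wv → Wv → ℝ) (κ : ℝ), Arr g → -1 < κ → TB g κ → ∃ C : ℝ, 0 ≤ C ∧
  ∀ (n : ℕ) (i : Fin 3) (x y z : Wv → ℂ), x 0 = 0 → y 0 = 0 → z 0 = 0 →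
    (∀ k, k ∉ cub n → x k = 0 ∧ y k = 0 ∧ z k = 0) →
    ‖Tri (fun k l => g k l (-(k + l)) * ((k + l) i : ℝ)) n x y z‖ ≤
      C * ∑ c ∈ Finset.range (n + 1),
        (((2 : ℝ) ^ c) ^ (1 + κ) * (N2 n x * nb c n y + nb c n x * N2 n y) * nb c n z +
          ((2 : ℝ) ^ c) ^ κ * (nb c n x * nb c n y) * lo c n z)

/-- a slowly varying weight -/
noncomputable def wt (α ε : ℝ) (m : Wv) : ℝ := 1 / (1 + ε * nsq m ^ α)

/-- the weighted dissipation -/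
noncomputable def Dw (α ε : ℝ) (n : ℕ) (u : Fld) : ℝ :=
  ∑ m ∈ cub n, wt α ε m * (nsq m ^ α * ∑ i, ‖u m i‖ ^ 2)

/-- the weighted energy production -/
noncomputable def wp (g : Wv → Wv → Wv → ℝ) (α ε : ℝ) (n : ℕ) (u : Fld) : ℝ :=
  (∑ m ∈ cub n, (wt α ε m : ℂ) * ∑ j, (starRingEnd ℂ) (u m j) * cv g u u m j).im

/-- the bound of the weighted energy production -/
def WPB (g : Wv → Wv → Wv → ℝ) (ν α σ : ℝ) : Prop := ∀ A : ℝ, 0 ≤ A → ∃ C : ℝ, 0 ≤ C ∧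
  ∀ (ε : ℝ) (u : Fld) (D : ℝ), 0 < ε → Adm u → (∀ n, Er σ n u ≤ A) → 0 ≤ D →
    (∀ N, Dw α ε N u ≤ D) → ∀ n, |wp g α ε n u| ≤ ν / 2 * D + C

/-- (VP) bound of the weighted energy production -/
def S_VP : Prop := S_CVB → S_VT → ∀ (g : Wv → Wv → Wv → ℝ) (ν α σ : ℝ), Arr g →
  (∀ κ : ℝ, 0 < κ → TB g κ) → 0 < ν → 1 / 2 < α → 0 < σ → 1 < α + 2 * σ → WPB g ν α σ

/-- (VE) finite dissipation -/
def S_VE : Prop := S_CVB → S_SQ → S_MSB → ∀ (g : Wv → Wv → Wv → ℝ) (ν α σ T : ℝ), Arr g →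
  0 < ν → 0 < α → 0 < σ → 0 ≤ T → WPB g ν α σ → ∀ u : ℝ → Fld, IsVW g ν α σ T u →
    IsWeak g ν α T u

end Pool.Agent.N983.WK
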