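import Pool.Agent.N983.WK.Stm4

set_option autoImplicit false

/-! Energy conservation for the Euler equations with random coefficients of the triads. -/

namespace Pool.Agent.N983.WK

open MeasureTheory ProbabilityTheory Filter Topology Pool.Agent.N983.RT

/-- `u` is a weak solution of the Euler equations on `[0, T]` which is bounded in the Sobolev space
of order `σ` -/
structure IsEul (g : Wv → Wv → Wv → ℝ) (σ T : ℝ) (u : ℝ → Fld) : Prop where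
  adm : ∀ t ∈ Set.Icc 0 T, Adm (u t)
  cont : ∀ m j, ContinuousOn (fun t => u t m j) (Set.Icc 0 T)
  reg : ∃ C : ℝ, ∀ t ∈ Set.Icc 0 T, ∀ n, Er σ n (u t) ≤ C
  eqn : ∀ m, m ≠ 0 → ∀ j, ∀ t ∈ Set.Icc 0 T,
    u t m j = u 0 m j + ∫ s in (0 : ℝ)..t, -(Complex.I * prj m (conv g (u s) m) j)

/-- the shorter one of `l` and `k + l` -/
noncomputable def qv (k l : Wv) : Wv := open Classical in if nsq l ≤ nsq (k + l) then l else k + l

/-- the number of the shortest one of `k`, `l`, `k + l` -/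
noncomputable def shp (k l : Wv) : Fin 3 := open Classical in
  if nsq k ≤ nsq l ∧ nsq k ≤ nsq (k + l) then 0 else if nsq l ≤ nsq (k + l) then 1 else 2

open Classical in
/-- the symbol of the energy flux, restricted to the triads whose longest member has length in
`[2 ^ c, 2 ^ (c + 1))` and whose shortest member has number `p` and length in
`[2 ^ b, 2 ^ (b + 1))` -/
noncomputable def fw (a b c : ℕ) (p i : Fin 3) (k l : Wv) : ℝ :=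
  if ((4 : ℝ) ^ c ≤ max (nsq k) (max (nsq l) (nsq (k + l))) ∧
      max (nsq k) (max (nsq l) (nsq (k + l))) < (4 : ℝ) ^ (c + 1)) ∧
      ((4 : ℝ) ^ b ≤ min (nsq k) (min (nsq l) (nsq (k + l))) ∧
      min (nsq k) (min (nsq l) (nsq (k + l))) < (4 : ℝ) ^ (b + 1)) ∧ shp k l = p then
    (ct (2 ^ a - 1) (k + l) - ct (2 ^ a - 1) l) * (qv k l i : ℝ) / 2 ^ (b + 2)
  else 0

/-- the bound of the random sums -/
def FB (g : Wv → Wv → Wv → ℝ) : Prop := ∀ ε : ℝ, 0 < ε → ∃ C : ℝ, 0 ≤ C ∧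
  ∀ (a b c : ℕ) (p i : Fin 3) (x y z : Wv → ℂ),
    ‖Tri (fun k l => g k l (-(k + l)) * fw a b c p i k l) (2 ^ (c + 1)) x y z‖ ≤
      C * ((2 : ℝ) ^ c) ^ ε * (N2 (2 ^ (c + 1)) x * N2 (2 ^ (c + 1)) y * N2 (2 ^ (c + 1)) z)

/-- (FBR) the bound for random centred coefficients -/
def S_FBR : Prop := S_UNI2 → S_HOE2 → S_DIG → ∀ (Ω : Type) [MeasurableSpace Ω] (μ : Measure Ω)
  [IsProbabilityMeasure μ] (X : Sym2 (Finset Wv) → Ω → ℝ), (∀ c, Measurable (X c)) →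
  iIndepFun X μ → (∀ c, (∀ᵐ ω ∂μ, |X c ω| ≤ 1) ∧ ∫ ω, X c ω ∂μ = 0) →
  ∀ᵐ ω ∂μ, FB (sgn X ω)

/-- no energy flux to infinity -/
def EFP (g : Wv → Wv → Wv → ℝ) (σ : ℝ) : Prop := ∀ D : ℝ, 0 ≤ D → ∃ K : ℝ, ∀ u : Fld, Adm u →
  (∀ n, Er σ n u ≤ D) → (∀ a : ℕ, |fx g (2 ^ a - 1) u| ≤ K) ∧
    Tendsto (fun a : ℕ => fx g (2 ^ a - 1) u) atTop (𝓝 0)

/-- (EF1) random part -/
def S_EF1 : Prop := S_CVB → ∀ (g : Wv → Wv → Wv → ℝ) (σ : ℝ), Arr g → FB g → 1 / 3 < σ → σ ≤ 1 →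
  EFP g σ

/-- (EF2) deterministic part -/
def S_EF2 : Prop := S_CVB → ∀ (g : Wv → Wv → Wv → ℝ) (B β σ : ℝ), Arr g → 0 ≤ B → 0 < σ →
  σ ≤ 1 → β < σ → (∀ k l m, k ≠ 0 → l ≠ 0 → m ≠ 0 → k + l + m = 0 →
    |g k l m| * mn k l m ^ (5 / 4 - σ / 2 : ℝ) ≤ B * mx k l m ^ β) → EFP g σ

/-- (ECO) energy conservation -/
def S_ECO : Prop := S_CVB → S_BAL → S_SQ → S_MSB → ∀ (g : Wv → Wv → Wv → ℝ) (σ T : ℝ), Arr g →
  0 < σ → 0 ≤ T → EFP g σ → ∀ u : ℝ → Fld, IsEul g σ T u →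
    ∃ e : ℝ, ∀ t ∈ Set.Icc 0 T, Tendsto (fun n => En 0 n (u t)) atTop (𝓝 e)

end Pool.Agent.N983.WK
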