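import Pool.Agent.N983.WK.Stm4
import Pool.Agent.N983.WK.BAL
import Pool.Agent.N983.WK.EEQ

/-! Finite dissipation of very weak solutions (helper78). -/

set_option autoImplicit false

namespace Pool.Agent.N983.WK

open MeasureTheory ProbabilityTheory Filter Topology Pool.Agent.N983.RT

theorem ve_nsq1 {k : Wv} (hk : k ≠ 0) : 1 ≤ nsq k := by
  obtain ⟨i, hi⟩ := Function.ne_iff.1 hk
  have hi' : k i ≠ 0 := hi
  have h0 : (1 : ℤ) ≤ (k i) ^ 2 := by
    have : 0 < (k i) ^ 2 := by positivity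
    omega
  have h1 : (1 : ℝ) ≤ (k i : ℝ) ^ 2 := by exact_mod_cast h0
  exact h1.trans (Finset.single_le_sum (f := fun i => (k i : ℝ) ^ 2)
    (fun _ _ => sq_nonneg _) (Finset.mem_univ i))

theorem ve_sq0 (v : Fld) (m : Wv) : 0 ≤ ∑ i, ‖v m i‖ ^ 2 := Finset.sum_nonneg fun _ _ => sq_nonneg _

theorem ve_en {σ : ℝ} (hσ : 0 < σ) {v : Fld} (hv : Adm v) (n : ℕ) : En 0 n v ≤ Er σ n v := by
  unfold En Er
  refine Finset.sum_le_sum fun k _ => ?_
  by_cases hk : k = 0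
  · have : ∑ i, ‖v k i‖ ^ 2 = 0 := by
      refine Finset.sum_eq_zero fun i _ => ?_
      rw [hk, hv.zero]; simp
    rw [this, mul_zero, mul_zero]
  · refine mul_le_mul_of_nonneg_right ?_ (ve_sq0 v k)
    rw [pow_zero]
    exact Real.one_le_rpow (ve_nsq1 hk) hσ.le

theorem ve_wt {α ε : ℝ} (hε : 0 < ε) (m : Wv) :
    0 ≤ wt α ε m ∧ wt α ε m ≤ 1 ∧ wt α ε m * nsq m ^ α ≤ 1 / ε := by
  have h0 : 0 ≤ nsq m ^ α := Real.rpow_nonneg (eeq_nsq m) _
  have h1 : 0 < 1 + ε * nsq m ^ α := by positivity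
  unfold wt
  refine ⟨by positivity, ?_, ?_⟩
  · rw [div_le_one h1]
    nlinarith [mul_nonneg hε.le h0]
  · rw [one_div_mul_eq_div, div_le_div_iff₀ h1 hε]
    nlinarith

theorem ve_Dw0 {α ε : ℝ} (hε : 0 < ε) (v : Fld) (m : Wv) :
    0 ≤ wt α ε m * (nsq m ^ α * ∑ i, ‖v m i‖ ^ 2) :=
  mul_nonneg (ve_wt hε m).1 (mul_nonneg (Real.rpow_nonneg (eeq_nsq m) _) (ve_sq0 v m))

theorem ve_mono {α ε : ℝ} (hε : 0 < ε) (v : Fld) : Monotone fun N => Dw α ε N v :=
  eeq_mono fun m => ve_Dw0 hε v m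

theorem ve_nn {α ε : ℝ} (hε : 0 < ε) (v : Fld) (n : ℕ) : 0 ≤ Dw α ε n v :=
  Finset.sum_nonneg fun m _ => ve_Dw0 hε v m

theorem ve_le {α ε A : ℝ} (hε : 0 < ε) {v : Fld} (h : ∀ n, En 0 n v ≤ A) (n : ℕ) :
    Dw α ε n v ≤ A / ε := by
  have h1 : Dw α ε n v ≤ (1 / ε) * En 0 n v := by
    unfold Dw En
    rw [Finset.mul_sum]
    refine Finset.sum_le_sum fun m _ => ?_
    have h2 := (ve_wt (α := α) hε m).2.2
    calc wt α ε m * (nsq m ^ α * ∑ i, ‖v m i‖ ^ 2) =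
        (wt α ε m * nsq m ^ α) * ∑ i, ‖v m i‖ ^ 2 := by ring
      _ ≤ (1 / ε) * ∑ i, ‖v m i‖ ^ 2 := mul_le_mul_of_nonneg_right h2 (ve_sq0 v m)
      _ = _ := by rw [pow_zero, one_mul]
  calc Dw α ε n v ≤ (1 / ε) * En 0 n v := h1
    _ ≤ (1 / ε) * A := mul_le_mul_of_nonneg_left (h n) (by positivity)
    _ = A / ε := by ring

theorem ve_conv (hC : S_CVB) (hM : S_MSB) {g : Wv → Wv → Wv → ℝ} {T C : ℝ} (hg : Arr g)
    (hT : 0 ≤ T) {u : ℝ → Fld} (hadm : ∀ t ∈ Set.Icc 0 T, Adm (u t))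
    (hcont : ∀ m j, ContinuousOn (fun t => u t m j) (Set.Icc 0 T))
    (hen : ∀ t ∈ Set.Icc 0 T, ∀ n, En 0 n (u t) ≤ C) (m : Wv) (j : Fin 3) :
    IntervalIntegrable (fun s => conv g (u s) m j) volume 0 T :=
  hM hC g T C u u hg.le hT hadm hcont hcont hen hen m j

theorem ve_rhs (hC : S_CVB) (hM : S_MSB) {g : Wv → Wv → Wv → ℝ} (ν α : ℝ) {T C : ℝ} (hg : Arr g)
    (hT : 0 ≤ T) {u : ℝ → Fld} (hadm : ∀ t ∈ Set.Icc 0 T, Adm (u t))
    (hcont : ∀ m j, ContinuousOn (fun t => u t m j) (Set.Icc 0 T))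
    (hen : ∀ t ∈ Set.Icc 0 T, ∀ n, En 0 n (u t) ≤ C) (m : Wv) (j : Fin 3) :
    IntervalIntegrable (fun s => rhs g ν α (u s) m j) volume 0 T := by
  have hc := ve_conv hC hM hg hT hadm hcont hen m
  have hl : IntervalIntegrable (fun s => -((ν * nsq m ^ α : ℝ) : ℂ) * u s m j) volume 0 T := by
    apply ContinuousOn.intervalIntegrable
    rw [Set.uIcc_of_le hT]
    exact continuousOn_const.mul (hcont m j)
  have hd : IntervalIntegrable (fun s => dt (conv g (u s) m) m * (m j : ℂ) / (nsq m : ℂ))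
      volume 0 T := by
    apply IntervalIntegrable.div_const
    apply IntervalIntegrable.mul_const
    exact bal_sum Finset.univ (fun (i : Fin 3) (s : ℝ) => conv g (u s) m i * (m i : ℂ)) 0 T
      (fun i _ => (hc i).mul_const _)
  exact hl.sub (((hc j).sub hd).const_mul Complex.I)

theorem ve_bal (hC : S_CVB) (hS : S_SQ) (hM : S_MSB) {g : Wv → Wv → Wv → ℝ} {ν α T C : ℝ}
    (hg : Arr g) (hT : 0 ≤ T) {u : ℝ → Fld} (hadm : ∀ t ∈ Set.Icc 0 T, Adm (u t))
    (hcont : ∀ m j, ContinuousOn (fun t => u t m j) (Set.Icc 0 T))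
    (hen : ∀ t ∈ Set.Icc 0 T, ∀ n, En 0 n (u t) ≤ C)
    (heqn : ∀ m, m ≠ 0 → ∀ j, ∀ t ∈ Set.Icc 0 T,
      u t m j = u 0 m j + ∫ s in (0 : ℝ)..t, rhs g ν α (u s) m j) (χ : Wv → ℝ) (n : ℕ) :
    IntervalIntegrable (fun s => (∑ m ∈ cub n, (χ m : ℂ) * ∑ j, (starRingEnd ℂ)
      (u s m j) * cv g (u s) (u s) m j).im) volume 0 T ∧
    ∑ m ∈ cub n, χ m * ∑ j, ‖u T m j‖ ^ 2 =
      ∑ m ∈ cub n, χ m * ∑ j, ‖u 0 m j‖ ^ 2 + ∫ s in (0 : ℝ)..T,
        (-2 * ν * ∑ m ∈ cub n, χ m * (nsq m ^ α * ∑ j, ‖u s m j‖ ^ 2) +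
        2 * (∑ m ∈ cub n, (χ m : ℂ) * ∑ j, (starRingEnd ℂ)
      (u s m j) * cv g (u s) (u s) m j).im) := by
  let F : Wv → Fin 3 → ℝ → ℂ := fun m j s =>
    if m = 0 then 0 else rhs g ν α (u s) m j
  have hF : ∀ m j, IntervalIntegrable (F m j) volume 0 T := by
    intro m j
    by_cases hm : m = 0
    · have : F m j = fun _ => 0 := by funext s; exact if_pos hm
      rw [this]
      exact intervalIntegrable_const
    · have : F m j = fun s => rhs g ν α (u s) m j := by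
        funext s; exact if_neg hm
      rw [this]
      exact ve_rhs hC hM ν α hg hT hadm hcont hen m j
  have h0 : (0 : ℝ) ∈ Set.Icc 0 T := ⟨le_rfl, hT⟩
  have hw : ∀ m j, ∀ t ∈ Set.Icc 0 T, u t m j = u 0 m j + ∫ s in (0 : ℝ)..t, F m j s := by
    intro m j t ht
    by_cases hm : m = 0
    · have : F m j = fun _ => 0 := by funext s; exact if_pos hm
      rw [this]
      simp only [intervalIntegral.integral_zero, add_zero]
      rw [hm, (hadm t ht).zero, (hadm 0 h0).zero]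
    · have : F m j = fun s => rhs g ν α (u s) m j := by
        funext s; exact if_neg hm
      rw [this]
      exact heqn m hm j t ht
  have hsq := fun m j => hS T (fun t => u t m j) (F m j) hT (hF m j) (hw m j)
  have hpt : ∀ s ∈ Set.Icc 0 T, ∀ m, ∑ j, 2 * ((starRingEnd ℂ) (u s m j) * F m j s).re =
      -2 * ν * (nsq m ^ α * ∑ j, ‖u s m j‖ ^ 2) + 2 * (∑ j, (starRingEnd ℂ)
      (u s m j) * cv g (u s) (u s) m j).im := by
    intro s hs m
    by_cases hm : m = 0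
    · have e1 : ∀ j, u s m j = 0 := by
        intro j
        rw [hm, (hadm s hs).zero]; simp
      simp [e1]
    · have e1 : ∀ j, F m j s = rhs g ν α (u s) m j := fun j => if_neg hm
      have e2 : ∀ j, (starRingEnd ℂ) (u s m j) * F m j s =
          -((ν * nsq m ^ α : ℝ) : ℂ) * ((‖u s m j‖ ^ 2 : ℝ) : ℂ) - Complex.I *
          ((starRingEnd ℂ) (u s m j) * prj m (conv g (u s) m) j) := by
        intro j
        have e3 : ((‖u s m j‖ ^ 2 : ℝ) : ℂ) = (starRingEnd ℂ) (u s m j) * (u s m j) := by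
          rw [← Complex.normSq_eq_norm_sq, ← Complex.mul_conj]
          ring
        rw [e1, e3]
        unfold rhs
        ring
      have e4 : ∑ j, (starRingEnd ℂ) (u s m j) * F m j s =
          -((ν * nsq m ^ α * ∑ j, ‖u s m j‖ ^ 2 : ℝ) : ℂ) - Complex.I * ∑ j, (starRingEnd ℂ)
            (u s m j) * cv g (u s) (u s) m j := by
        rw [Finset.sum_congr rfl fun j _ => e2 j, Finset.sum_sub_distrib, ← Finset.mul_sum,
          ← Finset.mul_sum]
        have e5 := bal_prj m (u s m) (conv g (u s) m) ((hadm s hs).div m)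
        rw [e5]
        congr 1
        push_cast; ring
      have e7 : ∑ j, 2 * ((starRingEnd ℂ) (u s m j) * F m j s).re =
          2 * (∑ j, (starRingEnd ℂ) (u s m j) * F m j s).re := by
        rw [← Finset.mul_sum, Complex.re_sum]
      rw [e7, e4]
      simp only [Complex.sub_re, Complex.neg_re, Complex.ofReal_re, Complex.mul_re, Complex.I_re,
        Complex.I_im, zero_mul, one_mul, zero_sub]
      ring
  refine ⟨?_, ?_⟩
  · have h1 : ∀ m j, IntervalIntegrable (fun s => (starRingEnd ℂ) (u s m j) *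
        (cv g (u s) (u s) m j)) volume 0 T := by
      intro m j
      apply IntervalIntegrable.continuousOn_mul
      · exact ve_conv hC hM hg hT hadm hcont hen m j
      · rw [Set.uIcc_of_le hT]
        exact Complex.continuous_conj.comp_continuousOn (hcont m j)
    have h2 : IntervalIntegrable (fun s => ∑ m ∈ cub n, (χ m : ℂ) * ∑ j, (starRingEnd ℂ)
        (u s m j) * (cv g (u s) (u s) m j)) volume 0 T :=
      bal_sum (cub n) (fun (m : Wv) (s : ℝ) => (χ m : ℂ) * ∑ j, (starRingEnd ℂ)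
        (u s m j) * (cv g (u s) (u s) m j)) 0 T fun m _ =>
          (bal_sum Finset.univ (fun (j : Fin 3) (s : ℝ) => (starRingEnd ℂ) (u s m j) *
              (cv g (u s) (u s) m j)) 0 T fun j _ => h1 m j).const_mul _
    exact ⟨h2.1.im, h2.2.im⟩
  · have hTT : T ∈ Set.Icc 0 T := ⟨hT, le_rfl⟩
    have hG : ∀ m j, IntervalIntegrable (fun s => 2 * ((starRingEnd ℂ) (u s m j) * F m j s).re)
        volume 0 T := fun m j => (hsq m j).1.const_mul 2
    have e1 : ∀ m, χ m * ∑ j, ‖u T m j‖ ^ 2 = χ m * ∑ j, ‖u 0 m j‖ ^ 2 +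
        ∫ s in (0 : ℝ)..T, χ m * ∑ j, 2 * ((starRingEnd ℂ) (u s m j) * F m j s).re := by
      intro m
      rw [intervalIntegral.integral_const_mul, intervalIntegral.integral_finsetSum
        (fun j _ => hG m j), ← mul_add, ← Finset.sum_add_distrib]
      congr 1
      exact Finset.sum_congr rfl fun j _ => (hsq m j).2 T hTT
    have e2 : ∑ m ∈ cub n, χ m * ∑ j, ‖u T m j‖ ^ 2 = ∑ m ∈ cub n, χ m * ∑ j, ‖u 0 m j‖ ^ 2 +
        ∫ s in (0 : ℝ)..T, ∑ m ∈ cub n, χ m * ∑ j, 2 * ((starRingEnd ℂ) (u s m j) * F m j s).re := by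
      rw [intervalIntegral.integral_finsetSum
        (fun m _ => (bal_sumr Finset.univ _ 0 T fun j _ => hG m j).const_mul _),
        ← Finset.sum_add_distrib]
      exact Finset.sum_congr rfl fun m _ => e1 m
    rw [e2]
    congr 1
    refine intervalIntegral.integral_congr fun s hs => ?_
    have hs' : s ∈ Set.Icc 0 T := by
      rwa [Set.uIcc_of_le hT] at hs
    show ∑ m ∈ cub n, χ m * ∑ j, 2 * ((starRingEnd ℂ) (u s m j) * F m j s).re = _
    rw [Finset.mul_sum, Complex.im_sum, Finset.mul_sum, ← Finset.sum_add_distrib]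
    refine Finset.sum_congr rfl fun m _ => ?_
    rw [hpt s hs' m, Complex.im_ofReal_mul]
    ring

theorem ve_cont (α ε : ℝ) {T : ℝ} {u : ℝ → Fld}
    (hcont : ∀ m j, ContinuousOn (fun t => u t m j) (Set.Icc 0 T)) (n : ℕ) :
    ContinuousOn (fun s => Dw α ε n (u s)) (Set.Icc 0 T) :=
  continuousOn_finsetSum _ fun m _ => continuousOn_const.mul (continuousOn_const.mul
    (continuousOn_finsetSum _ fun j _ => (hcont m j).norm.pow 2))

theorem ve_contE (α : ℝ) {T : ℝ} {u : ℝ → Fld}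
    (hcont : ∀ m j, ContinuousOn (fun t => u t m j) (Set.Icc 0 T)) (n : ℕ) :
    ContinuousOn (fun s => Er α n (u s)) (Set.Icc 0 T) :=
  continuousOn_finsetSum _ fun m _ => (continuousOn_const.mul
    (continuousOn_finsetSum _ fun j _ => (hcont m j).norm.pow 2))

theorem ve_main (hC : S_CVB) (hS : S_SQ) (hM : S_MSB) {g : Wv → Wv → Wv → ℝ} {ν α T A C : ℝ}
    (hg : Arr g) (hν : 0 < ν) (hT : 0 ≤ T) {u : ℝ → Fld}
    (hadm : ∀ t ∈ Set.Icc 0 T, Adm (u t))
    (hcont : ∀ m j, ContinuousOn (fun t => u t m j) (Set.Icc 0 T))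
    (hen : ∀ t ∈ Set.Icc 0 T, ∀ n, En 0 n (u t) ≤ A)
    (heqn : ∀ m, m ≠ 0 → ∀ j, ∀ t ∈ Set.Icc 0 T,
      u t m j = u 0 m j + ∫ s in (0 : ℝ)..t, rhs g ν α (u s) m j) {ε : ℝ} (hε : 0 < ε)
    (hW : ∀ s ∈ Set.Icc 0 T, ∀ D : ℝ, 0 ≤ D → (∀ N, Dw α ε N (u s) ≤ D) →
      ∀ n, |wp g α ε n (u s)| ≤ ν / 2 * D + C) (n : ℕ) :
    ∫ s in (0 : ℝ)..T, Dw α ε n (u s) ≤ (A + 2 * C * T) / ν := by
  have h0 : (0 : ℝ) ∈ Set.Icc 0 T := ⟨le_rfl, hT⟩
  have hsub : ∀ s, s ∈ Set.uIoc 0 T → s ∈ Set.Icc 0 T := by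
    intro s hs
    rw [Set.uIoc_of_le hT] at hs
    exact Set.Ioc_subset_Icc_self hs
  have hint : ∀ n, IntervalIntegrable (fun s => Dw α ε n (u s)) volume 0 T := by
    intro n
    apply ContinuousOn.intervalIntegrable
    rw [Set.uIcc_of_le hT]
    exact ve_cont α ε hcont n
  have hms : ∀ n, AEStronglyMeasurable (fun s => Dw α ε n (u s))
      (volume.restrict (Set.uIoc 0 T)) := fun n => (intervalIntegrable_iff.1 (hint n)).1
  let D : ℝ → ℝ := fun s => ⨆ n, Dw α ε n (u s)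
  have hbdd : ∀ s ∈ Set.Icc 0 T, BddAbove (Set.range fun n => Dw α ε n (u s)) := by
    intro s hs
    refine ⟨A / ε, ?_⟩
    rintro _ ⟨n, rfl⟩
    exact ve_le hε (hen s hs) n
  have hlim : ∀ s ∈ Set.Icc 0 T, Tendsto (fun n => Dw α ε n (u s)) atTop (𝓝 (D s)) :=
    fun s hs => tendsto_atTop_ciSup (ve_mono hε (u s)) (hbdd s hs)
  have hle : ∀ s ∈ Set.Icc 0 T, ∀ n, Dw α ε n (u s) ≤ D s := fun s hs n => le_ciSup (hbdd s hs) n
  have hD0 : ∀ s ∈ Set.Icc 0 T, 0 ≤ D s := fun s hs => (ve_nn hε (u s) 0).trans (hle s hs 0)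
  have hDA : ∀ s ∈ Set.Icc 0 T, D s ≤ A / ε := fun s hs => ciSup_le fun n => ve_le hε (hen s hs) n
  have hDm : AEStronglyMeasurable D (volume.restrict (Set.uIoc 0 T)) := by
    refine aestronglyMeasurable_of_tendsto_ae atTop hms ?_
    rw [ae_restrict_iff' measurableSet_uIoc]
    exact Eventually.of_forall fun s hs => hlim s (hsub s hs)
  have hDi : IntervalIntegrable D volume 0 T := by
    rw [intervalIntegrable_iff]
    refine Integrable.mono' (g := fun _ => A / ε) ?_ hDm ?_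
    · exact (intervalIntegrable_iff.1 intervalIntegrable_const)
    · rw [ae_restrict_iff' measurableSet_uIoc]
      refine Eventually.of_forall fun s hs => ?_
      rw [Real.norm_of_nonneg (hD0 s (hsub s hs))]
      exact hDA s (hsub s hs)
  have hI : Tendsto (fun n => ∫ s in (0 : ℝ)..T, Dw α ε n (u s)) atTop
      (𝓝 (∫ s in (0 : ℝ)..T, D s)) := by
    refine intervalIntegral.tendsto_integral_filter_of_dominated_convergence (fun _ => A / ε)
      (Eventually.of_forall hms)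
      (Eventually.of_forall fun n => Eventually.of_forall fun s hs => ?_)
      intervalIntegrable_const (Eventually.of_forall fun s hs => hlim s (hsub s hs))
    rw [Real.norm_of_nonneg (ve_nn hε (u s) n)]
    exact ve_le hε (hen s (hsub s hs)) n
  have hkey : ∀ n, 2 * ν * ∫ s in (0 : ℝ)..T, Dw α ε n (u s) ≤
      A + ν * (∫ s in (0 : ℝ)..T, D s) + 2 * C * T := by
    intro n
    obtain ⟨hwi, hb⟩ := ve_bal hC hS hM hg hT hadm hcont hen heqn (wt α ε) n
    have hwi' : IntervalIntegrable (fun s => wp g α ε n (u s)) volume 0 T := hwi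
    have e1 : ∫ s in (0 : ℝ)..T, (-2 * ν * ∑ m ∈ cub n, wt α ε m * (nsq m ^ α *
        ∑ j, ‖u s m j‖ ^ 2) + 2 * (∑ m ∈ cub n, (wt α ε m : ℂ) * ∑ j, (starRingEnd ℂ)
          (u s m j) * cv g (u s) (u s) m j).im) =
        -2 * ν * (∫ s in (0 : ℝ)..T, Dw α ε n (u s)) +
          2 * ∫ s in (0 : ℝ)..T, wp g α ε n (u s) := by
      rw [← intervalIntegral.integral_const_mul, ← intervalIntegral.integral_const_mul,
        ← intervalIntegral.integral_add ((hint n).const_mul _) (hwi'.const_mul _)]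
      rfl
    have e2 : 0 ≤ ∑ m ∈ cub n, wt α ε m * ∑ j, ‖u T m j‖ ^ 2 :=
      Finset.sum_nonneg fun m _ => mul_nonneg (ve_wt hε m).1 (ve_sq0 _ m)
    have e3 : ∑ m ∈ cub n, wt α ε m * ∑ j, ‖u 0 m j‖ ^ 2 ≤ A := by
      refine le_trans ?_ (hen 0 h0 n)
      unfold En
      refine Finset.sum_le_sum fun m _ => ?_
      rw [pow_zero]
      exact mul_le_mul_of_nonneg_right (ve_wt hε m).2.1 (ve_sq0 _ m)
    have e4 : ∫ s in (0 : ℝ)..T, wp g α ε n (u s) ≤ ν / 2 * (∫ s in (0 : ℝ)..T, D s) + C * T := by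
      have e5 : ∫ s in (0 : ℝ)..T, wp g α ε n (u s) ≤ ∫ s in (0 : ℝ)..T, (ν / 2 * D s + C) :=
        intervalIntegral.integral_mono_on hT hwi' ((hDi.const_mul _).add intervalIntegrable_const)
          fun s hs => (le_abs_self _).trans (hW s hs (D s) (hD0 s hs) (hle s hs) n)
      rw [intervalIntegral.integral_add (hDi.const_mul _) intervalIntegrable_const,
        intervalIntegral.integral_const_mul, intervalIntegral.integral_const] at e5
      simpa [mul_comm] using e5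
    rw [e1] at hb
    nlinarith
  have hlim2 : 2 * ν * ∫ s in (0 : ℝ)..T, D s ≤ A + ν * (∫ s in (0 : ℝ)..T, D s) + 2 * C * T :=
    le_of_tendsto' (hI.const_mul (2 * ν)) hkey
  have h3 : ∫ s in (0 : ℝ)..T, Dw α ε n (u s) ≤ ∫ s in (0 : ℝ)..T, D s :=
    intervalIntegral.integral_mono_on hT (hint n) hDi fun s hs => hle s hs n
  rw [le_div_iff₀ hν]
  nlinarith

theorem ve_half {α : ℝ} (hα : 0 < α) (n : ℕ) (v : Fld) :
    Er α n v ≤ 2 * Dw α (1 / (3 * (n : ℝ) ^ 2 + 1) ^ α) n v := by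
  unfold Er Dw
  rw [Finset.mul_sum]
  refine Finset.sum_le_sum fun m hm => ?_
  have h1 : nsq m ≤ 3 * (n : ℝ) ^ 2 + 1 := by
    unfold cub at hm
    rw [Fintype.mem_piFinset] at hm
    have h2 : ∀ i, ((m i : ℝ)) ^ 2 ≤ (n : ℝ) ^ 2 := by
      intro i
      have h3 := hm i
      rw [Finset.mem_Icc] at h3
      have h4 : -(n : ℝ) ≤ (m i : ℝ) := by exact_mod_cast h3.1
      have h5 : (m i : ℝ) ≤ (n : ℝ) := by exact_mod_cast h3.2
      exact sq_le_sq' h4 h5
    unfold nsq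
    rw [Fin.sum_univ_three]
    nlinarith [h2 0, h2 1, h2 2]
  have h0 : 0 ≤ nsq m ^ α := Real.rpow_nonneg (eeq_nsq m) _
  have hp : 0 < (3 * (n : ℝ) ^ 2 + 1) ^ α := Real.rpow_pos_of_pos (by positivity) _
  have h2 : nsq m ^ α ≤ (3 * (n : ℝ) ^ 2 + 1) ^ α :=
    Real.rpow_le_rpow (eeq_nsq m) h1 hα.le
  have h3 : 1 / (3 * (n : ℝ) ^ 2 + 1) ^ α * nsq m ^ α ≤ 1 := by
    rw [one_div_mul_eq_div, div_le_one hp]
    exact h2
  have h4 : 1 / 2 ≤ wt α (1 / (3 * (n : ℝ) ^ 2 + 1) ^ α) m := by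
    unfold wt
    refine one_div_le_one_div_of_le ?_ (by linarith)
    have : 0 ≤ 1 / (3 * (n : ℝ) ^ 2 + 1) ^ α * nsq m ^ α := by positivity
    linarith
  have h5 : 0 ≤ nsq m ^ α * ∑ i, ‖v m i‖ ^ 2 := mul_nonneg h0 (ve_sq0 v m)
  nlinarith [mul_le_mul_of_nonneg_right h4 h5]

theorem t_VE : S_VE := by
  intro hC hS hM g ν α σ T hg hν hα hσ hT hW u hu
  obtain ⟨A₀, hA₀⟩ := hu.reg
  have hA : 0 ≤ max A₀ 0 := le_max_right _ _
  have hEr : ∀ t ∈ Set.Icc 0 T, ∀ n, Er σ n (u t) ≤ max A₀ 0 :=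
    fun t ht n => (hA₀ t ht n).trans (le_max_left _ _)
  have hen : ∀ t ∈ Set.Icc 0 T, ∀ n, En 0 n (u t) ≤ max A₀ 0 :=
    fun t ht n => (ve_en hσ (hu.adm t ht) n).trans (hEr t ht n)
  obtain ⟨C, hC0, hCb⟩ := hW (max A₀ 0) hA
  refine ⟨hu.adm, hu.cont, ⟨max A₀ 0, hen⟩, ⟨2 * ((max A₀ 0 + 2 * C * T) / ν), fun n => ?_⟩, hu.eqn⟩
  have hε : 0 < 1 / (3 * (n : ℝ) ^ 2 + 1) ^ α :=
    one_div_pos.2 (Real.rpow_pos_of_pos (by positivity) _)
  have h1 := ve_main hC hS hM hg hν hT hu.adm hu.cont hen hu.eqn hε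
    (fun s hs D hD hN n => hCb _ (u s) D hε (hu.adm s hs) (hEr s hs) hD hN n) n
  have h2 : ∫ t in (0 : ℝ)..T, Er α n (u t) ≤
      ∫ t in (0 : ℝ)..T, 2 * Dw α (1 / (3 * (n : ℝ) ^ 2 + 1) ^ α) n (u t) := by
    refine intervalIntegral.integral_mono_on hT ?_ ?_ fun s _ => ve_half hα n (u s)
    · apply ContinuousOn.intervalIntegrable
      rw [Set.uIcc_of_le hT]
      exact ve_contE α hu.cont n
    · apply ContinuousOn.intervalIntegrable
      rw [Set.uIcc_of_le hT]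
      exact continuousOn_const.mul (ve_cont α _ hu.cont n)
  rw [intervalIntegral.integral_const_mul] at h2
  linarith

end Pool.Agent.N983.WK
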