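import Pool.Agent.N983.WK.Stm4
import Pool.Agent.N983.RT.SHL
import Pool.Agent.N983.RT.EST

set_option autoImplicit false

/-! Part VT of the project WK: trilinear estimate with the symbol on the third function
(helper300). -/

namespace Pool.Agent.N983.WK

open Pool.Agent.N983.RT

open Classical in
/-- the indicator of the shell -/
noncomputable def vt_sh (c : ℕ) (k l : Wv) : ℝ :=
  if (4 : ℝ) ^ c ≤ max (nsq k) (max (nsq l) (nsq (k + l))) ∧
      max (nsq k) (max (nsq l) (nsq (k + l))) < (4 : ℝ) ^ (c + 1) then 1 else 0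

lemma vt_wgt (c : ℕ) (i : Fin 3) (k l : Wv) : wgt 0 c i k l = vt_sh c k l * (l i : ℝ) := by
  unfold wgt vt_sh
  split_ifs
  · ring
  · ring

lemma vt_sh_comm (c : ℕ) (k l : Wv) : vt_sh c k l = vt_sh c l k := by
  unfold vt_sh
  rw [add_comm k l, max_left_comm]

lemma vt_sh_ne {c : ℕ} {k l : Wv} (h : vt_sh c k l ≠ 0) :
    nsq k < (4 : ℝ) ^ (c + 1) ∧ nsq l < (4 : ℝ) ^ (c + 1) ∧ nsq (k + l) < (4 : ℝ) ^ (c + 1) ∧
      ((4 : ℝ) ^ c ≤ nsq k ∨ (4 : ℝ) ^ c ≤ nsq l ∨ (4 : ℝ) ^ c ≤ nsq (k + l)) := by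
  unfold vt_sh at h
  split_ifs at h with h1
  · obtain ⟨h2, h3⟩ := h1
    rw [max_lt_iff, max_lt_iff] at h3
    rw [le_max_iff, le_max_iff] at h2
    exact ⟨h3.1, h3.2.1, h3.2.2, h2⟩
  · exact absurd rfl h

lemma vt_pow (n : ℕ) : 3 * (n : ℝ) ^ 2 < (4 : ℝ) ^ (n + 1) := by
  have h1 : (n : ℝ) < (2 : ℝ) ^ n := by
    have : n < 2 ^ n := Nat.lt_two_pow_self
    exact_mod_cast this
  have h2 : (n : ℝ) ^ 2 ≤ ((2 : ℝ) ^ n) ^ 2 := pow_le_pow_left₀ (Nat.cast_nonneg n) h1.le 2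
  have h3 : ((2 : ℝ) ^ n) ^ 2 = 4 ^ n := by
    rw [← pow_mul, mul_comm, pow_mul]
    norm_num
  rw [h3] at h2
  have h4 : (0 : ℝ) < 4 ^ n := by positivity
  rw [pow_succ (4 : ℝ) n]
  linarith

lemma vt_sh_sum {n : ℕ} {k l : Wv} (hk0 : k ≠ 0) (hk : k ∈ cub n) (hl : l ∈ cub n)
    (hm : -(k + l) ∈ cub n) : ∑ c ∈ Finset.range (n + 1), vt_sh c k l = 1 := by
  obtain ⟨t, ht⟩ : ∃ t, t = max (nsq k) (max (nsq l) (nsq (k + l))) := ⟨_, rfl⟩
  have h0 : 1 ≤ nsq k := by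
    by_contra h
    exact hk0 (est_one h)
  have h1 : 1 ≤ t := by
    rw [ht]
    exact h0.trans (le_max_left _ _)
  obtain ⟨c, hc1, hc2⟩ := exists_nat_pow_near h1 (by norm_num : (1 : ℝ) < 4)
  have ht2 : t ≤ 3 * (n : ℝ) ^ 2 := by
    rw [ht]
    have a1 := est_le (m := n) (est_abs hk)
    have a2 := est_le (m := n) (est_abs hl)
    have a3 := est_le (m := n) (est_abs hm)
    rw [shl_nsq_neg] at a3
    exact max_le a1 (max_le a2 a3)
  have hcM : c < n + 1 :=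
    (pow_lt_pow_iff_right₀ (by norm_num : (1 : ℝ) < 4)).1 ((hc1.trans ht2).trans_lt (vt_pow n))
  rw [Finset.sum_eq_single c]
  · unfold vt_sh
    rw [if_pos (by rw [← ht]; exact ⟨hc1, hc2⟩)]
  · intro c' _ hc'
    unfold vt_sh
    rw [if_neg]
    rintro ⟨h2, h3⟩
    rw [← ht] at h2 h3
    exact hc' (est_uniq h2 h3 hc1 hc2)
  · intro h2
    exact absurd (Finset.mem_range.2 hcM) h2

lemma vt_tri (g : Wv → Wv → Wv → ℝ) (n : ℕ) (i : Fin 3) (x y z : Wv → ℂ) (hx0 : x 0 = 0)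
    (h0 : ∀ k, k ∉ cub n → x k = 0 ∧ y k = 0 ∧ z k = 0) :
    Tri (fun k l => g k l (-(k + l)) * ((k + l) i : ℝ)) n x y z =
      ∑ c ∈ Finset.range (n + 1),
        Tri (fun k l => g k l (-(k + l)) * vt_sh c k l) n x y (fun m => -(m i : ℂ) * z m) := by
  unfold Tri
  symm
  rw [Finset.sum_comm]
  refine Finset.sum_congr rfl fun k hk => ?_
  rw [Finset.sum_comm]
  refine Finset.sum_congr rfl fun l hl => ?_
  by_cases hk0 : k = 0
  · rw [hk0, hx0]
    simp
  by_cases hm : -(k + l) ∈ cub n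
  · have h1 := vt_sh_sum hk0 hk hl hm
    have h2 : ((∑ c ∈ Finset.range (n + 1), vt_sh c k l : ℝ) : ℂ) = 1 := by
      rw [h1]
      simp
    push_cast at h2
    have h3 : ∀ c ∈ Finset.range (n + 1),
        (((g k l (-(k + l)) * vt_sh c k l : ℝ) : ℂ) * x k * y l *
          (-((-(k + l)) i : ℂ) * z (-(k + l)))) = (vt_sh c k l : ℂ) *
          ((g k l (-(k + l)) : ℂ) * x k * y l * (((k + l) i : ℂ) * z (-(k + l)))) := by
      intro c _
      rw [Pi.neg_apply]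
      push_cast
      ring
    rw [Finset.sum_congr rfl h3, ← Finset.sum_mul, h2]
    push_cast
    ring
  · have h1 := (h0 _ hm).2.2
    beta_reduce
    rw [h1, mul_zero, mul_zero]
    exact Finset.sum_eq_zero fun c _ => by rw [mul_zero]

lemma vt_dir (i : Fin 3) (l : Wv) : (l i : ℝ) ^ 2 ≤ nsq l :=
  Finset.single_le_sum (f := fun i => (l i : ℝ) ^ 2) (fun _ _ => sq_nonneg _) (Finset.mem_univ i)

/-- bound without symbol -/
lemma vt_free (g : Wv → Wv → Wv → ℝ) (κ : ℝ) (C : Fin 3 → ℝ) (hC0 : ∀ i, 0 ≤ C i) (c : ℕ)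
    (hC : ∀ (i : Fin 3) (x y z : Wv → ℂ),
      ‖Tri (fun k l => g k l (-(k + l)) * wgt 0 c i k l) (2 ^ (c + 1)) x y z‖ ≤
        C i * ((2 : ℝ) ^ c) ^ (1 + κ) *
          (N2 (2 ^ (c + 1)) x * N2 (2 ^ (c + 1)) y * N2 (2 ^ (c + 1)) z))
    (x y z : Wv → ℂ) (hy : ∀ l, y l ≠ 0 → (4 : ℝ) ^ c ≤ 4 * nsq l) :
    ‖Tri (fun k l => g k l (-(k + l)) * vt_sh c k l) (2 ^ (c + 1)) x y z‖ ≤
      (∑ i, C i) * ((2 : ℝ) ^ c) ^ (1 + κ) * (2 / (2 : ℝ) ^ c) *
          (N2 (2 ^ (c + 1)) x * N2 (2 ^ (c + 1)) y * N2 (2 ^ (c + 1)) z) := by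
  obtain ⟨R, hR⟩ : ∃ R : ℕ, R = 2 ^ (c + 1) := ⟨_, rfl⟩
  simp only [← hR] at hC ⊢
  obtain ⟨w, hw⟩ : ∃ w : Fin 3 → Wv → ℂ, ∀ i l, w i l = (((l i : ℝ) / nsq l : ℝ) : ℂ) * y l :=
    ⟨fun i l => (((l i : ℝ) / nsq l : ℝ) : ℂ) * y l, fun _ _ => rfl⟩
  have h1 : Tri (fun k l => g k l (-(k + l)) * vt_sh c k l) R x y z =
      ∑ i, Tri (fun k l => g k l (-(k + l)) * wgt 0 c i k l) R x (w i) z := by
    unfold Tri
    symm
    rw [Finset.sum_comm]
    refine Finset.sum_congr rfl fun k _ => ?_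
    rw [Finset.sum_comm]
    refine Finset.sum_congr rfl fun l _ => ?_
    by_cases hl : y l = 0
    · simp only [hw, hl]
      simp
    · have h2 := hy l hl
      have h3 : 0 < nsq l := by
        have : (0 : ℝ) < 4 ^ c := by positivity
        linarith
      have h4 : ∀ i : Fin 3, (((g k l (-(k + l)) * wgt 0 c i k l : ℝ) : ℂ) * x k * w i l *
          z (-(k + l))) = (((l i : ℝ) ^ 2 / nsq l : ℝ) : ℂ) *
          (((g k l (-(k + l)) * vt_sh c k l : ℝ) : ℂ) * x k * y l * z (-(k + l))) := by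
        intro i
        rw [hw, vt_wgt]
        push_cast
        ring
      have h5 : ∑ i : Fin 3, (l i : ℝ) ^ 2 / nsq l = 1 := by
        rw [← Finset.sum_div]
        exact div_self h3.ne'
      have h6 : ∑ i : Fin 3, (((l i : ℝ) ^ 2 / nsq l : ℝ) : ℂ) = 1 := by
        rw [← Complex.ofReal_sum, h5]
        simp
      rw [Finset.sum_congr rfl fun i _ => h4 i, ← Finset.sum_mul, h6, one_mul]
  have hN : ∀ i, N2 R (w i) ≤ (2 / (2 : ℝ) ^ c) * N2 R y := by
    intro i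
    have hp : (0 : ℝ) ≤ 2 / (2 : ℝ) ^ c := by positivity
    unfold N2
    rw [← Real.sqrt_sq hp, ← Real.sqrt_mul (sq_nonneg _), Finset.mul_sum]
    apply Real.sqrt_le_sqrt
    refine Finset.sum_le_sum fun l _ => ?_
    rw [hw, norm_mul, mul_pow, Complex.norm_real, Real.norm_eq_abs, sq_abs]
    by_cases hl : y l = 0
    · rw [hl]
      simp
    · refine mul_le_mul_of_nonneg_right ?_ (sq_nonneg _)
      have h2 := hy l hl
      have h4c : (0 : ℝ) < 4 ^ c := by positivity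
      have h3 : 0 < nsq l := by linarith
      have h5 : (2 / (2 : ℝ) ^ c) ^ 2 = 4 / 4 ^ c := by
        rw [div_pow, ← pow_mul, mul_comm c 2, pow_mul]
        norm_num
      rw [h5, div_pow, div_le_div_iff₀ (by positivity) h4c]
      have h6 := vt_dir i l
      calc (l i : ℝ) ^ 2 * 4 ^ c ≤ nsq l * (4 * nsq l) :=
            mul_le_mul h6 h2 h4c.le h3.le
        _ = 4 * nsq l ^ 2 := by ring
  rw [h1]
  refine (norm_sum_le _ _).trans ?_
  rw [Finset.sum_mul, Finset.sum_mul, Finset.sum_mul]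
  refine Finset.sum_le_sum fun i _ => ?_
  have hx := Real.sqrt_nonneg (∑ k ∈ cub R, ‖x k‖ ^ 2)
  have hz := Real.sqrt_nonneg (∑ k ∈ cub R, ‖z k‖ ^ 2)
  change 0 ≤ N2 R x at hx
  change 0 ≤ N2 R z at hz
  refine (hC i x (w i) z).trans ?_
  have hp : 0 ≤ C i * ((2 : ℝ) ^ c) ^ (1 + κ) := mul_nonneg (hC0 i) (by positivity)
  calc C i * ((2 : ℝ) ^ c) ^ (1 + κ) * (N2 R x * N2 R (w i) * N2 R z) ≤
      C i * ((2 : ℝ) ^ c) ^ (1 + κ) * (N2 R x * ((2 / (2 : ℝ) ^ c) * N2 R y) * N2 R z) :=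
        mul_le_mul_of_nonneg_left (mul_le_mul_of_nonneg_right
          (mul_le_mul_of_nonneg_left (hN i) hx) hz) hp
    _ = _ := by ring

lemma vt_swap (g : Wv → Wv → Wv → ℝ) (hg : Arr g) (c R : ℕ) (x y z : Wv → ℂ) :
    Tri (fun k l => g k l (-(k + l)) * vt_sh c k l) R x y z =
      Tri (fun k l => g k l (-(k + l)) * vt_sh c k l) R y x z := by
  unfold Tri
  rw [Finset.sum_comm]
  refine Finset.sum_congr rfl fun k _ => Finset.sum_congr rfl fun l _ => ?_
  beta_reduce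
  rw [vt_sh_comm c l k, add_comm l k, hg.swap12 l k]
  ring

/-- one shell -/
lemma vt_shell (g : Wv → Wv → Wv → ℝ) (κ : ℝ) (hg : Arr g) (C : Fin 3 → ℝ) (hC0 : ∀ i, 0 ≤ C i)
    (c : ℕ) (hC : ∀ (i : Fin 3) (x y z : Wv → ℂ),
      ‖Tri (fun k l => g k l (-(k + l)) * wgt 0 c i k l) (2 ^ (c + 1)) x y z‖ ≤
        C i * ((2 : ℝ) ^ c) ^ (1 + κ) *
          (N2 (2 ^ (c + 1)) x * N2 (2 ^ (c + 1)) y * N2 (2 ^ (c + 1)) z))
    (n : ℕ) (i : Fin 3) (x y z : Wv → ℂ) (h0 : ∀ k, k ∉ cub n → x k = 0 ∧ y k = 0 ∧ z k = 0) :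
    ‖Tri (fun k l => g k l (-(k + l)) * vt_sh c k l) n x y (fun m => -(m i : ℂ) * z m)‖ ≤
      4 * (∑ i, C i) *
        (((2 : ℝ) ^ c) ^ (1 + κ) * (N2 n x * nb c n y + nb c n x * N2 n y) * nb c n z +
          ((2 : ℝ) ^ c) ^ κ * (nb c n x * nb c n y) * lo c n z) := by
  classical
  have free := vt_free g κ C hC0 c hC
  have swap := vt_swap g hg c (2 ^ (c + 1))
  obtain ⟨z', hz'⟩ : ∃ z' : Wv → ℂ, z' = fun m => -(m i : ℂ) * z m := ⟨_, rfl⟩
  obtain ⟨a, ha⟩ : ∃ a : Wv → Wv → ℝ, a = fun k l => g k l (-(k + l)) * vt_sh c k l := ⟨_, rfl⟩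
  obtain ⟨R, hR⟩ : ∃ R : ℕ, R = 2 ^ (c + 1) := ⟨_, rfl⟩
  obtain ⟨K, hK⟩ : ∃ K : ℝ, K = ∑ i, C i := ⟨_, rfl⟩
  have hK0 : 0 ≤ K := by
    rw [hK]
    exact Finset.sum_nonneg fun i _ => hC0 i
  obtain ⟨B, hB⟩ : ∃ B : ℝ, B = K * ((2 : ℝ) ^ c) ^ (1 + κ) * (2 / (2 : ℝ) ^ c) := ⟨_, rfl⟩
  have hB0 : 0 ≤ B := by rw [hB]; positivity
  simp only [← ha, ← hR, ← hK, ← hB, ← hz'] at free swap ⊢
  have ha0 : ∀ k l, vt_sh c k l = 0 → a k l = 0 := by
    intro k l h
    rw [ha]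
    show g k l (-(k + l)) * vt_sh c k l = 0
    rw [h, mul_zero]
  obtain ⟨P, hP⟩ : ∃ P : ℝ, P = 4 ^ c := ⟨_, rfl⟩
  have hP4 : (4 : ℝ) ^ (c + 1) = 4 * P := by rw [hP, pow_succ]; ring
  obtain ⟨wl, hwl⟩ : ∃ wl : (Wv → ℂ) → Wv → ℂ, ∀ w k, wl w k =
      if 4 * nsq k < P then w k else 0 := ⟨fun w k => if 4 * nsq k < P then w k else 0,
        fun _ _ => rfl⟩
  obtain ⟨wh, hwh⟩ : ∃ wh : (Wv → ℂ) → Wv → ℂ, ∀ w k, wh w k =
      if P ≤ 4 * nsq k ∧ nsq k < 4 * P then w k else 0 :=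
    ⟨fun w k => if P ≤ 4 * nsq k ∧ nsq k < 4 * P then w k else 0, fun _ _ => rfl⟩
  obtain ⟨wz, hwz⟩ : ∃ wz : (Wv → ℂ) → Wv → ℂ, ∀ w k, wz w k =
      if nsq k < 4 * P then w k else 0 :=
    ⟨fun w k => if nsq k < 4 * P then w k else 0, fun _ _ => rfl⟩
  have hterm : ∀ k l, (a k l : ℂ) * x k * y l * z' (-(k + l)) =
      (a k l : ℂ) * wl x k * wh y l * wh z' (-(k + l)) +
      (a k l : ℂ) * wh x k * wl y l * wh z' (-(k + l)) +
      (a k l : ℂ) * wh x k * wh y l * wz z' (-(k + l)) := by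
    intro k l
    by_cases hw : vt_sh c k l = 0
    · rw [ha0 k l hw]
      simp
    · obtain ⟨h1, h2, h3, h4⟩ := vt_sh_ne hw
      rw [hP4] at h1 h2 h3
      rw [← hP] at h4
      have t1 := shl_nsq_add k l
      have t2 := shl_nsq_sub k l
      have t3 := shl_nsq_sub' k l
      have n1 := shl_nsq_nonneg k
      have n2 := shl_nsq_nonneg l
      have n3 := shl_nsq_nonneg (k + l)
      rw [hwl, hwl, hwh, hwh, hwh, hwz, shl_nsq_neg]
      by_cases c1 : 4 * nsq k < P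
      · by_cases c2 : 4 * nsq l < P
        · exfalso
          rcases h4 with h4 | h4 | h4 <;> linarith
        · by_cases c3 : 4 * nsq (k + l) < P
          · exfalso
            rcases h4 with h4 | h4 | h4 <;> linarith
          · have k1 : ¬(P ≤ 4 * nsq k ∧ nsq k < 4 * P) := fun h => absurd c1 (not_lt.2 h.1)
            have k2 : P ≤ 4 * nsq l ∧ nsq l < 4 * P := ⟨not_lt.1 c2, h2⟩
            have k3 : P ≤ 4 * nsq (k + l) ∧ nsq (k + l) < 4 * P := ⟨not_lt.1 c3, h3⟩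
            simp only [if_pos c1, if_neg k1, if_pos k2, if_pos k3, if_neg c2, if_pos h3]
            ring
      · by_cases c2 : 4 * nsq l < P
        · by_cases c3 : 4 * nsq (k + l) < P
          · exfalso
            rcases h4 with h4 | h4 | h4 <;> linarith
          · have k1 : P ≤ 4 * nsq k ∧ nsq k < 4 * P := ⟨not_lt.1 c1, h1⟩
            have k2 : ¬(P ≤ 4 * nsq l ∧ nsq l < 4 * P) := fun h => absurd c2 (not_lt.2 h.1)
            have k3 : P ≤ 4 * nsq (k + l) ∧ nsq (k + l) < 4 * P := ⟨not_lt.1 c3, h3⟩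
            simp only [if_neg c1, if_pos k1, if_neg k2, if_pos k3, if_pos c2, if_pos h3]
            ring
        · have k1 : P ≤ 4 * nsq k ∧ nsq k < 4 * P := ⟨not_lt.1 c1, h1⟩
          have k2 : P ≤ 4 * nsq l ∧ nsq l < 4 * P := ⟨not_lt.1 c2, h2⟩
          simp only [if_neg c1, if_pos k1, if_pos k2, if_neg c2, if_pos h3]
          ring
  have hz0 : ∀ k, k ∉ cub n → z k = 0 := fun k hk => (h0 k hk).2.2
  -- the sum over the cube of radius `R`
  have hTR : Tri a n x y z' = Tri a R x y z' := by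
    rw [shl_tri_big a (le_max_left n R) x y z' (by
      intro k l h
      rcases h with h | h
      · rw [(h0 k h).1]; ring
      · rw [(h0 l h).2.1]; ring)]
    rw [shl_tri_big a (le_max_right n R) x y z' (by
      intro k l h
      have h1 : vt_sh c k l = 0 := by
        by_contra hne
        obtain ⟨h1, h2, -, -⟩ := vt_sh_ne hne
        rw [hR] at h
        rcases h with h | h
        · exact absurd (shl_big h) (not_le.2 h1)
        · exact absurd (shl_big h) (not_le.2 h2)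
      rw [ha0 k l h1]
      simp)]
  have hsplit : Tri a R x y z' = Tri a R (wl x) (wh y) (wh z') + Tri a R (wh x) (wl y) (wh z') +
      Tri a R (wh x) (wh y) (wz z') := by
    unfold Tri
    rw [← Finset.sum_add_distrib, ← Finset.sum_add_distrib]
    refine Finset.sum_congr rfl fun k _ => ?_
    rw [← Finset.sum_add_distrib, ← Finset.sum_add_distrib]
    exact Finset.sum_congr rfl fun l _ => hterm k l
  have hNl : ∀ w : Wv → ℂ, (∀ k, k ∉ cub n → w k = 0) → N2 R (wl w) ≤ N2 n w := by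
    intro w hw
    unfold N2
    apply Real.sqrt_le_sqrt
    apply shl_sum (fun k => sq_nonneg _)
    · intro k
      rw [hwl]
      split_ifs
      · exact le_rfl
      · rw [norm_zero, zero_pow two_ne_zero]
        exact sq_nonneg _
    · intro k hk
      rw [hwl, hw k hk]
      simp
  have hnorm : ∀ k, ‖z' k‖ ^ 2 = (k i : ℝ) ^ 2 * ‖z k‖ ^ 2 := by
    intro k
    rw [hz']
    show ‖-(k i : ℂ) * z k‖ ^ 2 = _
    rw [norm_mul, norm_neg, mul_pow]
    congr 1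
    rw [← Complex.ofReal_intCast, Complex.norm_real, Real.norm_eq_abs, sq_abs]
  have hNz : N2 R (wz z') ≤ lo c n z := by
    unfold N2 lo
    apply Real.sqrt_le_sqrt
    apply shl_sum (fun k => mul_nonneg (shl_nsq_nonneg k) (sq_nonneg _))
    · intro k
      rw [hwz]
      split_ifs
      · rw [hnorm]
        exact mul_le_mul_of_nonneg_right (vt_dir i k) (sq_nonneg _)
      · rw [norm_zero, zero_pow two_ne_zero]
        exact mul_nonneg (shl_nsq_nonneg k) (sq_nonneg _)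
    · intro k hk
      rw [hwz]
      by_cases hkn : k ∈ cub n
      · rw [if_neg]
        · simp
        · intro h
          apply hk
          rw [Finset.mem_filter, hP4]
          exact ⟨hkn, h⟩
      · have : z' k = 0 := by
          rw [hz']
          show -(k i : ℂ) * z k = 0
          rw [hz0 k hkn, mul_zero]
        rw [this]
        simp
  have hNh : ∀ w : Wv → ℂ, (∀ k, k ∉ cub n → w k = 0) → N2 R (wh w) ≤ nb c n w := by
    intro w hw
    unfold N2 nb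
    apply Real.sqrt_le_sqrt
    apply shl_sum (fun k => sq_nonneg _)
    · intro k
      rw [hwh]
      split_ifs
      · exact le_rfl
      · rw [norm_zero, zero_pow two_ne_zero]
        exact sq_nonneg _
    · intro k hk
      rw [hwh]
      by_cases hkn : k ∈ cub n
      · rw [if_neg]
        · simp
        · intro h
          apply hk
          rw [Finset.mem_filter, hP4, ← hP]
          exact ⟨hkn, h⟩
      · rw [hw k hkn]
        simp
  have hNhz : N2 R (wh z') ≤ (2 : ℝ) ^ (c + 1) * nb c n z := by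
    unfold N2 nb
    have hp : (0 : ℝ) ≤ (2 : ℝ) ^ (c + 1) := by positivity
    rw [← Real.sqrt_sq hp, ← Real.sqrt_mul (sq_nonneg _), Finset.mul_sum]
    have h22 : ((2 : ℝ) ^ (c + 1)) ^ 2 = 4 * P := by
      rw [← hP4, ← pow_mul, mul_comm (c + 1) 2, pow_mul]
      norm_num
    apply Real.sqrt_le_sqrt
    apply shl_sum (fun k => mul_nonneg (sq_nonneg _) (sq_nonneg _))
    · intro k
      rw [hwh]
      split_ifs with hh
      · rw [hnorm, h22]
        exact mul_le_mul_of_nonneg_right ((vt_dir i k).trans hh.2.le) (sq_nonneg _)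
      · rw [norm_zero, zero_pow two_ne_zero]
        exact mul_nonneg (sq_nonneg _) (sq_nonneg _)
    · intro k hk
      rw [hwh]
      by_cases hkn : k ∈ cub n
      · rw [if_neg]
        · simp
        · intro h
          apply hk
          rw [Finset.mem_filter, hP4, ← hP]
          exact ⟨hkn, h⟩
      · have : z' k = 0 := by
          rw [hz']
          show -(k i : ℂ) * z k = 0
          rw [hz0 k hkn, mul_zero]
        rw [this]
        simp
  have hx : ∀ k, k ∉ cub n → x k = 0 := fun k hk => (h0 k hk).1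
  have hy : ∀ k, k ∉ cub n → y k = 0 := fun k hk => (h0 k hk).2.1
  have N0 : ∀ (R : ℕ) (w : Wv → ℂ), 0 ≤ N2 R w := fun R w => Real.sqrt_nonneg _
  have H0 : ∀ w : Wv → ℂ, 0 ≤ nb c n w := fun w => Real.sqrt_nonneg _
  have L0 : 0 ≤ lo c n z := Real.sqrt_nonneg _
  have hsup : ∀ (w : Wv → ℂ) (l : Wv), wh w l ≠ 0 → (4 : ℝ) ^ c ≤ 4 * nsq l := by
    intro w l hl
    rw [hwh] at hl
    split_ifs at hl with hh
    · rw [← hP]
      exact hh.1
    · exact absurd rfl hl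
  have e1 : ‖Tri a R (wl x) (wh y) (wh z')‖ ≤
      B * (N2 n x * nb c n y * ((2 : ℝ) ^ (c + 1) * nb c n z)) := by
    refine (free _ _ _ (hsup y)).trans (mul_le_mul_of_nonneg_left ?_ hB0)
    exact mul_le_mul (mul_le_mul (hNl x hx) (hNh y hy) (N0 _ _) (N0 _ _)) hNhz (N0 _ _)
      (mul_nonneg (N0 _ _) (H0 _))
  have e2 : ‖Tri a R (wh x) (wl y) (wh z')‖ ≤
      B * (N2 n y * nb c n x * ((2 : ℝ) ^ (c + 1) * nb c n z)) := by
    rw [swap]
    refine (free _ _ _ (hsup x)).trans (mul_le_mul_of_nonneg_left ?_ hB0)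
    exact mul_le_mul (mul_le_mul (hNl y hy) (hNh x hx) (N0 _ _) (N0 _ _)) hNhz (N0 _ _)
      (mul_nonneg (N0 _ _) (H0 _))
  have e3 : ‖Tri a R (wh x) (wh y) (wz z')‖ ≤ B * (nb c n x * nb c n y * lo c n z) := by
    refine (free _ _ _ (hsup y)).trans (mul_le_mul_of_nonneg_left ?_ hB0)
    exact mul_le_mul (mul_le_mul (hNh x hx) (hNh y hy) (N0 _ _) (H0 _)) hNz (N0 _ _)
      (mul_nonneg (H0 _) (H0 _))
  rw [hTR, hsplit]
  refine (norm_add₃_le).trans ?_
  refine (add_le_add (add_le_add e1 e2) e3).trans ?_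
  have q0 : (0 : ℝ) < (2 : ℝ) ^ c := by positivity
  have q1 : B * (2 : ℝ) ^ (c + 1) = 4 * K * ((2 : ℝ) ^ c) ^ (1 + κ) := by
    rw [hB, pow_succ]
    field_simp
    ring
  have q2 : B = 2 * K * ((2 : ℝ) ^ c) ^ κ := by
    rw [hB, Real.rpow_add q0, Real.rpow_one]
    field_simp
  have q3 : 0 ≤ K * ((2 : ℝ) ^ c) ^ κ * (nb c n x * nb c n y * lo c n z) :=
    mul_nonneg (mul_nonneg hK0 (by positivity)) (mul_nonneg (mul_nonneg (H0 _) (H0 _)) L0)
  calc B * (N2 n x * nb c n y * ((2 : ℝ) ^ (c + 1) * nb c n z)) +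
        B * (N2 n y * nb c n x * ((2 : ℝ) ^ (c + 1) * nb c n z)) +
        B * (nb c n x * nb c n y * lo c n z) =
      (B * (2 : ℝ) ^ (c + 1)) * ((N2 n x * nb c n y + nb c n x * N2 n y) * nb c n z) +
        B * (nb c n x * nb c n y * lo c n z) := by ring
    _ = 4 * K * (((2 : ℝ) ^ c) ^ (1 + κ) * (N2 n x * nb c n y + nb c n x * N2 n y) * nb c n z +
          ((2 : ℝ) ^ c) ^ κ * (nb c n x * nb c n y) * lo c n z) -
          2 * (K * ((2 : ℝ) ^ c) ^ κ * (nb c n x * nb c n y * lo c n z)) := by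
        rw [q1, q2]
        ring
    _ ≤ _ := by linarith

/-- (VT) trilinear estimate, the symbol on the third function -/
theorem t_VT : S_VT := by
  intro g κ hg _ hTB
  choose C hC0 hC using fun i : Fin 3 => hTB 0 i
  have hK0 : 0 ≤ ∑ i, C i := Finset.sum_nonneg fun i _ => hC0 i
  refine ⟨4 * ∑ i, C i, by positivity, ?_⟩
  intro n i x y z hx0 _ _ h0
  rw [vt_tri g n i x y z hx0 h0]
  refine (norm_sum_le _ _).trans ?_
  rw [Finset.mul_sum]
  refine Finset.sum_le_sum fun c _ => ?_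
  refine vt_shell g κ hg C hC0 c ?_ n i x y z h0
  intro j x y z
  have h1 := hC j c x y z
  have e : 1 + 2 * ((0 : ℕ) : ℝ) + κ = 1 + κ := by
    push_cast
    ring
  rw [e] at h1
  exact h1

end Pool.Agent.N983.WK
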