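import Pool.Agent.N983.WK.Stm2
import Pool.Agent.N983.WK.EEQ
import Pool.Agent.N983.WK.GRO
import Pool.Agent.N983.WK.CVB

set_option autoImplicit false

/-! Project WK (helper983), part WSU: weak-strong uniqueness (helper160). -/

namespace Pool.Agent.N983.WK

open MeasureTheory ProbabilityTheory Filter Topology Pool.Agent.N983.RT

theorem wsu_n_le {w : Fld} {Y : ℝ} (hY : ∀ S : Finset Wv, ∑ k ∈ S, ∑ i, ‖w k i‖ ^ 2 ≤ Y)
    (k : Wv) : cvb_n (w k) ≤ Real.sqrt Y := by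
  apply Real.sqrt_le_sqrt
  have h := hY {k}
  rwa [Finset.sum_singleton] at h

theorem wsu_cv {g : Wv → Wv → Wv → ℝ} (hg : ∀ k l m, |g k l m| ≤ 1) {w V : Fld} {Y : ℝ}
    (hY : ∀ S : Finset Wv, ∑ k ∈ S, ∑ i, ‖w k i‖ ^ 2 ≤ Y) {M : Wv → ℝ} (hM : Summable M)
    (hM0 : ∀ l, 0 ≤ M l) (hV : ∀ l i j, |(l i : ℝ)| * ‖V l j‖ ≤ M l) (m : Wv) (j : Fin 3) :
    Summable (fun l => cvb_n (w (m - l)) * M l) ∧
    ‖cv g w V m j‖ ≤ 3 * ∑' l, cvb_n (w (m - l)) * M l := by
  have hs : Summable (fun l => cvb_n (w (m - l)) * M l) :=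
    Summable.of_nonneg_of_le (fun l => mul_nonneg (cvb_n_nonneg _) (hM0 l))
      (fun l => mul_le_mul_of_nonneg_right (wsu_n_le hY _) (hM0 l)) (hM.mul_left _)
  refine ⟨hs, ?_⟩
  have h1 : HasSum (fun k => 3 * (cvb_n (w k) * M (m - k)))
      (3 * ∑' l, cvb_n (w (m - l)) * M l) := by
    refine HasSum.mul_left 3 ?_
    rw [← (Equiv.subLeft m).hasSum_iff]
    have h2 : ((fun k => cvb_n (w k) * M (m - k)) ∘ (Equiv.subLeft m)) =
        fun l => cvb_n (w (m - l)) * M l := by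
      funext l
      simp only [Function.comp_apply, Equiv.subLeft_apply, sub_sub_cancel]
    rw [h2]
    exact hs.hasSum
  refine tsum_of_norm_bounded h1 fun k => ?_
  rw [norm_mul, norm_mul, Complex.norm_real, Real.norm_eq_abs]
  have h2 : ‖dt (w k) (m - k)‖ * ‖V (m - k) j‖ ≤ 3 * (cvb_n (w k) * M (m - k)) := by
    have h3 : ‖dt (w k) (m - k)‖ ≤ ∑ i, cvb_n (w k) * |((m - k) i : ℝ)| := by
      unfold dt
      refine (norm_sum_le _ _).trans (Finset.sum_le_sum fun i _ => ?_)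
      rw [norm_mul, Complex.norm_intCast]
      exact mul_le_mul_of_nonneg_right (cvb_n_le _ i) (abs_nonneg _)
    calc ‖dt (w k) (m - k)‖ * ‖V (m - k) j‖
        ≤ (∑ i, cvb_n (w k) * |((m - k) i : ℝ)|) * ‖V (m - k) j‖ :=
          mul_le_mul_of_nonneg_right h3 (norm_nonneg _)
      _ = ∑ i, cvb_n (w k) * (|((m - k) i : ℝ)| * ‖V (m - k) j‖) := by
          rw [Finset.sum_mul]
          exact Finset.sum_congr rfl fun i _ => by ring
      _ ≤ ∑ _i : Fin 3, cvb_n (w k) * M (m - k) :=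
          Finset.sum_le_sum fun i _ => mul_le_mul_of_nonneg_left (hV _ i j) (cvb_n_nonneg _)
      _ = 3 * (cvb_n (w k) * M (m - k)) := by
          rw [Finset.sum_const, Finset.card_univ, Fintype.card_fin, nsmul_eq_mul]
          norm_num
  calc |g k (m - k) (-m)| * ‖dt (w k) (m - k)‖ * ‖V (m - k) j‖
      = |g k (m - k) (-m)| * (‖dt (w k) (m - k)‖ * ‖V (m - k) j‖) := by ring
    _ ≤ 1 * (‖dt (w k) (m - k)‖ * ‖V (m - k) j‖) :=
        mul_le_mul_of_nonneg_right (hg _ _ _) (by positivity)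
    _ ≤ _ := by rw [one_mul]; exact h2

theorem wsu_first {g : Wv → Wv → Wv → ℝ} (hg : ∀ k l m, |g k l m| ≤ 1) {w V : Fld} {Y : ℝ}
    (hY : ∀ S : Finset Wv, ∑ k ∈ S, ∑ i, ‖w k i‖ ^ 2 ≤ Y) {M : Wv → ℝ} (hM : Summable M)
    (hM0 : ∀ l, 0 ≤ M l) (hV : ∀ l i j, |(l i : ℝ)| * ‖V l j‖ ≤ M l) (χ : Wv → ℝ)
    (hχ0 : ∀ m, 0 ≤ χ m) (hχ1 : ∀ m, χ m ≤ 1) (N : ℕ) :
    (∑ m ∈ cub N, (χ m : ℂ) * ∑ j, (starRingEnd ℂ) (w m j) * cv g w V m j).im ≤
      9 * (∑' l, M l) * Y := by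
  have hcv := fun m j => wsu_cv hg hY hM hM0 hV m j
  have h0 : ∀ m, 0 ≤ ∑' l, cvb_n (w (m - l)) * M l := fun m =>
    tsum_nonneg fun l => mul_nonneg (cvb_n_nonneg _) (hM0 l)
  have h1 : ∀ m, ‖(χ m : ℂ) * ∑ j, (starRingEnd ℂ) (w m j) * cv g w V m j‖ ≤
      9 * (cvb_n (w m) * ∑' l, cvb_n (w (m - l)) * M l) := by
    intro m
    rw [norm_mul, Complex.norm_real, Real.norm_eq_abs, abs_of_nonneg (hχ0 m)]
    have h2 : ‖∑ j, (starRingEnd ℂ) (w m j) * cv g w V m j‖ ≤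
        ∑ _j : Fin 3, cvb_n (w m) * (3 * ∑' l, cvb_n (w (m - l)) * M l) := by
      refine (norm_sum_le _ _).trans (Finset.sum_le_sum fun j _ => ?_)
      rw [norm_mul, RCLike.norm_conj]
      exact mul_le_mul (cvb_n_le _ j) (hcv m j).2 (norm_nonneg _) (cvb_n_nonneg _)
    rw [Finset.sum_const, Finset.card_univ, Fintype.card_fin, nsmul_eq_mul] at h2
    have h3 := mul_le_mul_of_nonneg_right (hχ1 m)
      (norm_nonneg (∑ j, (starRingEnd ℂ) (w m j) * cv g w V m j))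
    push_cast at h2
    linarith
  have h2 : ∑ m ∈ cub N, cvb_n (w m) * ∑' l, cvb_n (w (m - l)) * M l ≤ Y * ∑' l, M l := by
    have h3 : ∀ m ∈ cub N, Summable fun l => cvb_n (w m) * (cvb_n (w (m - l)) * M l) :=
      fun m _ => (hcv m 0).1.mul_left _
    have h4 : ∑ m ∈ cub N, cvb_n (w m) * ∑' l, cvb_n (w (m - l)) * M l =
        ∑' l, ∑ m ∈ cub N, cvb_n (w m) * (cvb_n (w (m - l)) * M l) := by
      rw [Summable.tsum_finsetSum h3]
      exact Finset.sum_congr rfl fun m _ => (hcv m 0).1.tsum_mul_left _ |>.symm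
    rw [h4, ← hM.tsum_mul_left]
    refine Summable.tsum_le_tsum (fun l => ?_) (summable_sum h3) (hM.mul_left _)
    have h5 : ∑ m ∈ cub N, cvb_n (w m) ^ 2 ≤ Y := by
      simp only [cvb_n_sq]
      exact hY _
    have h6 : ∑ m ∈ cub N, cvb_n (w (m - l)) ^ 2 ≤ Y := by
      have h7 := hY ((cub N).image fun m => m - l)
      rw [Finset.sum_image (fun x _ y _ h => sub_left_injective h)] at h7
      simp only [cvb_n_sq]
      exact h7
    have h8 : ∑ m ∈ cub N, cvb_n (w m) * cvb_n (w (m - l)) ≤ Y := by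
      have h9 : ∑ m ∈ cub N, cvb_n (w m) * cvb_n (w (m - l)) ≤
          ∑ m ∈ cub N, (cvb_n (w m) ^ 2 + cvb_n (w (m - l)) ^ 2) / 2 :=
        Finset.sum_le_sum fun m _ => by nlinarith [sq_nonneg (cvb_n (w m) - cvb_n (w (m - l)))]
      rw [← Finset.sum_div, Finset.sum_add_distrib] at h9
      linarith
    calc ∑ m ∈ cub N, cvb_n (w m) * (cvb_n (w (m - l)) * M l)
        = (∑ m ∈ cub N, cvb_n (w m) * cvb_n (w (m - l))) * M l := by
          rw [Finset.sum_mul]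
          exact Finset.sum_congr rfl fun m _ => by ring
      _ ≤ Y * M l := mul_le_mul_of_nonneg_right h8 (hM0 l)
  calc (∑ m ∈ cub N, (χ m : ℂ) * ∑ j, (starRingEnd ℂ) (w m j) * cv g w V m j).im
      ≤ ‖∑ m ∈ cub N, (χ m : ℂ) * ∑ j, (starRingEnd ℂ) (w m j) * cv g w V m j‖ :=
        (le_abs_self _).trans (Complex.abs_im_le_norm _)
    _ ≤ ∑ m ∈ cub N, 9 * (cvb_n (w m) * ∑' l, cvb_n (w (m - l)) * M l) :=
        (norm_sum_le _ _).trans (Finset.sum_le_sum fun m _ => h1 m)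
    _ = 9 * ∑ m ∈ cub N, cvb_n (w m) * ∑' l, cvb_n (w (m - l)) * M l := by
        rw [Finset.mul_sum]
    _ ≤ 9 * (Y * ∑' l, M l) := by linarith
    _ = _ := by ring

/-- rapid decay, uniform in time -/
theorem wsu_M (hS : S_SUM) {g : Wv → Wv → Wv → ℝ} {ν α T : ℝ} {v : ℝ → Fld}
    (hv : IsSol g ν α v) : ∃ M : Wv → ℝ, Summable M ∧ (∀ l, 0 ≤ M l) ∧
      ∀ t ∈ Set.Icc 0 T, ∀ l i j, |(l i : ℝ)| * ‖v t l j‖ ≤ M l := by
  obtain ⟨C, hC⟩ := hv.decay T 4
  refine ⟨fun l => max C 0 * ((1 + nsq l) ^ 3)⁻¹, hS.mul_left _, fun l => ?_, ?_⟩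
  · have := eeq_nsq l
    positivity
  · intro t ht l i j
    have h0 := eeq_nsq l
    have h1 := hC t ht.1 ht.2 l j
    have h2 : |(l i : ℝ)| ≤ 1 + nsq l := by
      have h3 : (l i : ℝ) ^ 2 ≤ nsq l :=
        Finset.single_le_sum (f := fun i => (l i : ℝ) ^ 2) (fun _ _ => sq_nonneg _)
          (Finset.mem_univ i)
      rw [← sq_abs] at h3
      nlinarith [sq_nonneg (|(l i : ℝ)| - 1), abs_nonneg (l i : ℝ)]
    have h4 : (0 : ℝ) < (1 + nsq l) ^ 3 := by positivity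
    change |(l i : ℝ)| * ‖v t l j‖ ≤ max C 0 * ((1 + nsq l) ^ 3)⁻¹
    rw [← div_eq_mul_inv, le_div_iff₀ h4]
    calc |(l i : ℝ)| * ‖v t l j‖ * (1 + nsq l) ^ 3
        ≤ (1 + nsq l) * ‖v t l j‖ * (1 + nsq l) ^ 3 := by gcongr
      _ = (1 + nsq l) ^ 4 * ‖v t l j‖ := by ring
      _ ≤ max C 0 := h1.trans (le_max_left _ _)

/-- the supremum of the energies -/
noncomputable def wsu_Y (T : ℝ) (w : ℝ → Fld) (s : ℝ) : ℝ :=
  ⨆ n : ℕ, (Set.Icc 0 T).indicator (fun s => En 0 n (w s)) s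

theorem wsu_En_cont {T : ℝ} {w : ℝ → Fld} (hw : ∀ m j, ContinuousOn (fun t => w t m j) (Set.Icc 0 T))
    (S : Finset Wv) (c : Wv → ℝ) :
    ContinuousOn (fun s => ∑ m ∈ S, c m * ∑ j, ‖w s m j‖ ^ 2) (Set.Icc 0 T) :=
  continuousOn_finsetSum _ fun m _ => continuousOn_const.mul
    (continuousOn_finsetSum _ fun j _ => (hw m j).norm.pow 2)

theorem wsu_Y_meas {T : ℝ} {w : ℝ → Fld}
    (hw : ∀ m j, ContinuousOn (fun t => w t m j) (Set.Icc 0 T)) : Measurable (wsu_Y T w) := by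
  unfold wsu_Y
  refine Measurable.iSup fun n => ?_
  have h1 : ContinuousOn (fun s => En 0 n (w s)) (Set.Icc 0 T) := wsu_En_cont hw (cub n) _
  have h2 := h1.measurable_piecewise (g := fun _ => (0 : ℝ)) continuousOn_const measurableSet_Icc
  have h3 : (Set.Icc 0 T).piecewise (fun s => En 0 n (w s)) (fun _ => (0 : ℝ)) =
      (Set.Icc 0 T).indicator (fun s => En 0 n (w s)) := Set.piecewise_eq_indicator
  rw [h3] at h2
  exact h2

theorem wsu_Y_le {T : ℝ} {w : ℝ → Fld} {s c : ℝ} (hs : s ∈ Set.Icc 0 T)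
    (h : ∀ n, En 0 n (w s) ≤ c) : wsu_Y T w s ≤ c := by
  unfold wsu_Y
  refine ciSup_le fun n => ?_
  rw [Set.indicator_of_mem hs]
  exact h n

theorem wsu_le_Y {T : ℝ} {w : ℝ → Fld} {s c : ℝ} (hs : s ∈ Set.Icc 0 T)
    (h : ∀ n, En 0 n (w s) ≤ c) (n : ℕ) : En 0 n (w s) ≤ wsu_Y T w s := by
  unfold wsu_Y
  have h1 : BddAbove (Set.range fun n : ℕ => (Set.Icc 0 T).indicator (fun s => En 0 n (w s)) s) := by
    refine ⟨c, ?_⟩
    rintro _ ⟨k, rfl⟩
    simp only [Set.indicator_of_mem hs]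
    exact h k
  have h2 := le_ciSup h1 n
  simp only [Set.indicator_of_mem hs] at h2
  simp only [Set.indicator_of_mem hs]
  exact h2

theorem wsu_En0 (n : ℕ) (w : Fld) : 0 ≤ En 0 n w := by
  unfold En
  exact Finset.sum_nonneg fun k _ => mul_nonneg (pow_nonneg (eeq_nsq k) _)
    (Finset.sum_nonneg fun _ _ => sq_nonneg _)

theorem wsu_sub (x y : Fin 3 → ℂ) : ∑ i, ‖(x - y) i‖ ^ 2 ≤ 2 * ∑ i, ‖x i‖ ^ 2 + 2 * ∑ i, ‖y i‖ ^ 2 := by
  rw [Finset.mul_sum, Finset.mul_sum, ← Finset.sum_add_distrib]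
  refine Finset.sum_le_sum fun i _ => ?_
  have h1 := norm_sub_le (x i) (y i)
  rw [Pi.sub_apply]
  nlinarith [norm_nonneg (x i - y i), sq_nonneg (‖x i‖ - ‖y i‖)]

theorem wsu_En_sub (n : ℕ) (a b : Fld) : En 0 n (a - b) ≤ 2 * En 0 n a + 2 * En 0 n b := by
  unfold En
  rw [Finset.mul_sum, Finset.mul_sum, ← Finset.sum_add_distrib]
  refine Finset.sum_le_sum fun k _ => ?_
  have h1 := wsu_sub (a k) (b k)
  simp only [pow_zero, one_mul]
  exact h1

theorem wsu_Er_sub (α : ℝ) (n : ℕ) (a b : Fld) :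
    Er α n (a - b) ≤ 2 * Er α n a + 2 * Er α n b := by
  unfold Er
  rw [Finset.mul_sum, Finset.mul_sum, ← Finset.sum_add_distrib]
  refine Finset.sum_le_sum fun k _ => ?_
  have h1 := mul_le_mul_of_nonneg_left (wsu_sub (a k) (b k))
    (Real.rpow_nonneg (eeq_nsq k) α)
  refine h1.trans (le_of_eq ?_)
  ring

theorem wsu_adm {a b : Fld} (ha : Adm a) (hb : Adm b) : Adm (a - b) := by
  refine ⟨?_, fun k => ?_, fun k i => ?_⟩
  · rw [Pi.sub_apply, ha.zero, hb.zero, sub_zero]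
  · have h1 : dt ((a - b) k) k = dt (a k) k - dt (b k) k := by
      unfold dt
      rw [← Finset.sum_sub_distrib]
      refine Finset.sum_congr rfl fun i _ => ?_
      rw [Pi.sub_apply, Pi.sub_apply]
      ring
    rw [h1, ha.div, hb.div, sub_zero]
  · rw [Pi.sub_apply, Pi.sub_apply, Pi.sub_apply, Pi.sub_apply, ha.real, hb.real, map_sub]

theorem wsu_D {g : Wv → Wv → Wv → ℝ} {ν α T : ℝ} {u : ℝ → Fld} (hT : 0 ≤ T)
    (hu : IsWeak g ν α T u) : ∃ D : ℝ → ℝ, IntegrableOn D (Set.Ioc 0 T) volume ∧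
      ∀ᵐ s ∂(volume.restrict (Set.Ioc 0 T)), ∀ N, Er α N (u s) ≤ D s := by
  obtain ⟨C', hC'⟩ := hu.diss
  have hw : ∀ (s : ℝ) (m : Wv), 0 ≤ nsq m ^ α * ∑ j, ‖u s m j‖ ^ 2 :=
    fun s m => mul_nonneg (Real.rpow_nonneg (eeq_nsq m) α)
      (Finset.sum_nonneg fun _ _ => sq_nonneg _)
  have hcE : ∀ N, ContinuousOn (fun s => Er α N (u s)) (Set.Icc 0 T) :=
    fun N => eeq_cont hu (cub N) fun m => nsq m ^ α
  have hiE : ∀ N, IntegrableOn (fun s => Er α N (u s)) (Set.Ioc 0 T) volume := fun N =>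
    ((hcE N).integrableOn_Icc).mono_set Set.Ioc_subset_Icc_self
  obtain ⟨D, hD, hDl⟩ := eeq_mct (μ := volume.restrict (Set.Ioc 0 T))
    (f := fun N s => Er α N (u s)) (C := C') hiE
    (ae_of_all _ fun s N => Finset.sum_nonneg fun m _ => hw s m)
    (ae_of_all _ fun s => eeq_mono (hw s))
    (fun N => by
      have := hC' N
      rwa [intervalIntegral.integral_of_le hT] at this)
  refine ⟨D, hD, ?_⟩
  filter_upwards [hDl] with s hs N
  exact (eeq_mono (hw s)).ge_of_tendsto hs N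

theorem wsu_fz_int (hCVB : S_CVB) (hMSB : S_MSB) {g : Wv → Wv → Wv → ℝ} {T C : ℝ} {u w : ℝ → Fld}
    (hg : ∀ k l m, |g k l m| ≤ 1) (hT : 0 ≤ T) (hu : ∀ t ∈ Set.Icc 0 T, Adm (u t))
    (huc : ∀ m j, ContinuousOn (fun t => u t m j) (Set.Icc 0 T))
    (hwc : ∀ m j, ContinuousOn (fun t => w t m j) (Set.Icc 0 T))
    (hEu : ∀ t ∈ Set.Icc 0 T, ∀ n, En 0 n (u t) ≤ C)
    (hEw : ∀ t ∈ Set.Icc 0 T, ∀ n, En 0 n (w t) ≤ C) (n : ℕ) :
    IntervalIntegrable (fun s => fz g n (u s) (w s)) volume 0 T := by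
  have h1 : ∀ m j, IntervalIntegrable (fun t => cv g (u t) (w t) m j) volume 0 T :=
    hMSB hCVB g T C u w hg hT hu huc hwc hEu hEw
  have h2 : IntervalIntegrable (fun s => ∑ m ∈ cub (2 * n + 2), (ct n m : ℂ) *
      ∑ j, (starRingEnd ℂ) (w s m j) * cv g (u s) (w s) m j) volume 0 T := by
    have h3 : ∀ m j, IntervalIntegrable
        (fun s => (starRingEnd ℂ) (w s m j) * cv g (u s) (w s) m j) volume 0 T := by
      intro m j
      refine (h1 m j).continuousOn_mul ?_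
      rw [Set.uIcc_of_le hT]
      exact Complex.continuous_conj.comp_continuousOn (hwc m j)
    have h4 : ∀ m, IntervalIntegrable (fun s => (ct n m : ℂ) *
        ∑ j, (starRingEnd ℂ) (w s m j) * cv g (u s) (w s) m j) volume 0 T := by
      intro m
      have h5 := IntervalIntegrable.sum Finset.univ fun j (_ : j ∈ Finset.univ) => h3 m j
      have h6 : IntervalIntegrable
          (fun s => ∑ j, (starRingEnd ℂ) (w s m j) * cv g (u s) (w s) m j) volume 0 T := by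
        refine h5.congr fun s _ => ?_
        simp only [Finset.sum_apply]
      exact h6.const_mul _
    have h5 := IntervalIntegrable.sum (cub (2 * n + 2)) fun m (_ : m ∈ cub (2 * n + 2)) => h4 m
    refine h5.congr fun s _ => ?_
    simp only [Finset.sum_apply]
  unfold fz
  exact ⟨h2.1.im, h2.2.im⟩

/-- the sum of the two parts -/
theorem wsu_split (g : Wv → Wv → Wv → ℝ) (n : ℕ) (u v : Fld) :
    (∑ m ∈ cub (2 * n + 2), (ct n m : ℂ) * ∑ j, (starRingEnd ℂ) (v m j - u m j) *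
      (cv g (v - u) v m j + cv g u (v - u) m j)).im =
    (∑ m ∈ cub (2 * n + 2), (ct n m : ℂ) * ∑ j, (starRingEnd ℂ) ((v - u) m j) *
      cv g (v - u) v m j).im + fz g n u (v - u) := by
  unfold fz
  rw [← Complex.add_im, ← Finset.sum_add_distrib]
  congr 1
  refine Finset.sum_congr rfl fun m _ => ?_
  rw [← mul_add, ← Finset.sum_add_distrib]
  congr 1
  refine Finset.sum_congr rfl fun j _ => ?_
  rw [← mul_add, Pi.sub_apply, Pi.sub_apply]

theorem t_WSU : S_WSU := by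
  intro hSUM hCVB hBAL hSQ hMSB hSW g ν α T hg hν hα hT hF u v hu hv h0
  have hV : IsWeak g ν α T v := hSW hSUM hCVB hMSB g ν α T hg hT hα v hv
  obtain ⟨K, hK, hFZ⟩ := hF
  obtain ⟨Cu, hCu⟩ := hu.energy
  obtain ⟨Cv, hCv⟩ := hV.energy
  obtain ⟨Du, hDui, hDu⟩ := wsu_D hT hu
  obtain ⟨Dv, hDvi, hDv⟩ := wsu_D hT hV
  obtain ⟨M, hM, hM0, hVM⟩ := wsu_M (T := T) hSUM hv
  -- the difference
  have hwc : ∀ m j, ContinuousOn (fun t => (v t - u t) m j) (Set.Icc 0 T) :=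
    fun m j => (hV.cont m j).sub (hu.cont m j)
  have hwA : ∀ s ∈ Set.Icc 0 T, Adm (v s - u s) := fun s hs => wsu_adm (hV.adm s hs) (hu.adm s hs)
  obtain ⟨B, hB⟩ : ∃ B : ℝ, B = max (max Cu (2 * Cv + 2 * Cu)) 0 := ⟨_, rfl⟩
  have hB0 : 0 ≤ B := by rw [hB]; exact le_max_right _ _
  have hBu : ∀ s ∈ Set.Icc 0 T, ∀ n, En 0 n (u s) ≤ B := fun s hs n =>
    (hCu s hs n).trans (by rw [hB]; exact (le_max_left _ _).trans (le_max_left _ _))
  have hBw : ∀ s ∈ Set.Icc 0 T, ∀ n, En 0 n (v s - u s) ≤ B := fun s hs n => by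
    refine (wsu_En_sub n (v s) (u s)).trans ?_
    have h1 := hCu s hs n
    have h2 := hCv s hs n
    have h3 : 2 * Cv + 2 * Cu ≤ B := by
      rw [hB]; exact (le_max_right _ _).trans (le_max_left _ _)
    linarith
  -- the supremum of the energies of the difference
  obtain ⟨Y, hYdef⟩ : ∃ Y : ℝ → ℝ, Y = wsu_Y T (fun s => v s - u s) := ⟨_, rfl⟩
  have hYm : Measurable Y := by rw [hYdef]; exact wsu_Y_meas hwc
  have hYle : ∀ s ∈ Set.Icc 0 T, ∀ c, (∀ n, En 0 n (v s - u s) ≤ c) → Y s ≤ c := by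
    intro s hs c hc
    rw [hYdef]
    exact wsu_Y_le (w := fun s => v s - u s) hs hc
  have hleY : ∀ s ∈ Set.Icc 0 T, ∀ n, En 0 n (v s - u s) ≤ Y s := by
    intro s hs n
    rw [hYdef]
    exact wsu_le_Y (w := fun s => v s - u s) hs (hBw s hs) n
  have hY0 : ∀ s ∈ Set.Icc 0 T, 0 ≤ Y s := fun s hs => (wsu_En0 0 _).trans (hleY s hs 0)
  have hYB : ∀ s ∈ Set.Icc 0 T, Y s ≤ B := fun s hs => hYle s hs B (hBw s hs)
  -- the constant
  obtain ⟨c, hc⟩ : ∃ c : ℝ, c = 2 * (9 * ∑' l, M l) := ⟨_, rfl⟩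
  have hc0 : 0 ≤ c := by
    rw [hc]
    have h1 : 0 ≤ ∑' l, M l := tsum_nonneg hM0
    positivity
  -- the first part
  have hfirst : ∀ s ∈ Set.Icc 0 T, ∀ n, (∑ m ∈ cub (2 * n + 2), (ct n m : ℂ) *
      ∑ j, (starRingEnd ℂ) ((v s - u s) m j) * cv g (v s - u s) (v s) m j).im ≤
        9 * (∑' l, M l) * Y s := by
    intro s hs n
    refine wsu_first hg.le (w := v s - u s) (V := v s) (fun S => ?_) hM hM0 (hVM s hs) (ct n)
      (eeq_ct0 n) (eeq_ct1 n) (2 * n + 2)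
    have h1 := cvb_sum (v s - u s) (Real.sqrt (Y s)) (fun n => by
      rw [Real.sq_sqrt (hY0 s hs)]
      exact hleY s hs n) S
    rwa [Real.sq_sqrt (hY0 s hs)] at h1
  -- the second part
  have hfz : ∀ᵐ s ∂(volume.restrict (Set.Ioc 0 T)),
      (∀ n, |fz g n (u s) (v s - u s)| ≤ K * Real.sqrt B * (2 * (|Dv s| + |Du s|))) ∧
        Tendsto (fun n => fz g n (u s) (v s - u s)) atTop (𝓝 0) := by
    filter_upwards [hDu, hDv, ae_restrict_mem measurableSet_Ioc] with s h1 h2 h3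
    have h4 : s ∈ Set.Icc 0 T := ⟨h3.1.le, h3.2⟩
    have a1 := le_abs_self (Dv s)
    have a2 := le_abs_self (Du s)
    have a3 := abs_nonneg (Dv s)
    have a4 := abs_nonneg (Du s)
    refine hFZ (u s) (v s - u s) (Real.sqrt B) (2 * (|Dv s| + |Du s|)) (hu.adm s h4)
      (hwA s h4) (Real.sqrt_nonneg _) (by positivity) (fun n => ?_) (fun n => ?_)
      (fun n => ?_) (fun n => ?_)
    · rw [Real.sq_sqrt hB0]
      exact hBu s h4 n
    · rw [Real.sq_sqrt hB0]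
      exact hBw s h4 n
    · have := h1 n
      linarith
    · have b1 := h1 n
      have b2 := h2 n
      refine (wsu_Er_sub α n (v s) (u s)).trans ?_
      linarith
  have hfzi := wsu_fz_int hCVB hMSB hg.le hT hu.adm hu.cont hwc hBu hBw
  -- the inequality
  have hmain : ∀ t ∈ Set.Icc 0 T, Y t ≤ 0 + ∫ s in (0 : ℝ)..t, c * Y s := by
    intro t ht
    have hsub : Set.Ioc 0 t ⊆ Set.Ioc 0 T := Set.Ioc_subset_Ioc_right ht.2
    have hcc : Set.Icc 0 t ⊆ Set.Icc 0 T := Set.Icc_subset_Icc_right ht.2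
    have huI : Set.uIcc 0 t ⊆ Set.uIcc 0 T := by
      rw [Set.uIcc_of_le ht.1, Set.uIcc_of_le hT]
      exact hcc
    have hmono : ∀ {p : ℝ → Prop}, (∀ᵐ s ∂(volume.restrict (Set.Ioc 0 T)), p s) →
        ∀ᵐ s ∂(volume : Measure ℝ), s ∈ Set.uIoc 0 t → p s := by
      intro p hp
      rw [Set.uIoc_of_le ht.1]
      have h1 := (ae_restrict_iff' measurableSet_Ioc).1 hp
      filter_upwards [h1] with s hs hs2
      exact hs (hsub hs2)
    have hDt : IntervalIntegrable (fun s => K * Real.sqrt B * (2 * (|Dv s| + |Du s|)))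
        volume 0 t := by
      refine (intervalIntegrable_iff_integrableOn_Ioc_of_le ht.1).2 ?_
      have h1 : IntegrableOn (fun s => K * Real.sqrt B * (2 * (|Dv s| + |Du s|)))
          (Set.Ioc 0 T) volume := ((hDvi.abs.add hDui.abs).const_mul 2).const_mul _
      exact h1.mono_set hsub
    have hYi : IntervalIntegrable (fun s => c * Y s) volume 0 t := by
      refine IntervalIntegrable.const_mul ?_ c
      refine (intervalIntegrable_iff_integrableOn_Ioc_of_le ht.1).2 ?_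
      refine Measure.integrableOn_of_bounded (M := B) (by simp) hYm.aestronglyMeasurable ?_
      filter_upwards [ae_restrict_mem measurableSet_Ioc] with s hs
      have h4 : s ∈ Set.Icc 0 T := ⟨hs.1.le, hs.2.trans ht.2⟩
      rw [Real.norm_eq_abs, abs_of_nonneg (hY0 s h4)]
      exact hYB s h4
    have hfzt : ∀ n, IntervalIntegrable (fun s => fz g n (u s) (v s - u s)) volume 0 t :=
      fun n => (hfzi n).mono_set huI
    have l3 : Tendsto (fun n => ∫ s in (0 : ℝ)..t, fz g n (u s) (v s - u s)) atTop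
        (𝓝 (∫ s in (0 : ℝ)..t, (0 : ℝ))) := by
      refine intervalIntegral.tendsto_integral_filter_of_dominated_convergence
        (fun s => K * Real.sqrt B * (2 * (|Dv s| + |Du s|)))
        (Eventually.of_forall fun N => (intervalIntegrable_iff.1 (hfzt N)).aestronglyMeasurable)
        (Eventually.of_forall fun n => ?_) hDt ?_
      · filter_upwards [hmono hfz] with s hs hs2
        rw [Real.norm_eq_abs]
        exact (hs hs2).1 n
      · filter_upwards [hmono hfz] with s hs hs2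
        exact (hs hs2).2
    rw [intervalIntegral.integral_zero] at l3
    have l4 : Tendsto (fun n => (∫ s in (0 : ℝ)..t, c * Y s) +
        2 * ∫ s in (0 : ℝ)..t, fz g n (u s) (v s - u s)) atTop
        (𝓝 ((∫ s in (0 : ℝ)..t, c * Y s) + 2 * 0)) := tendsto_const_nhds.add (l3.const_mul 2)
    rw [mul_zero, add_zero] at l4
    rw [zero_add]
    refine hYle t ht _ fun k => ?_
    refine ge_of_tendsto l4 ?_
    filter_upwards [eventually_ge_atTop (2 * k)] with n hn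
    obtain ⟨hb1, hb2⟩ := hBAL hCVB hSQ hMSB g ν α T hg hT v u hV hu (ct n) (2 * n + 2)
    have hb3 := hb2 t ht
    have hq : ∀ (s : ℝ) (m : Wv), 0 ≤ ∑ j, ‖(v s - u s) m j‖ ^ 2 :=
      fun s m => Finset.sum_nonneg fun _ _ => sq_nonneg _
    have e0 : ∑ m ∈ cub (2 * n + 2), ct n m * ∑ j, ‖v 0 m j - u 0 m j‖ ^ 2 = 0 := by
      rw [h0]
      simp
    rw [e0, zero_add] at hb3
    have e1 : En 0 k (v t - u t) ≤
        ∑ m ∈ cub (2 * n + 2), ct n m * ∑ j, ‖v t m j - u t m j‖ ^ 2 := by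
      have h1 := (eeq_sq n (hq t)).1
      have h2 : En 0 k (v t - u t) = ∑ m ∈ cub k, ∑ j, ‖(v t - u t) m j‖ ^ 2 := by
        unfold En
        simp only [pow_zero, one_mul]
      have h3 : ∑ m ∈ cub k, ∑ j, ‖(v t - u t) m j‖ ^ 2 ≤
          ∑ m ∈ cub (n / 2), ∑ j, ‖(v t - u t) m j‖ ^ 2 :=
        eeq_mono (hq t) (by omega : k ≤ n / 2)
      rw [h2]
      exact h3.trans h1
    rw [hb3] at e1
    refine e1.trans ?_
    rw [← intervalIntegral.integral_const_mul, ← intervalIntegral.integral_add hYi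
      ((hfzt n).const_mul 2)]
    refine intervalIntegral.integral_mono_on ht.1 ?_ (hYi.add ((hfzt n).const_mul 2)) ?_
    · refine IntervalIntegrable.add (IntervalIntegrable.const_mul ?_ _)
        ((hb1.mono_set huI).const_mul 2)
      have h1 : ContinuousOn (fun s => ∑ m ∈ cub (2 * n + 2), ct n m *
          (nsq m ^ α * ∑ j, ‖v s m j - u s m j‖ ^ 2)) (Set.Icc 0 T) := by
        have h2 := wsu_En_cont hwc (cub (2 * n + 2)) fun m => ct n m * nsq m ^ α
        simp only [mul_assoc] at h2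
        exact h2
      exact (h1.mono hcc).intervalIntegrable_of_Icc ht.1
    · intro s hs
      have h4 : s ∈ Set.Icc 0 T := hcc hs
      have h5 := wsu_split g n (u s) (v s)
      have h6 := hfirst s h4 n
      have h7 : 0 ≤ ∑ m ∈ cub (2 * n + 2), ct n m *
          (nsq m ^ α * ∑ j, ‖v s m j - u s m j‖ ^ 2) :=
        Finset.sum_nonneg fun m _ => mul_nonneg (eeq_ct0 n m)
          (mul_nonneg (Real.rpow_nonneg (eeq_nsq m) α) (hq s m))
      rw [h5]
      have h8 : -2 * ν * ∑ m ∈ cub (2 * n + 2), ct n m *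
          (nsq m ^ α * ∑ j, ‖v s m j - u s m j‖ ^ 2) ≤ 0 := by
        have := mul_nonneg hν.le h7
        linarith
      rw [hc]
      linarith
  -- Gronwall
  have hgro := t_GRO T 0 B (fun _ => c) Y hT le_rfl (fun _ _ => hc0)
    (intervalIntegrable_const) hYm (fun s hs => ⟨hY0 s hs, hYB s hs⟩) hmain
  intro t ht
  have h1 := hgro t ht
  rw [zero_mul] at h1
  funext m j
  obtain ⟨N, hN⟩ := (cvb_mem m).exists
  have h2 := (hleY t ht N).trans h1
  have h3 : ‖(v t - u t) m j‖ ^ 2 ≤ En 0 N (v t - u t) := by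
    unfold En
    simp only [pow_zero, one_mul]
    refine le_trans ?_ (Finset.single_le_sum
      (f := fun k => ∑ i, ‖(v t - u t) k i‖ ^ 2)
      (fun _ _ => Finset.sum_nonneg fun _ _ => sq_nonneg _) hN)
    exact Finset.single_le_sum (f := fun i => ‖(v t - u t) m i‖ ^ 2)
      (fun _ _ => sq_nonneg _) (Finset.mem_univ j)
  have h4 : ‖(v t - u t) m j‖ ^ 2 = 0 := le_antisymm (h3.trans h2) (sq_nonneg _)
  have h5 : (v t - u t) m j = 0 := norm_eq_zero.1 (pow_eq_zero_iff (two_ne_zero)|>.1 h4)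
  rw [Pi.sub_apply, Pi.sub_apply, sub_eq_zero] at h5
  exact h5.symm

end Pool.Agent.N983.WK
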